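import Mathlib

/-!
Definitions: projective classes, uniformization, the product measure, codes.
-/

namespace Pool.Agent.Helper679_PU

open Set MeasureTheory
open scoped ENNReal

/-- Baire space -/
abbrev BS := ℕ → ℕ

/-- Cantor space -/
abbrev CS := ℕ → Bool

/-- The boldface projective classes: `Sig 0` are the open sets, and `Sig (n+1)` are the projections
along the Baire space of the complements of `Sig n` sets. So `Sig n`, `n ≥ 1`, is the class
`Σ¹ₙ`. -/
def Sig : ℕ → ∀ (X : Type) [TopologicalSpace X], Set X → Prop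
  | 0, _, _, A => IsOpen A
  | n + 1, X, _, A => ∃ B : Set (X × BS), Sig n (X × BS) Bᶜ ∧ A = Prod.fst '' B

/-- the pairing of reals -/
def join (x y : BS) : BS := fun n => if n % 2 = 0 then x (n / 2) else y (n / 2)

/-- left part -/
def lft (z : BS) : BS := fun n => z (2 * n)

/-- right part -/
def rgt (z : BS) : BS := fun n => z (2 * n + 1)

/-- the initial segment of length `n` -/
def seg (x : BS) (n : ℕ) : List ℕ := (List.range n).map x

/-- The lightface classes: `LSig 0` is `Σ⁰₁` (the sets whose members are recognised by a recursively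
enumerable set of initial segments); `LSig (n+1)` are the projections of the complements of
sets in `LSig n`. So `LSig n`, `n ≥ 1`, is the lightface class `Σ¹ₙ`. -/
def LSig : ℕ → Set BS → Prop
  | 0, A => ∃ R : List ℕ → Prop, REPred R ∧ ∀ x, x ∈ A ↔ ∃ n, R (seg x n)
  | n + 1, A => ∃ B : Set BS, LSig n Bᶜ ∧ ∀ x, x ∈ A ↔ ∃ y, join x y ∈ B

/-- `F` uniformizes `P` -/
def Uniformizes {X Y : Type} (F P : Set (X × Y)) : Prop :=
  F ⊆ P ∧ (∀ x y y', (x, y) ∈ F → (x, y') ∈ F → y = y') ∧ ∀ x y, (x, y) ∈ P → ∃ y', (x, y') ∈ F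

/-- the set of reals coding a relation: the joins of its pairs -/
def flat (P : Set (BS × BS)) : Set BS := {z | (lft z, rgt z) ∈ P}

/-- uniformization property of lightface `Π¹ₖ` -/
def LPiUnif (k : ℕ) : Prop :=
  ∀ P : Set (BS × BS), LSig k (flat P)ᶜ → ∃ F, LSig k (flat F)ᶜ ∧ Uniformizes F P

/-- uniformization property of boldface `Π¹ₖ`, on the Baire space -/
def PiUnif (k : ℕ) : Prop :=
  ∀ P : Set (BS × BS), Sig k (BS × BS) Pᶜ → ∃ F, Sig k (BS × BS) Fᶜ ∧ Uniformizes F P

/-- The geometric distribution on `ℕ`: the point `n` has mass `2^{-(n+1)}`. -/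
noncomputable def geo : Measure ℕ :=
  Measure.sum fun n : ℕ => ((2 : ℝ≥0∞)⁻¹ ^ (n + 1)) • Measure.dirac n

theorem geo_Ici (n : ℕ) : geo (Ici n) = (2 : ℝ≥0∞)⁻¹ ^ n := by
  unfold geo
  rw [Measure.sum_apply _ (MeasurableSet.of_discrete)]
  simp only [Measure.smul_apply, smul_eq_mul]
  rw [← ENNReal.summable.sum_add_tsum_nat_add' (k := n)]
  have h1 : ∑ i ∈ Finset.range n, (2 : ℝ≥0∞)⁻¹ ^ (i + 1) * (Measure.dirac i) (Ici n) = 0 := by
    refine Finset.sum_eq_zero fun i hi => ?_
    rw [Finset.mem_range] at hi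
    rw [Measure.dirac_apply' _ MeasurableSet.of_discrete]
    simp [hi]
  rw [h1, zero_add]
  have h2 : ∀ i : ℕ, (2 : ℝ≥0∞)⁻¹ ^ (i + n + 1) * (Measure.dirac (i + n)) (Ici n) =
      (2 : ℝ≥0∞)⁻¹ ^ n * (2 : ℝ≥0∞)⁻¹ ^ (i + 1) := by
    intro i
    rw [Measure.dirac_apply' _ MeasurableSet.of_discrete]
    simp only [mem_Ici, le_add_iff_nonneg_left, zero_le, indicator_of_mem, Pi.one_apply, mul_one]
    ring
  simp only [h2]
  rw [ENNReal.tsum_mul_left]
  have h3 : ∑' i : ℕ, (2 : ℝ≥0∞)⁻¹ ^ (i + 1) = 1 := by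
    simp only [pow_succ]
    rw [ENNReal.tsum_mul_right, ENNReal.tsum_geometric, ENNReal.one_sub_inv_two, inv_inv]
    exact ENNReal.mul_inv_cancel (by simp) (by simp)
  rw [h3, mul_one]

instance : IsProbabilityMeasure geo := by
  constructor
  have := geo_Ici 0
  simpa using this

/-- The standard product measure on the Baire space: the coordinates are independent, and each has
the geometric distribution. -/
noncomputable def bm : Measure BS := Measure.infinitePi fun _ : ℕ => geo

/-- the closed set coded by `c`, relative to the basis `B`: the complement of the union of the sets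
`B i` with `c i = true` -/
def clo {Z : Type} (B : ℕ → Set Z) (c : CS) : Set Z := {z | ∀ i, z ∈ B i → c i = false}

/-- the relation on the natural numbers coded by `w` -/
def RW (w : CS) (m n : ℕ) : Prop := w (Nat.pair m n) = true

open Classical in
/-- the rank of `n` in the relation coded by `w` (and `0` if it is not wellfounded) -/
noncomputable def rk (w : CS) (n : ℕ) : Ordinal.{0} :=
  if h : WellFounded (RW w) then @IsWellFounded.rank ℕ (RW w) ⟨h⟩ n else 0

end Pool.Agent.Helper679_PU
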