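import Mathlib
import Pool.Agent.Helper679_PU.Defs

/-!
Boldface projective classes in Polish spaces, and their closure properties.
-/

namespace Pool.Agent.Helper679_PU

open Set MeasureTheory

instance polishCS : PolishSpace (ℕ → Bool) := ⟨⟩

instance polishSeqCS : PolishSpace (ℕ → ℕ → Bool) := ⟨⟩

theorem sig_zero {X : Type} [TopologicalSpace X] {A : Set X} : Sig 0 X A ↔ IsOpen A := Iff.rfl

theorem sig_succ {n : ℕ} {X : Type} [TopologicalSpace X] {A : Set X} :
    Sig (n + 1) X A ↔ ∃ B : Set (X × BS), Sig n (X × BS) Bᶜ ∧ A = Prod.fst '' B := Iff.rfl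

theorem Sig.preimage {n : ℕ} {X Y : Type} [TopologicalSpace X] [TopologicalSpace Y] {f : X → Y}
    (hf : Continuous f) {A : Set Y} (hA : Sig n Y A) : Sig n X (f ⁻¹' A) := by
  induction n generalizing X Y with
  | zero => exact IsOpen.preimage hf hA
  | succ n ih =>
    obtain ⟨B, hB, rfl⟩ := hA
    refine ⟨(fun p : X × BS => (f p.1, p.2)) ⁻¹' B, ?_, ?_⟩
    · exact ih (f := fun p : X × BS => (f p.1, p.2)) (by fun_prop) hB
    · ext x
      simp only [mem_preimage, mem_image, Prod.exists, exists_and_right, exists_eq_right]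

/-- complements of `Sig n` sets are `Sig (n+1)` -/
theorem Sig.compl_succ {n : ℕ} {X : Type} [TopologicalSpace X] {A : Set X} (hA : Sig n X Aᶜ) :
    Sig (n + 1) X A := by
  refine ⟨Prod.fst ⁻¹' A, ?_, ?_⟩
  · have := Sig.preimage (f := (Prod.fst : X × BS → X)) continuous_fst hA
    simpa using this
  · ext x; simp

/-- gluing along a continuous map to the naturals -/
theorem Sig.glue {n : ℕ} {X : Type} [TopologicalSpace X] {p : X → ℕ} (hp : Continuous p)
    {D : ℕ → Set X} (hD : ∀ k, Sig n X (D k)) : Sig n X {x | x ∈ D (p x)} := by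
  induction n generalizing X with
  | zero =>
    have : {x | x ∈ D (p x)} = ⋃ k, (p ⁻¹' {k} ∩ D k) := by
      ext x; simp
    rw [this]
    exact isOpen_iUnion fun k => ((isOpen_discrete {k}).preimage hp).inter (hD k)
  | succ n ih =>
    choose B hB hBD using hD
    refine ⟨{q | q ∈ B (p q.1)}, ?_, ?_⟩
    · have h1 := ih (X := X × BS) (p := fun q => p q.1) (by fun_prop) (D := fun k => (B k)ᶜ) hB
      exact h1
    · ext x
      simp only [hBD, mem_ofPred_eq, mem_image, Prod.exists, exists_and_right, exists_eq_right]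

theorem Sig.iUnion {n : ℕ} {X : Type} [TopologicalSpace X] {A : ℕ → Set X}
    (hA : ∀ k, Sig n X (A k)) : Sig n X (⋃ k, A k) := by
  cases n with
  | zero => exact isOpen_iUnion hA
  | succ n =>
    choose B hB hBA using hA
    refine ⟨{q | (q.1, fun i => q.2 (i + 1)) ∈ B (q.2 0)}, ?_, ?_⟩
    · have h1 := Sig.glue (n := n) (X := X × BS) (p := fun q => q.2 0) (by fun_prop)
        (D := fun k => (fun q : X × BS => (q.1, fun i => q.2 (i + 1))) ⁻¹' (B k)ᶜ)
        (fun k => Sig.preimage (by fun_prop) (hB k))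
      exact h1
    · ext x
      simp only [hBA, mem_iUnion, mem_ofPred_eq, mem_image, Prod.exists, exists_and_right,
        exists_eq_right]
      constructor
      · rintro ⟨k, y, hy⟩
        exact ⟨fun i => Nat.casesOn i k y, hy⟩
      · rintro ⟨y, hy⟩
        exact ⟨_, _, hy⟩

theorem Sig.iInter {n : ℕ} {X : Type} [TopologicalSpace X] {A : ℕ → Set X}
    (hA : ∀ k, Sig (n + 1) X (A k)) : Sig (n + 1) X (⋂ k, A k) := by
  choose B hB hBA using hA
  refine ⟨⋂ k, {q | (q.1, fun i => q.2 (Nat.pair k i)) ∈ B k}, ?_, ?_⟩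
  · rw [compl_iInter]
    refine Sig.iUnion fun k => ?_
    exact Sig.preimage (f := fun q : X × BS => (q.1, fun i => q.2 (Nat.pair k i)))
      (by fun_prop) (hB k)
  · ext x
    simp only [hBA, mem_iInter, mem_ofPred_eq, mem_image, Prod.exists, exists_and_right,
      exists_eq_right]
    constructor
    · intro h
      choose y hy using h
      refine ⟨fun m => y m.unpair.1 m.unpair.2, fun k => ?_⟩
      simpa using hy k
    · rintro ⟨y, hy⟩ k
      exact ⟨_, hy k⟩

theorem sig_empty {n : ℕ} {X : Type} [TopologicalSpace X] : Sig n X ∅ ∧ Sig n X univ := by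
  induction n generalizing X with
  | zero => exact ⟨isOpen_empty, isOpen_univ⟩
  | succ n ih =>
    refine ⟨Sig.compl_succ ?_, Sig.compl_succ ?_⟩
    · rw [compl_empty]; exact ih.2
    · rw [compl_univ]; exact ih.1

theorem Sig.union {n : ℕ} {X : Type} [TopologicalSpace X] {A B : Set X}
    (hA : Sig n X A) (hB : Sig n X B) : Sig n X (A ∪ B) := by
  have : A ∪ B = ⋃ k : ℕ, (if k = 0 then A else B) := by
    ext x
    simp only [mem_union, mem_iUnion]
    constructor
    · rintro (h | h)
      · exact ⟨0, by simpa using h⟩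
      · exact ⟨1, by simpa using h⟩
    · rintro ⟨k, hk⟩
      split_ifs at hk
      · exact Or.inl hk
      · exact Or.inr hk
  rw [this]
  refine Sig.iUnion fun k => ?_
  split_ifs <;> assumption

theorem Sig.inter {n : ℕ} {X : Type} [TopologicalSpace X] {A B : Set X}
    (hA : Sig (n + 1) X A) (hB : Sig (n + 1) X B) : Sig (n + 1) X (A ∩ B) := by
  have : A ∩ B = ⋂ k : ℕ, (if k = 0 then A else B) := by
    ext x
    simp only [mem_inter_iff, mem_iInter]
    constructor
    · rintro ⟨h1, h2⟩ k
      split_ifs <;> assumption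
    · intro h
      exact ⟨by simpa using h 0, by simpa using h 1⟩
  rw [this]
  refine Sig.iInter fun k => ?_
  split_ifs <;> assumption

theorem Sig.inter0 {n : ℕ} {X : Type} [TopologicalSpace X] {A B : Set X}
    (hA : Sig n X A) (hB : Sig n X B) : Sig n X (A ∩ B) := by
  cases n with
  | zero => exact IsOpen.inter hA hB
  | succ n => exact hA.inter hB

/-- union over a countable type -/
theorem Sig.iUnionC {n : ℕ} {X : Type} [TopologicalSpace X] {ι : Sort*} [Countable ι]
    {A : ι → Set X} (hA : ∀ k, Sig n X (A k)) : Sig n X (⋃ k, A k) := by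
  rcases isEmpty_or_nonempty ι with h | h
  · rw [iUnion_of_empty]; exact sig_empty.1
  · obtain ⟨f, hf⟩ := exists_surjective_nat ι
    rw [← hf.iUnion_comp]
    exact Sig.iUnion fun k => hA _

theorem Sig.iInterC {n : ℕ} {X : Type} [TopologicalSpace X] {ι : Sort*} [Countable ι]
    {A : ι → Set X} (hA : ∀ k, Sig (n + 1) X (A k)) : Sig (n + 1) X (⋂ k, A k) := by
  rcases isEmpty_or_nonempty ι with h | h
  · rw [iInter_of_empty]; exact sig_empty.2
  · obtain ⟨f, hf⟩ := exists_surjective_nat ι
    rw [← hf.iInter_comp]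
    exact Sig.iInter fun k => hA _

/-- open sets are `Sig 1` -/
theorem sig_one_of_open {X : Type} [TopologicalSpace X] [PolishSpace X] {A : Set X}
    (hA : IsOpen A) : Sig 1 X A := by
  let _ := TopologicalSpace.upgradeIsCompletelyMetrizable X
  obtain ⟨F, hF, -, hU, -⟩ := hA.exists_iUnion_isClosed
  rw [← hU]
  refine Sig.iUnion fun k => Sig.compl_succ ?_
  exact (hF k).isOpen_compl

theorem Sig.mono_succ {n : ℕ} {X : Type} [TopologicalSpace X] [PolishSpace X] {A : Set X}
    (hA : Sig n X A) : Sig (n + 1) X A := by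
  induction n generalizing X with
  | zero => exact sig_one_of_open hA
  | succ n ih =>
    obtain ⟨B, hB, rfl⟩ := hA
    exact ⟨B, ih hB, rfl⟩

theorem Sig.mono {m n : ℕ} (h : m ≤ n) {X : Type} [TopologicalSpace X] [PolishSpace X] {A : Set X}
    (hA : Sig m X A) : Sig n X A := by
  induction n, h using Nat.le_induction with
  | base => exact hA
  | succ n _ ih => exact ih.mono_succ

theorem Sig.compl_mono {m n : ℕ} (h : m < n) {X : Type} [TopologicalSpace X] [PolishSpace X]
    {A : Set X} (hA : Sig m X A) : Sig n X Aᶜ := by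
  have h1 : Sig (m + 1) X Aᶜ := Sig.compl_succ (by simpa using hA)
  exact h1.mono h

/-- projections along the Baire space -/
theorem Sig.proj {n : ℕ} {X : Type} [TopologicalSpace X] {A : Set (X × BS)}
    (hA : Sig (n + 1) (X × BS) A) : Sig (n + 1) X (Prod.fst '' A) := by
  obtain ⟨B, hB, rfl⟩ := hA
  refine ⟨{q | ((q.1, fun i => q.2 (2 * i)), fun i => q.2 (2 * i + 1)) ∈ B}, ?_, ?_⟩
  · exact Sig.preimage (f := fun q : X × BS =>
      (((q.1, fun i => q.2 (2 * i)), fun i => q.2 (2 * i + 1)) : (X × BS) × BS))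
      (by fun_prop) hB
  · ext x
    simp only [mem_image, Prod.exists, exists_and_right, exists_eq_right, mem_ofPred_eq]
    constructor
    · rintro ⟨y, z, h⟩
      refine ⟨fun m => if m % 2 = 0 then y (m / 2) else z (m / 2), ?_⟩
      have h1 : (fun i => if 2 * i % 2 = 0 then y (2 * i / 2) else z (2 * i / 2)) = y := by
        funext i
        simp
      have h2 : (fun i => if (2 * i + 1) % 2 = 0 then y ((2 * i + 1) / 2)
          else z ((2 * i + 1) / 2)) = z := by
        funext i
        have e1 : (2 * i + 1) % 2 = 1 := by omega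
        have e2 : (2 * i + 1) / 2 = i := by omega
        simp [e1, e2]
      rw [h1, h2]
      exact h
    · rintro ⟨y, h⟩
      exact ⟨_, _, h⟩

/-- projections along a Polish space -/
theorem Sig.projP {n : ℕ} {X Z : Type} [TopologicalSpace X] [TopologicalSpace Z] [PolishSpace Z]
    {A : Set (X × Z)} (hA : Sig (n + 1) (X × Z) A) : Sig (n + 1) X {x | ∃ z, (x, z) ∈ A} := by
  rcases isEmpty_or_nonempty Z with h | h
  · have : {x | ∃ z, (x, z) ∈ A} = ∅ := by
      ext x
      simp only [mem_ofPred_eq, mem_empty_iff_false, iff_false, not_exists]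
      intro z; exact isEmptyElim z
    rw [this]; exact sig_empty.1
  · obtain ⟨f, hf, hs⟩ := PolishSpace.exists_nat_nat_continuous_surjective Z
    have h1 := Sig.proj (Sig.preimage (f := fun q : X × BS => (q.1, f q.2)) (by fun_prop) hA)
    convert h1 using 1
    ext x
    simp only [mem_ofPred_eq, mem_image, mem_preimage, Prod.exists, exists_and_right,
      exists_eq_right]
    constructor
    · rintro ⟨z, hz⟩
      obtain ⟨y, rfl⟩ := hs z
      exact ⟨y, hz⟩
    · rintro ⟨y, hy⟩
      exact ⟨_, hy⟩

/-- universal quantifier: `Πₙ` sets are closed under universal quantification -/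
theorem Sig.all_compl {n : ℕ} {X Z : Type} [TopologicalSpace X] [TopologicalSpace Z]
    [PolishSpace Z] {A : Set (X × Z)} (hA : Sig (n + 1) (X × Z) Aᶜ) :
    Sig (n + 1) X {x | ∀ z, (x, z) ∈ A}ᶜ := by
  have := Sig.projP hA
  convert this using 1
  ext x; simp

/-- Borel sets are `Sig 1` -/
theorem sig_one_of_measurable {X : Type} [TopologicalSpace X] [PolishSpace X]
    [MeasurableSpace X] [BorelSpace X] {A : Set X} (hA : MeasurableSet A) :
    Sig 1 X A ∧ Sig 1 X Aᶜ := by
  induction A, hA using MeasurableSet.induction_on_open with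
  | isOpen U hU =>
    exact ⟨sig_one_of_open hU, Sig.compl_succ (by rw [compl_compl]; exact hU)⟩
  | compl s _ ih => exact ⟨ih.2, by simpa using ih.1⟩
  | iUnion f _ _ ih =>
    refine ⟨Sig.iUnion fun k => (ih k).1, ?_⟩
    rw [compl_iUnion]
    exact Sig.iInter fun k => (ih k).2

theorem sig_of_measurable {n : ℕ} (hn : 1 ≤ n) {X : Type} [TopologicalSpace X] [PolishSpace X]
    [MeasurableSpace X] [BorelSpace X] {A : Set X} (hA : MeasurableSet A) : Sig n X A :=
  (sig_one_of_measurable hA).1.mono hn

/-- Borel preimages -/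
theorem Sig.preimage_borel {n : ℕ} {X Y : Type} [TopologicalSpace X] [PolishSpace X]
    [MeasurableSpace X] [BorelSpace X] [TopologicalSpace Y] [PolishSpace Y]
    [MeasurableSpace Y] [BorelSpace Y] {f : X → Y}
    (hf : Measurable f) {A : Set Y} (hA : Sig (n + 1) Y A) : Sig (n + 1) X (f ⁻¹' A) := by
  have h1 : Sig (n + 1) (X × Y) {q | f q.1 = q.2} := by
    refine sig_of_measurable (by omega) ?_
    exact measurableSet_eq_fun (hf.comp measurable_fst) measurable_snd
  have h2 : Sig (n + 1) (X × Y) (Prod.snd ⁻¹' A) := hA.preimage continuous_snd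
  have h3 := Sig.projP (h1.inter h2)
  convert h3 using 1
  ext x; simp

end Pool.Agent.Helper679_PU
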