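import Mathlib
import Pool.Agent.Helper679_PU.Proj
import Pool.Agent.Helper446.RE

/-!
Lightface projective classes of sets of reals, and their connection with the boldface classes.
-/

namespace Pool.Agent.Helper679_PU

open Set MeasureTheory

@[simp] theorem lft_join (x y : BS) : lft (join x y) = x := by
  funext n; simp [lft, join]

@[simp] theorem rgt_join (x y : BS) : rgt (join x y) = y := by
  funext n
  have e1 : (2 * n + 1) % 2 = 1 := by omega
  have e2 : (2 * n + 1) / 2 = n := by omega
  simp [rgt, join, e1, e2]

@[simp] theorem join_lft_rgt (z : BS) : join (lft z) (rgt z) = z := by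
  funext n
  unfold join lft rgt
  split_ifs with h
  · congr 1; omega
  · congr 1; omega

theorem continuous_lft : Continuous lft := by unfold lft; fun_prop

theorem continuous_rgt : Continuous rgt := by unfold rgt; fun_prop

theorem continuous_join : Continuous (fun q : BS × BS => join q.1 q.2) := by
  unfold join
  refine continuous_pi fun n => ?_
  split_ifs <;> fun_prop

theorem seg_eq_ofFn (x : BS) (n : ℕ) : seg x n = List.ofFn (fun i : Fin n => x i) := by
  unfold seg
  apply List.ext_getElem
  · simp
  · intro i h1 h2; simp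

theorem seg_length (x : BS) (n : ℕ) : (seg x n).length = n := by simp [seg]

theorem seg_getElem? (x : BS) (n i : ℕ) (h : i < n) : (seg x n)[i]? = some (x i) := by
  simp [seg, h]

theorem seg_getElem?_some {x : BS} {n i v : ℕ} (h : (seg x n)[i]? = some v) : x i = v := by
  by_cases hi : i < n
  · rw [seg_getElem? x n i hi] at h
    exact Option.some.inj h
  · rw [List.getElem?_eq_none (by rw [seg_length]; omega)] at h
    exact absurd h (by simp)

theorem continuous_seg (n : ℕ) : @Continuous BS (List ℕ) _ ⊥ (fun x => seg x n) := by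
  let _ : TopologicalSpace (List ℕ) := ⊥
  have : DiscreteTopology (List ℕ) := ⟨rfl⟩
  have h1 : Continuous (fun x : BS => fun i : Fin n => x i) := by fun_prop
  have h2 : Continuous (fun g : Fin n → ℕ => List.ofFn g) := continuous_of_discreteTopology
  have : (fun x : BS => seg x n) = (fun g : Fin n → ℕ => List.ofFn g) ∘
      (fun x : BS => fun i : Fin n => x i) := by
    funext x; simp [seg_eq_ofFn]
  rw [this]
  exact h2.comp h1

theorem isOpen_seg (R : List ℕ → Prop) (n : ℕ) : IsOpen {x : BS | R (seg x n)} := by
  let _ : TopologicalSpace (List ℕ) := ⊥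
  have : DiscreteTopology (List ℕ) := ⟨rfl⟩
  exact (isOpen_discrete {l | R l}).preimage (continuous_seg n)

/-- lightface sets are boldface -/
theorem LSig.sig {n : ℕ} {A : Set BS} (hA : LSig n A) : Sig n BS A := by
  induction n generalizing A with
  | zero =>
    obtain ⟨R, -, hR⟩ := hA
    have : A = ⋃ n, {x : BS | R (seg x n)} := by
      ext x; rw [hR]; simp
    rw [this]
    exact isOpen_iUnion fun n => isOpen_seg R n
  | succ n ih =>
    obtain ⟨B, hB, hAB⟩ := hA
    refine ⟨(fun q : BS × BS => join q.1 q.2) ⁻¹' B, ?_, ?_⟩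
    · exact Sig.preimage (f := fun q : BS × BS => join q.1 q.2) continuous_join (ih hB)
    · ext x; rw [hAB]; simp

/-- r.e. relation: the first entries of `l'` are the entries of `l` at the places `σ i` -/
theorem re_pick {σ : ℕ → ℕ} (hσ : Primrec σ) {R : List ℕ → Prop} (hR : REPred R) :
    REPred fun l : List ℕ => ∃ l' : List ℕ, R l' ∧
      (List.range l'.length).map (fun i => l[σ i]?) = l'.map some := by
  refine Helper446.RE.ex (p := fun (l l' : List ℕ) => R l' ∧
      (List.range l'.length).map (fun i => l[σ i]?) = l'.map some) ?_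
  refine Helper446.RE.and (Helper446.RE.comp hR Computable.snd) ?_
  refine Helper446.RE.eq ?_ ?_
  · refine Primrec.to_comp ?_
    refine Primrec.list_map ?_ ?_
    · exact Primrec.list_range.comp (Primrec.list_length.comp Primrec.snd)
    · exact Primrec.list_getElem?.comp (Primrec.fst.comp Primrec.fst) (hσ.comp Primrec.snd)
  · refine Primrec.to_comp ?_
    exact Primrec.list_map Primrec.snd (Primrec.option_some.comp Primrec.snd)

theorem pick_spec {σ : ℕ → ℕ} {v : BS} {n : ℕ} {l' : List ℕ}
    (h : (List.range l'.length).map (fun i => (seg v n)[σ i]?) = l'.map some) :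
    l' = seg (fun i => v (σ i)) l'.length := by
  apply List.ext_getElem
  · simp [seg_length]
  · intro i h1 h2
    have h3 : ((List.range l'.length).map (fun i => (seg v n)[σ i]?))[i]? =
        (l'.map some)[i]? := by rw [h]
    simp only [List.getElem?_map, List.getElem?_range h1, Option.map_some] at h3
    rw [List.getElem?_eq_getElem h1] at h3
    simp only [Option.map_some, Option.some.injEq] at h3
    have h4 := seg_getElem?_some h3
    simp [seg, h4]

theorem exists_pick (σ : ℕ → ℕ) (v : BS) (m : ℕ) :
    ∃ n0, ∀ n ≥ n0, (List.range (seg (fun i => v (σ i)) m).length).map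
      (fun i => (seg v n)[σ i]?) = (seg (fun i => v (σ i)) m).map some := by
  refine ⟨((List.range m).map (fun i => σ i + 1)).sum, fun n hn => ?_⟩
  rw [seg_length]
  unfold seg
  rw [List.map_map]
  refine List.map_congr_left fun i hi => ?_
  have h1 : σ i + 1 ≤ ((List.range m).map (fun i => σ i + 1)).sum :=
    List.le_sum_of_mem (List.mem_map.2 ⟨i, hi, rfl⟩)
  have h2 : σ i < n := by omega
  simp [h2]

theorem LSig.reindex {n : ℕ} {A : Set BS} (hA : LSig n A) {σ : ℕ → ℕ} (hσ : Primrec σ) :
    LSig n {v | (fun i => v (σ i)) ∈ A} := by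
  induction n generalizing A σ with
  | zero =>
    obtain ⟨R, hR, hAR⟩ := hA
    refine ⟨_, re_pick hσ hR, fun v => ?_⟩
    rw [mem_ofPred_eq, hAR]
    constructor
    · rintro ⟨m, hm⟩
      obtain ⟨n0, h0⟩ := exists_pick σ v m
      exact ⟨n0, _, hm, h0 n0 le_rfl⟩
    · rintro ⟨n, l', hl', h⟩
      refine ⟨l'.length, ?_⟩
      rw [← pick_spec h]
      exact hl'
  | succ n ih =>
    obtain ⟨B, hB, hAB⟩ := hA
    set τ : ℕ → ℕ := fun k => if k % 2 = 0 then 2 * σ (k / 2) else k with hτ
    have hτp : Primrec τ := by
      refine Primrec.ite ?_ ?_ Primrec.id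
      · exact Primrec.eq.comp (Primrec.nat_mod.comp Primrec.id (Primrec.const 2))
          (Primrec.const 0)
      · exact Primrec.nat_mul.comp (Primrec.const 2)
          (hσ.comp (Primrec.nat_div.comp Primrec.id (Primrec.const 2)))
    refine ⟨{v | (fun i => v (τ i)) ∈ B}, ?_, ?_⟩
    · exact ih (A := Bᶜ) hB hτp
    · intro v
      rw [mem_ofPred_eq, hAB]
      have key : ∀ y : BS, join (fun i => v (σ i)) y = fun i => join v y (τ i) := by
        intro y
        funext i
        by_cases h : i % 2 = 0
        · simp [join, hτ, h]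
        · have h' : i % 2 = 1 := by omega
          simp [join, hτ, h']
      constructor
      · rintro ⟨y, hy⟩
        refine ⟨y, ?_⟩
        rw [mem_ofPred_eq, ← key]
        exact hy
      · rintro ⟨y, hy⟩
        refine ⟨y, ?_⟩
        rw [mem_ofPred_eq, ← key] at hy
        exact hy

/-- an open set is a section of a lightface `Σ⁰₁` set -/
theorem open_light {A : Set BS} (hA : IsOpen A) :
    ∃ (p : BS) (A' : Set BS), LSig 0 A' ∧ ∀ x, x ∈ A ↔ join p x ∈ A' := by
  classical
  set p : BS := fun k => if ∀ x : BS, (∀ s : List ℕ, Encodable.encode s = k →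
      s = seg x s.length) → (∃ s : List ℕ, Encodable.encode s = k) → x ∈ A then 1 else 0 with hp
  have hR : REPred fun l : List ℕ => ∃ s : List ℕ,
      ((List.range s.length).map (fun i => l[2 * i + 1]?) = s.map some) ∧
      ∃ v : ℕ, l[2 * Encodable.encode s]? = some (v + 1) := by
    refine Helper446.RE.ex (p := fun (l s : List ℕ) =>
      ((List.range s.length).map (fun i => l[2 * i + 1]?) = s.map some) ∧
      ∃ v : ℕ, l[2 * Encodable.encode s]? = some (v + 1)) ?_
    refine Helper446.RE.and ?_ ?_
    · refine Helper446.RE.eq ?_ ?_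
      · refine Primrec.to_comp ?_
        refine Primrec.list_map ?_ ?_
        · exact Primrec.list_range.comp (Primrec.list_length.comp Primrec.snd)
        · refine Primrec.list_getElem?.comp (Primrec.fst.comp Primrec.fst) ?_
          exact (Primrec.succ.comp (Primrec.nat_mul.comp (Primrec.const 2) Primrec.snd))
      · refine Primrec.to_comp ?_
        exact Primrec.list_map Primrec.snd (Primrec.option_some.comp Primrec.snd)
    · refine Helper446.RE.ex (p := fun (x : List ℕ × List ℕ) (v : ℕ) =>
        x.1[2 * Encodable.encode x.2]? = some (v + 1)) ?_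
      refine Helper446.RE.eq ?_ ?_
      · refine Primrec.to_comp ?_
        refine Primrec.list_getElem?.comp (Primrec.fst.comp Primrec.fst) ?_
        exact Primrec.nat_mul.comp (Primrec.const 2)
          (Primrec.encode.comp (Primrec.snd.comp Primrec.fst))
      · exact (Primrec.option_some.comp (Primrec.succ.comp Primrec.snd)).to_comp
  refine ⟨p, {w | ∃ n, (fun l : List ℕ => ∃ s : List ℕ,
      ((List.range s.length).map (fun i => l[2 * i + 1]?) = s.map some) ∧
      ∃ v : ℕ, l[2 * Encodable.encode s]? = some (v + 1)) (seg w n)},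
      ⟨_, hR, fun x => Iff.rfl⟩, fun x => ?_⟩
  rw [mem_ofPred_eq]
  constructor
  · intro hx
    -- a basic neighbourhood
    obtain ⟨n, hn⟩ : ∃ n, ∀ y : BS, seg y n = seg x n → y ∈ A := by
      rw [isOpen_pi_iff] at hA
      obtain ⟨I, u, hu, hI⟩ := hA x hx
      refine ⟨I.sup id + 1, fun y hy => hI ?_⟩
      intro i hi
      have hi' : i < I.sup id + 1 := Nat.lt_succ_of_le (Finset.le_sup (f := id) hi)
      have h1 : (seg y (I.sup id + 1))[i]? = (seg x (I.sup id + 1))[i]? := by rw [hy]
      rw [seg_getElem? _ _ _ hi', seg_getElem? _ _ _ hi'] at h1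
      rw [Option.some.inj h1]
      exact (hu i hi).2
    have hpn : p (Encodable.encode (seg x n)) = 1 := by
      rw [hp]
      simp only
      rw [if_pos]
      intro y hy _
      have := hy (seg x n) rfl
      rw [seg_length] at this
      exact hn y this.symm
    obtain ⟨n0, h0⟩ := exists_pick (fun i => 2 * i + 1) (join p x) n
    have hr : (fun i => join p x (2 * i + 1)) = x := by
      have := rgt_join p x
      exact this
    rw [hr] at h0
    refine ⟨n0 + (2 * Encodable.encode (seg x n) + 1), seg x n, h0 _ (by omega), 0, ?_⟩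
    rw [seg_getElem? _ _ _ (by omega)]
    have hl : join p x (2 * Encodable.encode (seg x n)) = p (Encodable.encode (seg x n)) := by
      have := congrFun (lft_join p x) (Encodable.encode (seg x n))
      exact this
    rw [hl, hpn]
  · rintro ⟨n, s, hs, v, hv⟩
    have h1 := pick_spec hs
    have hr : (fun i => join p x (2 * i + 1)) = x := rgt_join p x
    rw [hr] at h1
    have h2 := seg_getElem?_some hv
    have hl : join p x (2 * Encodable.encode s) = p (Encodable.encode s) :=
      congrFun (lft_join p x) (Encodable.encode s)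
    rw [hl, hp] at h2
    simp only at h2
    split_ifs at h2 with h3
    · refine h3 x ?_ ⟨s, rfl⟩
      intro s' hs'
      have : s' = s := Encodable.encode_injective hs'
      rw [this]; exact h1

/-- a boldface set of reals is a section of a lightface set -/
theorem Sig.light {n : ℕ} {A : Set BS} (hA : Sig n BS A) :
    ∃ (p : BS) (A' : Set BS), LSig n A' ∧ ∀ x, x ∈ A ↔ join p x ∈ A' := by
  induction n generalizing A with
  | zero => exact open_light hA
  | succ n ih =>
    obtain ⟨B, hB, rfl⟩ := hA
    obtain ⟨p, A'', hA'', h⟩ := ih (A := (fun z => (lft z, rgt z)) ⁻¹' Bᶜ)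
      (hB.preimage (continuous_lft.prodMk continuous_rgt))
    -- `join (join p x) y ↦ join p (join x y)`
    set τ : ℕ → ℕ := fun k => if k % 2 = 0 then 2 * k else
      (if (k / 2) % 2 = 0 then 2 * (2 * (k / 2 / 2) + 1) else 2 * (k / 2 / 2) + 1) with hτ
    have hτp : Primrec τ := by
      have hdiv : Primrec fun k : ℕ => k / 2 := Primrec.nat_div.comp Primrec.id (Primrec.const 2)
      have hmod : Primrec fun k : ℕ => k % 2 := Primrec.nat_mod.comp Primrec.id (Primrec.const 2)
      have hdbl : Primrec fun k : ℕ => 2 * k := Primrec.nat_mul.comp (Primrec.const 2) Primrec.id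
      refine Primrec.ite (Primrec.eq.comp hmod (Primrec.const 0)) hdbl ?_
      refine Primrec.ite (Primrec.eq.comp (hmod.comp hdiv) (Primrec.const 0)) ?_ ?_
      · exact hdbl.comp (Primrec.succ.comp (hdbl.comp (hdiv.comp hdiv)))
      · exact Primrec.succ.comp (hdbl.comp (hdiv.comp hdiv))
    have key : ∀ x y : BS, (fun i => join (join p x) y (τ i)) = join p (join x y) := by
      intro x y
      funext i
      by_cases h1 : i % 2 = 0
      · have e1 : 2 * i % 2 = 0 := by omega
        have e2 : 2 * i / 2 = i := by omega
        simp [join, hτ, h1, e2]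
      · by_cases h2 : (i / 2) % 2 = 0
        · have e1 : 2 * (2 * (i / 2 / 2) + 1) % 2 = 0 := by omega
          have e2 : 2 * (2 * (i / 2 / 2) + 1) / 2 = 2 * (i / 2 / 2) + 1 := by omega
          have e3 : (2 * (i / 2 / 2) + 1) % 2 = 1 := by omega
          have e4 : (2 * (i / 2 / 2) + 1) / 2 = i / 2 / 2 := by omega
          simp [join, hτ, h1, h2, e2, e3, e4]
        · have e1 : (2 * (i / 2 / 2) + 1) % 2 = 1 := by omega
          have e2 : (2 * (i / 2 / 2) + 1) / 2 = i / 2 / 2 := by omega
          simp [join, hτ, h1, h2, e1, e2]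
    refine ⟨p, {w | ∃ y, join w y ∈ {v | (fun i => v (τ i)) ∈ A''}ᶜ}, ⟨_, ?_, fun x => Iff.rfl⟩, ?_⟩
    · rw [compl_compl]
      exact hA''.reindex hτp
    · intro x
      have h3 : ∀ y, (x, y) ∈ B ↔ join p (join x y) ∉ A'' := by
        intro y
        rw [← h]
        simp
      simp only [mem_image, Prod.exists, exists_and_right, exists_eq_right, mem_ofPred_eq,
        mem_compl_iff, key, h3]

end Pool.Agent.Helper679_PU
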