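import Mathlib
import Pool.Agent.Helper679_PU.Light

/-!
Uniformization for the boldface classes, from uniformization for the lightface classes.
-/

namespace Pool.Agent.Helper679_PU

open Set MeasureTheory

theorem LPiUnif.bold {k : ℕ} (h : LPiUnif k) : PiUnif k := by
  intro P hP
  obtain ⟨p, A', hA', hpA⟩ := Sig.light (n := k) (A := flat Pᶜ)
    (Sig.preimage (f := fun z => (lft z, rgt z)) (continuous_lft.prodMk continuous_rgt) hP)
  -- the relation with the parameter
  set P' : Set (BS × BS) := {q | join (lft q.1) (join (rgt q.1) q.2) ∉ A'} with hP'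
  set τ : ℕ → ℕ := fun k => if k % 2 = 0 then 2 * k else
      (if (k / 2) % 2 = 0 then 2 * (2 * (k / 2 / 2) + 1) else 2 * (k / 2 / 2) + 1) with hτ
  have hτp : Primrec τ := by
    have hdiv : Primrec fun k : ℕ => k / 2 := Primrec.nat_div.comp Primrec.id (Primrec.const 2)
    have hmod : Primrec fun k : ℕ => k % 2 := Primrec.nat_mod.comp Primrec.id (Primrec.const 2)
    have hdbl : Primrec fun k : ℕ => 2 * k := Primrec.nat_mul.comp (Primrec.const 2) Primrec.id
    refine Primrec.ite (Primrec.eq.comp hmod (Primrec.const 0)) hdbl ?_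
    refine Primrec.ite (Primrec.eq.comp (hmod.comp hdiv) (Primrec.const 0)) ?_ ?_
    · exact hdbl.comp (Primrec.succ.comp (hdbl.comp (hdiv.comp hdiv)))
    · exact Primrec.succ.comp (hdbl.comp (hdiv.comp hdiv))
  have key : ∀ z : BS, join (lft (lft z)) (join (rgt (lft z)) (rgt z)) = fun i => z (τ i) := by
    intro z
    funext i
    by_cases h1 : i % 2 = 0
    · simp only [join, lft, rgt, hτ, h1, if_true]
      congr 1; omega
    · by_cases h2 : (i / 2) % 2 = 0
      · simp [join, lft, rgt, hτ, h1, h2]
      · simp [join, rgt, hτ, h1, h2]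
  obtain ⟨F', hF', hsub, hfun, hdom⟩ := h P' (by
    have : (flat P')ᶜ = {z | (fun i => z (τ i)) ∈ A'} := by
      ext z
      simp only [flat, hP', mem_compl_iff, mem_ofPred_eq, not_not, key]
    rw [this]
    exact hA'.reindex hτp)
  have hPP : ∀ x y, (join p x, y) ∈ P' ↔ (x, y) ∈ P := by
    intro x y
    rw [hP', mem_ofPred_eq]
    simp only [lft_join, rgt_join]
    rw [← hpA]
    simp [flat]
  refine ⟨{q | (join p q.1, q.2) ∈ F'}, ?_, ?_, ?_, ?_⟩
  · have h1 : Sig k BS (flat F')ᶜ := hF'.sig
    have h2 := Sig.preimage (f := fun q : BS × BS => join (join p q.1) q.2) ?_ h1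
    · convert h2 using 1
      ext q
      simp [flat]
    · have h3 : Continuous (fun q : BS × BS => (join p q.1, q.2)) :=
        (continuous_join.comp (continuous_const.prodMk continuous_fst)).prodMk continuous_snd
      exact continuous_join.comp h3
  · intro q hq
    exact (hPP q.1 q.2).1 (hsub hq)
  · intro x y y' h1 h2
    exact hfun _ _ _ h1 h2
  · intro x y hxy
    exact hdom _ _ ((hPP x y).2 hxy)

/-- `Y` is a continuous retract of the Baire space -/
class Retr (Y : Type) [TopologicalSpace Y] : Prop where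
  out : ∃ (j : Y → BS) (r : BS → Y), Continuous j ∧ Continuous r ∧ ∀ y, r (j y) = y

instance : Retr BS := ⟨id, id, continuous_id, continuous_id, fun _ => rfl⟩

instance : Retr ℕ := ⟨fun n _ => n, fun x => x 0, by fun_prop, by fun_prop, fun _ => rfl⟩

instance : Retr Bool := ⟨fun b _ => if b then 1 else 0, fun x => x 0 == 1, by
  refine continuous_pi fun _ => ?_
  exact continuous_of_discreteTopology, by
  exact (continuous_of_discreteTopology (f := fun n : ℕ => n == 1)).comp (continuous_apply 0),
  fun b => by cases b <;> rfl⟩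

instance {Y Z : Type} [TopologicalSpace Y] [TopologicalSpace Z] [Retr Y] [Retr Z] :
    Retr (Y × Z) := by
  obtain ⟨j, r, hj, hr, h⟩ := Retr.out (Y := Y)
  obtain ⟨j', r', hj', hr', h'⟩ := Retr.out (Y := Z)
  refine ⟨fun q => join (j q.1) (j' q.2), fun x => (r (lft x), r' (rgt x)), ?_, ?_, ?_⟩
  · exact continuous_join.comp ((hj.comp continuous_fst).prodMk (hj'.comp continuous_snd))
  · exact (hr.comp continuous_lft).prodMk (hr'.comp continuous_rgt)
  · intro q; simp [h, h']

instance {ι : Type} [Encodable ι] {Y : Type} [TopologicalSpace Y] [Retr Y] : Retr (ι → Y) := by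
  obtain ⟨j, r, hj, hr, h⟩ := Retr.out (Y := Y)
  classical
  rcases isEmpty_or_nonempty ι with hι | hι
  · exact ⟨fun _ _ => 0, fun _ i => isEmptyElim i, by fun_prop,
      continuous_pi fun i => isEmptyElim i, fun y => by funext i; exact isEmptyElim i⟩
  · obtain ⟨i0⟩ := hι
    refine ⟨fun y k => j (y ((Encodable.decode (α := ι) k.unpair.1).getD i0)) k.unpair.2,
      fun x i => r (fun m => x (Nat.pair (Encodable.encode i) m)), ?_, ?_, ?_⟩
    · refine continuous_pi fun k => ?_
      exact (continuous_apply _).comp (hj.comp (continuous_apply _))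
    · refine continuous_pi fun i => hr.comp (continuous_pi fun m => continuous_apply _)
    · intro y
      funext i
      simp [h]

/-- Uniformization for `Σ_{k+1}` from uniformization for `Πₖ`, on general spaces. -/
theorem PiUnif.sig {k : ℕ} (hk : PiUnif k) {Y Z : Type} [TopologicalSpace Y] [Retr Y]
    [TopologicalSpace Z] [PolishSpace Z] {P : Set (Y × Z)} (hP : Sig (k + 1) (Y × Z) P) :
    ∃ F, Sig (k + 1) (Y × Z) F ∧ Uniformizes F P := by
  rcases isEmpty_or_nonempty Z with hZ | hZ
  · have : P = ∅ := by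
      ext q; exact isEmptyElim q.2
    subst this
    exact ⟨∅, hP, subset_rfl, by simp, by simp⟩
  obtain ⟨j, r, hj, hr, hrj⟩ := Retr.out (Y := Y)
  obtain ⟨π, hπ, hπs⟩ := PolishSpace.exists_nat_nat_continuous_surjective Z
  obtain ⟨B, hB, rfl⟩ := hP
  -- `B ⊆ (Y × Z) × BS`
  obtain ⟨F', hF', hsub, hfun, hdom⟩ := hk
    {q | ((r q.1, π (lft q.2)), rgt q.2) ∈ B} (by
      have hc : Continuous (fun q : BS × BS => (((r q.1, π (lft q.2)), rgt q.2) :
          (Y × Z) × BS)) := by
        refine Continuous.prodMk (Continuous.prodMk ?_ ?_) ?_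
        · exact hr.comp continuous_fst
        · exact hπ.comp (continuous_lft.comp continuous_snd)
        · exact continuous_rgt.comp continuous_snd
      exact Sig.preimage hc hB)
  refine ⟨{q | ∃ w, (j q.1, w) ∈ F' ∧ π (lft w) = q.2}, ?_, ?_, ?_, ?_⟩
  · -- complexity
    have h1 : Sig (k + 1) ((Y × Z) × BS) {q | (j q.1.1, q.2) ∈ F'} := by
      refine Sig.compl_succ ?_
      refine Sig.preimage (f := fun q : (Y × Z) × BS => ((j q.1.1, q.2) : BS × BS)) ?_ hF'
      exact (hj.comp (continuous_fst.comp continuous_fst)).prodMk continuous_snd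
    have h2 : Sig (k + 1) ((Y × Z) × BS) {q | π (lft q.2) = q.1.2} := by
      have h3 : Sig (k + 1) (Z × Z) {q | q.1 = q.2} := by
        have h3' : Sig 1 (Z × Z) {q | q.1 = q.2} :=
          Sig.compl_succ (n := 0) (isClosed_diagonal.isOpen_compl)
        exact h3'.mono (by omega)
      refine Sig.preimage (f := fun q : (Y × Z) × BS => ((π (lft q.2), q.1.2) : Z × Z)) ?_ h3
      exact (hπ.comp (continuous_lft.comp continuous_snd)).prodMk
        (continuous_snd.comp continuous_fst)
    have h4 := Sig.proj (h1.inter h2)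
    convert h4 using 1
    ext q
    simp
  · rintro ⟨y, z⟩ ⟨w, hw, hz⟩
    have := hsub hw
    simp only [mem_ofPred_eq, hrj] at this
    simp only at hz
    rw [hz] at this
    exact ⟨_, this, rfl⟩
  · rintro y z z' ⟨w, hw, hz⟩ ⟨w', hw', hz'⟩
    have := hfun _ _ _ hw hw'
    subst this
    simp only at hz hz'
    rw [← hz, ← hz']
  · rintro y z ⟨⟨q, v⟩, hq, hqz⟩
    simp only at hqz
    subst hqz
    obtain ⟨u, hu⟩ := hπs z
    obtain ⟨w', hw'⟩ := hdom (j y) (join u v) (by
      simp only [mem_ofPred_eq, hrj, lft_join, rgt_join, hu]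
      exact hq)
    exact ⟨_, w', hw', rfl⟩

end Pool.Agent.Helper679_PU
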