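import Mathlib
import Pool.Agent.Helper679_PU.Unif

/-!
The product measure on the Baire space, and transfer of measurability.
-/

namespace Pool.Agent.Helper679_PU

open Set MeasureTheory Filter
open scoped ENNReal

theorem geo_zero : geo {0} = 2⁻¹ := by
  have h := measure_compl (μ := geo) (s := Ici 1) MeasurableSet.of_discrete (by simp)
  have h1 : (Ici 1 : Set ℕ)ᶜ = {0} := by
    ext n; simp
  rw [h1, geo_Ici, measure_univ, pow_one, ENNReal.one_sub_inv_two] at h
  exact h

instance : IsProbabilityMeasure bm := by unfold bm; infer_instance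

/-- Transfer of null measurability along a continuous map. -/
theorem nullMeas_map {Y X : Type} [TopologicalSpace Y] [PolishSpace Y] [MeasurableSpace Y]
    [BorelSpace Y] (ν : Measure Y) [IsFiniteMeasure ν] [TopologicalSpace X] [T2Space X]
    [MeasurableSpace X] [BorelSpace X] {T : Y → X} (hT : Continuous T) {A : Set X}
    (h : NullMeasurableSet (T ⁻¹' A) ν) : NullMeasurableSet A (ν.map T) := by
  let _ := TopologicalSpace.upgradeIsCompletelyMetrizable Y
  have step : ∀ B : Set X, NullMeasurableSet (T ⁻¹' B) ν →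
      ∃ C : Set X, MeasurableSet C ∧ C ⊆ B ∧ ν (T ⁻¹' B) ≤ (ν.map T) C := by
    intro B hB
    obtain ⟨S, hS, hSm, hSe⟩ := hB.exists_measurable_subset_ae_eq
    have hK : ∀ n : ℕ, ∃ K, K ⊆ S ∧ IsCompact K ∧ ν S < ν K + ((n : ℝ≥0∞) + 1)⁻¹ := by
      intro n
      exact hSm.exists_isCompact_lt_add (measure_ne_top _ _) (by simp)
    choose K hKS hKc hKm using hK
    refine ⟨⋃ n, T '' K n, ?_, ?_, ?_⟩
    · exact MeasurableSet.iUnion fun n => ((hKc n).image hT).isClosed.measurableSet
    · refine iUnion_subset fun n => ?_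
      rintro _ ⟨y, hy, rfl⟩
      exact hS (hKS n hy)
    · rw [Measure.map_apply hT.measurable
        (MeasurableSet.iUnion fun n => ((hKc n).image hT).isClosed.measurableSet)]
      rw [← measure_congr hSe]
      refine ENNReal.le_of_forall_pos_le_add fun ε hε _ => ?_
      obtain ⟨n, hn⟩ := ENNReal.exists_inv_nat_lt (a := (ε : ℝ≥0∞)) (by simpa using hε.ne')
      calc ν S ≤ ν (K n) + ((n : ℝ≥0∞) + 1)⁻¹ := (hKm n).le
        _ ≤ ν (T ⁻¹' ⋃ n, T '' K n) + ε := by
          refine add_le_add (measure_mono ?_) ?_
          · intro y hy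
            simp only [mem_preimage, mem_iUnion]
            exact ⟨n, y, hy, rfl⟩
          · refine le_trans ?_ hn.le
            exact ENNReal.inv_le_inv.2 le_self_add
  obtain ⟨C, hC, hCA, hCm⟩ := step A h
  obtain ⟨D, hD, hDA, hDm⟩ := step Aᶜ (by simpa using h.compl)
  have : IsFiniteMeasure (ν.map T) := by infer_instance
  have hCD : Disjoint C D := by
    rw [Set.disjoint_left]
    intro x h1 h2
    exact hDA h2 (hCA h1)
  have h0 : (ν.map T) (C ∪ D)ᶜ = 0 := by
    rw [measure_compl (hC.union hD) (measure_ne_top _ _), measure_union hCD hD,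
      tsub_eq_zero_iff_le]
    rw [Measure.map_apply hT.measurable MeasurableSet.univ, preimage_univ]
    have h5 : ν (univ : Set Y) = ν (T ⁻¹' A) + ν (T ⁻¹' Aᶜ) := by
      rw [preimage_compl]
      exact (measure_add_measure_compl₀ h).symm
    rw [h5]
    exact add_le_add hCm hDm
  have h1 : A =ᵐ[ν.map T] C := by
    rw [ae_eq_set]
    constructor
    · refine measure_mono_null ?_ h0
      rintro x ⟨hx1, hx2⟩ (h3 | h3)
      · exact hx2 h3
      · exact hDA h3 hx1
    · rw [sdiff_eq_empty.2 hCA]; simp
  exact hC.nullMeasurableSet.congr h1.symm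

/-- reindexing along an injection -/
theorem bm_reindex {J : Type} (e : J → ℕ) (he : Function.Injective e) :
    bm.map (fun x : BS => fun j : J => x (e j)) = Measure.infinitePi fun _ : J => geo := by
  refine Measure.eq_infinitePi _ fun s t ht => ?_
  have hm : Measurable (fun x : BS => fun j : J => x (e j)) := by fun_prop
  rw [Measure.map_apply hm (.pi s.countable_toSet fun _ _ => ht _)]
  classical
  have h1 : (fun x : BS => fun j : J => x (e j)) ⁻¹' ((s : Set J).pi t) =
      ((s.image e : Finset ℕ) : Set ℕ).pi (fun n => if h : ∃ j, e j = n then t h.choose else univ) := by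
    ext x
    simp only [mem_preimage, Set.mem_pi, Finset.mem_coe, Finset.mem_image, forall_exists_index,
      and_imp, forall_apply_eq_imp_iff₂]
    refine forall₂_congr fun j hj => ?_
    have h2 : ∃ j', e j' = e j := ⟨j, rfl⟩
    rw [dif_pos h2]
    have h3 : h2.choose = j := he h2.choose_spec
    rw [h3]
  rw [h1]
  unfold bm
  rw [Measure.infinitePi_pi _ (fun _ _ => MeasurableSet.of_discrete),
    Finset.prod_image (fun a _ b _ h => he h)]
  refine Finset.prod_congr rfl fun j hj => ?_
  have h2 : ∃ j', e j' = e j := ⟨j, rfl⟩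
  rw [dif_pos h2]
  have h3 : h2.choose = j := he h2.choose_spec
  rw [h3]

/-- splitting the Baire space -/
theorem exists_split : ∃ T : BS → BS × BS, Continuous T ∧ bm.map T = bm.prod bm := by
  set e : Fin 2 × ℕ → ℕ := fun p => 2 * p.2 + p.1.1 with he
  have hinj : Function.Injective e := by
    rintro ⟨i, n⟩ ⟨j, m⟩ h
    simp only [he] at h
    have hi := i.2
    have hj := j.2
    have h1 : n = m := by omega
    have h2 : i = j := by ext; omega
    rw [h1, h2]
  have h1 := bm_reindex (J := Fin 2 × ℕ) e hinj
  have h2 : (Measure.infinitePi fun _ : Fin 2 × ℕ => geo).map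
      (MeasurableEquiv.curry (Fin 2) ℕ ℕ) = Measure.infinitePi fun _ : Fin 2 => bm :=
    Measure.infinitePi_map_curry (fun _ _ => geo)
  rw [Measure.infinitePi_eq_pi (μ := fun _ : Fin 2 => bm)] at h2
  have h3 := (measurePreserving_finTwoArrow bm).map_eq
  refine ⟨fun x => (fun n => x (e (0, n)), fun n => x (e (1, n))), by fun_prop, ?_⟩
  rw [← h3, ← h2, ← h1, Measure.map_map (by fun_prop) (by fun_prop),
    Measure.map_map (by fun_prop) (by fun_prop)]
  rfl

/-- fair coin tossing on the Cantor space -/
noncomputable def cm : Measure CS := bm.map (fun x n => decide (x n = 0))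

theorem continuous_coin : Continuous (fun (x : BS) (n : ℕ) => decide (x n = 0)) := by
  refine continuous_pi fun n => ?_
  exact (continuous_of_discreteTopology (f := fun k : ℕ => decide (k = 0))).comp
    (continuous_apply n)

theorem cm_eq : cm = Measure.infinitePi fun _ : ℕ => geo.map (fun k => decide (k = 0)) := by
  unfold cm bm
  exact Measure.infinitePi_map_pi (ι := ℕ) (Y := fun _ => Bool) (fun _ => geo)
    (f := fun _ k => decide (k = 0)) (fun _ => Measurable.of_discrete)

instance : IsProbabilityMeasure (geo.map (fun k => decide (k = 0))) :=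
  Measure.isProbabilityMeasure_map Measurable.of_discrete.aemeasurable

instance : IsProbabilityMeasure cm := by
  rw [cm_eq]; infer_instance

theorem coin_apply (b : Bool) : (geo.map (fun k => decide (k = 0))) {b} = 2⁻¹ := by
  rw [Measure.map_apply Measurable.of_discrete MeasurableSet.of_discrete]
  cases b
  · have : (fun k : ℕ => decide (k = 0)) ⁻¹' {false} = Ici 1 := by
      ext k
      simp [Nat.one_le_iff_ne_zero]
    rw [this, geo_Ici, pow_one]
  · have : (fun k : ℕ => decide (k = 0)) ⁻¹' {true} = {0} := by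
      ext k; simp
    rw [this, geo_zero]

/-- the measure of a cylinder -/
theorem cm_cyl (s : Finset ℕ) (g : ℕ → Bool) : cm {x | ∀ i ∈ s, x i = g i} = 2⁻¹ ^ s.card := by
  have : {x : CS | ∀ i ∈ s, x i = g i} = (s : Set ℕ).pi (fun i => {g i}) := by
    ext x; simp [Set.mem_pi]
  rw [this, cm_eq, Measure.infinitePi_pi _ (fun _ _ => MeasurableSet.of_discrete)]
  simp [coin_apply]

end Pool.Agent.Helper679_PU
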