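import Mathlib
import Pool.Agent.Helper679_PU.Meas

/-!
Closed sets of positive measure in the Cantor space contain supersets of all sparse sets.
-/

namespace Pool.Agent.Helper679_PU

open Set MeasureTheory Filter
open scoped ENNReal

/-- cylinder -/
def cyl (z : CS) (m : ℕ) : Set CS := {x | ∀ i < m, x i = z i}

theorem cm_cyl' (z : CS) (m : ℕ) : cm (cyl z m) = 2⁻¹ ^ m := by
  have := cm_cyl (Finset.range m) z
  simpa [cyl] using this

theorem isClopen_cyl (z : CS) (m : ℕ) : IsClopen (cyl z m) := by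
  have : cyl z m = ⋂ i ∈ Finset.range m, {x : CS | x i = z i} := by
    ext x; simp [cyl]
  rw [this]
  refine isClopen_biInter_finset fun i _ => ?_
  exact (isClopen_discrete {z i}).preimage (continuous_apply i)

theorem measurable_cyl (z : CS) (m : ℕ) : MeasurableSet (cyl z m) :=
  (isClopen_cyl z m).isOpen.measurableSet

theorem cyl_eq {z z' : CS} {m : ℕ} (h : ∀ i < m, z' i = z i) : cyl z' m = cyl z m := by
  ext x
  simp only [cyl, mem_ofPred_eq]
  refine forall₂_congr fun i hi => ?_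
  rw [h i hi]

/-- neighbourhood of `K` of level `m` -/
def Km (K : Set CS) (m : ℕ) : Set CS := {x | ∃ y ∈ K, ∀ i < m, y i = x i}

theorem isOpen_sat {E : Set CS} {m : ℕ} (hE : ∀ x ∈ E, ∀ y : CS, (∀ i < m, y i = x i) → y ∈ E) :
    IsOpen E := by
  rw [isOpen_iff_forall_mem_open]
  intro x hx
  exact ⟨cyl x m, fun y hy => hE x hx y hy, (isClopen_cyl x m).isOpen, fun i _ => rfl⟩

theorem isOpen_Km (K : Set CS) (m : ℕ) : IsOpen (Km K m) := by
  refine isOpen_sat (m := m) ?_
  rintro x ⟨y, hy, h⟩ x' hx'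
  exact ⟨y, hy, fun i hi => (h i hi).trans (hx' i hi).symm⟩

theorem Km_anti (K : Set CS) : Antitone (Km K) := by
  rintro m n hmn x ⟨y, hy, h⟩
  exact ⟨y, hy, fun i hi => h i (lt_of_lt_of_le hi hmn)⟩

theorem subset_Km (K : Set CS) (m : ℕ) : K ⊆ Km K m := fun x hx => ⟨x, hx, fun _ _ => rfl⟩

theorem mem_of_forall_cyl {K : Set CS} (hK : IsClosed K) {x : CS}
    (h : ∀ m, ∃ y ∈ K, ∀ i < m, y i = x i) : x ∈ K := by
  choose y hy hyx using h
  refine hK.mem_of_tendsto (b := atTop) (f := y) ?_ (Eventually.of_forall hy)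
  rw [tendsto_pi_nhds]
  intro i
  refine tendsto_const_nhds.congr' ?_
  filter_upwards [eventually_gt_atTop i] with n hn
  exact (hyx n i hn).symm

theorem iInter_Km {K : Set CS} (hK : IsClosed K) : ⋂ m, Km K m = K := by
  ext x
  constructor
  · intro hx
    exact mem_of_forall_cyl hK fun m => mem_iInter.1 hx m
  · intro hx
    exact mem_iInter.2 fun m => subset_Km K m hx

theorem tendsto_Km {K : Set CS} (hK : IsClosed K) :
    Tendsto (fun m => cm (Km K m \ K)) atTop (nhds 0) := by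
  have h1 := tendsto_measure_iInter_atTop (μ := cm) (s := fun m => Km K m \ K)
    (fun m => ((isOpen_Km K m).measurableSet.diff hK.measurableSet).nullMeasurableSet)
    (fun m n h x hx => ⟨Km_anti K h hx.1, hx.2⟩) ⟨0, measure_ne_top _ _⟩
  have h2 : ⋂ m, Km K m \ K = ∅ := by
    rw [Set.eq_empty_iff_forall_notMem]
    intro x hx
    have h3 : x ∈ ⋂ m, Km K m := mem_iInter.2 fun m => (mem_iInter.1 hx m).1
    rw [iInter_Km hK] at h3
    exact (mem_iInter.1 hx 0).2 h3
  rw [h2, measure_empty] at h1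
  exact h1

/-- The basic density argument. -/
theorem dense_step {K : Set CS} (hK : IsClosed K) {m k : ℕ} {η : ℝ≥0∞} {E : Set CS}
    (h1 : η < cm (E ∩ K)) (h2 : cm (Km K m \ K) ≤ η * 2⁻¹ ^ (k + 1)) :
    ∃ z ∈ E ∩ K, cm (cyl z m \ K) < 2⁻¹ ^ (m + k + 1) := by
  classical
  by_contra hcon
  push Not at hcon
  set rs : CS → (Fin m → Bool) := fun x i => x i with hrs
  set ct : (Fin m → Bool) → Set CS := fun t => {x | rs x = t} with hct
  have hctz : ∀ z : CS, ct (rs z) = cyl z m := by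
    intro z
    ext x
    simp only [hct, hrs, cyl, mem_ofPred_eq, funext_iff]
    constructor
    · intro h i hi
      exact h ⟨i, hi⟩
    · intro h i
      exact h i i.2
  set S : Finset (Fin m → Bool) := Finset.univ.filter (fun t => ∃ x ∈ E ∩ K, rs x = t) with hS
  have hdisj : (S : Set (Fin m → Bool)).PairwiseDisjoint ct := by
    intro t _ t' _ htt
    simp only [Function.onFun]
    rw [Set.disjoint_left]
    intro x hx hx'
    simp only [hct, mem_ofPred_eq] at hx hx'
    exact htt (hx.symm.trans hx')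
  have hcm : ∀ t ∈ S, MeasurableSet (ct t) ∧ cm (ct t) = 2⁻¹ ^ m ∧
      2⁻¹ ^ (m + k + 1) ≤ cm (ct t \ K) := by
    intro t ht
    rw [hS, Finset.mem_filter] at ht
    obtain ⟨-, x, hx, rfl⟩ := ht
    rw [hctz]
    exact ⟨measurable_cyl _ _, cm_cyl' _ _, hcon x hx⟩
  have hU1 : E ∩ K ⊆ ⋃ t ∈ S, ct t := by
    intro x hx
    simp only [mem_iUnion]
    refine ⟨rs x, ?_, rfl⟩
    rw [hS, Finset.mem_filter]
    exact ⟨Finset.mem_univ _, x, hx, rfl⟩
  have hU2 : (⋃ t ∈ S, ct t \ K) ⊆ Km K m \ K := by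
    intro x hx
    simp only [mem_iUnion] at hx
    obtain ⟨t, ht, hx, hxK⟩ := hx
    rw [hS, Finset.mem_filter] at ht
    obtain ⟨-, y, hy, rfl⟩ := ht
    refine ⟨⟨y, hy.2, fun i hi => ?_⟩, hxK⟩
    have : rs x = rs y := hx
    exact (congrFun this ⟨i, hi⟩).symm
  have e1 : cm (E ∩ K) ≤ S.card * 2⁻¹ ^ m := by
    calc cm (E ∩ K) ≤ cm (⋃ t ∈ S, ct t) := measure_mono hU1
      _ = ∑ t ∈ S, cm (ct t) := measure_biUnion_finset hdisj fun t ht => (hcm t ht).1
      _ = ∑ t ∈ S, 2⁻¹ ^ m := Finset.sum_congr rfl fun t ht => (hcm t ht).2.1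
      _ = S.card * 2⁻¹ ^ m := by rw [Finset.sum_const, nsmul_eq_mul]
  have e2 : S.card * 2⁻¹ ^ (m + k + 1) ≤ cm (Km K m \ K) := by
    calc (S.card : ℝ≥0∞) * 2⁻¹ ^ (m + k + 1) = ∑ t ∈ S, 2⁻¹ ^ (m + k + 1) := by
          rw [Finset.sum_const, nsmul_eq_mul]
      _ ≤ ∑ t ∈ S, cm (ct t \ K) := Finset.sum_le_sum fun t ht => (hcm t ht).2.2
      _ = cm (⋃ t ∈ S, ct t \ K) := by
          refine (measure_biUnion_finset ?_ fun t ht => (hcm t ht).1.diff hK.measurableSet).symm
          intro t ht t' ht' htt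
          exact (hdisj ht ht' htt).mono sdiff_subset sdiff_subset
      _ ≤ cm (Km K m \ K) := measure_mono hU2
  have e3 : (S.card : ℝ≥0∞) * 2⁻¹ ^ (m + k + 1) = (S.card * 2⁻¹ ^ m) * 2⁻¹ ^ (k + 1) := by
    rw [mul_assoc, ← pow_add, add_assoc]
  rw [e3] at e2
  have e4 : η * 2⁻¹ ^ (k + 1) < (S.card * 2⁻¹ ^ m) * 2⁻¹ ^ (k + 1) := by
    refine ENNReal.mul_lt_mul_left ?_ ?_ (lt_of_lt_of_le h1 e1)
    · exact pow_ne_zero _ (by simp)
    · exact ENNReal.pow_ne_top (by simp)
  exact absurd (lt_of_lt_of_le e4 (e2.trans h2)) (lt_irrefl _)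

/-- Closed sets of positive measure contain supersets of all sparse sets: for every closed set `K` of
positive measure and every `g` there is a strictly increasing `f` such that, for every set `a` with
at most `g n` elements in `[f n, f (n+1))` for all `n`, the set `K` has an element `x`
containing all elements `≥ f 0` of `a`. -/
theorem sparse {K : Set CS} (hK : IsClosed K) (hpos : 0 < cm K) (g : ℕ → ℕ) :
    ∃ f : ℕ → ℕ, StrictMono f ∧ ∀ a : CS,
      (∀ n, ((Finset.Ico (f n) (f (n + 1))).filter (fun i => a i = true)).card ≤ g n) →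
      ∃ x ∈ K, ∀ i ≥ f 0, a i = true → x i = true := by
  classical
  -- thresholds
  have hthr : ∀ η : ℝ≥0∞, 0 < η → ∀ k : ℕ, ∃ M, ∀ m ≥ M, cm (Km K m \ K) ≤ η * 2⁻¹ ^ (k + 1) := by
    intro η hη k
    have h0 : 0 < η * 2⁻¹ ^ (k + 1) := ENNReal.mul_pos hη.ne' (pow_ne_zero _ (by simp))
    have h1 := (tendsto_Km hK).eventually (ge_mem_nhds h0)
    rw [eventually_atTop] at h1
    exact h1
  have hstep : ∀ m k k' : ℕ, ∃ m' > m, ∀ (z : CS) (c : Finset ℕ),
      cm (cyl z m \ K) < 2⁻¹ ^ (m + k + 1) → c.card ≤ k → c ⊆ Finset.Ico m m' →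
      ∃ z' : CS, (∀ i < m, z' i = z i) ∧ (∀ i ∈ c, z' i = true) ∧
        cm (cyl z' m' \ K) < 2⁻¹ ^ (m' + k' + 1) := by
    intro m k k'
    obtain ⟨M, hM⟩ := hthr (2⁻¹ ^ (m + k + 1)) (ENNReal.pow_pos (by simp) _) k'
    refine ⟨max M (m + 1), by omega, fun z c hz hc hcm => ?_⟩
    set m' := max M (m + 1) with hm'
    set E : Set CS := {x | (∀ i < m, x i = z i) ∧ ∀ i ∈ c, x i = true} with hEdef
    have hE : ∀ x ∈ E, ∀ y : CS, (∀ i < m', y i = x i) → y ∈ E := by
      rintro x ⟨hx1, hx2⟩ y hy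
      refine ⟨fun i hi => ?_, fun i hi => ?_⟩
      · rw [hy i (by omega)]; exact hx1 i hi
      · rw [hy i (Finset.mem_Ico.1 (hcm hi)).2]; exact hx2 i hi
    have hcmE : cm E = 2⁻¹ ^ (m + c.card) := by
      have h3 := cm_cyl (Finset.range m ∪ c) (fun i => if i < m then z i else true)
      have h4 : Disjoint (Finset.range m) c := by
        rw [Finset.disjoint_left]
        intro i hi hi'
        have := (Finset.mem_Ico.1 (hcm hi')).1
        rw [Finset.mem_range] at hi
        omega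
      rw [Finset.card_union_of_disjoint h4, Finset.card_range] at h3
      rw [← h3]
      congr 1
      ext x
      simp only [hEdef, mem_ofPred_eq, Finset.mem_union, Finset.mem_range]
      constructor
      · rintro ⟨h5, h6⟩ i (hi | hi)
        · simp [hi, h5 i hi]
        · have := (Finset.mem_Ico.1 (hcm hi)).1
          rw [if_neg (by omega)]; exact h6 i hi
      · intro h5
        refine ⟨fun i hi => ?_, fun i hi => ?_⟩
        · have := h5 i (Or.inl hi)
          rwa [if_pos hi] at this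
        · have h6 := h5 i (Or.inr hi)
          have := (Finset.mem_Ico.1 (hcm hi)).1
          rwa [if_neg (by omega)] at h6
    have hEm : MeasurableSet E := (isOpen_sat hE).measurableSet
    have hη : (2⁻¹ : ℝ≥0∞) ^ (m + k + 1) < cm (E ∩ K) := by
      have h3 : cm E ≤ cm (E ∩ K) + cm (cyl z m \ K) := by
        rw [← measure_inter_add_sdiff E hK.measurableSet]
        refine add_le_add le_rfl (measure_mono ?_)
        rintro x ⟨hx1, hx2⟩
        exact ⟨hx1.1, hx2⟩
      have h4 : (2⁻¹ : ℝ≥0∞) ^ (m + k) ≤ cm E := by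
        rw [hcmE]
        exact pow_le_pow_right_of_le_one' (by simp) (by omega)
      have h5 : (2⁻¹ : ℝ≥0∞) ^ (m + k) = 2⁻¹ ^ (m + k + 1) + 2⁻¹ ^ (m + k + 1) := by
        rw [← two_mul, pow_succ (2⁻¹ : ℝ≥0∞) (m + k), mul_comm, mul_assoc,
          ENNReal.inv_mul_cancel (by simp) (by simp), mul_one]
      by_contra hcon
      push Not at hcon
      have h6 : (2⁻¹ : ℝ≥0∞) ^ (m + k) < 2⁻¹ ^ (m + k) := by
        calc (2⁻¹ : ℝ≥0∞) ^ (m + k) ≤ cm (E ∩ K) + cm (cyl z m \ K) := h4.trans h3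
          _ < 2⁻¹ ^ (m + k + 1) + 2⁻¹ ^ (m + k + 1) :=
            ENNReal.add_lt_add_of_le_of_lt (measure_ne_top _ _) hcon hz
          _ = 2⁻¹ ^ (m + k) := h5.symm
      exact absurd h6 (lt_irrefl _)
    obtain ⟨z', ⟨hz'E, -⟩, hz'⟩ := dense_step hK hη (hM m' (le_max_left _ _))
    exact ⟨z', hz'E.1, hz'E.2, hz'⟩
  choose nxt hnxt hnxt2 using hstep
  -- the start
  obtain ⟨η0, hη0, hη0'⟩ := exists_between hpos
  obtain ⟨M0, hM0⟩ := hthr η0 hη0 (g 0)
  obtain ⟨z0, -, hz0⟩ := dense_step (E := univ) (k := g 0) hK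
    (by simpa using hη0') (hM0 M0 le_rfl)
  set f : ℕ → ℕ := fun n => Nat.rec M0 (fun n m => nxt m (g n) (g (n + 1))) n with hf
  have hf0 : f 0 = M0 := rfl
  have hfs : ∀ n, f (n + 1) = nxt (f n) (g n) (g (n + 1)) := fun n => rfl
  have hfm : StrictMono f := by
    refine strictMono_nat_of_lt_succ fun n => ?_
    rw [hfs]; exact hnxt _ _ _
  refine ⟨f, hfm, fun a ha => ?_⟩
  -- the sequence of points
  have hz : ∀ n (z : CS), cm (cyl z (f n) \ K) < 2⁻¹ ^ (f n + g n + 1) →
      ∃ z' : CS, (∀ i < f n, z' i = z i) ∧ (∀ i, f n ≤ i → i < f (n + 1) → a i = true →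
        z' i = true) ∧ cm (cyl z' (f (n + 1)) \ K) < 2⁻¹ ^ (f (n + 1) + g (n + 1) + 1) := by
    intro n z hz
    obtain ⟨z', h1, h2, h3⟩ := hnxt2 (f n) (g n) (g (n + 1)) z
      ((Finset.Ico (f n) (f (n + 1))).filter (fun i => a i = true)) hz (ha n)
      (Finset.filter_subset _ _)
    refine ⟨z', h1, fun i hi hi' hai => h2 i ?_, h3⟩
    rw [Finset.mem_filter, Finset.mem_Ico]
    exact ⟨⟨hi, hi'⟩, hai⟩
  choose! nz hnz1 hnz2 hnz3 using hz
  set zs : ℕ → CS := fun n => Nat.rec z0 (fun n z => nz n z) n with hzs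
  have hzs0 : zs 0 = z0 := rfl
  have hzss : ∀ n, zs (n + 1) = nz n (zs n) := fun n => rfl
  have hgood : ∀ n, cm (cyl (zs n) (f n) \ K) < 2⁻¹ ^ (f n + g n + 1) := by
    intro n
    induction n with
    | zero => rw [hzs0, hf0]; exact hz0
    | succ n ih => rw [hzss]; exact hnz3 n _ ih
  have hagree : ∀ n m, n ≤ m → ∀ i < f n, zs m i = zs n i := by
    intro n m hnm
    induction m, hnm using Nat.le_induction with
    | base => intro i _; rfl
    | succ m hm ih =>
      intro i hi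
      rw [hzss, hnz1 m _ (hgood m) i (lt_of_lt_of_le hi (hfm.monotone hm))]
      exact ih i hi
  have hlt : ∀ i, i < f (i + 1) := fun i => lt_of_lt_of_le (Nat.lt_succ_self i) (hfm.le_apply)
  refine ⟨fun i => zs (i + 1) i, ?_, ?_⟩
  · refine mem_of_forall_cyl hK fun m => ?_
    -- a point of `K` in the cylinder
    have h1 : (cyl (zs m) (f m) ∩ K).Nonempty := by
      by_contra hcon
      rw [Set.not_nonempty_iff_eq_empty] at hcon
      have h2 : cyl (zs m) (f m) \ K = cyl (zs m) (f m) := by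
        rw [sdiff_eq_left, Set.disjoint_iff_inter_eq_empty]; exact hcon
      have h3 := hgood m
      rw [h2, cm_cyl'] at h3
      have h4 : (2⁻¹ : ℝ≥0∞) ^ (f m + g m + 1) ≤ 2⁻¹ ^ (f m) :=
        pow_le_pow_right_of_le_one' (by simp) (by omega)
      exact absurd (lt_of_lt_of_le h3 h4) (lt_irrefl _)
    obtain ⟨y, hy, hyK⟩ := h1
    refine ⟨y, hyK, fun i hi => ?_⟩
    have hi' : i < f m := lt_of_lt_of_le hi hfm.le_apply
    rw [hy i hi']
    rcases le_total (i + 1) m with h | h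
    · exact hagree _ _ h i (hlt i)
    · exact (hagree _ _ h i hi').symm
  · intro i hi hai
    -- find the block
    obtain ⟨n, hn1, hn2⟩ : ∃ n, f n ≤ i ∧ i < f (n + 1) := by
      have hex : ∃ n, i < f (n + 1) := ⟨i, hlt i⟩
      refine ⟨Nat.find hex, ?_, Nat.find_spec hex⟩
      rcases Nat.eq_zero_or_pos (Nat.find hex) with h | h
      · rw [h]; exact hi
      · by_contra hcon
        push Not at hcon
        refine Nat.find_min hex (m := Nat.find hex - 1) (by omega) ?_
        have : Nat.find hex - 1 + 1 = Nat.find hex := by omega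
        rw [this]; exact hcon
    have h1 : zs (n + 1) i = true := by
      rw [hzss]
      exact hnz2 n _ (hgood n) i hn1 hn2 hai
    show zs (i + 1) i = true
    rw [← h1]
    rcases le_total (i + 1) (n + 1) with h | h
    · exact (hagree _ _ h i (hlt i)).symm
    · exact hagree _ _ h i hn2

end Pool.Agent.Helper679_PU
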