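import Mathlib
import Pool.Agent.Helper679_PU.Sparse

/-!
The Raisonnier filter of a set of points of the Cantor space.
-/

namespace Pool.Agent.Helper679_PU

open Set MeasureTheory Filter
open scoped ENNReal

/-- `n` is the first difference of `x` and `y` -/
def Dif (x y : CS) (n : ℕ) : Prop := (∀ i < n, x i = y i) ∧ x n ≠ y n

theorem Dif.unique {x y : CS} {m n : ℕ} (h : Dif x y m) (h' : Dif x y n) : m = n := by
  rcases lt_trichotomy m n with hmn | hmn | hmn
  · exact absurd (h'.1 m hmn) h.2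
  · exact hmn
  · exact absurd (h.1 n hmn) h'.2

theorem exists_dif {x y : CS} (h : x ≠ y) : ∃ n, Dif x y n := by
  classical
  have h1 : ∃ n, x n ≠ y n := by
    by_contra hcon
    push Not at hcon
    exact h (funext hcon)
  exact ⟨Nat.find h1, fun i hi => not_not.1 (Nat.find_min h1 hi), Nat.find_spec h1⟩

/-- all first differences of points of `C` are in `a` -/
def Homog (a : CS) (C : Set CS) : Prop := ∀ x ∈ C, ∀ y ∈ C, ∀ n, Dif x y n → a n = true

/-- the Raisonnier filter of `X` -/
def Rais (X : Set CS) : Set CS :=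
  {a | ∃ C : ℕ → Set CS, (∀ k, IsClosed (C k)) ∧ (∀ k, Homog a (C k)) ∧ X ⊆ ⋃ k, C k}

/-- initial segments -/
def sgb (x : CS) (m : ℕ) : List Bool := List.ofFn (fun i : Fin m => x i)

theorem sgb_length (x : CS) (m : ℕ) : (sgb x m).length = m := by simp [sgb]

theorem sgb_eq_iff {x y : CS} {m : ℕ} : sgb x m = sgb y m ↔ ∀ i < m, x i = y i := by
  unfold sgb
  rw [List.ofFn_inj, funext_iff]
  constructor
  · intro h i hi
    exact h ⟨i, hi⟩
  · intro h i
    exact h i i.2

theorem isOpen_sgb (R : List Bool → Prop) (m : ℕ) : IsOpen {x : CS | R (sgb x m)} := by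
  refine isOpen_sat (m := m) ?_
  intro x hx y hy
  have : sgb y m = sgb x m := sgb_eq_iff.2 hy
  simp only [mem_ofPred_eq] at hx ⊢
  rw [this]; exact hx

theorem isClopen_sgb (R : List Bool → Prop) (m : ℕ) : IsClopen {x : CS | R (sgb x m)} := by
  refine ⟨?_, isOpen_sgb R m⟩
  rw [← isOpen_compl_iff]
  exact isOpen_sgb (fun l => ¬ R l) m

/-- from a cover by countably many sets indexed by a countable type -/
theorem mem_rais {X : Set CS} {a : CS} {ι : Type} [Countable ι] (C : ι → Set CS)
    (hC : ∀ k, IsClosed (C k)) (hH : ∀ k, Homog a (C k)) (hX : X ⊆ ⋃ k, C k) : a ∈ Rais X := by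
  rcases isEmpty_or_nonempty ι with h | h
  · refine ⟨fun _ => ∅, fun _ => isClosed_empty, fun _ x hx => absurd hx (notMem_empty _), ?_⟩
    rw [iUnion_of_empty] at hX
    exact hX.trans (empty_subset _)
  · obtain ⟨e, he⟩ := exists_surjective_nat ι
    refine ⟨fun k => C (e k), fun k => hC _, fun k => hH _, ?_⟩
    rw [he.iUnion_comp]; exact hX

/-- upward closed modulo finite sets -/
theorem Rais.mono {X : Set CS} {a b : CS} (ha : a ∈ Rais X) {m : ℕ}
    (h : ∀ i ≥ m, a i = true → b i = true) : b ∈ Rais X := by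
  obtain ⟨C, hC, hH, hX⟩ := ha
  refine mem_rais (ι := ℕ × List Bool) (fun p => C p.1 ∩ {x | sgb x m = p.2})
    (fun p => (hC _).inter (isClopen_sgb (fun l => l = p.2) m).1) ?_ ?_
  · rintro ⟨k, s⟩ x ⟨hx, hxs⟩ y ⟨hy, hys⟩ n hn
    have h1 : ∀ i < m, x i = y i := by
      rw [← sgb_eq_iff]
      exact hxs.trans hys.symm
    have h2 : m ≤ n := by
      by_contra hcon
      push Not at hcon
      exact hn.2 (h1 n hcon)
    exact h n h2 (hH k x hx y hy n hn)
  · intro x hx
    obtain ⟨k, hk⟩ := mem_iUnion.1 (hX hx)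
    exact mem_iUnion.2 ⟨(k, sgb x m), hk, rfl⟩

theorem Rais.inter_ne {X : Set CS} (hX : ¬ X.Countable) {a : CS} (h1 : a ∈ Rais X)
    (h2 : (fun i => !a i) ∈ Rais X) : False := by
  obtain ⟨C, hC, hH, hXC⟩ := h1
  obtain ⟨C', hC', hH', hXC'⟩ := h2
  refine hX ?_
  have h3 : X ⊆ ⋃ p : ℕ × ℕ, C p.1 ∩ C' p.2 := by
    intro x hx
    obtain ⟨k, hk⟩ := mem_iUnion.1 (hXC hx)
    obtain ⟨l, hl⟩ := mem_iUnion.1 (hXC' hx)
    exact mem_iUnion.2 ⟨(k, l), hk, hl⟩
  refine Set.Countable.mono h3 (countable_iUnion fun p => ?_)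
  refine Set.Subsingleton.countable ?_
  rintro x ⟨hx, hx'⟩ y ⟨hy, hy'⟩
  by_contra hne
  obtain ⟨n, hn⟩ := exists_dif hne
  have e1 := hH p.1 x hx y hy n hn
  have e2 := hH' p.2 x hx' y hy' n hn
  simp [e1] at e2

/-- coded closed sets -/
def clos (c : CS) : Set CS := {x | ∀ m, c (Encodable.encode (sgb x m)) = true}

theorem isClosed_clos (c : CS) : IsClosed (clos c) := by
  have : clos c = ⋂ m, {x | c (Encodable.encode (sgb x m)) = true} := by
    ext x; simp [clos]
  rw [this]
  exact isClosed_iInter fun m => (isClopen_sgb (fun l => c (Encodable.encode l) = true) m).1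

theorem exists_clos {C : Set CS} (hC : IsClosed C) : ∃ c, clos c = C := by
  classical
  refine ⟨fun k => decide (∃ x ∈ C, ∃ m, k = Encodable.encode (sgb x m)), ?_⟩
  ext x
  simp only [clos, mem_ofPred_eq, decide_eq_true_eq]
  constructor
  · intro h
    refine mem_of_forall_cyl hC fun m => ?_
    obtain ⟨y, hy, m', hm'⟩ := h m
    have h1 := Encodable.encode_injective hm'
    have h2 : m = m' := by
      have := congrArg List.length h1
      simpa [sgb_length] using this
    subst h2
    exact ⟨y, hy, fun i hi => (sgb_eq_iff.1 h1 i hi).symm⟩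
  · intro hx m
    exact ⟨x, hx, m, rfl⟩

theorem measurable_sgb_eval {Y : Type} [TopologicalSpace Y] {f : Y → CS} (hf : Continuous f)
    {g : Y → CS} (hg : Continuous g) (m : ℕ) :
    IsOpen {y | g y (Encodable.encode (sgb (f y) m)) = true} := by
  have : {y | g y (Encodable.encode (sgb (f y) m)) = true} =
      ⋃ s : List Bool, {y | sgb (f y) m = s} ∩ {y | g y (Encodable.encode s) = true} := by
    ext y
    simp
  rw [this]
  refine isOpen_iUnion fun s => IsOpen.inter ?_ ?_
  · exact (isOpen_sgb (fun l => l = s) m).preimage hf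
  · exact (isOpen_discrete {b | b = true}).preimage ((continuous_apply _).comp hg)

theorem measurableSet_clos {Y : Type} [TopologicalSpace Y] [MeasurableSpace Y]
    [OpensMeasurableSpace Y] {f g : Y → CS} (hf : Continuous f) (hg : Continuous g) :
    MeasurableSet {y | f y ∈ clos (g y)} := by
  have : {y | f y ∈ clos (g y)} = ⋂ m, {y | g y (Encodable.encode (sgb (f y) m)) = true} := by
    ext y; simp [clos]
  rw [this]
  exact MeasurableSet.iInter fun m => (measurable_sgb_eval hf hg m).measurableSet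

theorem measurableSet_dif {Y : Type} [TopologicalSpace Y] [MeasurableSpace Y]
    [OpensMeasurableSpace Y] {f g : Y → CS} (hf : Continuous f) (hg : Continuous g) (n : ℕ) :
    MeasurableSet {y | Dif (f y) (g y) n} := by
  have h1 : ∀ i, MeasurableSet {y | f y i = g y i} := by
    intro i
    have h2 : IsOpen {y | f y i = g y i} := by
      exact (isOpen_discrete {q : Bool × Bool | q.1 = q.2}).preimage
        (((continuous_apply i).comp hf).prodMk ((continuous_apply i).comp hg))
    exact h2.measurableSet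
  have : {y | Dif (f y) (g y) n} = (⋂ i, ⋂ (_ : i < n), {y | f y i = g y i}) ∩
      {y | f y n = g y n}ᶜ := by
    ext y; simp [Dif]
  rw [this]
  exact (MeasurableSet.iInter fun i => MeasurableSet.iInter fun _ => h1 i).inter (h1 n).compl

/-- The complexity of the Raisonnier filter: if `X` is `Σ_{k+1}` then it is `Σ_{k+2}`. -/
theorem sig_rais {k : ℕ} {X : Set CS} (hX : Sig (k + 1) CS X) : Sig (k + 2) CS (Rais X) := by
  -- the matrix
  set G : Set (CS × (ℕ → CS)) := {q | (∀ w : CS × CS, ∀ l, w.1 ∈ clos (q.2 l) →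
    w.2 ∈ clos (q.2 l) → ∀ n, Dif w.1 w.2 n → q.1 n = true) ∧
    ∀ x, x ∈ X → ∃ l, x ∈ clos (q.2 l)} with hG
  have h1 : Sig (k + 1) (CS × (ℕ → CS)) {q | ∀ w : CS × CS, ∀ l, w.1 ∈ clos (q.2 l) →
      w.2 ∈ clos (q.2 l) → ∀ n, Dif w.1 w.2 n → q.1 n = true}ᶜ := by
    refine Sig.all_compl (Z := CS × CS) (A := {r : (CS × (ℕ → CS)) × (CS × CS) | ∀ l,
      r.2.1 ∈ clos (r.1.2 l) → r.2.2 ∈ clos (r.1.2 l) → ∀ n, Dif r.2.1 r.2.2 n →
      r.1.1 n = true}) ?_
    refine sig_of_measurable (by omega) (MeasurableSet.compl ?_)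
    have : {r : (CS × (ℕ → CS)) × (CS × CS) | ∀ l,
      r.2.1 ∈ clos (r.1.2 l) → r.2.2 ∈ clos (r.1.2 l) → ∀ n, Dif r.2.1 r.2.2 n →
      r.1.1 n = true} = ⋂ l, ⋂ n, ({r : (CS × (ℕ → CS)) × (CS × CS) | r.2.1 ∈ clos (r.1.2 l)}ᶜ ∪
        {r | r.2.2 ∈ clos (r.1.2 l)}ᶜ ∪ {r | Dif r.2.1 r.2.2 n}ᶜ ∪ {r | r.1.1 n = true}) := by
      ext r
      simp only [mem_ofPred_eq, mem_iInter, mem_union, mem_compl_iff]
      constructor
      · intro h l n
        by_cases e1 : r.2.1 ∈ clos (r.1.2 l)
        · by_cases e2 : r.2.2 ∈ clos (r.1.2 l)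
          · by_cases e3 : Dif r.2.1 r.2.2 n
            · exact Or.inr (h l e1 e2 n e3)
            · exact Or.inl (Or.inr e3)
          · exact Or.inl (Or.inl (Or.inr e2))
        · exact Or.inl (Or.inl (Or.inl e1))
      · intro h l e1 e2 n e3
        rcases h l n with ((h | h) | h) | h
        · exact absurd e1 h
        · exact absurd e2 h
        · exact absurd e3 h
        · exact h
    rw [this]
    refine MeasurableSet.iInter fun l => MeasurableSet.iInter fun n => ?_
    refine MeasurableSet.union (MeasurableSet.union (MeasurableSet.union ?_ ?_) ?_) ?_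
    · exact (measurableSet_clos (f := fun r : (CS × (ℕ → CS)) × (CS × CS) => r.2.1)
        (g := fun r => r.1.2 l) (by fun_prop) (by fun_prop)).compl
    · exact (measurableSet_clos (f := fun r : (CS × (ℕ → CS)) × (CS × CS) => r.2.2)
        (g := fun r => r.1.2 l) (by fun_prop) (by fun_prop)).compl
    · exact (measurableSet_dif (f := fun r : (CS × (ℕ → CS)) × (CS × CS) => r.2.1)
        (g := fun r => r.2.2) (by fun_prop) (by fun_prop) n).compl
    · have : IsOpen {r : (CS × (ℕ → CS)) × (CS × CS) | r.1.1 n = true} :=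
        (isOpen_discrete {b | b = true}).preimage (f := fun r : (CS × (ℕ → CS)) × (CS × CS) =>
          r.1.1 n) (by fun_prop)
      exact this.measurableSet
  have h2 : Sig (k + 1) (CS × (ℕ → CS)) {q | ∀ x, x ∈ X → ∃ l, x ∈ clos (q.2 l)}ᶜ := by
    refine Sig.all_compl (Z := CS) (A := {r : (CS × (ℕ → CS)) × CS | r.2 ∈ X →
      ∃ l, r.2 ∈ clos (r.1.2 l)}) ?_
    have h3 : {r : (CS × (ℕ → CS)) × CS | r.2 ∈ X → ∃ l, r.2 ∈ clos (r.1.2 l)}ᶜ =
        (Prod.snd ⁻¹' X) ∩ ⋂ l, {r | r.2 ∈ clos (r.1.2 l)}ᶜ := by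
      ext r; simp
    rw [h3]
    refine Sig.inter (hX.preimage continuous_snd) (Sig.iInter fun l => ?_)
    refine sig_of_measurable (by omega) (MeasurableSet.compl ?_)
    exact measurableSet_clos (f := fun r : (CS × (ℕ → CS)) × CS => r.2)
        (g := fun r => r.1.2 l) (by fun_prop) (by fun_prop)
  have h3 : Sig (k + 2) (CS × (ℕ → CS)) G := by
    refine Sig.compl_succ ?_
    have : Gᶜ = {q | ∀ w : CS × CS, ∀ l, w.1 ∈ clos (q.2 l) →
      w.2 ∈ clos (q.2 l) → ∀ n, Dif w.1 w.2 n → q.1 n = true}ᶜ ∪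
      {q | ∀ x, x ∈ X → ∃ l, x ∈ clos (q.2 l)}ᶜ := by
      ext q
      simp only [hG, mem_compl_iff, mem_ofPred_eq, mem_union]
      tauto
    rw [this]
    exact h1.union h2
  have h4 := Sig.projP h3
  convert h4 using 1
  ext a
  simp only [Rais, hG, mem_ofPred_eq]
  constructor
  · rintro ⟨C, hC, hH, hXC⟩
    choose c hc using fun l => exists_clos (hC l)
    refine ⟨c, ?_, ?_⟩
    · rintro ⟨x, y⟩ l hx hy n hn
      simp only [hc] at hx hy
      exact hH l x hx y hy n hn
    · intro x hx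
      obtain ⟨l, hl⟩ := mem_iUnion.1 (hXC hx)
      exact ⟨l, by rw [hc]; exact hl⟩
  · rintro ⟨c, h5, h6⟩
    refine ⟨fun l => clos (c l), fun l => isClosed_clos _, ?_, ?_⟩
    · intro l x hx y hy n hn
      exact h5 (x, y) l hx hy n hn
    · intro x hx
      obtain ⟨l, hl⟩ := h6 x hx
      exact mem_iUnion.2 ⟨l, hl⟩

/-- flipping preserves the measure -/
theorem cm_flip : cm.map (fun (x : CS) i => !x i) = cm := by
  rw [cm_eq]
  have h := Measure.infinitePi_map_pi (ι := ℕ) (Y := fun _ => Bool)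
    (fun _ => geo.map (fun k => decide (k = 0))) (f := fun _ b => !b)
    (fun _ => Measurable.of_discrete)
  rw [h]
  congr 1
  funext i
  refine Measure.ext_of_singleton fun b => ?_
  rw [Measure.map_apply Measurable.of_discrete MeasurableSet.of_discrete]
  have : (fun b : Bool => !b) ⁻¹' {b} = {!b} := by
    ext b'; cases b <;> cases b' <;> simp
  rw [this, coin_apply, coin_apply]

/-- The set-up: `Πₖ` has the uniformization property, and disjoint `Σ_{k+2}` sets can be separated
by measurable sets. -/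
structure Setup (k : ℕ) : Prop where
  unif : PiUnif k
  sep : ∀ A A' : Set BS, Sig (k + 2) BS A → Sig (k + 2) BS A' → Disjoint A A' →
    ∃ M : Set BS, NullMeasurableSet M bm ∧ A ⊆ M ∧ Disjoint M A'

theorem Setup.lm {k : ℕ} (S : Setup k) (A : Set BS) (h1 : Sig (k + 2) BS A)
    (h2 : Sig (k + 2) BS Aᶜ) : NullMeasurableSet A bm := by
  obtain ⟨M, hM, h3, h4⟩ := S.sep A Aᶜ h1 h2 disjoint_compl_right
  have : M = A := subset_antisymm (fun x hx => by
    by_contra hcon
    exact Set.disjoint_left.1 h4 hx hcon) h3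
  rwa [← this]

/-- Uniformization implies the separation property for the dual class. -/
theorem PiUnif.sep {k : ℕ} (hk : 1 ≤ k) (h : PiUnif k) {A A' : Set BS} (hA : Sig k BS A)
    (hA' : Sig k BS A') (hd : Disjoint A A') :
    ∃ M : Set BS, Sig k BS M ∧ Sig k BS Mᶜ ∧ A ⊆ M ∧ Disjoint M A' := by
  set zz : BS := fun _ => 0 with hzz
  set oo : BS := fun _ => 1 with hoo
  have hne : zz ≠ oo := by
    intro h
    have := congrFun h 0
    simp [hzz, hoo] at this
  -- the relation
  set P : Set (BS × BS) := {q | (q.2 = zz ∧ q.1 ∉ A) ∨ (q.2 = oo ∧ q.1 ∉ A')} with hP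
  have hPs : Sig k (BS × BS) Pᶜ := by
    have h1 : Sig k (BS × BS) {q | q.2 = zz}ᶜ := by
      refine sig_of_measurable hk (MeasurableSet.compl ?_)
      exact measurable_snd (measurableSet_singleton zz)
    have h2 : Sig k (BS × BS) {q | q.2 = oo}ᶜ := by
      refine sig_of_measurable hk (MeasurableSet.compl ?_)
      exact measurable_snd (measurableSet_singleton oo)
    have h3 : Sig k (BS × BS) {q | q.1 ∈ A} := hA.preimage continuous_fst
    have h4 : Sig k (BS × BS) {q | q.1 ∈ A'} := hA'.preimage continuous_fst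
    have h5 : Pᶜ = ({q | q.2 = zz}ᶜ ∪ {q | q.1 ∈ A}) ∩ ({q | q.2 = oo}ᶜ ∪ {q | q.1 ∈ A'}) := by
      ext q
      simp only [hP, mem_compl_iff, mem_ofPred_eq, mem_inter_iff, mem_union]
      tauto
    rw [h5]
    exact (h1.union h3).inter0 (h2.union h4)
  obtain ⟨F, hF, hsub, hfun, hdom⟩ := h P hPs
  have htot : ∀ x, ∃ y, (x, y) ∈ P := by
    intro x
    by_cases h : x ∈ A
    · exact ⟨oo, Or.inr ⟨rfl, fun h' => Set.disjoint_left.1 hd h h'⟩⟩
    · exact ⟨zz, Or.inl ⟨rfl, h⟩⟩
  have hval : ∀ x, (x, zz) ∈ F ∨ (x, oo) ∈ F := by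
    intro x
    obtain ⟨y, hy⟩ := htot x
    obtain ⟨y', hy'⟩ := hdom x y hy
    rcases hsub hy' with h | h
    · left; rw [← h.1]; exact hy'
    · right; rw [← h.1]; exact hy'
  set M : Set BS := {x | (x, oo) ∈ F} with hM
  have hMc : Mᶜ = {x | (x, zz) ∈ F} := by
    ext x
    simp only [hM, mem_compl_iff, mem_ofPred_eq]
    constructor
    · intro h
      rcases hval x with h' | h'
      · exact h'
      · exact absurd h' h
    · intro h h'
      exact hne (hfun x _ _ h h')
  have hM1 : Sig k BS Mᶜ :=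
    Sig.preimage (f := fun x : BS => ((x, oo) : BS × BS)) (by fun_prop) hF
  have hM2 : Sig k BS M := by
    have h1 : Sig k BS {x | (x, zz) ∈ F}ᶜ :=
      Sig.preimage (f := fun x : BS => ((x, zz) : BS × BS)) (by fun_prop) hF
    rw [← hMc, compl_compl] at h1
    exact h1
  refine ⟨M, hM2, hM1, ?_, ?_⟩
  · intro x hx
    by_contra hcon
    have h1 : x ∈ Mᶜ := hcon
    rw [hMc] at h1
    rcases hsub h1 with h | h
    · exact h.2 hx
    · exact hne h.1
  · rw [Set.disjoint_left]
    intro x hx hx'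
    rcases hsub hx with h | h
    · exact hne h.1.symm
    · exact h.2 hx'

/-- There is a closed set of positive measure disjoint from the Raisonnier filter. -/
theorem exists_closed_disjoint {k : ℕ} (S : Setup k) {X : Set CS} (hX : Sig (k + 1) CS X)
    (hunc : ¬ X.Countable) : ∃ K : Set CS, IsClosed K ∧ 0 < cm K ∧ Disjoint K (Rais X) := by
  classical
  have hR := sig_rais hX
  set r : BS → CS := fun x n => decide (x n = 0) with hr
  have hrc : Continuous r := continuous_coin
  have hflip : Continuous (fun (x : CS) i => !x i) := by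
    refine continuous_pi fun i => ?_
    exact (continuous_of_discreteTopology (f := fun b : Bool => !b)).comp (continuous_apply i)
  obtain ⟨M, hMm, hM1, hM2⟩ := S.sep {x | r x ∈ Rais X} {x | (fun i => !(r x i)) ∈ Rais X}
    (hR.preimage hrc) (hR.preimage (f := fun x : BS => fun i => !(r x i)) (hflip.comp hrc)) (by
      rw [Set.disjoint_left]
      intro x h1 h2
      exact Rais.inter_ne hunc h1 h2)
  -- a compact set
  have key : ∀ B : Set BS, NullMeasurableSet B bm → 0 < bm B →
      ∃ K : Set CS, IsCompact K ∧ 0 < cm K ∧ K ⊆ r '' B := by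
    intro B hB hpos
    obtain ⟨D, hD, hDm, hDe⟩ := hB.exists_measurable_subset_ae_eq
    rw [← measure_congr hDe] at hpos
    obtain ⟨K, hK, hKc, hKm⟩ := hDm.exists_lt_isCompact_of_ne_top (measure_ne_top _ _) hpos
    refine ⟨r '' K, hKc.image hrc, ?_, (image_mono (hK.trans hD))⟩
    have h1 : bm K ≤ cm (r '' K) := by
      unfold cm
      rw [Measure.map_apply hrc.measurable (hKc.image hrc).isClosed.measurableSet]
      exact measure_mono (subset_preimage_image r K)
    exact lt_of_lt_of_le hKm h1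
  by_cases hpos : 0 < bm M
  · obtain ⟨K, hKc, hKm, hKA⟩ := key M hMm hpos
    refine ⟨(fun (x : CS) i => !x i) ⁻¹' K, hKc.isClosed.preimage hflip, ?_, ?_⟩
    · rw [← Measure.map_apply hflip.measurable hKc.isClosed.measurableSet, cm_flip]
      exact hKm
    · rw [Set.disjoint_left]
      intro a ha haR
      obtain ⟨x, hx, hxa⟩ := hKA ha
      refine Set.disjoint_left.1 hM2 hx ?_
      have : (fun i => !(r x i)) = a := by
        rw [hxa]; funext i; simp
      rw [mem_ofPred_eq, this]; exact haR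
  · have hpos' : 0 < bm Mᶜ := by
      have h1 : bm M = 0 := by simpa using hpos
      have h2 := measure_add_measure_compl₀ hMm
      rw [h1, zero_add, measure_univ] at h2
      rw [h2]; exact one_pos
    obtain ⟨K, hKc, hKm, hKA⟩ := key Mᶜ hMm.compl hpos'
    refine ⟨K, hKc.isClosed, hKm, ?_⟩
    rw [Set.disjoint_left]
    intro a ha haR
    obtain ⟨x, hx, hxa⟩ := hKA ha
    refine hx (hM1 ?_)
    rw [mem_ofPred_eq, hxa]; exact haR

end Pool.Agent.Helper679_PU
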