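import Mathlib
import Pool.Agent.Helper679_PU.Rais

/-!
If a union of null sets is null then the Raisonnier filter has sparse elements.
-/

namespace Pool.Agent.Helper679_PU

open Set MeasureTheory Filter
open scoped ENNReal

/-- index set of the coordinates -/
abbrev JJ := ℕ × List Bool

/-- the product measure on `JJ → ℕ` -/
noncomputable def nu : Measure (JJ → ℕ) := Measure.infinitePi fun _ : JJ => geo

instance : IsProbabilityMeasure nu := by unfold nu; infer_instance

/-- the null set attached to `x` -/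
def HH (f : ℕ → ℕ) (x : CS) : Set (JJ → ℕ) :=
  {z | ∃ᶠ n in atTop, n ≤ z (n, sgb x (f (n + 1)))}

theorem nu_coord (j : JJ) (S : Set ℕ) : nu {z | z j ∈ S} = geo S := by
  have h := Measure.infinitePi_map_eval (fun _ : JJ => geo) j
  have h2 : geo S = nu.map (fun z => z j) S := by
    unfold nu; rw [h]
  rw [h2, Measure.map_apply (measurable_pi_apply j) MeasurableSet.of_discrete]
  rfl

theorem nu_HH (f : ℕ → ℕ) (x : CS) : nu (HH f x) = 0 := by
  refine measure_setOfPred_frequently_eq_zero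
    (p := fun (n : ℕ) (z : JJ → ℕ) => n ≤ z (n, sgb x (f (n + 1)))) ?_
  have h1 : ∀ n, nu {z | n ≤ z (n, sgb x (f (n + 1)))} = 2⁻¹ ^ n := by
    intro n
    have := nu_coord (n, sgb x (f (n + 1))) (Ici n)
    rw [geo_Ici] at this
    exact this
  simp only [h1]
  rw [ENNReal.tsum_geometric, ENNReal.one_sub_inv_two, inv_inv]
  exact ENNReal.ofNat_ne_top

theorem geo_Iio (n : ℕ) : geo (Iio n) = 1 - 2⁻¹ ^ n := by
  have h := measure_compl (μ := geo) (s := Ici n) MeasurableSet.of_discrete (measure_ne_top _ _)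
  rw [compl_Ici, geo_Ici, measure_univ] at h
  exact h

theorem nu_cyl (n : ℕ) (T : Finset (List Bool)) :
    nu {z | ∀ s ∈ T, z (n, s) < n} = (1 - 2⁻¹ ^ n) ^ T.card := by
  classical
  have h1 : {z : JJ → ℕ | ∀ s ∈ T, z (n, s) < n} =
      ((T.image (fun s => (n, s)) : Finset JJ) : Set JJ).pi (fun _ => Iio n) := by
    ext z
    simp [Set.mem_pi]
  rw [h1]
  unfold nu
  rw [Measure.infinitePi_pi _ (fun _ _ => MeasurableSet.of_discrete), Finset.prod_const,
    Finset.card_image_of_injective _ (fun a b h => by simpa using h), geo_Iio]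

/-- The counting lemma. -/
theorem count_bound {W : Set (JJ → ℕ)} (hW : 0 < nu W) : ∃ N, ∀ n ≥ N, ∀ T : Finset (List Bool),
    (∀ s ∈ T, ∀ z ∈ W, z (n, s) < n) → T.card ≤ n * 2 ^ n := by
  set δ : ℝ := (nu W).toReal with hδ
  have hδ0 : 0 < δ := ENNReal.toReal_pos hW.ne' (measure_ne_top _ _)
  have h1 : Tendsto (fun n : ℕ => Real.exp (-(n : ℝ))) atTop (nhds 0) :=
    Real.tendsto_exp_neg_atTop_nhds_zero.comp tendsto_natCast_atTop_atTop
  obtain ⟨N, hN⟩ := eventually_atTop.1 (h1.eventually (gt_mem_nhds hδ0))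
  refine ⟨N, fun n hn T hT => ?_⟩
  by_contra hcon
  push Not at hcon
  have h2 : nu W ≤ (1 - 2⁻¹ ^ n) ^ T.card := by
    rw [← nu_cyl]
    exact measure_mono fun z hz s hs => hT s hs z hz
  have h3 : δ ≤ (1 - (2⁻¹ : ℝ) ^ n) ^ T.card := by
    have h4 := ENNReal.toReal_mono (b := (1 - 2⁻¹ ^ n) ^ T.card) (by
      refine ENNReal.pow_ne_top ?_
      exact (lt_of_le_of_lt tsub_le_self ENNReal.one_lt_top).ne) h2
    rw [ENNReal.toReal_pow, ENNReal.toReal_sub_of_le (by
      exact pow_le_one' (by simp) n) (by simp)] at h4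
    simpa using h4
  have h5 : (1 - (2⁻¹ : ℝ) ^ n) ^ T.card ≤ Real.exp (-(n : ℝ)) := by
    have h6 : 0 ≤ 1 - (2⁻¹ : ℝ) ^ n := by
      have : (2⁻¹ : ℝ) ^ n ≤ 1 := pow_le_one₀ (by norm_num) (by norm_num)
      linarith
    have h7 : 1 - (2⁻¹ : ℝ) ^ n ≤ Real.exp (-(2⁻¹ : ℝ) ^ n) := Real.one_sub_le_exp_neg _
    calc (1 - (2⁻¹ : ℝ) ^ n) ^ T.card ≤ (Real.exp (-(2⁻¹ : ℝ) ^ n)) ^ T.card :=
          pow_le_pow_left₀ h6 h7 _
      _ = Real.exp (-(2⁻¹ : ℝ) ^ n * T.card) := by
          rw [← Real.exp_nat_mul]; ring_nf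
      _ ≤ Real.exp (-(n : ℝ)) := by
          refine Real.exp_le_exp.2 ?_
          have h8 : ((n * 2 ^ n : ℕ) : ℝ) ≤ T.card := by exact_mod_cast hcon.le
          have h9 : (2⁻¹ : ℝ) ^ n * ((n * 2 ^ n : ℕ) : ℝ) = n := by
            push_cast
            rw [mul_comm (n : ℝ), ← mul_assoc, ← mul_pow]
            norm_num
          have h10 : (2⁻¹ : ℝ) ^ n * ((n * 2 ^ n : ℕ) : ℝ) ≤ (2⁻¹ : ℝ) ^ n * T.card :=
            mul_le_mul_of_nonneg_left h8 (by positivity)
          linarith
  have h11 := hN n hn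
  linarith

/-- a closed subset of positive measure all of whose nonempty open parts have positive measure -/
theorem exists_support {Ω : Type} [TopologicalSpace Ω] [PolishSpace Ω] [MeasurableSpace Ω]
    [BorelSpace Ω] (μ : Measure Ω) {K : Set Ω} (hK : IsClosed K) (hpos : 0 < μ K) :
    ∃ K' ⊆ K, IsClosed K' ∧ K'.Nonempty ∧
      ∀ V : Set Ω, IsOpen V → (K' ∩ V).Nonempty → 0 < μ (K' ∩ V) := by
  set B := TopologicalSpace.countableBasis Ω with hB
  have hBb := TopologicalSpace.isBasis_countableBasis Ω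
  have hBc := TopologicalSpace.countable_countableBasis Ω
  set N : Set (Set Ω) := {U ∈ B | μ (K ∩ U) = 0} with hN
  have hNc : N.Countable := hBc.mono (sep_subset _ _)
  set K' := K \ ⋃₀ N with hK'
  have hK'c : IsClosed K' := by
    rw [hK', sdiff_eq]
    refine hK.inter (IsOpen.isClosed_compl ?_)
    exact isOpen_sUnion fun U hU => hBb.isOpen hU.1
  have h0 : μ (K ∩ ⋃₀ N) = 0 := by
    rw [sUnion_eq_biUnion, inter_iUnion₂]
    exact (measure_biUnion_null_iff hNc).2 fun U hU => hU.2
  have h1 : 0 < μ K' := by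
    by_contra hcon
    have h2 : μ K' = 0 := by simpa using hcon
    have h3 : μ K ≤ μ K' + μ (K ∩ ⋃₀ N) := by
      refine le_trans (measure_mono ?_) (measure_union_le _ _)
      intro z hz
      by_cases h : z ∈ ⋃₀ N
      · exact Or.inr ⟨hz, h⟩
      · exact Or.inl ⟨hz, h⟩
    rw [h2, h0, add_zero] at h3
    exact absurd (lt_of_lt_of_le hpos h3) (lt_irrefl _)
  refine ⟨K', sdiff_subset, hK'c, nonempty_of_measure_ne_zero h1.ne', fun V hV hne => ?_⟩
  obtain ⟨z, hzK, hzV⟩ := hne
  obtain ⟨U, hU, hzU, hUV⟩ := hBb.exists_subset_of_mem_open hzV hV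
  by_contra hcon
  have h2 : μ (K' ∩ V) = 0 := by simpa using hcon
  have h3 : μ (K ∩ U) = 0 := by
    have h4 : μ (K ∩ U) ≤ μ (K' ∩ V) + μ (K ∩ ⋃₀ N) := by
      refine le_trans (measure_mono ?_) (measure_union_le _ _)
      intro w hw
      by_cases h : w ∈ ⋃₀ N
      · exact Or.inr ⟨hw.1, h⟩
      · exact Or.inl ⟨⟨hw.1, h⟩, hUV hw.2⟩
    rw [h2, h0, add_zero] at h4
    simpa using h4
  exact hzK.2 ⟨U, ⟨hU, h3⟩, hzU⟩

theorem continuous_coord (j : JJ) : Continuous (fun z : JJ → ℕ => z j) := continuous_apply j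

/-- If the union of the null sets attached to the points of `X` is null, then the Raisonnier filter
contains a set with few elements in the intervals `[f n, f (n+1))`. -/
theorem exists_sparse_mem {f : ℕ → ℕ} (hf : StrictMono f) {X : Set CS}
    (hnull : nu {z | ∃ x ∈ X, z ∈ HH f x} = 0) :
    ∃ a ∈ Rais X, ∀ n, ((Finset.Ico (f n) (f (n + 1))).filter (fun i => a i = true)).card ≤
      (n + 1) * (n * 2 ^ n) ^ 2 := by
  classical
  -- a closed set
  obtain ⟨K, hKsub, hKc, hKpos⟩ : ∃ K : Set (JJ → ℕ), Disjoint K {z | ∃ x ∈ X, z ∈ HH f x} ∧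
      IsClosed K ∧ 0 < nu K := by
    set Z := toMeasurable nu {z | ∃ x ∈ X, z ∈ HH f x} with hZ
    have hZm : MeasurableSet Z := measurableSet_toMeasurable _ _
    have hZ0 : nu Z = 0 := by rw [hZ, measure_toMeasurable]; exact hnull
    have hZc : 0 < nu Zᶜ := by
      rw [measure_compl hZm (measure_ne_top _ _), hZ0]; simp
    obtain ⟨K, hK, hKc, hKm⟩ := hZm.compl.exists_lt_isCompact_of_ne_top (measure_ne_top _ _) hZc
    refine ⟨K, ?_, hKc.isClosed, hKm⟩
    rw [Set.disjoint_left]
    intro z hz hz'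
    exact hK hz (subset_toMeasurable _ _ hz')
  obtain ⟨K', hK'K, hK'c, hK'ne, hloc⟩ := exists_support nu hKc hKpos
  set B := TopologicalSpace.countableBasis (JJ → ℕ) with hB
  have hBb := TopologicalSpace.isBasis_countableBasis (JJ → ℕ)
  have hBc : B.Countable := TopologicalSpace.countable_countableBasis (JJ → ℕ)
  -- the index type
  set I : Set (Set (JJ → ℕ) × ℕ) := {p | p.1 ∈ B ∧ (K' ∩ p.1).Nonempty} with hI
  have hIc : I.Countable := by
    refine Set.Countable.mono (s₂ := B ×ˢ univ) ?_ (hBc.prod countable_univ)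
    rintro p hp
    exact ⟨hp.1, trivial⟩
  have hInh : Nonempty I := by
    obtain ⟨z, hz⟩ := hK'ne
    obtain ⟨U, hU, hzU, -⟩ := hBb.exists_subset_of_mem_open (mem_univ z) isOpen_univ
    exact ⟨⟨(U, 0), hU, z, hz, hzU⟩⟩
  have : Countable I := hIc.to_subtype
  obtain ⟨e, he⟩ := exists_surjective_nat I
  set XU : ℕ → Set CS := fun k => {x | ∀ n ≥ (e k).1.2, ∀ z ∈ K' ∩ (e k).1.1,
    z (n, sgb x (f (n + 1))) < n} with hXU
  have hXUc : ∀ k, IsClosed (XU k) := by
    intro k
    have : XU k = ⋂ n, ⋂ (_ : n ≥ (e k).1.2), {x | (fun l => ∀ z ∈ K' ∩ (e k).1.1,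
        z (n, l) < n) (sgb x (f (n + 1)))} := by
      ext x; simp [hXU]
    rw [this]
    exact isClosed_iInter fun n => isClosed_iInter fun _ =>
      (isClopen_sgb (fun l => ∀ z ∈ K' ∩ (e k).1.1, z (n, l) < n) _).1
  have hcover : ∀ x ∈ X, ∃ k, x ∈ XU k := by
    intro x hx
    have : PolishSpace K' := hK'c.polishSpace
    have : Nonempty K' := hK'ne.to_subtype
    set E : ℕ → Set K' := fun m => {z | ∀ n ≥ m, z.1 (n, sgb x (f (n + 1))) < n} with hE
    have hEc : ∀ m, IsClosed (E m) := by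
      intro m
      have : E m = ⋂ n, ⋂ (_ : n ≥ m), {z : K' | z.1 (n, sgb x (f (n + 1))) < n} := by
        ext z; simp [hE]
      rw [this]
      refine isClosed_iInter fun n => isClosed_iInter fun _ => ?_
      exact (isClosed_discrete {v : ℕ | v < n}).preimage
        ((continuous_coord (n, sgb x (f (n + 1)))).comp continuous_subtype_val)
    have hEu : ⋃ m, E m = univ := by
      rw [eq_univ_iff_forall]
      intro z
      have h1 : z.1 ∉ HH f x := by
        intro h2
        exact (Set.disjoint_left.1 hKsub) (hK'K z.2) ⟨x, hx, h2⟩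
      simp only [HH, mem_ofPred_eq, not_frequently, not_le] at h1
      obtain ⟨m, hm⟩ := eventually_atTop.1 h1
      exact mem_iUnion.2 ⟨m, hm⟩
    obtain ⟨m, hm⟩ := nonempty_interior_of_iUnion_of_closed hEc hEu
    obtain ⟨z, hz⟩ := hm
    obtain ⟨V, hV, hVE⟩ := mem_interior.1 hz
    obtain ⟨hVo, hzV⟩ := hVE
    obtain ⟨V', hV', hVV'⟩ := isOpen_induced_iff.1 hVo
    have hzV' : z.1 ∈ V' := by
      have : z ∈ Subtype.val ⁻¹' V' := by rw [hVV']; exact hzV
      exact this
    obtain ⟨U, hU, hzU, hUV⟩ := hBb.exists_subset_of_mem_open hzV' hV'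
    obtain ⟨k, hk⟩ := he ⟨(U, m), hU, z.1, z.2, hzU⟩
    refine ⟨k, ?_⟩
    simp only [hXU, mem_ofPred_eq, hk]
    rintro n hn w ⟨hwK, hwU⟩
    have h1 : (⟨w, hwK⟩ : K') ∈ V := by
      rw [← hVV']
      exact hUV hwU
    exact hV h1 n hn
  -- the thresholds
  have hthr : ∀ k, ∃ N, ∀ n ≥ N, ∀ T : Finset (List Bool),
      (∀ s ∈ T, ∀ z ∈ K' ∩ (e k).1.1, z (n, s) < n) → T.card ≤ n * 2 ^ n := fun k =>
    count_bound (hloc _ (hBb.isOpen (e k).2.1) (e k).2.2)
  choose N hN using hthr
  set M : ℕ → ℕ := fun k => max (max (N k) (e k).1.2) k with hM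
  set a : CS := fun i => decide (∃ k, f (M k) ≤ i ∧ ∃ x ∈ XU k, ∃ y ∈ XU k, Dif x y i) with ha
  refine ⟨a, ?_, fun n => ?_⟩
  · refine mem_rais (ι := ℕ × List Bool) (fun p => XU p.1 ∩ {x | sgb x (f (M p.1)) = p.2})
      (fun p => (hXUc _).inter (isClopen_sgb (fun l => l = p.2) _).1) ?_ ?_
    · rintro ⟨k, s⟩ x ⟨hx, hxs⟩ y ⟨hy, hys⟩ i hi
      have h1 : ∀ j < f (M k), x j = y j := by
        rw [← sgb_eq_iff]
        exact hxs.trans hys.symm
      have h2 : f (M k) ≤ i := by
        by_contra hcon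
        push Not at hcon
        exact hi.2 (h1 i hcon)
      simp only [ha, decide_eq_true_eq]
      exact ⟨k, h2, x, hx, y, hy, hi⟩
    · intro x hx
      obtain ⟨k, hk⟩ := hcover x hx
      exact mem_iUnion.2 ⟨(k, sgb x (f (M k))), hk, rfl⟩
  · -- counting
    set D : ℕ → Finset ℕ := fun k => (Finset.range (f (n + 1))).filter
      (fun i => M k ≤ n ∧ ∃ x ∈ XU k, ∃ y ∈ XU k, Dif x y i) with hD
    have h1 : (Finset.Ico (f n) (f (n + 1))).filter (fun i => a i = true) ⊆
        (Finset.range (n + 1)).biUnion D := by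
      intro i hi
      rw [Finset.mem_filter, Finset.mem_Ico] at hi
      obtain ⟨⟨hi1, hi2⟩, hai⟩ := hi
      simp only [ha, decide_eq_true_eq] at hai
      obtain ⟨k, hk1, hk2⟩ := hai
      have h2 : M k < n + 1 := by
        by_contra hcon
        push Not at hcon
        have := hf.monotone hcon
        omega
      rw [Finset.mem_biUnion]
      refine ⟨k, ?_, ?_⟩
      · rw [Finset.mem_range]
        exact lt_of_le_of_lt (le_max_right _ _) h2
      · rw [hD, Finset.mem_filter, Finset.mem_range]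
        exact ⟨hi2, by omega, hk2⟩
    have h2 : ∀ k ∈ Finset.range (n + 1), (D k).card ≤ (n * 2 ^ n) ^ 2 := by
      intro k _
      by_cases hMk : M k ≤ n
      · -- the set of initial segments
        set T : Finset (List Bool) := ((Finset.univ : Finset (Fin (f (n + 1)) → Bool)).filter
          (fun t => ∃ x ∈ XU k, ∀ i : Fin (f (n + 1)), x i = t i)).image List.ofFn with hT
        have hTm : ∀ x ∈ XU k, sgb x (f (n + 1)) ∈ T := by
          intro x hx
          rw [hT, Finset.mem_image]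
          refine ⟨fun i => x i, ?_, rfl⟩
          rw [Finset.mem_filter]
          exact ⟨Finset.mem_univ _, x, hx, fun _ => rfl⟩
        have hTc : T.card ≤ n * 2 ^ n := by
          refine hN k n ?_ T ?_
          · exact le_trans (le_trans (le_max_left _ _) (le_max_left _ _)) hMk
          · intro s hs z hz
            rw [hT, Finset.mem_image] at hs
            obtain ⟨t, ht, rfl⟩ := hs
            rw [Finset.mem_filter] at ht
            obtain ⟨-, x, hx, hxt⟩ := ht
            have h3 : List.ofFn t = sgb x (f (n + 1)) := by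
              unfold sgb
              congr 1
              funext i
              exact (hxt i).symm
            rw [h3]
            exact hx n (le_trans (le_trans (le_max_right _ _) (le_max_left _ _)) hMk) z hz
        have h3 : ∀ i ∈ D k, ∃ p : List Bool × List Bool, p ∈ T ×ˢ T ∧
            ∃ x y : CS, p = (sgb x (f (n + 1)), sgb y (f (n + 1))) ∧ Dif x y i ∧
              i < f (n + 1) := by
          intro i hi
          rw [hD, Finset.mem_filter, Finset.mem_range] at hi
          obtain ⟨hi1, -, x, hx, y, hy, hd⟩ := hi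
          exact ⟨_, Finset.mem_product.2 ⟨hTm x hx, hTm y hy⟩, x, y, rfl, hd, hi1⟩
        choose! F hF1 hF2 using h3
        have h4 : (D k).card ≤ (T ×ˢ T).card := by
          refine Finset.card_le_card_of_injOn F (fun i hi => hF1 i hi) ?_
          intro i hi j hj hij
          obtain ⟨x, y, hxy, hd, hlt⟩ := hF2 i hi
          obtain ⟨x', y', hxy', hd', hlt'⟩ := hF2 j hj
          rw [hxy, hxy', Prod.mk.injEq, sgb_eq_iff, sgb_eq_iff] at hij
          obtain ⟨e1, e2⟩ := hij
          have hd2 : Dif x' y' i := by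
            refine ⟨fun l hl => ?_, ?_⟩
            · rw [← e1 l (lt_trans hl hlt), ← e2 l (lt_trans hl hlt)]
              exact hd.1 l hl
            · rw [← e1 i hlt, ← e2 i hlt]
              exact hd.2
          exact hd2.unique hd'
        rw [Finset.card_product] at h4
        calc (D k).card ≤ T.card * T.card := h4
          _ ≤ (n * 2 ^ n) * (n * 2 ^ n) := Nat.mul_le_mul hTc hTc
          _ = (n * 2 ^ n) ^ 2 := by ring
      · have : D k = ∅ := by
          rw [hD, Finset.filter_eq_empty_iff]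
          rintro i - ⟨h, -⟩
          exact hMk h
        rw [this]; simp
    calc ((Finset.Ico (f n) (f (n + 1))).filter (fun i => a i = true)).card
        ≤ ((Finset.range (n + 1)).biUnion D).card := Finset.card_le_card h1
      _ ≤ (Finset.range (n + 1)).card * (n * 2 ^ n) ^ 2 :=
        Finset.card_biUnion_le_card_mul _ _ _ h2
      _ = (n + 1) * (n * 2 ^ n) ^ 2 := by rw [Finset.card_range]

end Pool.Agent.Helper679_PU
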