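import Mathlib
import Pool.Agent.Helper679_PU.Count

/-!
The perfect set property for `Σ_{k+1}` sets.
-/

namespace Pool.Agent.Helper679_PU

open Set MeasureTheory Filter
open scoped ENNReal

theorem not_null {k : ℕ} (S : Setup k) {X : Set CS} (hX : Sig (k + 1) CS X)
    (hunc : ¬ X.Countable) : ∃ f : ℕ → ℕ, StrictMono f ∧ nu {z | ∃ x ∈ X, z ∈ HH f x} ≠ 0 := by
  obtain ⟨K, hK, hKpos, hKd⟩ := exists_closed_disjoint S hX hunc
  obtain ⟨f, hf, hfa⟩ := sparse hK hKpos (fun n => (n + 1) * (n * 2 ^ n) ^ 2)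
  refine ⟨f, hf, fun h => ?_⟩
  obtain ⟨a, ha, hac⟩ := exists_sparse_mem hf h
  obtain ⟨x, hxK, hx⟩ := hfa a hac
  exact (Set.disjoint_left.1 hKd) hxK (Rais.mono ha hx)

/-- measurability in images of the Baire space -/
theorem Setup.lm_map {k : ℕ} (S : Setup k) {X : Type} [TopologicalSpace X] [T2Space X]
    [MeasurableSpace X] [BorelSpace X] {T : BS → X} (hT : Continuous T) {A : Set X}
    (h1 : Sig (k + 2) X A) (h2 : Sig (k + 2) X Aᶜ) : NullMeasurableSet A (bm.map T) :=
  nullMeas_map bm hT (S.lm _ (h1.preimage hT) (h2.preimage hT))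

theorem Setup.lm_nu {k : ℕ} (S : Setup k) {A : Set (JJ → ℕ)} (h : Sig (k + 1) (JJ → ℕ) A) :
    NullMeasurableSet A nu := by
  have h1 := bm_reindex (J := JJ) Encodable.encode Encodable.encode_injective
  have h2 := S.lm_map (T := fun (x : BS) (j : JJ) => x (Encodable.encode j)) (by fun_prop)
    (h.mono_succ) (h.compl_mono (by omega))
  rw [h1] at h2
  exact h2

/-- Lusin's theorem, for maps into the Cantor space -/
theorem lusin {Ω : Type} [TopologicalSpace Ω] [PolishSpace Ω] [MeasurableSpace Ω] [BorelSpace Ω]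
    (μ : Measure Ω) [IsFiniteMeasure μ] {D : Set Ω} (hD : MeasurableSet D) (hpos : 0 < μ D)
    {ψ : Ω → CS} (hψ : Measurable ψ) : ∃ K ⊆ D, IsCompact K ∧ 0 < μ K ∧ ContinuousOn ψ K := by
  let _ := TopologicalSpace.upgradeIsCompletelyMetrizable Ω
  have hposh : 0 < μ D / 2 := ENNReal.half_pos hpos.ne'
  obtain ⟨ε, hε, hεs⟩ := ENNReal.exists_pos_sum_of_countable' (ι := ℕ) hposh.ne'
  have hm : ∀ n b, MeasurableSet (D ∩ {z | ψ z n = b}) := by
    intro n b
    exact hD.inter (((measurable_pi_apply n).comp hψ) (measurableSet_singleton b))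
  have hK : ∀ n b, ∃ K ⊆ D ∩ {z | ψ z n = b}, IsCompact K ∧
      μ (D ∩ {z | ψ z n = b}) < μ K + ε n := fun n b =>
    (hm n b).exists_isCompact_lt_add (measure_ne_top _ _) (hε n).ne'
  choose K hKs hKc hKm using hK
  set L : Set Ω := ⋂ n, (K n true ∪ K n false) with hL
  have hLc : IsCompact L := by
    refine IsCompact.of_isClosed_subset ((hKc 0 true).union (hKc 0 false)) ?_ (iInter_subset _ 0)
    exact isClosed_iInter fun n => (hKc n true).isClosed.union (hKc n false).isClosed
  have hLD : L ⊆ D := by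
    intro z hz
    rcases mem_iInter.1 hz 0 with h | h
    · exact (hKs _ _ h).1
    · exact (hKs _ _ h).1
  have hsmall : μ (D \ L) < μ D := by
    have h1 : D \ L ⊆ ⋃ n, ((D ∩ {z | ψ z n = true}) \ K n true ∪
        (D ∩ {z | ψ z n = false}) \ K n false) := by
      rintro z ⟨hz, hzL⟩
      simp only [hL, mem_iInter, not_forall] at hzL
      obtain ⟨n, hn⟩ := hzL
      refine mem_iUnion.2 ⟨n, ?_⟩
      simp only [mem_union, not_or] at hn
      rcases hb : ψ z n with _ | _
      · exact Or.inr ⟨⟨hz, hb⟩, hn.2⟩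
      · exact Or.inl ⟨⟨hz, hb⟩, hn.1⟩
    have h2 : ∀ n b, μ ((D ∩ {z | ψ z n = b}) \ K n b) ≤ ε n := by
      intro n b
      rw [measure_sdiff (hKs n b) (hKc n b).isClosed.measurableSet.nullMeasurableSet
        (measure_ne_top _ _)]
      exact tsub_le_iff_left.2 (hKm n b).le
    calc μ (D \ L) ≤ ∑' n, μ ((D ∩ {z | ψ z n = true}) \ K n true ∪
        (D ∩ {z | ψ z n = false}) \ K n false) := (measure_mono h1).trans (measure_iUnion_le _)
      _ ≤ ∑' n, (ε n + ε n) := ENNReal.tsum_le_tsum fun n =>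
          (measure_union_le _ _).trans (add_le_add (h2 n true) (h2 n false))
      _ = ∑' n, ε n + ∑' n, ε n := ENNReal.tsum_add
      _ < μ D / 2 + μ D / 2 := ENNReal.add_lt_add hεs hεs
      _ = μ D := ENNReal.add_halves _
  refine ⟨L, hLD, hLc, ?_, ?_⟩
  · by_contra hcon
    have h1 : μ L = 0 := by simpa using hcon
    have h2 : μ D ≤ μ L + μ (D \ L) := by
      refine le_trans (measure_mono ?_) (measure_union_le _ _)
      intro z hz
      by_cases h : z ∈ L
      · exact Or.inl h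
      · exact Or.inr ⟨hz, h⟩
    rw [h1, zero_add] at h2
    exact absurd (lt_of_le_of_lt h2 hsmall) (lt_irrefl _)
  · rw [continuousOn_pi]
    intro n z hz
    have hval : ∀ b, ∀ w ∈ K n b, ψ w n = b := fun b w hw => (hKs n b hw).2
    have hcase : ∀ b, z ∈ K n b → ContinuousWithinAt (fun y => ψ y n) L z := by
      intro b hb
      have h1 : ∀ᶠ w in nhdsWithin z L, ψ w n = ψ z n := by
        have h2 : (K n (!b))ᶜ ∈ nhds z := by
          refine (hKc n (!b)).isClosed.isOpen_compl.mem_nhds ?_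
          intro h3
          have e1 := hval b z hb
          have e2 := hval (!b) z h3
          rw [e1] at e2
          cases b <;> simp at e2
        filter_upwards [mem_nhdsWithin_of_mem_nhds h2, self_mem_nhdsWithin] with w hw hwL
        rw [hval b z hb]
        rcases mem_iInter.1 hwL n with h | h
        · cases b
          · exact absurd h hw
          · exact hval _ _ h
        · cases b
          · exact hval _ _ h
          · exact absurd h hw
      exact tendsto_nhds_of_eventually_eq h1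
    rcases mem_iInter.1 hz n with h | h
    · exact hcase true h
    · exact hcase false h

/-- Measurable uniformization on a compact set: a `Σ_{k+1}` relation whose domain is not null has a
continuous selection on a compact set of positive measure. -/
theorem Setup.selection {k : ℕ} (S : Setup k) {P : Set ((JJ → ℕ) × CS)}
    (hP : Sig (k + 1) ((JJ → ℕ) × CS) P) (hpos : nu {z | ∃ x, (z, x) ∈ P} ≠ 0) :
    ∃ (K : Set (JJ → ℕ)) (ψ : (JJ → ℕ) → CS), IsCompact K ∧ 0 < nu K ∧ ContinuousOn ψ K ∧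
      ∀ z ∈ K, (z, ψ z) ∈ P := by
  classical
  obtain ⟨F, hF, hsub, hfun, hdom⟩ := S.unif.sig hP
  have hproj : ∀ (n : ℕ), Sig (k + 1) (JJ → ℕ) {z | ∃ x, (z, x) ∈ F ∧ x n = true} := by
    intro n
    have h1 : Sig (k + 1) ((JJ → ℕ) × CS) {q | q.2 n = true} := by
      refine sig_of_measurable (by omega) ?_
      have : IsOpen {q : (JJ → ℕ) × CS | q.2 n = true} :=
        (isOpen_discrete {b | b = true}).preimage (f := fun q : (JJ → ℕ) × CS => q.2 n)
          (by fun_prop)
      exact this.measurableSet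
    have h2 := Sig.projP (hF.inter h1)
    exact h2
  have hdomS : Sig (k + 1) (JJ → ℕ) {z | ∃ x, (z, x) ∈ F} := Sig.projP hF
  have hB : ∀ n, ∃ B' : Set (JJ → ℕ), MeasurableSet B' ∧
      B' =ᵐ[nu] {z | ∃ x, (z, x) ∈ F ∧ x n = true} := by
    intro n
    obtain ⟨B', -, h1, h2⟩ := (S.lm_nu (hproj n)).exists_measurable_subset_ae_eq
    exact ⟨B', h1, h2⟩
  choose B' hB'm hB'e using hB
  set ψ : (JJ → ℕ) → CS := fun z n => decide (z ∈ B' n) with hψ
  have hψm : Measurable ψ := by
    refine measurable_pi_iff.2 fun n => ?_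
    refine measurable_to_bool ?_
    have : (fun z => ψ z n) ⁻¹' {true} = B' n := by
      ext z; simp [hψ]
    rw [this]
    exact hB'm n
  have hdeq : {z | ∃ x, (z, x) ∈ P} = {z | ∃ x, (z, x) ∈ F} := by
    ext z
    constructor
    · rintro ⟨x, hx⟩
      exact hdom z x hx
    · rintro ⟨x, hx⟩
      exact ⟨x, hsub hx⟩
  rw [hdeq] at hpos
  -- the good set
  set G : Set (JJ → ℕ) := {z | (∃ x, (z, x) ∈ F) ∧
    ∀ n, (z ∈ B' n ↔ z ∈ {z | ∃ x, (z, x) ∈ F ∧ x n = true})} with hG
  have hGe : G =ᵐ[nu] {z | ∃ x, (z, x) ∈ F} := by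
    have h1 : ∀ᵐ z ∂nu, ∀ n, (z ∈ B' n ↔ z ∈ {z | ∃ x, (z, x) ∈ F ∧ x n = true}) := by
      rw [ae_all_iff]
      intro n
      exact (hB'e n).mem_iff
    filter_upwards [h1] with z hz
    refine propext ?_
    constructor
    · intro h; exact h.1
    · intro h; exact ⟨h, hz⟩
  have hGn : NullMeasurableSet G nu := (S.lm_nu hdomS).congr hGe.symm
  obtain ⟨D, hD, hDm, hDe⟩ := hGn.exists_measurable_subset_ae_eq
  have hDpos : 0 < nu D := by
    rw [measure_congr (hDe.trans hGe)]
    exact pos_iff_ne_zero.2 hpos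
  obtain ⟨K, hKD, hKc, hKpos, hKcont⟩ := lusin nu hDm hDpos hψm
  refine ⟨K, ψ, hKc, hKpos, hKcont, fun z hz => ?_⟩
  obtain ⟨⟨x, hx⟩, hz2⟩ := hD (hKD hz)
  have : ψ z = x := by
    funext n
    simp only [hψ]
    have h1 := hz2 n
    simp only [mem_ofPred_eq] at h1
    rcases hb : x n with _ | _
    · rw [decide_eq_false_iff_not, h1]
      rintro ⟨x', hx', hx'n⟩
      rw [hfun z x' x hx' hx, hb] at hx'n
      exact absurd hx'n (by simp)
    · rw [decide_eq_true_eq, h1]
      exact ⟨x, hx, hb⟩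
  rw [this]
  exact hsub hx

/-- measurability of the set of pairs `(z, x)` with `z` in the null set of `x` -/
theorem measurableSet_HH (f : ℕ → ℕ) :
    MeasurableSet {q : (JJ → ℕ) × CS | q.1 ∈ HH f q.2} := by
  have h1 : ∀ n, IsOpen {q : (JJ → ℕ) × CS | n ≤ q.1 (n, sgb q.2 (f (n + 1)))} := by
    intro n
    have : {q : (JJ → ℕ) × CS | n ≤ q.1 (n, sgb q.2 (f (n + 1)))} =
        ⋃ s : List Bool, {q | sgb q.2 (f (n + 1)) = s} ∩ {q | n ≤ q.1 (n, s)} := by
      ext q; simp
    rw [this]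
    refine isOpen_iUnion fun s => IsOpen.inter ?_ ?_
    · exact (isOpen_sgb (fun l => l = s) _).preimage continuous_snd
    · exact (isOpen_discrete (Ici n)).preimage ((continuous_coord (n, s)).comp continuous_fst)
  have h2 : {q : (JJ → ℕ) × CS | q.1 ∈ HH f q.2} =
      ⋂ m, ⋃ n, ⋃ (_ : m ≤ n), {q | n ≤ q.1 (n, sgb q.2 (f (n + 1)))} := by
    ext q
    simp [HH, frequently_atTop]
  rw [h2]
  exact MeasurableSet.iInter fun m => MeasurableSet.iUnion fun n => MeasurableSet.iUnion fun _ =>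
    (h1 n).measurableSet

/-- **The perfect set property** for `Σ_{k+1}` subsets of the Cantor space. -/
theorem psp {k : ℕ} (S : Setup k) {X : Set CS} (hX : Sig (k + 1) CS X) (hunc : ¬ X.Countable) :
    ∃ g : CS → CS, Continuous g ∧ Function.Injective g ∧ range g ⊆ X := by
  obtain ⟨f, hf, hpos⟩ := not_null S hX hunc
  set P : Set ((JJ → ℕ) × CS) := {q | q.2 ∈ X} ∩ {q | q.1 ∈ HH f q.2} with hP
  have hPs : Sig (k + 1) ((JJ → ℕ) × CS) P := by
    refine Sig.inter (hX.preimage continuous_snd) ?_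
    exact sig_of_measurable (by omega) (measurableSet_HH f)
  obtain ⟨K, ψ, hKc, hKpos, hψc, hψP⟩ := S.selection hPs hpos
  have hcl : IsClosed (ψ '' K) := (hKc.image_of_continuousOn hψc).isClosed
  have hunc' : ¬ (ψ '' K).Countable := by
    intro h
    have h1 : K ⊆ ⋃ x ∈ ψ '' K, HH f x := by
      intro z hz
      simp only [mem_iUnion]
      exact ⟨ψ z, mem_image_of_mem _ hz, (hψP z hz).2⟩
    have h2 : nu (⋃ x ∈ ψ '' K, HH f x) = 0 := (measure_biUnion_null_iff h).2 fun x _ => nu_HH f x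
    exact absurd (measure_mono_null h1 h2) hKpos.ne'
  obtain ⟨g, hg1, hg2, hg3⟩ := hcl.exists_nat_bool_injection_of_not_countable hunc'
  refine ⟨g, hg2, hg3, hg1.trans ?_⟩
  rintro _ ⟨z, hz, rfl⟩
  exact (hψP z hz).1

end Pool.Agent.Helper679_PU
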