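import Mathlib
import Pool.Agent.Helper679_PU.PSP

/-!
Category quantifiers over the Baire space.
-/

namespace Pool.Agent.Helper679_PU

open Set MeasureTheory Filter Topology

/-- `P y` for all `y` in a comeager set -/
def AS (P : BS → Prop) : Prop := ∀ᶠ y in residual BS, P y

/-- put the finite sequence `s` in front of `y` -/
def pre (s : List ℕ) (y : BS) : BS := fun n => if n < s.length then s.getD n 0 else y (n - s.length)

theorem pre_nil (y : BS) : pre [] y = y := by
  funext n; simp [pre]

theorem pre_append (s t : List ℕ) (y : BS) : pre (s ++ t) y = pre s (pre t y) := by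
  funext n
  unfold pre
  by_cases h1 : n < s.length
  · have h2 : n < (s ++ t).length := by rw [List.length_append]; omega
    rw [if_pos h1, if_pos h2]
    exact List.getD_append _ _ _ _ h1
  · rw [if_neg h1]
    by_cases h2 : n < (s ++ t).length
    · have h3 : n - s.length < t.length := by rw [List.length_append] at h2; omega
      rw [if_pos h2, if_pos h3]
      rw [List.getD_append_right _ _ _ _ (by omega)]
    · have h3 : ¬ n - s.length < t.length := by rw [List.length_append] at h2; omega
      rw [if_neg h2, if_neg h3, List.length_append]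
      congr 1; omega

theorem continuous_pre (s : List ℕ) : Continuous (pre s) := by
  refine continuous_pi fun n => ?_
  unfold pre
  split_ifs <;> fun_prop

/-- the basic open set -/
def Nb (s : List ℕ) : Set BS := {y | ∀ i < s.length, y i = s.getD i 0}

theorem isOpen_Nb (s : List ℕ) : IsOpen (Nb s) := by
  have : Nb s = ⋂ i ∈ Finset.range s.length, {y : BS | y i = s.getD i 0} := by
    ext y; simp [Nb]
  rw [this]
  refine isOpen_biInter_finset fun i _ => ?_
  exact (isOpen_discrete ({s.getD i 0} : Set ℕ)).preimage
    (f := fun y : BS => y i) (continuous_apply i)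

theorem pre_mem_Nb (s : List ℕ) (y : BS) : pre s y ∈ Nb s := by
  intro i hi
  simp [pre, hi]

/-- drop the first `m` values -/
def drp (m : ℕ) (y : BS) : BS := fun n => y (n + m)

theorem continuous_drp (m : ℕ) : Continuous (drp m) := by unfold drp; fun_prop

theorem pre_drp {s : List ℕ} {y : BS} (h : y ∈ Nb s) : pre s (drp s.length y) = y := by
  funext n
  unfold pre drp
  by_cases h1 : n < s.length
  · rw [if_pos h1]; exact (h n h1).symm
  · rw [if_neg h1]; congr 1; omega

theorem drp_pre (s : List ℕ) (y : BS) : drp s.length (pre s y) = y := by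
  funext n
  simp [pre, drp]

theorem pre_eq_of_seg (y : BS) (m : ℕ) : y ∈ Nb (seg y m) := by
  intro i hi
  rw [seg_length] at hi
  simp [seg, hi]

/-- every open neighbourhood contains a basic one -/
theorem exists_seg {U : Set BS} (hU : IsOpen U) {y : BS} (hy : y ∈ U) :
    ∃ m, Nb (seg y m) ⊆ U := by
  rw [isOpen_pi_iff] at hU
  obtain ⟨I, u, hu, hI⟩ := hU y hy
  refine ⟨I.sup id + 1, fun x hx => hI ?_⟩
  intro i hi
  have hi' : i < I.sup id + 1 := Nat.lt_succ_of_le (Finset.le_sup (f := id) hi)
  have h1 := hx i (by rw [seg_length]; exact hi')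
  have h2 : (seg y (I.sup id + 1)).getD i 0 = y i := by simp [seg, hi']
  rw [h2] at h1
  rw [h1]
  exact (hu i hi).2

theorem isOpenMap_pre (s : List ℕ) : IsOpenMap (pre s) := by
  intro U hU
  have : pre s '' U = Nb s ∩ drp s.length ⁻¹' U := by
    ext y
    constructor
    · rintro ⟨x, hx, rfl⟩
      refine ⟨pre_mem_Nb s x, ?_⟩
      rw [mem_preimage, drp_pre]; exact hx
    · rintro ⟨h1, h2⟩
      exact ⟨_, h2, pre_drp h1⟩
  rw [this]
  exact (isOpen_Nb s).inter (hU.preimage (continuous_drp _))

theorem isOpenMap_drp (m : ℕ) : IsOpenMap (drp m) := by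
  intro U hU
  have : drp m '' U = ⋃ s : {s : List ℕ // s.length = m}, pre s.1 ⁻¹' U := by
    ext y
    simp only [mem_image, mem_iUnion, mem_preimage]
    constructor
    · rintro ⟨x, hx, rfl⟩
      refine ⟨⟨seg x m, seg_length x m⟩, ?_⟩
      have h1 : pre (seg x m) (drp (seg x m).length x) = x := pre_drp (pre_eq_of_seg x m)
      rw [seg_length] at h1
      rw [h1]; exact hx
    · rintro ⟨⟨s, hs⟩, h⟩
      refine ⟨_, h, ?_⟩
      subst hs
      exact drp_pre s y
  rw [this]
  exact isOpen_iUnion fun s => hU.preimage (continuous_pre _)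

theorem AS.mono {P Q : BS → Prop} (h : AS P) (hPQ : ∀ y, P y → Q y) : AS Q :=
  Filter.Eventually.mono h hPQ

theorem AS.and {P Q : BS → Prop} (h : AS P) (h' : AS Q) : AS fun y => P y ∧ Q y :=
  Filter.Eventually.and h h'

theorem AS.all {ι : Type*} [Countable ι] {P : ι → BS → Prop} (h : ∀ i, AS (P i)) :
    AS fun y => ∀ i, P i y := eventually_countable_forall.2 h

theorem AS.true : AS fun _ => True := Filter.Eventually.of_forall fun _ => trivial

theorem AS.exists {P : BS → Prop} (h : AS P) : ∃ y, P y := by
  have h1 : Dense {y | P y} := dense_of_mem_residual h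
  obtain ⟨y, hy⟩ := h1.nonempty
  exact ⟨y, hy⟩

theorem AS.pre {P : BS → Prop} (h : AS P) (s : List ℕ) : AS fun y => P (pre s y) :=
  (tendsto_residual_of_isOpenMap (continuous_pre s) (isOpenMap_pre s)).eventually h

theorem AS.drp {P : BS → Prop} (h : AS P) (m : ℕ) : AS fun y => P (drp m y) :=
  (tendsto_residual_of_isOpenMap (continuous_drp m) (isOpenMap_drp m)).eventually h

theorem AS.on {P : BS → Prop} {s : List ℕ} (h : AS fun y => P (Helper679_PU.pre s y)) :
    AS fun y => y ∈ Nb s → P y := by
  refine (AS.drp h s.length).mono fun y hy hs => ?_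
  rw [pre_drp hs] at hy
  exact hy

theorem AS.of_dense_open {U : Set BS} (hU : IsOpen U) (hd : Dense U) : AS fun y => y ∈ U :=
  residual_of_dense_open hU hd

/-- local to global -/
theorem AS.glue {P : BS → Prop} (h : ∀ s, ∃ t, AS fun y => P (Helper679_PU.pre (s ++ t) y)) :
    AS P := by
  choose t ht using h
  have h1 : AS fun y => y ∈ ⋃ s, Nb (s ++ t s) := by
    refine AS.of_dense_open (isOpen_iUnion fun s => isOpen_Nb _) ?_
    rw [dense_iff_inter_open]
    intro U hU hne
    obtain ⟨y, hy⟩ := hne
    obtain ⟨m, hm⟩ := exists_seg hU hy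
    refine ⟨Helper679_PU.pre (seg y m ++ t (seg y m)) y, hm ?_, mem_iUnion.2 ⟨_, pre_mem_Nb _ _⟩⟩
    rw [pre_append]
    exact pre_mem_Nb _ _
  have h2 : AS fun y => ∀ s, y ∈ Nb (s ++ t s) → P y := AS.all fun s => AS.on (ht s)
  refine (h1.and h2).mono ?_
  rintro y ⟨h3, h4⟩
  obtain ⟨s, hs⟩ := mem_iUnion.1 h3
  exact h4 s hs

/-- the zero-one law for sets with the Baire property -/
theorem not_AS {P : BS → Prop} (hP : BaireMeasurableSet {y | P y}) (h : ¬ AS P) :
    ∃ s, AS fun y => ¬ P (pre s y) := by
  obtain ⟨U, hU, hPU⟩ := hP.residualEq_isOpen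
  have h1 : AS fun y => (P y ↔ y ∈ U) := by
    refine Filter.Eventually.mono hPU fun y hy => ?_
    exact Iff.of_eq hy
  by_cases hd : Dense U
  · exact absurd ((h1.and (AS.of_dense_open hU hd)).mono fun y hy => hy.1.2 hy.2) h
  · have h2 : (closure U)ᶜ.Nonempty := by
      by_contra hcon
      rw [not_nonempty_iff_eq_empty, compl_empty_iff] at hcon
      exact hd (dense_iff_closure_eq.2 hcon)
    obtain ⟨y, hy⟩ := h2
    obtain ⟨m, hm⟩ := exists_seg isClosed_closure.isOpen_compl hy
    refine ⟨seg y m, (h1.pre (seg y m)).mono fun x hx hPx => ?_⟩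
    have h3 := hm (pre_mem_Nb (seg y m) x)
    exact h3 (subset_closure (hx.1 hPx))

theorem BaireMeasurableSet.pre {P : BS → Prop} (hP : BaireMeasurableSet {y | P y}) (s : List ℕ) :
    BaireMeasurableSet {y | P (Helper679_PU.pre s y)} := by
  obtain ⟨U, hU, hPU⟩ := hP.residualEq_isOpen
  have h1 : AS fun y => (P y ↔ y ∈ U) := by
    refine Filter.Eventually.mono hPU fun y hy => ?_
    exact Iff.of_eq hy
  have h2 : BaireMeasurableSet {y | Helper679_PU.pre s y ∈ U} :=
    (hU.preimage (continuous_pre s)).baireMeasurableSet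
  refine h2.congr ?_
  refine Filter.Eventually.mono (h1.pre s) fun y hy => ?_
  exact propext hy.symm

/-- `AS P` iff no basic open set has a comeager set of counterexamples -/
theorem AS_iff {P : BS → Prop} (hP : BaireMeasurableSet {y | P y}) :
    AS P ↔ ¬ ∃ s, AS fun y => ¬ P (pre s y) := by
  constructor
  · rintro h ⟨s, hs⟩
    obtain ⟨y, h1, h2⟩ := ((h.pre s).and hs).exists
    exact h2 h1
  · intro h
    by_contra hcon
    exact h (not_AS hP hcon)

/-- countable unions -/
theorem AS_exists {ι : Type*} [Countable ι] {P : ι → BS → Prop}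
    (hP : ∀ i, BaireMeasurableSet {y | P i y}) (h : AS fun y => ∃ i, P i y) :
    ∃ i s, AS fun y => P i (pre s y) := by
  by_contra hcon
  push Not at hcon
  have h1 : ∀ i, AS fun y => ¬ P i y := by
    intro i
    refine AS.glue fun s => ?_
    obtain ⟨t, ht⟩ := not_AS (Helper679_PU.BaireMeasurableSet.pre (hP i) s) (hcon i s)
    refine ⟨t, ?_⟩
    simpa only [pre_append] using ht
  obtain ⟨y, ⟨i, hi⟩, h2⟩ := (h.and (AS.all h1)).exists
  exact h2 i hi

/-- Borel sets are closed under the category quantifier. -/
theorem measurable_AS {X : Type} [TopologicalSpace X] [SecondCountableTopology X]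
    [MeasurableSpace X] [BorelSpace X]
    {C : Set (X × BS)} (hC : MeasurableSet C) :
    MeasurableSet {x | AS fun y => (x, y) ∈ C} := by
  have key : ∀ s : List ℕ, MeasurableSet {x | AS fun y => (x, pre s y) ∈ C} := by
    have hbor : ∀ C : Set (X × BS), MeasurableSet C → ∀ (x : X) (s : List ℕ),
        BaireMeasurableSet {y | (x, pre s y) ∈ C} := by
      intro C hC x s
      have : MeasurableSet {y | (x, pre s y) ∈ C} :=
        (measurable_const.prodMk (continuous_pre s).measurable) hC
      exact this.baireMeasurableSet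
    induction C, hC using MeasurableSet.induction_on_open with
    | isOpen U hU =>
      intro s
      have h1 : {x | AS fun y => (x, pre s y) ∈ U} =
          ⋂ t : List ℕ, {x | ∃ y, (x, pre (s ++ t) y) ∈ U} := by
        ext x
        simp only [mem_ofPred_eq, mem_iInter]
        constructor
        · intro h t
          obtain ⟨y, hy⟩ := (h.pre t).exists
          exact ⟨y, by rw [pre_append]; exact hy⟩
        · intro h
          have hop : IsOpen {y | (x, pre s y) ∈ U} :=
            hU.preimage (continuous_const.prodMk (continuous_pre s))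
          refine AS.of_dense_open (U := {y | (x, pre s y) ∈ U}) hop ?_
          rw [dense_iff_inter_open]
          intro V hV hne
          obtain ⟨y, hy⟩ := hne
          obtain ⟨m, hm⟩ := exists_seg hV hy
          obtain ⟨z, hz⟩ := h (seg y m)
          refine ⟨pre (seg y m) z, hm (pre_mem_Nb _ _), ?_⟩
          rw [mem_ofPred_eq, ← pre_append]; exact hz
      rw [h1]
      refine MeasurableSet.iInter fun t => IsOpen.measurableSet ?_
      have : {x | ∃ y, (x, pre (s ++ t) y) ∈ U} = ⋃ y, {x | (x, pre (s ++ t) y) ∈ U} := by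
        ext x; simp
      rw [this]
      exact isOpen_iUnion fun y => hU.preimage (by fun_prop)
    | compl C hC ih =>
      intro s
      have h1 : {x | AS fun y => (x, pre s y) ∈ Cᶜ} =
          ⋂ t : List ℕ, {x | AS fun y => (x, pre (s ++ t) y) ∈ C}ᶜ := by
        ext x
        simp only [mem_ofPred_eq, mem_iInter, mem_compl_iff]
        constructor
        · intro h t h2
          obtain ⟨y, h3, h4⟩ := ((h.pre t).and h2).exists
          rw [pre_append] at h4
          exact h3 h4
        · intro h
          refine AS.glue (P := fun y => (x, pre s y) ∉ C) fun t => ?_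
          obtain ⟨t', ht'⟩ := not_AS (hbor C hC x (s ++ t)) (h t)
          refine ⟨t', ht'.mono fun y hy => ?_⟩
          rw [pre_append, ← pre_append s t]; exact hy
      rw [h1]
      exact MeasurableSet.iInter fun t => (ih (s ++ t)).compl
    | iUnion f _ hf ih =>
      intro s
      have h1 : {x | AS fun y => (x, pre s y) ∈ ⋃ n, f n} =
          ⋂ t : List ℕ, ⋃ t' : List ℕ, ⋃ n, {x | AS fun y => (x, pre (s ++ (t ++ t')) y) ∈ f n} := by
        ext x
        simp only [mem_ofPred_eq, mem_iInter, mem_iUnion]
        constructor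
        · intro h t
          have h2 : AS fun y => ∃ n, (x, pre (s ++ t) y) ∈ f n := by
            refine (h.pre t).mono fun y hy => ?_
            rw [pre_append]; exact hy
          obtain ⟨n, t', h3⟩ := AS_exists (fun n => hbor (f n) (hf n) x (s ++ t)) h2
          refine ⟨t', n, h3.mono fun y hy => ?_⟩
          rw [← List.append_assoc, pre_append]; exact hy
        · intro h
          refine AS.glue (P := fun y => ∃ i, (x, pre s y) ∈ f i) fun t => ?_
          obtain ⟨t', n, hn⟩ := h t
          refine ⟨t', hn.mono fun y hy => ⟨n, ?_⟩⟩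
          rw [← pre_append]; exact hy
      rw [h1]
      exact MeasurableSet.iInter fun t => MeasurableSet.iUnion fun t' => MeasurableSet.iUnion
        fun n => ih n _
  have := key []
  simpa only [pre_nil] using this

/-- evaluation of the function coded by `d` at `y` -/
noncomputable def ev (d y : BS) : BS := fun n =>
  open Classical in
  if h : ∃ k, d (Nat.pair n (Encodable.encode (seg y k))) ≠ 0 then
    d (Nat.pair n (Encodable.encode (seg y (Nat.find h)))) - 1 else 0

theorem isOpen_seg_eval {Y : Type} [TopologicalSpace Y] {f g : Y → BS} (hf : Continuous f)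
    (hg : Continuous g) (n k : ℕ) (S : Set ℕ) :
    IsOpen {y | g y (Nat.pair n (Encodable.encode (seg (f y) k))) ∈ S} := by
  have : {y | g y (Nat.pair n (Encodable.encode (seg (f y) k))) ∈ S} =
      ⋃ s : List ℕ, {y | seg (f y) k = s} ∩ {y | g y (Nat.pair n (Encodable.encode s)) ∈ S} := by
    ext y
    simp
  rw [this]
  refine isOpen_iUnion fun s => IsOpen.inter ?_ ?_
  · exact (isOpen_seg (fun l => l = s) k).preimage hf
  · exact (isOpen_discrete S).preimage ((continuous_apply _).comp hg)

theorem measurable_ev : Measurable (fun q : BS × BS => ev q.1 q.2) := by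
  classical
  refine measurable_pi_iff.2 fun n => ?_
  refine measurable_to_countable' fun m => ?_
  -- the set where `k` is the first place
  have h1 : ∀ k (S : Set ℕ), MeasurableSet
      {q : BS × BS | q.1 (Nat.pair n (Encodable.encode (seg q.2 k))) ∈ S} := fun k S =>
    (isOpen_seg_eval continuous_snd continuous_fst n k S).measurableSet
  have h2 : (fun q : BS × BS => ev q.1 q.2 n) ⁻¹' {m} =
      (⋃ k, ({q : BS × BS | q.1 (Nat.pair n (Encodable.encode (seg q.2 k))) ∈ ({m + 1} : Set ℕ)} ∩
        ⋂ l, ⋂ (_ : l < k), {q | q.1 (Nat.pair n (Encodable.encode (seg q.2 l))) ∈ ({0} : Set ℕ)}))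
      ∪ (if m = 0 then (⋂ l, {q : BS × BS | q.1 (Nat.pair n (Encodable.encode (seg q.2 l))) ∈
        ({0} : Set ℕ)}) else ∅) := by
    ext q
    simp only [mem_preimage, mem_singleton_iff, ev, mem_union, mem_iUnion, mem_inter_iff,
      mem_iInter, mem_ofPred_eq]
    by_cases h : ∃ k, q.1 (Nat.pair n (Encodable.encode (seg q.2 k))) ≠ 0
    · rw [dif_pos h]
      constructor
      · intro hm
        left
        refine ⟨Nat.find h, ?_, ?_⟩
        · have := Nat.find_spec h
          omega
        · intro l hl
          have := Nat.find_min h hl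
          simpa using this
      · rintro (⟨k, hk1, hk2⟩ | h3)
        · have h4 : Nat.find h = k := by
            rw [Nat.find_eq_iff]
            refine ⟨by omega, fun l hl => ?_⟩
            simp [hk2 l hl]
          rw [h4]; omega
        · split_ifs at h3
          · obtain ⟨k, hk⟩ := h
            exact absurd (mem_iInter.1 h3 k) hk
          · exact absurd h3 (notMem_empty _)
    · rw [dif_neg h]
      push Not at h
      constructor
      · intro hm
        right
        rw [if_pos hm.symm]
        exact mem_iInter.2 h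
      · rintro (⟨k, hk1, hk2⟩ | h3)
        · rw [h k] at hk1; omega
        · split_ifs at h3 with h5
          · exact h5.symm
          · exact absurd h3 (notMem_empty _)
  rw [h2]
  refine MeasurableSet.union (MeasurableSet.iUnion fun k => (h1 k _).inter
    (MeasurableSet.iInter fun l => MeasurableSet.iInter fun _ => h1 l _)) ?_
  split_ifs
  · exact MeasurableSet.iInter fun l => h1 l _
  · exact MeasurableSet.empty

/-- every Baire measurable function is coded, up to a meager set -/
theorem exists_code {g : BS → BS} (hg : ∀ n m, BaireMeasurableSet {y | g y n = m}) :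
    ∃ d, AS fun y => ev d y = g y := by
  classical
  have h1 : ∀ n m, ∃ U : Set BS, IsOpen U ∧ AS fun y => (g y n = m ↔ y ∈ U) := by
    intro n m
    obtain ⟨U, hU, hPU⟩ := (hg n m).residualEq_isOpen
    exact ⟨U, hU, Filter.Eventually.mono hPU fun y hy => Iff.of_eq hy⟩
  choose U hU hgU using h1
  set d : BS := fun j => if h : ∃ m, ∃ s : List ℕ, Encodable.encode s = j.unpair.2 ∧
    Nb s ⊆ U j.unpair.1 m then h.choose + 1 else 0 with hd
  refine ⟨d, (AS.all fun n => AS.all fun m => hgU n m).mono fun y hy => ?_⟩
  have hval : ∀ n k, d (Nat.pair n (Encodable.encode (seg y k))) ≠ 0 →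
      d (Nat.pair n (Encodable.encode (seg y k))) = g y n + 1 := by
    intro n k hne
    simp only [hd, Nat.unpair_pair] at hne ⊢
    split_ifs at hne ⊢ with h
    · obtain ⟨s, hs1, hs2⟩ := h.choose_spec
      have hs : s = seg y k := Encodable.encode_injective hs1
      rw [hs] at hs2
      rw [(hy n h.choose).2 (hs2 (pre_eq_of_seg y k))]
    · exact absurd rfl hne
  have hex : ∀ n, ∃ k, d (Nat.pair n (Encodable.encode (seg y k))) ≠ 0 := by
    intro n
    have h2 : y ∈ U n (g y n) := (hy n _).1 rfl
    obtain ⟨k, hk⟩ := exists_seg (hU _ _) h2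
    refine ⟨k, ?_⟩
    simp only [hd, Nat.unpair_pair]
    rw [dif_pos ⟨g y n, seg y k, rfl, hk⟩]
    omega
  funext n
  unfold ev
  rw [dif_pos (hex n), hval n _ (Nat.find_spec (hex n))]
  rfl

end Pool.Agent.Helper679_PU
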