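import Mathlib
import Pool.Agent.Helper679_PU.Cat

/-!
The projective classes are closed under the category quantifier.
-/

namespace Pool.Agent.Helper679_PU

open Set MeasureTheory Filter Topology

/-- Uniformization at level `k` and the Baire property for `Σ_{k+1}`. -/
structure CSetup (k : ℕ) : Prop where
  unif : PiUnif k
  bp : ∀ A : Set BS, Sig (k + 1) BS A → BaireMeasurableSet A

/-- the usual form of the Baire property -/
theorem baire_of_symmDiff {A : Set BS} (h : ∃ U : Set BS, IsOpen U ∧ IsMeagre (symmDiff A U)) :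
    BaireMeasurableSet A := by
  obtain ⟨U, hU, hm⟩ := h
  refine BaireMeasurableSet.congr hU.baireMeasurableSet ?_
  have hm' : ∀ᶠ x in residual BS, x ∉ symmDiff A U := hm
  refine Filter.Eventually.mono hm' fun x hx => ?_
  rw [Set.mem_symmDiff] at hx
  refine propext ?_
  change x ∈ U ↔ x ∈ A
  tauto

theorem CSetup.bpS {k : ℕ} (S : CSetup k) {j : ℕ} (hj : j ≤ k + 1) {A : Set BS}
    (hA : Sig j BS A) : BaireMeasurableSet A :=
  S.bp A (hA.mono (by omega))

/-- category uniformization -/
theorem CSetup.cunif {k : ℕ} (S : CSetup k) {P : Set (BS × BS)} (hP : Sig (k + 1) (BS × BS) P)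
    (h : AS fun y => ∃ w, (y, w) ∈ P) : ∃ d, AS fun y => (y, ev d y) ∈ P := by
  classical
  obtain ⟨F, hF, hsub, hfun, hdom⟩ := S.unif.sig hP
  set g : BS → BS := fun y => if hy : ∃ w, (y, w) ∈ F then hy.choose else fun _ => 0 with hg
  have h1 : ∀ y, (∃ w, (y, w) ∈ P) → (y, g y) ∈ F := by
    rintro y ⟨w, hw⟩
    have hy : ∃ w, (y, w) ∈ F := hdom y w hw
    simp only [hg]
    rw [dif_pos hy]
    exact hy.choose_spec
  have h2 : ∀ n m, BaireMeasurableSet {y | g y n = m} := by
    intro n m
    have hA : BaireMeasurableSet {y | ∃ w, (y, w) ∈ F ∧ w n = m} := by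
      have h3 : Sig (k + 1) (BS × BS) {q | q.2 n = m} := by
        refine sig_of_measurable (by omega) ?_
        have : IsOpen {q : BS × BS | q.2 n = m} :=
          (isOpen_discrete ({m} : Set ℕ)).preimage (f := fun q : BS × BS => q.2 n)
            (by fun_prop)
        exact this.measurableSet
      exact S.bpS (j := k + 1) (by omega) (Sig.projP (hF.inter h3))
    refine hA.congr ?_
    refine Filter.Eventually.mono h fun y hy => propext ?_
    have h4 := h1 y hy
    constructor
    · rintro ⟨w, hw, hwn⟩
      rw [hfun y w (g y) hw h4] at hwn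
      exact hwn
    · intro h5
      exact ⟨_, h4, h5⟩
  obtain ⟨d, hd⟩ := exists_code h2
  refine ⟨d, (hd.and h).mono fun y hy => ?_⟩
  rw [hy.1]
  exact hsub (h1 y hy.2)

theorem CSetup.AS_sig {k : ℕ} (S : CSetup k) {j : ℕ} (hj : j ≤ k) {X : Type} [TopologicalSpace X]
    [PolishSpace X] {A : Set (X × BS)} (hA : Sig (j + 1) (X × BS) A) :
    Sig (j + 1) X {x | AS fun y => (x, y) ∈ A} := by
  induction j generalizing X with
  | zero =>
    borelize X
    obtain ⟨B, hB, rfl⟩ := hA
    have hBc : IsClosed B := ⟨hB⟩
    set C : Set (X × BS) := {p | AS fun y => ((p.1, y), ev p.2 y) ∈ B} with hC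
    have hCm : MeasurableSet C := by
      refine measurable_AS (X := X × BS) (C := {r | ((r.1.1, r.2), ev r.1.2 r.2) ∈ B}) ?_
      have hf : Measurable (fun r : (X × BS) × BS => ((r.1.1, r.2), ev r.1.2 r.2)) := by
        refine Measurable.prodMk (by fun_prop) ?_
        exact measurable_ev.comp (Measurable.prodMk (by fun_prop) measurable_snd)
      exact hf hBc.measurableSet
    have h1 : {x | AS fun y => (x, y) ∈ Prod.fst '' B} = Prod.fst '' C := by
      ext x
      simp only [mem_ofPred_eq, mem_image, Prod.exists, exists_and_right, exists_eq_right, hC]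
      constructor
      · intro h
        refine S.cunif (P := {q | ((x, q.1), q.2) ∈ B}) ?_ h
        have : Sig 1 (BS × BS) {q | ((x, q.1), q.2) ∈ B} := by
          refine Sig.preimage (f := fun q : BS × BS => ((x, q.1), q.2)) (by fun_prop) ?_
          exact Sig.compl_succ hB
        exact this.mono (by omega)
      · rintro ⟨d, hd⟩
        exact hd.mono fun y hy => ⟨_, hy⟩
    rw [h1]
    exact Sig.proj (sig_of_measurable (by omega) hCm)
  | succ j ih =>
    borelize X
    obtain ⟨B, hB, rfl⟩ := hA
    set C : Set (X × BS) := {p | AS fun y => ((p.1, y), ev p.2 y) ∈ B} with hC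
    have hf : Measurable (fun r : (X × BS) × BS => ((r.1.1, r.2), ev r.1.2 r.2)) := by
      refine Measurable.prodMk (by fun_prop) ?_
      exact measurable_ev.comp (Measurable.prodMk (by fun_prop) measurable_snd)
    have hCc : Sig (j + 1) (X × BS) Cᶜ := by
      have h2 : Cᶜ = ⋃ s : List ℕ, {p | AS fun y =>
          ((p.1, pre s y), ev p.2 (pre s y)) ∈ Bᶜ} := by
        ext p
        simp only [hC, mem_compl_iff, mem_ofPred_eq, mem_iUnion]
        have hbp : BaireMeasurableSet {y | ((p.1, y), ev p.2 y) ∈ B} := by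
          have h3 : Sig (j + 1) BS {y | ((p.1, y), ev p.2 y) ∈ Bᶜ} := by
            refine Sig.preimage_borel (f := fun y => ((p.1, y), ev p.2 y)) ?_ hB
            exact hf.comp (measurable_const.prodMk measurable_id)
          have h4 := (S.bpS (by omega) h3).compl
          convert h4 using 1
          ext y; simp
        constructor
        · intro h
          exact not_AS hbp h
        · rintro ⟨s, hs⟩ h
          obtain ⟨y, hy1, hy2⟩ := ((h.pre s).and hs).exists
          exact hy2 hy1
      rw [h2]
      refine Sig.iUnionC fun s => ?_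
      refine ih (by omega) (X := X × BS) (A := {r | ((r.1.1, pre s r.2), ev r.1.2 (pre s r.2)) ∈ Bᶜ})
        ?_
      refine Sig.preimage_borel
        (f := fun r : (X × BS) × BS => ((r.1.1, pre s r.2), ev r.1.2 (pre s r.2))) ?_ hB
      have hg : Measurable (fun r : (X × BS) × BS => (r.1, pre s r.2)) :=
        measurable_fst.prodMk ((continuous_pre s).measurable.comp measurable_snd)
      exact hf.comp hg
    have h1 : {x | AS fun y => (x, y) ∈ Prod.fst '' B} = Prod.fst '' C := by
      ext x
      simp only [mem_ofPred_eq, mem_image, Prod.exists, exists_and_right, exists_eq_right, hC]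
      constructor
      · intro h
        refine S.cunif (P := {q | ((x, q.1), q.2) ∈ B}) ?_ h
        have : Sig (j + 2) (BS × BS) {q | ((x, q.1), q.2) ∈ B} := by
          refine Sig.preimage (f := fun q : BS × BS => ((x, q.1), q.2)) (by fun_prop) ?_
          exact Sig.compl_succ hB
        exact this.mono (by omega)
      · rintro ⟨d, hd⟩
        exact hd.mono fun y hy => ⟨_, hy⟩
    rw [h1]
    exact ⟨C, hCc, rfl⟩

theorem CSetup.AS_pi {k : ℕ} (S : CSetup k) {j : ℕ} (hj : j ≤ k) {X : Type} [TopologicalSpace X]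
    [PolishSpace X] {A : Set (X × BS)} (hA : Sig (j + 1) (X × BS) A) :
    Sig (j + 1) X {x | AS fun y => (x, y) ∉ A}ᶜ := by
  have h1 : {x | AS fun y => (x, y) ∉ A}ᶜ = ⋃ s : List ℕ, {x | AS fun y => (x, pre s y) ∈ A} := by
    ext x
    simp only [mem_compl_iff, mem_ofPred_eq, mem_iUnion]
    have hbp : BaireMeasurableSet {y | (x, y) ∉ A} := by
      have h3 : Sig (j + 1) BS {y | (x, y) ∈ A} := hA.preimage (f := fun y => (x, y)) (by fun_prop)
      exact (S.bpS (by omega) h3).compl
    constructor
    · intro h
      obtain ⟨s, hs⟩ := not_AS hbp h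
      exact ⟨s, hs.mono fun y hy => by simpa using hy⟩
    · rintro ⟨s, hs⟩ h
      obtain ⟨y, hy1, hy2⟩ := ((h.pre s).and hs).exists
      exact hy1 hy2
  rw [h1]
  refine Sig.iUnionC fun s => S.AS_sig hj (A := {q | (q.1, pre s q.2) ∈ A}) ?_
  refine hA.preimage (f := fun q : X × BS => (q.1, pre s q.2)) ?_
  exact continuous_fst.prodMk ((continuous_pre s).comp continuous_snd)

end Pool.Agent.Helper679_PU
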