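import Mathlib
import Pool.Agent.Helper679_PU.Clo

/-!
A small calculus for `Σ_{k+1}` and `Δ_{k+1}` predicates.
-/

namespace Pool.Agent.Helper679_PU

open Set MeasureTheory Filter Topology

/-- `Σ_{k+1}` predicates -/
def Sg (k : ℕ) (X : Type) [TopologicalSpace X] (P : X → Prop) : Prop := Sig (k + 1) X {x | P x}

/-- `Δ_{k+1}` predicates -/
def Dl (k : ℕ) (X : Type) [TopologicalSpace X] (P : X → Prop) : Prop :=
  Sg k X P ∧ Sg k X fun x => ¬ P x

variable {k : ℕ} {X : Type} [TopologicalSpace X] {P Q : X → Prop}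

theorem Sg.congr (h : Sg k X P) (hPQ : ∀ x, P x ↔ Q x) : Sg k X Q := by
  have : {x | P x} = {x | Q x} := by ext x; exact hPQ x
  unfold Sg at h ⊢
  rwa [← this]

theorem Dl.congr (h : Dl k X P) (hPQ : ∀ x, P x ↔ Q x) : Dl k X Q :=
  ⟨h.1.congr hPQ, h.2.congr fun x => not_congr (hPQ x)⟩

theorem Sg.and (h : Sg k X P) (h' : Sg k X Q) : Sg k X fun x => P x ∧ Q x := Sig.inter h h'

theorem Sg.or (h : Sg k X P) (h' : Sg k X Q) : Sg k X fun x => P x ∨ Q x := Sig.union h h'

theorem Sg.all {ι : Sort*} [Countable ι] {P : ι → X → Prop} (h : ∀ i, Sg k X (P i)) :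
    Sg k X fun x => ∀ i, P i x := by
  have := Sig.iInterC h
  unfold Sg
  convert this using 1
  ext x; simp

theorem Sg.ex {ι : Sort*} [Countable ι] {P : ι → X → Prop} (h : ∀ i, Sg k X (P i)) :
    Sg k X fun x => ∃ i, P i x := by
  have := Sig.iUnionC h
  unfold Sg
  convert this using 1
  ext x; simp

theorem Sg.exP {Z : Type} [TopologicalSpace Z] [PolishSpace Z] {P : X → Z → Prop}
    (h : Sg k (X × Z) fun q => P q.1 q.2) : Sg k X fun x => ∃ z, P x z := Sig.projP h

theorem Sg.comp {Y : Type} [TopologicalSpace Y] {f : X → Y} (hf : Continuous f) {P : Y → Prop}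
    (h : Sg k Y P) : Sg k X fun x => P (f x) := Sig.preimage hf h

theorem Sg.compM [PolishSpace X] [MeasurableSpace X] [BorelSpace X] {Y : Type}
    [TopologicalSpace Y] [PolishSpace Y] [MeasurableSpace Y] [BorelSpace Y] {f : X → Y}
    (hf : Measurable f) {P : Y → Prop} (h : Sg k Y P) : Sg k X fun x => P (f x) :=
  Sig.preimage_borel hf h

theorem Dl.sg (h : Dl k X P) : Sg k X P := h.1

theorem Dl.not (h : Dl k X P) : Dl k X fun x => ¬ P x :=
  ⟨h.2, h.1.congr fun x => by simp⟩

theorem Dl.and (h : Dl k X P) (h' : Dl k X Q) : Dl k X fun x => P x ∧ Q x :=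
  ⟨h.1.and h'.1, (h.2.or h'.2).congr fun x => by tauto⟩

theorem Dl.or (h : Dl k X P) (h' : Dl k X Q) : Dl k X fun x => P x ∨ Q x :=
  ⟨h.1.or h'.1, (h.2.and h'.2).congr fun x => by tauto⟩

theorem Dl.imp (h : Dl k X P) (h' : Dl k X Q) : Dl k X fun x => P x → Q x :=
  (h.not.or h').congr fun x => by tauto

theorem Dl.iff (h : Dl k X P) (h' : Dl k X Q) : Dl k X fun x => P x ↔ Q x :=
  ((h.imp h').and (h'.imp h)).congr fun x => by tauto

theorem Dl.all {ι : Sort*} [Countable ι] {P : ι → X → Prop} (h : ∀ i, Dl k X (P i)) :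
    Dl k X fun x => ∀ i, P i x :=
  ⟨Sg.all fun i => (h i).1, (Sg.ex fun i => (h i).2).congr fun x => by simp⟩

theorem Dl.ex {ι : Sort*} [Countable ι] {P : ι → X → Prop} (h : ∀ i, Dl k X (P i)) :
    Dl k X fun x => ∃ i, P i x :=
  ⟨Sg.ex fun i => (h i).1, (Sg.all fun i => (h i).2).congr fun x => by simp⟩

theorem Dl.comp {Y : Type} [TopologicalSpace Y] {f : X → Y} (hf : Continuous f) {P : Y → Prop}
    (h : Dl k Y P) : Dl k X fun x => P (f x) := ⟨h.1.comp hf, h.2.comp hf⟩

theorem Dl.compM [PolishSpace X] [MeasurableSpace X] [BorelSpace X] {Y : Type}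
    [TopologicalSpace Y] [PolishSpace Y] [MeasurableSpace Y] [BorelSpace Y] {f : X → Y}
    (hf : Measurable f) {P : Y → Prop} (h : Dl k Y P) : Dl k X fun x => P (f x) :=
  ⟨h.1.compM hf, h.2.compM hf⟩

theorem Dl.of_meas [PolishSpace X] [MeasurableSpace X] [BorelSpace X]
    (h : MeasurableSet {x | P x}) : Dl k X P :=
  ⟨sig_of_measurable (by omega) h, sig_of_measurable (by omega) h.compl⟩

theorem Dl.const (p : Prop) : Dl k X fun _ => p := by
  by_cases h : p
  · have h1 : {x : X | p} = univ := by ext; simp [h]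
    have h2 : {x : X | ¬ p} = ∅ := by ext; simp [h]
    unfold Dl Sg
    rw [h1, h2]
    exact ⟨sig_empty.2, sig_empty.1⟩
  · have h1 : {x : X | p} = ∅ := by ext; simp [h]
    have h2 : {x : X | ¬ p} = univ := by ext; simp [h]
    unfold Dl Sg
    rw [h1, h2]
    exact ⟨sig_empty.1, sig_empty.2⟩

/-- substitution of a function with countable range -/
theorem Dl.sub {ι : Type*} [Countable ι] {f : X → ι} (hf : ∀ i, Dl k X fun x => f x = i)
    {P : ι → X → Prop} (h : ∀ i, Dl k X (P i)) : Dl k X fun x => P (f x) x :=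
  (Dl.ex fun i => (hf i).and (h i)).congr fun x => by simp

theorem Sg.sub {ι : Type*} [Countable ι] {f : X → ι} (hf : ∀ i, Dl k X fun x => f x = i)
    {P : ι → X → Prop} (h : ∀ i, Sg k X (P i)) : Sg k X fun x => P (f x) x :=
  (Sg.ex fun i => (hf i).1.and (h i)).congr fun x => by simp

/-- conditional on a decidable constant -/
theorem Dl.of_imp {p : Prop} (h : p → Dl k X P) : Dl k X fun x => p → P x := by
  by_cases hp : p
  · exact (h hp).congr fun x => by simp [hp]
  · exact (Dl.const True).congr fun x => by simp [hp]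

theorem Dl.of_and {p : Prop} (h : p → Dl k X P) : Dl k X fun x => p ∧ P x := by
  by_cases hp : p
  · exact (h hp).congr fun x => by simp [hp]
  · exact (Dl.const False).congr fun x => by simp [hp]

theorem Sg.of_imp {p : Prop} (h : p → Sg k X P) : Sg k X fun x => p → P x := by
  by_cases hp : p
  · exact (h hp).congr fun x => by simp [hp]
  · exact (Dl.const True).1.congr fun x => by simp [hp]

theorem Sg.of_and {p : Prop} (h : p → Sg k X P) : Sg k X fun x => p ∧ P x := by
  by_cases hp : p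
  · exact (h hp).congr fun x => by simp [hp]
  · exact (Dl.const False).1.congr fun x => by simp [hp]

/-- the category quantifier -/
theorem CSetup.AS_dl (S : CSetup k) [PolishSpace X] {P : X → BS → Prop}
    (h : Dl k (X × BS) fun q => P q.1 q.2) : Dl k X fun x => AS fun y => P x y := by
  refine ⟨S.AS_sig le_rfl h.1, ?_⟩
  have h1 := S.AS_pi le_rfl (A := {q : X × BS | ¬ P q.1 q.2}) h.2
  refine Sg.congr (P := fun x => x ∈ {x | AS fun y => (x, y) ∉ {q : X × BS | ¬ P q.1 q.2}}ᶜ) h1 ?_
  intro x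
  simp only [mem_compl_iff, mem_ofPred_eq, not_not]

/-- universal quantification over a Polish space, for Borel predicates -/
theorem dl_all_borel (hk : 1 ≤ k) [PolishSpace X] [MeasurableSpace X] [BorelSpace X] {Z : Type}
    [TopologicalSpace Z] [PolishSpace Z] [MeasurableSpace Z] [BorelSpace Z]
    {P : X → Z → Prop} (h : MeasurableSet {q : X × Z | P q.1 q.2}) :
    Dl k X fun x => ∀ z, P x z := by
  have h1 : Sig 1 X {x | ∃ z, ¬ P x z} := by
    have h2 : Sig 1 (X × Z) {q | ¬ P q.1 q.2} := (sig_one_of_measurable h).2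
    exact Sig.projP h2
  have h2 : Sig 2 X {x | ∀ z, P x z} := by
    refine Sig.compl_succ ?_
    convert h1 using 1
    ext x; simp
  refine ⟨h2.mono (by omega), ?_⟩
  have h3 : Sig (k + 1) X {x | ∃ z, ¬ P x z} := h1.mono (by omega)
  exact Sg.congr (P := fun x => ∃ z, ¬ P x z) h3 fun x => by simp

end Pool.Agent.Helper679_PU
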