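import Mathlib
import Pool.Agent.Helper679_PU.PSP

/-!
Countable closure points of projective operations on countable sets of reals.
-/

namespace Pool.Agent.Helper679_PU

open Set MeasureTheory Filter Topology
open scoped ENNReal Ordinal Cardinal

theorem countable_Iio_ord {α : Ordinal.{0}} (h : α < ω_ 1) : (Set.Iio α).Countable := by
  rw [← Set.countable_coe_iff, ← Cardinal.mk_le_aleph0_iff, Cardinal.mk_Iio_ordinal]
  rw [← Cardinal.ord_aleph, Cardinal.lt_ord, Cardinal.lt_aleph_one_iff] at h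
  exact Cardinal.lift_le_aleph0.2 h

theorem not_countable_Iio_ord : ¬ (Set.Iio (ω_ 1 : Ordinal.{0})).Countable := by
  intro h
  rw [← Set.countable_coe_iff, ← Cardinal.mk_le_aleph0_iff, Cardinal.mk_Iio_ordinal] at h
  have h1 : (ω_ 1 : Ordinal.{0}).card ≤ ℵ₀ := Cardinal.lift_le_aleph0.1 h
  rw [← Cardinal.lt_aleph_one_iff, ← Cardinal.lt_ord, Cardinal.ord_aleph] at h1
  exact lt_irrefl _ h1

section chain

variable (c0 : CS) (Psi : Set CS → Set CS)

/-- the increasing chain of sets -/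
noncomputable def II : Ordinal.{0} → Set CS
  | α => {c0} ∪ ⋃ β : Set.Iio α, (II β.1 ∪ Psi (II β.1))
termination_by α => α
decreasing_by all_goals exact β.2

theorem mem_II {α : Ordinal.{0}} {y : CS} : y ∈ II c0 Psi α ↔
    y = c0 ∨ ∃ β < α, (y ∈ II c0 Psi β ∨ y ∈ Psi (II c0 Psi β)) := by
  rw [II]
  simp

theorem II_mono {α β : Ordinal.{0}} (h : α ≤ β) : II c0 Psi α ⊆ II c0 Psi β := by
  intro y hy
  rw [mem_II] at hy ⊢
  rcases hy with h1 | ⟨γ, hγ, h1⟩
  · exact Or.inl h1
  · exact Or.inr ⟨γ, hγ.trans_le h, h1⟩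

/-- an abstract chain -/
def IsChn {ι : Type} (R : ι → ι → Prop) (E : ι → Set CS) : Prop :=
  WellFounded R ∧ ∀ n y, y ∈ E n ↔ y = c0 ∨ ∃ m, R m n ∧ (y ∈ E m ∨ y ∈ Psi (E m))

theorem exists_rank_ge {ι : Type} (R : ι → ι → Prop) [IsWellFounded ι R] {n : ι} {β : Ordinal.{0}}
    (h : β < IsWellFounded.rank R n) : ∃ m, R m n ∧ β ≤ IsWellFounded.rank R m := by
  rw [IsWellFounded.rank_eq, Ordinal.lt_iSup_iff] at h
  obtain ⟨⟨m, hm⟩, h⟩ := h
  exact ⟨m, hm, Order.lt_succ_iff.1 h⟩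

variable {c0 Psi}

theorem IsChn.eq {ι : Type} {R : ι → ι → Prop} {E : ι → Set CS} (h : IsChn c0 Psi R E)
    [IsWellFounded ι R] (n : ι) : E n = II c0 Psi (IsWellFounded.rank R n) := by
  induction n using h.1.induction with
  | _ n ih =>
    ext y
    rw [h.2, mem_II]
    constructor
    · rintro (h1 | ⟨m, hm, h1⟩)
      · exact Or.inl h1
      · rw [ih m hm] at h1
        exact Or.inr ⟨_, IsWellFounded.rank_lt_of_rel hm, h1⟩
    · rintro (h1 | ⟨β, hβ, h1⟩)
      · exact Or.inl h1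
      · obtain ⟨m, hm, h2⟩ := exists_rank_ge R hβ
        right
        refine ⟨m, hm, ?_⟩
        rw [ih m hm]
        rcases h2.lt_or_eq with h3 | h3
        · left
          rw [mem_II]
          exact Or.inr ⟨β, h3, h1⟩
        · rw [← h3]; exact h1

end chain

/-- the `n`-th row of a sequence of reals -/
def row (e : ℕ → CS) (n : ℕ) : ℕ → CS := fun i => e (Nat.pair n i)

theorem continuous_row (n : ℕ) : Continuous (fun e : ℕ → CS => row e n) := by
  refine continuous_pi fun i => ?_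
  exact continuous_apply _

/-- The data of a set operator. -/
structure Op (k : ℕ) where
  F : Set CS
  c0 : CS
  hc0 : c0 ∈ F
  r : (ℕ → CS) → ℕ → CS
  hrF : ∀ e, (∀ n, e n ∈ F) → ∀ t, r e t ∈ F
  hcongr : ∀ e e', range e = range e' → range (r e) = range (r e')
  hsig : ∀ t, Sig (k + 1) ((ℕ → CS) × CS) {q | r q.1 t = q.2}
  hno : ∀ e, (∀ n, e n ∈ F) → ¬ range (r e) ⊆ range e

variable {k : ℕ}

/-- the operator on sets -/
def Op.Psi (O : Op k) (Y : Set CS) : Set CS := {y | ∃ e, range e = Y ∧ y ∈ range (O.r e)}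

theorem Op.Psi_range (O : Op k) (e : ℕ → CS) : O.Psi (range e) = range (O.r e) := by
  ext y
  constructor
  · rintro ⟨e', he', hy⟩
    rw [O.hcongr e' e he'] at hy
    exact hy
  · intro hy
    exact ⟨e, rfl, hy⟩

/-- the stages -/
noncomputable def Op.I (O : Op k) (α : Ordinal.{0}) : Set CS := II O.c0 O.Psi α

theorem Op.exists_enum (O : Op k) {α : Ordinal.{0}} (h : α < ω_ 1) :
    ∃ e : ℕ → CS, range e = O.I α ∧ ∀ n, e n ∈ O.F := by
  induction α using WellFoundedLT.induction with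
  | _ α ih =>
    have h1 : ∀ β, β < α → (O.I β).Countable ∧ (O.Psi (O.I β)).Countable ∧ O.I β ⊆ O.F ∧
        O.Psi (O.I β) ⊆ O.F := by
      intro β hβ
      obtain ⟨e, he, heF⟩ := ih β hβ (hβ.trans h)
      rw [← he, O.Psi_range]
      refine ⟨countable_range e, countable_range _, ?_, ?_⟩
      · rintro _ ⟨n, rfl⟩; exact heF n
      · rintro _ ⟨n, rfl⟩; exact O.hrF e heF n
    have h2 : O.I α = {O.c0} ∪ ⋃ β ∈ Set.Iio α, (O.I β ∪ O.Psi (O.I β)) := by
      ext y
      simp only [Op.I]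
      rw [mem_II]
      simp
    have h3 : (O.I α).Countable := by
      rw [h2]
      refine (countable_singleton _).union ?_
      exact (countable_Iio_ord h).biUnion fun β hβ => (h1 β hβ).1.union (h1 β hβ).2.1
    have h4 : (O.I α).Nonempty := by
      rw [h2]; exact ⟨_, Or.inl rfl⟩
    have h5 : O.I α ⊆ O.F := by
      rw [h2]
      rintro y (hy | hy)
      · rw [hy]; exact O.hc0
      · simp only [mem_iUnion] at hy
        obtain ⟨β, hβ, hy⟩ := hy
        rcases hy with hy | hy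
        · exact (h1 β hβ).2.2.1 hy
        · exact (h1 β hβ).2.2.2 hy
    obtain ⟨e, he⟩ := h3.exists_eq_range h4
    exact ⟨e, he.symm, fun n => h5 (he ▸ mem_range_self n)⟩

/-- codes for chains -/
def Op.Cd (O : Op k) : Set (CS × (ℕ → CS)) :=
  {c | IsChn O.c0 O.Psi (RW c.1) (fun n => range (row c.2 n))}

theorem Op.exists_code (O : Op k) {α : Ordinal.{0}} (h : α < ω_ 1) :
    ∃ c ∈ O.Cd, ∃ n, range (row c.2 n) = O.I α := by
  classical
  have hc : (Set.Iio (Order.succ α)).Countable := by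
    rw [Order.Iio_succ_eq_insert]
    exact (countable_Iio_ord h).insert _
  obtain ⟨f, hf⟩ := hc.exists_eq_range ⟨α, Order.lt_succ α⟩
  have hfn : ∀ n, f n ≤ α := fun n => Order.lt_succ_iff.1 (by
    have : f n ∈ Set.Iio (Order.succ α) := hf ▸ mem_range_self n
    exact this)
  choose en hen _ using fun n : ℕ => O.exists_enum ((hfn n).trans_lt h)
  have hrow : ∀ n, row (fun j => en j.unpair.1 j.unpair.2) n = en n := by
    intro n; funext i; simp [row]
  refine ⟨(fun j => decide (f j.unpair.1 < f j.unpair.2), fun j => en j.unpair.1 j.unpair.2), ?_, ?_⟩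
  · have hR : ∀ m n, RW (fun j => decide (f j.unpair.1 < f j.unpair.2)) m n ↔ f m < f n := by
      intro m n; simp [RW]
    refine ⟨?_, ?_⟩
    · have h1 : WellFounded (InvImage (fun a b : Ordinal.{0} => a < b) f) :=
        InvImage.wf f Ordinal.lt_wf
      refine Subrelation.wf ?_ h1
      intro m n hmn
      exact (hR m n).1 hmn
    · intro n y
      simp only [hrow, hen, hR]
      simp only [Op.I]
      rw [mem_II]
      constructor
      · rintro (h1 | ⟨β, hβ, h1⟩)
        · exact Or.inl h1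
        · right
          have h2 : β ∈ range f := by
            rw [← hf]
            exact Order.lt_succ_iff.2 (hβ.le.trans (hfn n))
          obtain ⟨m, rfl⟩ := h2
          exact ⟨m, hβ, h1⟩
      · rintro (h1 | ⟨m, hm, h1⟩)
        · exact Or.inl h1
        · exact Or.inr ⟨_, hm, h1⟩
  · have h2 : α ∈ range f := by
      rw [← hf]
      exact Order.lt_succ α
    obtain ⟨n, hn⟩ := h2
    refine ⟨n, ?_⟩
    rw [hrow, hen, hn]

theorem Op.cd_eq (O : Op k) {c : CS × (ℕ → CS)} (hc : c ∈ O.Cd) [IsWellFounded ℕ (RW c.1)] (n : ℕ) :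
    range (row c.2 n) = O.I (IsWellFounded.rank (RW c.1) n) := IsChn.eq hc n

/-- the union of the stages -/
def Op.Y (O : Op k) : Set CS := {y | ∃ c ∈ O.Cd, ∃ n i, row c.2 n i = y}

/-- the comparison of stages -/
def Op.L (O : Op k) : Set (CS × CS) :=
  {q | ∃ c ∈ O.Cd, ∃ n, (∃ i, row c.2 n i = q.1) ∧ ∀ m, RW c.1 m n → ∀ j, row c.2 m j ≠ q.2}

theorem Op.Y_not_countable (O : Op k) : ¬ O.Y.Countable := by
  intro hY
  have h1 : ∀ α : Ordinal.{0}, α < ω_ 1 → O.I α ⊆ O.Y := by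
    intro α hα y hy
    obtain ⟨c, hc, n, hn⟩ := O.exists_code hα
    rw [← hn] at hy
    obtain ⟨i, hi⟩ := hy
    exact ⟨c, hc, n, i, hi⟩
  have h2 : ∀ α : Ordinal.{0}, α < ω_ 1 → ∃ y, y ∉ O.I α ∧ ∀ β, α < β → y ∈ O.I β := by
    intro α hα
    obtain ⟨e, he, heF⟩ := O.exists_enum hα
    obtain ⟨y, hy, hy2⟩ := not_subset.1 (O.hno e heF)
    refine ⟨y, by rwa [← he], fun β hβ => ?_⟩
    simp only [Op.I]
    rw [mem_II]
    refine Or.inr ⟨α, hβ, Or.inr ?_⟩
    have h3 : II O.c0 O.Psi α = range e := he.symm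
    rw [h3, O.Psi_range]
    exact hy
  choose g hg1 hg2 using h2
  have h3 : (range fun a : Set.Iio (ω_ 1 : Ordinal.{0}) => g a.1 a.2).Countable := by
    refine hY.mono ?_
    rintro _ ⟨⟨α, hα⟩, rfl⟩
    have hs : Order.succ α < ω_ 1 := (Cardinal.isSuccLimit_omega 1).succ_lt hα
    exact h1 _ hs (hg2 α hα _ (Order.lt_succ α))
  have hinj : Function.Injective (fun a : Set.Iio (ω_ 1 : Ordinal.{0}) => g a.1 a.2) := by
    have key : ∀ a b : Set.Iio (ω_ 1 : Ordinal.{0}), a.1 < b.1 → g a.1 a.2 ≠ g b.1 b.2 := by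
      intro a b hab heq
      have h4 := hg2 a.1 a.2 b.1 hab
      rw [heq] at h4
      exact hg1 b.1 b.2 h4
    intro a b hab
    rcases lt_trichotomy a.1 b.1 with h | h | h
    · exact absurd hab (key a b h)
    · exact Subtype.ext h
    · exact absurd hab.symm (key b a h)
  have h5 : Countable (Set.Iio (ω_ 1 : Ordinal.{0})) := by
    have := h3.to_subtype
    exact (Equiv.ofInjective _ hinj).injective.countable
  exact not_countable_Iio_ord (Set.countable_coe_iff.1 h5)

theorem Op.L_left (O : Op k) {y' : CS} (hy' : y' ∈ O.Y) : {y | (y, y') ∈ O.L}.Countable := by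
  obtain ⟨c', hc', n', i', rfl⟩ := hy'
  refine (countable_range (row c'.2 n')).mono ?_
  rintro y ⟨c, hc, n, ⟨i, hi⟩, hn⟩
  simp only at hi hn
  have w' : IsWellFounded ℕ (RW c'.1) := ⟨hc'.1⟩
  have w : IsWellFounded ℕ (RW c.1) := ⟨hc.1⟩
  have hmem : row c'.2 n' i' ∈ O.I (IsWellFounded.rank (RW c'.1) n') := by
    rw [← O.cd_eq hc' n']; exact mem_range_self _
  rw [O.cd_eq hc' n']
  have hle : IsWellFounded.rank (RW c.1) n ≤ IsWellFounded.rank (RW c'.1) n' := by
    by_contra hcon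
    rw [not_le] at hcon
    obtain ⟨m, hm, hm2⟩ := exists_rank_ge (RW c.1) hcon
    have h1 : row c'.2 n' i' ∈ O.I (IsWellFounded.rank (RW c.1) m) := II_mono _ _ hm2 hmem
    rw [← O.cd_eq hc m] at h1
    obtain ⟨j, hj⟩ := h1
    exact hn m hm j hj
  refine II_mono _ _ hle ?_
  have h2 : y ∈ range (row c.2 n) := ⟨i, hi⟩
  rw [O.cd_eq hc n] at h2
  exact h2

theorem Op.L_right (O : Op k) {y : CS} (hy : y ∈ O.Y) : {y' | (y, y') ∉ O.L}.Countable := by
  obtain ⟨c, hc, n, i, rfl⟩ := hy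
  refine (countable_iUnion fun m => countable_range (row c.2 m)).mono ?_
  intro y' hy'
  by_contra hcon
  refine hy' ⟨c, hc, n, ⟨i, rfl⟩, fun m _ j hj => hcon ?_⟩
  exact mem_iUnion.2 ⟨m, j, hj⟩

end Pool.Agent.Helper679_PU
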