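import Mathlib
import Pool.Agent.Helper679_PU.Chain

/-!
Existence of countable closure points.
-/

namespace Pool.Agent.Helper679_PU

open Set MeasureTheory Filter Topology
open scoped ENNReal

variable {k : ℕ}

theorem sig_RW (hk : 1 ≤ k) (m n : ℕ) : Sig k (CS × (ℕ → CS)) {c | RW c.1 m n} ∧
    Sig k (CS × (ℕ → CS)) {c | RW c.1 m n}ᶜ := by
  have h1 : IsOpen {c : CS × (ℕ → CS) | RW c.1 m n} :=
    (isOpen_discrete ({true} : Set Bool)).preimage
      (f := fun c : CS × (ℕ → CS) => c.1 (Nat.pair m n)) (by fun_prop)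
  have h2 : IsOpen {c : CS × (ℕ → CS) | RW c.1 m n}ᶜ := by
    have := (isOpen_discrete ({true}ᶜ : Set Bool)).preimage
      (f := fun c : CS × (ℕ → CS) => c.1 (Nat.pair m n)) (by fun_prop)
    exact this
  exact ⟨sig_of_measurable hk h1.measurableSet, sig_of_measurable hk h2.measurableSet⟩

theorem sig_wf (hk : 1 ≤ k) : Sig (k + 1) (CS × (ℕ → CS)) {c | WellFounded (RW c.1)} := by
  have h1 : {c : CS × (ℕ → CS) | WellFounded (RW c.1)}ᶜ =
      {c | ∃ f : BS, (c, f) ∈ {q : (CS × (ℕ → CS)) × BS | ∀ n, RW q.1.1 (q.2 (n + 1)) (q.2 n)}} := by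
    ext c
    simp only [mem_compl_iff, mem_ofPred_eq]
    rw [wellFounded_iff_isEmpty_descending_chain, not_isEmpty_iff]
    constructor
    · rintro ⟨f, hf⟩; exact ⟨f, hf⟩
    · rintro ⟨f, hf⟩; exact ⟨⟨f, hf⟩⟩
  have h2 : Sig 1 (CS × (ℕ → CS)) {c : CS × (ℕ → CS) | WellFounded (RW c.1)}ᶜ := by
    rw [h1]
    refine Sig.projP ?_
    have h3 : {q : (CS × (ℕ → CS)) × BS | ∀ n, RW q.1.1 (q.2 (n + 1)) (q.2 n)} =
        ⋂ n, {q | q.1.1 (Nat.pair (q.2 (n + 1)) (q.2 n)) = true} := by
      ext q; simp [RW]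
    rw [h3]
    refine Sig.iInter fun n => sig_of_measurable le_rfl ?_
    have h4 : IsOpen {q : (CS × (ℕ → CS)) × BS | q.1.1 (Nat.pair (q.2 (n + 1)) (q.2 n)) = true} := by
      have h5 : {q : (CS × (ℕ → CS)) × BS | q.1.1 (Nat.pair (q.2 (n + 1)) (q.2 n)) = true} =
          ⋃ a : ℕ, ⋃ b : ℕ, ({q | q.2 (n + 1) = a} ∩ {q | q.2 n = b}) ∩
            {q | q.1.1 (Nat.pair a b) = true} := by
        ext q; simp
      rw [h5]
      refine isOpen_iUnion fun a => isOpen_iUnion fun b => IsOpen.inter (IsOpen.inter ?_ ?_) ?_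
      · exact (isOpen_discrete ({a} : Set ℕ)).preimage
          (f := fun q : (CS × (ℕ → CS)) × BS => q.2 (n + 1)) (by fun_prop)
      · exact (isOpen_discrete ({b} : Set ℕ)).preimage
          (f := fun q : (CS × (ℕ → CS)) × BS => q.2 n) (by fun_prop)
      · exact (isOpen_discrete ({true} : Set Bool)).preimage
          (f := fun q : (CS × (ℕ → CS)) × BS => q.1.1 (Nat.pair a b)) (by fun_prop)
    exact h4.measurableSet
  have h3 : Sig 2 (CS × (ℕ → CS)) {c : CS × (ℕ → CS) | WellFounded (RW c.1)} :=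
    Sig.compl_succ h2
  exact h3.mono (by omega)

theorem Op.sig_Cd (O : Op k) (hk : 1 ≤ k) : Sig (k + 1) (CS × (ℕ → CS)) O.Cd := by
  have hRW : ∀ m n, Sig (k + 1) (CS × (ℕ → CS)) {c | RW c.1 m n} := fun m n =>
    (sig_RW hk m n).1.mono_succ
  have hRWc : ∀ m n, Sig (k + 1) (CS × (ℕ → CS)) {c | ¬ RW c.1 m n} := fun m n =>
    (sig_RW hk m n).2.mono_succ
  have heq : ∀ n i m j, Sig (k + 1) (CS × (ℕ → CS)) {c | row c.2 n i = row c.2 m j} := by
    intro n i m j
    refine sig_of_measurable (by omega) (IsClosed.measurableSet ?_)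
    exact isClosed_eq
      (((continuous_apply i).comp (continuous_row n)).comp continuous_snd)
      (((continuous_apply j).comp (continuous_row m)).comp continuous_snd)
  have hc0 : ∀ n i, Sig (k + 1) (CS × (ℕ → CS)) {c | row c.2 n i = O.c0} := by
    intro n i
    refine sig_of_measurable (by omega) (IsClosed.measurableSet ?_)
    exact isClosed_eq
      (((continuous_apply i).comp (continuous_row n)).comp continuous_snd) continuous_const
  have hr : ∀ n i m t, Sig (k + 1) (CS × (ℕ → CS)) {c | O.r (row c.2 m) t = row c.2 n i} := by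
    intro n i m t
    refine Sig.preimage (f := fun c : CS × (ℕ → CS) => (row c.2 m, row c.2 n i)) ?_ (O.hsig t)
    exact ((continuous_row m).comp continuous_snd).prodMk
      (((continuous_apply i).comp (continuous_row n)).comp continuous_snd)
  have key : O.Cd = {c | WellFounded (RW c.1)} ∩ (
      (⋂ n, ⋂ i, ({c | row c.2 n i = O.c0} ∪ ⋃ m, ({c | RW c.1 m n} ∩
        ((⋃ j, {c | row c.2 n i = row c.2 m j}) ∪ ⋃ t, {c | O.r (row c.2 m) t = row c.2 n i})))) ∩
      ((⋂ n, ⋃ i, {c | row c.2 n i = O.c0}) ∩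
      ((⋂ n, ⋂ m, ({c | ¬ RW c.1 m n} ∪ ⋂ j, ⋃ i, {c | row c.2 n i = row c.2 m j})) ∩
      (⋂ n, ⋂ m, ({c | ¬ RW c.1 m n} ∪ ⋂ t, ⋃ i, {c | O.r (row c.2 m) t = row c.2 n i}))))) := by
    ext c
    simp only [Op.Cd, IsChn, mem_ofPred_eq, mem_inter_iff, mem_iInter, mem_iUnion, mem_union,
      O.Psi_range]
    refine and_congr_right fun _ => ?_
    constructor
    · intro h
      refine ⟨fun n i => ?_, fun n => ?_, fun n m => ?_, fun n m => ?_⟩
      · rcases (h n (row c.2 n i)).1 (mem_range_self i) with h1 | ⟨m, hm, h1 | h1⟩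
        · exact Or.inl h1
        · obtain ⟨j, hj⟩ := h1
          exact Or.inr ⟨m, hm, Or.inl ⟨j, hj.symm⟩⟩
        · obtain ⟨t, ht⟩ := h1
          exact Or.inr ⟨m, hm, Or.inr ⟨t, ht⟩⟩
      · obtain ⟨i, hi⟩ := (h n O.c0).2 (Or.inl rfl)
        exact ⟨i, hi⟩
      · by_cases hR : RW c.1 m n
        · right
          intro j
          obtain ⟨i, hi⟩ := (h n (row c.2 m j)).2 (Or.inr ⟨m, hR, Or.inl (mem_range_self j)⟩)
          exact ⟨i, hi⟩
        · exact Or.inl hR
      · by_cases hR : RW c.1 m n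
        · right
          intro t
          obtain ⟨i, hi⟩ := (h n (O.r (row c.2 m) t)).2
            (Or.inr ⟨m, hR, Or.inr (mem_range_self t)⟩)
          exact ⟨i, hi.symm⟩
        · exact Or.inl hR
    · rintro ⟨h1, h2, h3, h4⟩ n y
      constructor
      · rintro ⟨i, rfl⟩
        rcases h1 n i with h5 | ⟨m, hm, ⟨j, hj⟩ | ⟨t, ht⟩⟩
        · exact Or.inl h5
        · exact Or.inr ⟨m, hm, Or.inl ⟨j, hj.symm⟩⟩
        · exact Or.inr ⟨m, hm, Or.inr ⟨t, ht⟩⟩
      · rintro (rfl | ⟨m, hm, ⟨j, rfl⟩ | ⟨t, rfl⟩⟩)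
        · obtain ⟨i, hi⟩ := h2 n
          exact ⟨i, hi⟩
        · rcases h3 n m with h5 | h5
          · exact absurd hm h5
          · obtain ⟨i, hi⟩ := h5 j
            exact ⟨i, hi⟩
        · rcases h4 n m with h5 | h5
          · exact absurd hm h5
          · obtain ⟨i, hi⟩ := h5 t
            exact ⟨i, hi.symm⟩
  rw [key]
  refine (sig_wf hk).inter (Sig.inter ?_ (Sig.inter ?_ (Sig.inter ?_ ?_)))
  · refine Sig.iInter fun n => Sig.iInter fun i => (hc0 n i).union (Sig.iUnion fun m =>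
      (hRW m n).inter ?_)
    exact (Sig.iUnion fun j => heq n i m j).union (Sig.iUnion fun t => hr n i m t)
  · exact Sig.iInter fun n => Sig.iUnion fun i => hc0 n i
  · exact Sig.iInter fun n => Sig.iInter fun m => (hRWc m n).union
      (Sig.iInter fun j => Sig.iUnion fun i => heq n i m j)
  · exact Sig.iInter fun n => Sig.iInter fun m => (hRWc m n).union
      (Sig.iInter fun t => Sig.iUnion fun i => hr n i m t)

instance polishCd : PolishSpace (CS × (ℕ → CS)) := inferInstance

theorem Op.sig_Y (O : Op k) (hk : 1 ≤ k) : Sig (k + 1) CS O.Y := by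
  have h1 : O.Y = {y | ∃ c : CS × (ℕ → CS), (y, c) ∈
      {q : CS × (CS × (ℕ → CS)) | q.2 ∈ O.Cd} ∩ ⋃ n, ⋃ i, {q | row q.2.2 n i = q.1}} := by
    ext y; simp [Op.Y]
  rw [h1]
  refine Sig.projP (((O.sig_Cd hk).preimage continuous_snd).inter ?_)
  refine Sig.iUnion fun n => Sig.iUnion fun i => sig_of_measurable (by omega) ?_
  refine IsClosed.measurableSet (isClosed_eq ?_ continuous_fst)
  exact ((continuous_apply i).comp (continuous_row n)).comp (continuous_snd.comp continuous_snd)

theorem Op.sig_L (O : Op k) (hk : 1 ≤ k) : Sig (k + 1) (CS × CS) O.L := by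
  have h1 : O.L = {p | ∃ c : CS × (ℕ → CS), (p, c) ∈
      {q : (CS × CS) × (CS × (ℕ → CS)) | q.2 ∈ O.Cd} ∩ ⋃ n,
        ((⋃ i, {q | row q.2.2 n i = q.1.1}) ∩ ⋂ m, ({q | ¬ RW q.2.1 m n} ∪
          ⋂ j, {q | row q.2.2 m j = q.1.2}ᶜ))} := by
    ext p
    simp only [Op.L, mem_ofPred_eq, mem_inter_iff, mem_iInter, mem_iUnion, mem_union, mem_compl_iff]
    refine exists_congr fun c => and_congr_right fun _ => exists_congr fun n =>
      and_congr_right fun _ => forall_congr' fun m => ?_
    by_cases hR : RW c.1 m n <;> simp [hR]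
  rw [h1]
  have hcl : ∀ n i, MeasurableSet {q : (CS × CS) × (CS × (ℕ → CS)) | row q.2.2 n i = q.1.1} := by
    intro n i
    refine IsClosed.measurableSet (isClosed_eq ?_ (continuous_fst.comp continuous_fst))
    exact ((continuous_apply i).comp (continuous_row n)).comp (continuous_snd.comp continuous_snd)
  have hcl2 : ∀ n i, MeasurableSet {q : (CS × CS) × (CS × (ℕ → CS)) | row q.2.2 n i = q.1.2} := by
    intro n i
    refine IsClosed.measurableSet (isClosed_eq ?_ (continuous_snd.comp continuous_fst))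
    exact ((continuous_apply i).comp (continuous_row n)).comp (continuous_snd.comp continuous_snd)
  refine Sig.projP (((O.sig_Cd hk).preimage continuous_snd).inter ?_)
  refine Sig.iUnion fun n => Sig.inter ?_ ?_
  · exact Sig.iUnion fun i => sig_of_measurable (by omega) (hcl n i)
  · refine Sig.iInter fun m => Sig.union ?_ ?_
    · exact (sig_RW hk m n).2.mono_succ.preimage
        (f := fun q : (CS × CS) × (CS × (ℕ → CS)) => q.2) continuous_snd
    · exact Sig.iInter fun j => sig_of_measurable (by omega) (hcl2 m j).compl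

/-- the coin measure has no atoms -/
theorem cm_singleton (x : CS) : cm {x} = 0 := by
  have h1 : ∀ n : ℕ, cm {x} ≤ 2⁻¹ ^ n := by
    intro n
    have h2 := cm_cyl (Finset.range n) x
    rw [Finset.card_range] at h2
    rw [← h2]
    refine measure_mono ?_
    rintro y hy i -
    rw [mem_singleton_iff.1 hy]
  have h3 : Tendsto (fun n : ℕ => (2 : ℝ≥0∞)⁻¹ ^ n) atTop (𝓝 0) :=
    ENNReal.tendsto_pow_atTop_nhds_zero_of_lt_one (by simp)
  exact le_antisymm (ge_of_tendsto' h3 h1) zero_le

instance : IsProbabilityMeasure cm := by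
  unfold cm
  exact Measure.isProbabilityMeasure_map continuous_coin.measurable.aemeasurable

instance : NullSingletonClass cm := ⟨cm_singleton⟩

/-- measurability in the plane -/
theorem Setup.lm_cm2 (S : Setup k) {A : Set (CS × CS)} (h : Sig (k + 1) (CS × CS) A) :
    NullMeasurableSet A (cm.prod cm) := by
  obtain ⟨T, hT, hTm⟩ := exists_split
  set co : BS → CS := fun x n => decide (x n = 0) with hco
  have hcoc : Continuous co := continuous_coin
  have h1 : bm.map (fun x => Prod.map co co (T x)) = cm.prod cm := by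
    have h2 : cm.prod cm = (bm.prod bm).map (Prod.map co co) := by
      have := Measure.map_prod_map bm bm hcoc.measurable hcoc.measurable
      exact this
    rw [h2, ← hTm, Measure.map_map (by fun_prop) hT.measurable]
    rfl
  have h2 := S.lm_map (T := fun x => Prod.map co co (T x))
    ((hcoc.prodMap hcoc).comp hT) (h.mono_succ) (h.compl_mono (by omega))
  rw [h1] at h2
  exact h2

/-- no null-measurable relation has countable sections and co-countable sections -/
theorem no_sierpinski {L : Set (CS × CS)} (hL : NullMeasurableSet L (cm.prod cm))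
    (h1 : ∀ v, {u | (u, v) ∈ L}.Countable) (h2 : ∀ u, {v | (u, v) ∉ L}.Countable) : False := by
  obtain ⟨M, -, hM, hML⟩ := hL.exists_measurable_subset_ae_eq
  have e1 : ∀ᵐ q ∂(cm.prod cm), (q ∈ M ↔ q ∈ L) := hML.mem_iff
  -- sections along the first coordinate
  have e2 : ∀ᵐ u ∂cm, ∀ᵐ v ∂cm, ((u, v) ∈ M ↔ (u, v) ∈ L) := Measure.ae_ae_of_ae_prod e1
  have e3 : (cm.prod cm) Mᶜ = 0 := by
    rw [Measure.measure_prod_null hM.compl]
    filter_upwards [e2] with u hu
    have h3 : ∀ᵐ v ∂cm, (u, v) ∈ L := (h2 u).measure_zero cm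
    have h4 : ∀ᵐ v ∂cm, (u, v) ∈ M := by
      filter_upwards [hu, h3] with v hv1 hv2
      exact hv1.2 hv2
    exact h4
  have e4 : (cm.prod cm) M = 0 := by
    have hs : MeasurePreserving Prod.swap (cm.prod cm) (cm.prod cm) := Measure.measurePreserving_swap
    have e5 : ∀ᵐ q ∂(cm.prod cm), (q.swap ∈ M ↔ q.swap ∈ L) := hs.quasiMeasurePreserving.ae e1
    have e6 : ∀ᵐ v ∂cm, ∀ᵐ u ∂cm, ((u, v) ∈ M ↔ (u, v) ∈ L) := Measure.ae_ae_of_ae_prod e5
    rw [← hs.measure_preimage hM.nullMeasurableSet]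
    rw [Measure.measure_prod_null (measurable_swap hM)]
    filter_upwards [e6] with v hv
    have h3 : ∀ᵐ u ∂cm, (u, v) ∉ L := by
      refine measure_mono_null ?_ ((h1 v).measure_zero cm)
      intro u hu
      simpa using hu
    have h4 : ∀ᵐ u ∂cm, (u, v) ∉ M := by
      filter_upwards [hv, h3] with u hv1 hv2
      exact fun h => hv2 (hv1.1 h)
    have h5 : cm {u | ¬ (u, v) ∉ M} = 0 := h4
    refine measure_mono_null ?_ h5
    intro u hu
    simpa using hu
  have e7 : (cm.prod cm) univ ≤ (cm.prod cm) M + (cm.prod cm) Mᶜ := by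
    rw [← union_compl_self M]; exact measure_union_le _ _
  rw [e3, e4, measure_univ] at e7
  simp at e7

/-- there is no such operator -/
theorem Op.elim (O : Op k) (hk : 1 ≤ k) (S : Setup k) : False := by
  obtain ⟨g, hg, hinj, hgY⟩ := psp S (O.sig_Y hk) O.Y_not_countable
  have hgm : ∀ x, g x ∈ O.Y := fun x => hgY (mem_range_self x)
  refine no_sierpinski (L := {q | (g q.1, g q.2) ∈ O.L}) ?_ ?_ ?_
  · refine S.lm_cm2 ((O.sig_L hk).preimage (f := fun q : CS × CS => (g q.1, g q.2)) ?_)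
    fun_prop
  · intro v
    exact (O.L_left (hgm v)).preimage hinj
  · intro u
    exact (O.L_right (hgm u)).preimage hinj

end Pool.Agent.Helper679_PU
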