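import Mathlib
import Pool.Agent.Helper679_PU.Clo

/-!
Essential closures of generic values of a selector.
-/

namespace Pool.Agent.Helper679_PU

open Set MeasureTheory Filter Topology TopologicalSpace

theorem isClosed_clo {Z : Type} [TopologicalSpace Z] {B : ℕ → Set Z} (hB : ∀ i, IsOpen (B i))
    (c : CS) : IsClosed (clo B c) := by
  have : clo B c = ⋂ i, ⋂ (_ : c i = true), (B i)ᶜ := by
    ext z
    simp only [clo, mem_ofPred_eq, mem_iInter, mem_compl_iff]
    constructor
    · intro h i hi hz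
      rw [h i hz] at hi
      exact absurd hi (by simp)
    · intro h i hz
      by_contra hcon
      exact h i (by simpa using hcon) hz
  rw [this]
  exact isClosed_iInter fun i => isClosed_iInter fun _ => (hB i).isClosed_compl

theorem exists_clo {Z : Type} [TopologicalSpace Z] {B : ℕ → Set Z}
    (hB : IsTopologicalBasis (range B)) {C : Set Z} (hC : IsClosed C) : ∃ c, clo B c = C := by
  classical
  refine ⟨fun i => decide (Disjoint (B i) C), ?_⟩
  ext z
  simp only [clo, mem_ofPred_eq, decide_eq_false_iff_not]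
  constructor
  · intro h
    by_contra hcon
    obtain ⟨V, ⟨i, rfl⟩, h1, h2⟩ := hB.exists_subset_of_mem_open (a := z) (u := Cᶜ) hcon
      hC.isOpen_compl
    exact h i h1 (Set.disjoint_left.2 fun w hw => h2 hw)
  · intro hz i hi hd
    exact Set.disjoint_left.1 hd hi hz

/-- a reordering, with repetitions, of the sequence `e` -/
def act (e : ℕ → CS) (c : BS) : ℕ → CS := fun m => e (c m).unpair.1

theorem continuous_eval_nat {Y : Type} [TopologicalSpace Y] {W : Type} [TopologicalSpace W]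
    {f : W → ℕ → Y} {g : W → ℕ} (hf : Continuous f) (hg : Continuous g) :
    Continuous fun w => f w (g w) := by
  rw [continuous_iff_continuousAt]
  intro w
  have h1 : ContinuousAt (fun v => f v (g w)) w :=
    ((continuous_apply (g w)).comp hf).continuousAt
  refine h1.congr ?_
  have h2 : g ⁻¹' {g w} ∈ 𝓝 w :=
    hg.continuousAt.preimage_mem_nhds ((isOpen_discrete _).mem_nhds rfl)
  filter_upwards [h2] with v hv
  rw [show g v = g w from hv]

theorem continuous_act : Continuous (fun q : (ℕ → CS) × BS => act q.1 q.2) := by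
  refine continuous_pi fun m => ?_
  unfold act
  exact continuous_eval_nat continuous_fst
    ((continuous_of_discreteTopology (f := fun n : ℕ => n.unpair.1)).comp
      ((continuous_apply m).comp continuous_snd))

/-- the data of the covering argument -/
structure Ctx (k : ℕ) (Z : Type) [TopologicalSpace Z] [PolishSpace Z] where
  S : CSetup k
  B : ℕ → Set Z
  hB : IsTopologicalBasis (range B)
  A : Set Z
  F : Set CS
  her : ∀ c ∈ F, ∀ c', clo B c' ⊆ clo B c → c' ∈ F
  hF1 : Sig (k + 1) CS F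
  hF2 : Sig (k + 1) CS Fᶜ
  φ : (ℕ → CS) → Z
  hφ : Sig (k + 1) ((ℕ → CS) × Z) {q | φ q.1 = q.2}
  hφA : ∀ e, φ e ∈ A
  hφF : ∀ e, (∀ n, e n ∈ F) → ∀ n, φ e ∉ clo B (e n)
  anal : ∀ D ⊆ A, AnalyticSet D → ∃ e : ℕ → CS, (∀ n, e n ∈ F) ∧ D ⊆ ⋃ n, clo B (e n)

variable {k : ℕ} {Z : Type} [TopologicalSpace Z] [PolishSpace Z]

theorem Ctx.openB (K : Ctx k Z) (i : ℕ) : IsOpen (K.B i) := K.hB.isOpen (mem_range_self i)

open Classical in
/-- the essential closure -/
noncomputable def Ctx.r (K : Ctx k Z) (e : ℕ → CS) (t : List ℕ) : CS :=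
  fun i => decide (AS fun c => K.φ (act e (pre t c)) ∉ K.B i)

theorem Ctx.r_iff (K : Ctx k Z) (e : ℕ → CS) (t : List ℕ) (i : ℕ) :
    K.r e t i = true ↔ AS fun c => K.φ (act e (pre t c)) ∉ K.B i := by
  classical
  unfold Ctx.r
  exact decide_eq_true_iff

/-- complexity of preimages under `φ` -/
theorem Ctx.sig_pre (K : Ctx k Z) {U : Set Z} (hU : IsOpen U) :
    Sig (k + 1) (ℕ → CS) {e | K.φ e ∈ U} ∧ Sig (k + 1) (ℕ → CS) {e | K.φ e ∈ U}ᶜ := by
  borelize Z
  have h1 : ∀ V : Set Z, MeasurableSet V → Sig (k + 1) (ℕ → CS) {e | K.φ e ∈ V} := by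
    intro V hV
    have h2 : Sig (k + 1) ((ℕ → CS) × Z) (Prod.snd ⁻¹' V) :=
      (sig_of_measurable (by omega) hV).preimage continuous_snd
    have h3 := Sig.projP (K.hφ.inter h2)
    convert h3 using 1
    ext e
    simp
  exact ⟨h1 U hU.measurableSet, h1 Uᶜ hU.measurableSet.compl⟩

theorem Ctx.bpφ (K : Ctx k Z) (e : ℕ → CS) (t : List ℕ) {U : Set Z} (hU : IsOpen U) :
    BaireMeasurableSet {c | K.φ (act e (pre t c)) ∈ U} := by
  refine K.S.bpS (j := k + 1) (by omega) ?_
  refine Sig.preimage (f := fun c => act e (pre t c)) ?_ (K.sig_pre hU).1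
  exact continuous_act.comp (continuous_const.prodMk (continuous_pre t))

theorem Ctx.ess (K : Ctx k Z) (e : ℕ → CS) (t : List ℕ) :
    AS fun c => K.φ (act e (pre t c)) ∈ clo K.B (K.r e t) := by
  have h1 : AS fun c => ∀ i, K.r e t i = true → K.φ (act e (pre t c)) ∉ K.B i := by
    refine AS.all fun i => ?_
    by_cases h : K.r e t i = true
    · exact ((K.r_iff e t i).1 h).mono fun c hc _ => hc
    · exact AS.true.mono fun c _ h' => absurd h' h
  refine h1.mono fun c hc i hi => ?_
  by_contra hcon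
  exact hc i (by simpa using hcon) hi

theorem Ctx.r_min (K : Ctx k Z) {e : ℕ → CS} {t : List ℕ} {D : Set Z} (hD : IsClosed D)
    (h : AS fun c => K.φ (act e (pre t c)) ∈ D) : clo K.B (K.r e t) ⊆ D := by
  intro z hz
  by_contra hcon
  obtain ⟨V, ⟨i, rfl⟩, h1, h2⟩ := K.hB.exists_subset_of_mem_open (a := z) (u := Dᶜ) hcon
    hD.isOpen_compl
  have h3 : K.r e t i = true := (K.r_iff e t i).2 (h.mono fun c hc hcB => h2 hcB hc)
  rw [hz i h1] at h3
  exact absurd h3 (by simp)

/-- An analytic subset of `A` containing the generic values. -/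
theorem Ctx.exists_analytic (K : Ctx k Z) (e : ℕ → CS) (t : List ℕ) :
    ∃ D ⊆ K.A, AnalyticSet D ∧ AS fun c => K.φ (act e (pre t c)) ∈ D := by
  have h1 : ∀ i, ∃ U : Set BS, IsOpen U ∧ AS fun c => (K.φ (act e (pre t c)) ∈ K.B i ↔ c ∈ U) := by
    intro i
    obtain ⟨U, hU, hPU⟩ := (K.bpφ e t (K.openB i)).residualEq_isOpen
    exact ⟨U, hU, Filter.Eventually.mono hPU fun y hy => Iff.of_eq hy⟩
  choose U hU hφU using h1
  have h2 : AS fun c => ∀ i, (K.φ (act e (pre t c)) ∈ K.B i ↔ c ∈ U i) := AS.all hφU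
  obtain ⟨G, hGsub, hG, hGd⟩ := mem_residual.1 h2
  set f : BS → Z := fun c => K.φ (act e (pre t c)) with hf
  have hcont : ContinuousOn f G := by
    intro c hc
    rw [ContinuousWithinAt, (K.hB.nhds_hasBasis (a := f c)).tendsto_right_iff]
    rintro V ⟨⟨i, rfl⟩, hi⟩
    have h3 : c ∈ U i := (hGsub hc i).1 hi
    filter_upwards [mem_nhdsWithin_of_mem_nhds ((hU i).mem_nhds h3), self_mem_nhdsWithin]
      with c' h4 h5
    exact (hGsub h5 i).2 h4
  refine ⟨f '' G, ?_, ?_, ?_⟩
  · rintro _ ⟨c, -, rfl⟩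
    exact K.hφA _
  · exact hG.measurableSet.analyticSet.image_of_continuousOn hcont
  · have h6 : AS fun c => c ∈ G := mem_residual.2 ⟨G, subset_rfl, hG, hGd⟩
    exact h6.mono fun c hc => mem_image_of_mem _ hc

theorem Ctx.exists_small (K : Ctx k Z) (e : ℕ → CS) (t : List ℕ) : ∃ t', K.r e (t ++ t') ∈ K.F := by
  obtain ⟨D, hD, hDa, hDφ⟩ := K.exists_analytic e t
  obtain ⟨e', he', hDe⟩ := K.anal D hD hDa
  have h1 : AS fun c => ∃ n, K.φ (act e (pre t c)) ∈ clo K.B (e' n) :=
    hDφ.mono fun c hc => by simpa using hDe hc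
  have h2 : ∀ n, BaireMeasurableSet {c | K.φ (act e (pre t c)) ∈ clo K.B (e' n)} := by
    intro n
    have h3 := (K.bpφ e t (isClosed_clo K.openB (e' n)).isOpen_compl).compl
    convert h3 using 1
    ext c; simp
  obtain ⟨n, t', h3⟩ := AS_exists h2 h1
  refine ⟨t', K.her (e' n) (he' n) _ ?_⟩
  refine K.r_min (isClosed_clo K.openB _) (h3.mono fun c hc => ?_)
  rw [pre_append]
  exact hc

theorem Ctx.r_notMem (K : Ctx k Z) {e : ℕ → CS} (he : ∀ n, e n ∈ K.F) (t : List ℕ) (n : ℕ) :
    K.r e t ≠ e n := by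
  intro h
  have h1 := K.ess e t
  rw [h] at h1
  -- generic reorderings enumerate everything
  have h2 : AS fun c => ∃ m, pre t c m = Nat.pair n 0 := by
    refine AS.of_dense_open (U := {c | ∃ m, pre t c m = Nat.pair n 0}) ?_ ?_
    · have : {c | ∃ m, pre t c m = Nat.pair n 0} =
          ⋃ m, (fun c => pre t c m) ⁻¹' ({Nat.pair n 0} : Set ℕ) := by
        ext c; simp
      rw [this]
      exact isOpen_iUnion fun m => (isOpen_discrete _).preimage
        ((continuous_apply m).comp (continuous_pre t))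
    · rw [dense_iff_inter_open]
      intro V hV hne
      obtain ⟨c, hc⟩ := hne
      obtain ⟨m, hm⟩ := exists_seg hV hc
      refine ⟨pre (seg c m) (fun _ => Nat.pair n 0), hm (pre_mem_Nb _ _), t.length + m, ?_⟩
      unfold pre
      rw [if_neg (by omega), if_neg (by rw [seg_length]; omega)]
  obtain ⟨c, h3, m, hm⟩ := (h1.and h2).exists
  have h4 : act e (pre t c) m = e n := by
    unfold act; rw [hm, Nat.unpair_pair]
  refine K.hφF (act e (pre t c)) (fun m => he _) m ?_
  rw [h4]
  exact h3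

/-- the next level -/
def Ctx.Phi (K : Ctx k Z) (e : ℕ → CS) : Set CS := {y | y ∈ K.F ∧ ∃ t, K.r e t = y}

theorem Ctx.Phi_nonempty (K : Ctx k Z) (e : ℕ → CS) : (K.Phi e).Nonempty := by
  obtain ⟨t, ht⟩ := K.exists_small e []
  exact ⟨_, ht, _, rfl⟩

theorem Ctx.Phi_countable (K : Ctx k Z) (e : ℕ → CS) : (K.Phi e).Countable := by
  refine (countable_range (K.r e)).mono ?_
  rintro y ⟨-, t, rfl⟩
  exact mem_range_self t

/-- infinite fibres -/
theorem infinite_fib (e : ℕ → CS) {y : CS} (hy : y ∈ range e) :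
    Infinite {n : ℕ // e n.unpair.1 = y} := by
  obtain ⟨m, rfl⟩ := hy
  refine Infinite.of_injective (fun i : ℕ => (⟨Nat.pair m i, by simp⟩ : {n : ℕ // e n.unpair.1 = e m})) ?_
  intro i j h
  simp only [Subtype.mk.injEq] at h
  have := congrArg (fun n => (Nat.unpair n).2) h
  simpa using this

theorem exists_perm {e e' : ℕ → CS} (h : range e = range e') :
    ∃ σ : ℕ ≃ ℕ, ∀ n, e' (σ n).unpair.1 = e n.unpair.1 := by
  have h1 : ∀ y : CS, Nonempty ({n : ℕ // e n.unpair.1 = y} ≃ {n : ℕ // e' n.unpair.1 = y}) := by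
    intro y
    by_cases hy : y ∈ range e
    · have i1 := infinite_fib e hy
      have i2 := infinite_fib e' (h ▸ hy)
      have c1 : Countable {n : ℕ // e n.unpair.1 = y} := inferInstance
      have c2 : Countable {n : ℕ // e' n.unpair.1 = y} := inferInstance
      obtain ⟨d1⟩ := nonempty_denumerable {n : ℕ // e n.unpair.1 = y}
      obtain ⟨d2⟩ := nonempty_denumerable {n : ℕ // e' n.unpair.1 = y}
      exact ⟨(Denumerable.eqv _).trans (Denumerable.eqv _).symm⟩
    · have e1 : IsEmpty {n : ℕ // e n.unpair.1 = y} := ⟨fun n => hy ⟨_, n.2⟩⟩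
      have e2 : IsEmpty {n : ℕ // e' n.unpair.1 = y} := ⟨fun n => hy (h ▸ ⟨_, n.2⟩)⟩
      exact ⟨Equiv.equivOfIsEmpty _ _⟩
  have g := fun y => (h1 y).some
  refine ⟨(Equiv.sigmaFiberEquiv (fun n : ℕ => e n.unpair.1)).symm.trans
    ((Equiv.sigmaCongrRight g).trans (Equiv.sigmaFiberEquiv (fun n : ℕ => e' n.unpair.1))), ?_⟩
  intro n
  simp only [Equiv.trans_apply, Equiv.sigmaFiberEquiv, Equiv.coe_fn_symm_mk, Equiv.coe_fn_mk,
    Equiv.sigmaCongrRight_apply]
  exact (g _ _).2

theorem AS_perm (σ : ℕ ≃ ℕ) {P : BS → Prop} (h : AS P) : AS fun c => P (σ ∘ c) := by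
  have hc : Continuous (fun c : BS => (σ ∘ c : BS)) :=
    continuous_pi fun m => (continuous_of_discreteTopology (f := σ)).comp (continuous_apply m)
  have hc' : Continuous (fun c : BS => (σ.symm ∘ c : BS)) :=
    continuous_pi fun m => (continuous_of_discreteTopology (f := σ.symm)).comp (continuous_apply m)
  have ho : IsOpenMap (fun c : BS => (σ ∘ c : BS)) := by
    intro U hU
    have : (fun c : BS => (σ ∘ c : BS)) '' U = (fun c : BS => (σ.symm ∘ c : BS)) ⁻¹' U := by
      ext c
      constructor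
      · rintro ⟨c', hc', rfl⟩
        simpa [← Function.comp_assoc] using hc'
      · intro hcU
        exact ⟨_, hcU, by simp [← Function.comp_assoc]⟩
    rw [this]
    exact hU.preimage hc'
  exact (tendsto_residual_of_isOpenMap hc ho).eventually h

theorem pre_map (σ : ℕ → ℕ) (t : List ℕ) (c : BS) : pre (t.map σ) (σ ∘ c) = σ ∘ pre t c := by
  funext n
  simp only [pre, List.length_map, Function.comp]
  by_cases h : n < t.length
  · rw [if_pos h, if_pos h]
    rw [List.getD_eq_getElem _ _ (by simpa using h), List.getD_eq_getElem _ _ h, List.getElem_map]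
  · rw [if_neg h, if_neg h]

theorem Ctx.r_perm (K : Ctx k Z) {e e' : ℕ → CS} {σ : ℕ ≃ ℕ}
    (h : ∀ n, e' (σ n).unpair.1 = e n.unpair.1) (t : List ℕ) : K.r e t = K.r e' (t.map σ) := by
  have hact : ∀ c, act e' (σ ∘ c) = act e c := by
    intro c; funext m; exact h (c m)
  funext i
  rw [Bool.eq_iff_iff, K.r_iff, K.r_iff]
  constructor
  · intro h1
    have h2 := AS_perm σ.symm h1
    refine h2.mono fun c hc => ?_
    rw [← hact, ← pre_map, ← Function.comp_assoc] at hc
    simpa using hc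
  · intro h1
    have h2 := AS_perm σ h1
    refine h2.mono fun c hc => ?_
    rw [pre_map, hact] at hc
    exact hc

theorem Ctx.Phi_congr (K : Ctx k Z) {e e' : ℕ → CS} (h : range e = range e') :
    K.Phi e = K.Phi e' := by
  have key : ∀ {e e' : ℕ → CS}, range e = range e' → K.Phi e ⊆ K.Phi e' := by
    rintro e e' h y ⟨hy, t, rfl⟩
    obtain ⟨σ, hσ⟩ := exists_perm h
    exact ⟨hy, t.map σ, (K.r_perm hσ t).symm⟩
  exact subset_antisymm (key h) (key h.symm)

/-- the complexity of the essential closure -/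
theorem Ctx.sig_r (K : Ctx k Z) (t : List ℕ) (i : ℕ) :
    Sig (k + 1) (ℕ → CS) {e | K.r e t i = true} ∧ Sig (k + 1) (ℕ → CS) {e | K.r e t i = true}ᶜ := by
  have hc : Continuous (fun q : (ℕ → CS) × BS => act q.1 (pre t q.2)) :=
    continuous_act.comp (continuous_fst.prodMk ((continuous_pre t).comp continuous_snd))
  have h1 := (K.sig_pre (K.openB i)).1.preimage hc
  have h2 := (K.sig_pre (K.openB i)).2.preimage hc
  have e1 : {e | K.r e t i = true} = {e | AS fun c => K.φ (act e (pre t c)) ∉ K.B i} := by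
    ext e; exact K.r_iff e t i
  rw [e1]
  exact ⟨K.S.AS_sig le_rfl h2, K.S.AS_pi le_rfl h1⟩

theorem Ctx.sig_req (K : Ctx k Z) (t : List ℕ) :
    Sig (k + 1) ((ℕ → CS) × CS) {q | K.r q.1 t = q.2} ∧
    Sig (k + 1) ((ℕ → CS) × CS) {q | K.r q.1 t = q.2}ᶜ := by
  have hb : ∀ i (b : Bool), Sig (k + 1) ((ℕ → CS) × CS) {q | q.2 i = b} := by
    intro i b
    refine sig_of_measurable (by omega) ?_
    have : IsOpen {q : (ℕ → CS) × CS | q.2 i = b} :=
      (isOpen_discrete ({b} : Set Bool)).preimage (f := fun q : (ℕ → CS) × CS => q.2 i)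
        (by fun_prop)
    exact this.measurableSet
  have h1 : ∀ i, Sig (k + 1) ((ℕ → CS) × CS) {q | K.r q.1 t i = true} := fun i =>
    (K.sig_r t i).1.preimage (f := fun q : (ℕ → CS) × CS => q.1) continuous_fst
  have h2 : ∀ i, Sig (k + 1) ((ℕ → CS) × CS) {q | K.r q.1 t i = false} := fun i => by
    have := (K.sig_r t i).2.preimage (f := fun q : (ℕ → CS) × CS => q.1) continuous_fst
    convert this using 1
    ext q; simp
  constructor
  · have : {q : (ℕ → CS) × CS | K.r q.1 t = q.2} =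
        ⋂ i, (({q | K.r q.1 t i = true} ∩ {q | q.2 i = true}) ∪
          ({q | K.r q.1 t i = false} ∩ {q | q.2 i = false})) := by
      ext q
      simp only [mem_ofPred_eq, mem_iInter, mem_union, mem_inter_iff]
      constructor
      · intro h i
        rw [h]
        cases q.2 i <;> simp
      · intro h
        funext i
        rcases h i with ⟨h1, h2⟩ | ⟨h1, h2⟩ <;> rw [h1, h2]
    rw [this]
    exact Sig.iInter fun i => ((h1 i).inter (hb i true)).union ((h2 i).inter (hb i false))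
  · have : {q : (ℕ → CS) × CS | K.r q.1 t = q.2}ᶜ =
        ⋃ i, (({q | K.r q.1 t i = true} ∩ {q | q.2 i = false}) ∪
          ({q | K.r q.1 t i = false} ∩ {q | q.2 i = true})) := by
      ext q
      simp only [mem_compl_iff, mem_ofPred_eq, mem_iUnion, mem_union, mem_inter_iff]
      constructor
      · intro h
        by_contra hcon
        push Not at hcon
        refine h (funext fun i => ?_)
        obtain ⟨h1, h2⟩ := hcon i
        rcases h3 : K.r q.1 t i with _ | _ <;> rcases h4 : q.2 i with _ | _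
        · rfl
        · exact absurd h4 (h2 h3)
        · exact absurd h4 (h1 h3)
        · rfl
      · rintro ⟨i, ⟨h1, h2⟩ | ⟨h1, h2⟩⟩ h <;> rw [h] at h1 <;> rw [h1] at h2 <;>
          exact absurd h2 (by simp)
    rw [this]
    exact Sig.iUnion fun i => ((h1 i).inter (hb i false)).union ((h2 i).inter (hb i true))

theorem Ctx.sig_Phi (K : Ctx k Z) :
    Sig (k + 1) ((ℕ → CS) × CS) {q | q.2 ∈ K.Phi q.1} ∧
    Sig (k + 1) ((ℕ → CS) × CS) {q | q.2 ∈ K.Phi q.1}ᶜ := by
  have h1 : {q : (ℕ → CS) × CS | q.2 ∈ K.Phi q.1} =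
      {q | q.2 ∈ K.F} ∩ ⋃ t, {q | K.r q.1 t = q.2} := by
    ext q; simp [Ctx.Phi]
  constructor
  · rw [h1]
    exact (K.hF1.preimage continuous_snd).inter (Sig.iUnionC fun t => (K.sig_req t).1)
  · rw [h1, compl_inter, compl_iUnion]
    exact (K.hF2.preimage continuous_snd).union (Sig.iInterC fun t => (K.sig_req t).2)

end Pool.Agent.Helper679_PU
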