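import Mathlib
import Pool.Agent.Helper679_PU.ClosP
import Pool.Agent.Helper679_PU.Ess

/-!
The covering dichotomy.
-/

namespace Pool.Agent.Helper679_PU

open Set MeasureTheory Filter Topology TopologicalSpace

variable {k : ℕ}

/-- the operator associated with a context -/
noncomputable def Ctx.op {Z : Type} [TopologicalSpace Z] [PolishSpace Z] (K : Ctx k Z) {c0 : CS}
    (hc0 : c0 ∈ K.F) : Op k := by
  classical
  exact
  { F := K.F
    c0 := c0
    hc0 := hc0
    r := fun e t => if K.r e (Denumerable.ofNat (List ℕ) t) ∈ K.F then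
      K.r e (Denumerable.ofNat (List ℕ) t) else c0
    hrF := by
      intro e _ t
      split_ifs with h
      · exact h
      · exact hc0
    hcongr := by
      have key : ∀ e e' : ℕ → CS, range e = range e' →
          range (fun t : ℕ => if K.r e (Denumerable.ofNat (List ℕ) t) ∈ K.F then
            K.r e (Denumerable.ofNat (List ℕ) t) else c0) ⊆
          range (fun t : ℕ => if K.r e' (Denumerable.ofNat (List ℕ) t) ∈ K.F then
            K.r e' (Denumerable.ofNat (List ℕ) t) else c0) := by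
        rintro e e' h _ ⟨t, rfl⟩
        obtain ⟨σ, hσ⟩ := exists_perm h
        refine ⟨Encodable.encode ((Denumerable.ofNat (List ℕ) t).map σ), ?_⟩
        simp only [Denumerable.ofNat_encode]
        rw [K.r_perm hσ]
      intro e e' h
      exact subset_antisymm (key e e' h) (key e' e h.symm)
    hsig := by
      intro t
      set l := Denumerable.ofNat (List ℕ) t with hl
      have h1 : {q : (ℕ → CS) × CS | (if K.r q.1 l ∈ K.F then K.r q.1 l else c0) = q.2} =
          ({q | K.r q.1 l = q.2} ∩ {q | q.2 ∈ K.F}) ∪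
          ({q | ∃ y, (q, y) ∈ {p : ((ℕ → CS) × CS) × CS | K.r p.1.1 l = p.2} ∩
            {p | p.2 ∈ K.Fᶜ}} ∩ {q | q.2 = c0}) := by
        ext q
        simp only [mem_ofPred_eq, mem_union, mem_inter_iff, mem_compl_iff]
        by_cases h : K.r q.1 l ∈ K.F
        · rw [if_pos h]
          constructor
          · intro h2
            rw [h2] at h
            exact Or.inl ⟨h2, h⟩
          · rintro (⟨h2, -⟩ | ⟨⟨y, h2, h3⟩, -⟩)
            · exact h2
            · rw [h2] at h; exact absurd h h3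
        · rw [if_neg h]
          constructor
          · intro h2
            exact Or.inr ⟨⟨_, rfl, h⟩, h2.symm⟩
          · rintro (⟨h2, h3⟩ | ⟨-, h3⟩)
            · rw [h2] at h; exact absurd h3 h
            · exact h3.symm
      rw [h1]
      refine Sig.union ((K.sig_req l).1.inter (K.hF1.preimage continuous_snd)) (Sig.inter ?_ ?_)
      · refine Sig.projP (Sig.inter ?_ (K.hF2.preimage continuous_snd))
        exact (K.sig_req l).1.preimage (f := fun p : ((ℕ → CS) × CS) × CS => (p.1.1, p.2))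
          (by fun_prop)
      · refine sig_of_measurable (by omega) (IsClosed.measurableSet ?_)
        exact isClosed_eq continuous_snd continuous_const
    hno := by
      intro e he hsub
      obtain ⟨t, ht⟩ := K.exists_small e []
      rw [List.nil_append] at ht
      have h1 : K.r e t ∈ range e := by
        refine hsub ⟨Encodable.encode t, ?_⟩
        simp only [Denumerable.ofNat_encode]
        rw [if_pos ht]
      obtain ⟨n, hn⟩ := h1
      exact K.r_notMem he t n hn.symm }

theorem covering (hk : 1 ≤ k) (S : Setup k) (C : CSetup k) {Z : Type} [TopologicalSpace Z]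
    [PolishSpace Z] {B : ℕ → Set Z} (hB : IsTopologicalBasis (range B)) {A : Set Z}
    (hA : Sig (k + 1) Z A) {𝓕 : Set (Set Z)} (hcl : ∀ D ∈ 𝓕, IsClosed D)
    (her : ∀ D ∈ 𝓕, ∀ D' ⊆ D, IsClosed D' → D' ∈ 𝓕)
    (hF1 : Sig (k + 1) CS {c | clo B c ∈ 𝓕}) (hF2 : Sig (k + 1) CS {c | clo B c ∈ 𝓕}ᶜ) :
    (∃ 𝓒 ⊆ 𝓕, 𝓒.Countable ∧ A ⊆ ⋃₀ 𝓒) ∨
    ∃ D ⊆ A, AnalyticSet D ∧ ¬ ∃ 𝓒 ⊆ 𝓕, 𝓒.Countable ∧ D ⊆ ⋃₀ 𝓒 := by
  classical
  by_contra hcon
  rw [not_or] at hcon
  obtain ⟨hnc, hcon⟩ := hcon
  push Not at hcon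
  have hopen : ∀ i, IsOpen (B i) := fun i => hB.isOpen (mem_range_self i)
  -- `A` and `𝓕` are nonempty
  obtain ⟨a, ha⟩ : A.Nonempty := by
    rw [nonempty_iff_ne_empty]
    rintro rfl
    exact hnc ⟨∅, empty_subset _, countable_empty, empty_subset _⟩
  obtain ⟨C0, hC0⟩ : 𝓕.Nonempty := by
    obtain ⟨𝓒, h1, -, h3⟩ := hcon {a} (by simpa using ha) isClosed_singleton.analyticSet
    obtain ⟨D, hD, -⟩ := h3 (mem_singleton a)
    exact ⟨D, h1 hD⟩
  obtain ⟨c0, hc0⟩ := exists_clo hB (hcl C0 hC0)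
  -- enumeration of countable subfamilies
  have henum : ∀ D : Set Z, (∃ 𝓒 ⊆ 𝓕, 𝓒.Countable ∧ D ⊆ ⋃₀ 𝓒) →
      ∃ e : ℕ → CS, (∀ n, clo B (e n) ∈ 𝓕) ∧ D ⊆ ⋃ n, clo B (e n) := by
    rintro D ⟨𝓒, h1, h2, h3⟩
    obtain ⟨f, hf⟩ := (h2.insert C0).exists_eq_range ⟨C0, mem_insert _ _⟩
    have h4 : ∀ n, f n ∈ 𝓕 := by
      intro n
      have : f n ∈ insert C0 𝓒 := hf ▸ mem_range_self n
      rcases this with h | h
      · rw [h]; exact hC0
      · exact h1 h
    choose e he using fun n => exists_clo hB (hcl (f n) (h4 n))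
    refine ⟨e, fun n => by rw [he]; exact h4 n, fun z hz => ?_⟩
    obtain ⟨E, hE, hzE⟩ := h3 hz
    have : E ∈ range f := by rw [← hf]; exact Or.inr hE
    obtain ⟨n, rfl⟩ := this
    exact mem_iUnion.2 ⟨n, by rw [he]; exact hzE⟩
  -- the relation to be uniformized
  set P : Set ((ℕ → CS) × Z) := {q | q.2 ∈ A} ∩ ((⋃ n, {q | q.1 n ∈ {c | clo B c ∈ 𝓕}ᶜ}) ∪
    ⋂ n, {q | q.2 ∉ clo B (q.1 n)}) with hP
  have hPs : Sig (k + 1) ((ℕ → CS) × Z) P := by
    refine (hA.preimage continuous_snd).inter (Sig.union ?_ ?_)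
    · refine Sig.iUnion fun n => ?_
      exact hF2.preimage (f := fun q : (ℕ → CS) × Z => q.1 n) (by fun_prop)
    · refine Sig.iInter fun n => ?_
      borelize Z
      refine sig_of_measurable (by omega) (IsOpen.measurableSet ?_)
      have : {q : (ℕ → CS) × Z | q.2 ∉ clo B (q.1 n)} =
          ⋃ i, ({q | q.2 ∈ B i} ∩ {q | q.1 n i = true}) := by
        ext q
        simp [clo]
      rw [this]
      refine isOpen_iUnion fun i => ((hopen i).preimage continuous_snd).inter ?_
      exact (isOpen_discrete ({true} : Set Bool)).preimage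
        (f := fun q : (ℕ → CS) × Z => q.1 n i) (by fun_prop)
  have htot : ∀ e : ℕ → CS, ∃ z, (e, z) ∈ P := by
    intro e
    by_cases h : ∀ n, clo B (e n) ∈ 𝓕
    · by_contra hcon2
      push Not at hcon2
      refine hnc ⟨range fun n => clo B (e n), ?_, countable_range _, ?_⟩
      · rintro _ ⟨n, rfl⟩; exact h n
      · intro z hz
        by_contra hz2
        refine hcon2 z ⟨hz, Or.inr (mem_iInter.2 fun n hn => hz2 ?_)⟩
        exact ⟨_, mem_range_self n, hn⟩
    · push Not at h
      obtain ⟨n, hn⟩ := h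
      exact ⟨a, ha, Or.inl (mem_iUnion.2 ⟨n, hn⟩)⟩
  obtain ⟨F, hF, hsub, hfun, hdom⟩ := C.unif.sig hPs
  have hF' : ∀ e, ∃ z, (e, z) ∈ F := fun e => by
    obtain ⟨z, hz⟩ := htot e
    exact hdom e z hz
  choose φ hφ using hF'
  have hφF : {q : (ℕ → CS) × Z | φ q.1 = q.2} = F := by
    ext q
    constructor
    · intro h
      have h1 := hφ q.1
      rw [h] at h1
      exact h1
    · intro h
      exact hfun _ _ _ (hφ q.1) h
  let K : Ctx k Z :=
    { S := C
      B := B
      hB := hB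
      A := A
      F := {c | clo B c ∈ 𝓕}
      her := fun c hc c' hc' => her _ hc _ hc' (isClosed_clo hopen c')
      hF1 := hF1
      hF2 := hF2
      φ := φ
      hφ := by rw [hφF]; exact hF
      hφA := fun e => (hsub (hφ e)).1
      hφF := fun e he n hn => by
        rcases (hsub (hφ e)).2 with h | h
        · obtain ⟨m, hm⟩ := mem_iUnion.1 h
          exact hm (he m)
        · exact mem_iInter.1 h n hn
      anal := fun D hD hDa => henum D (by
        obtain ⟨𝓒, h1, h2, h3⟩ := hcon D hD hDa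
        exact ⟨𝓒, h1, h2, h3⟩) }
  have hc0F : c0 ∈ K.F := by
    change clo B c0 ∈ 𝓕
    rw [hc0]; exact hC0
  exact (K.op hc0F).elim hk S

end Pool.Agent.Helper679_PU
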