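import Mathlib
import Pool.Agent.Helper679_PU.ClosP

/-!
Sequences of length `ω₁` of countable sets of reals, projective in the codes.
-/

namespace Pool.Agent.Helper679_PU

open Set MeasureTheory Filter Topology
open scoped ENNReal Ordinal Cardinal

theorem rk_eq {w : CS} (h : WellFounded (RW w)) (n : ℕ) :
    rk w n = @IsWellFounded.rank ℕ (RW w) ⟨h⟩ n := by
  unfold rk; rw [dif_pos h]

theorem rk_lt {w : CS} (h : WellFounded (RW w)) {m n : ℕ} (hmn : RW w m n) : rk w m < rk w n := by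
  have i : IsWellFounded ℕ (RW w) := ⟨h⟩
  rw [rk_eq h, rk_eq h]
  exact IsWellFounded.rank_lt_of_rel hmn

theorem exists_rk_ge {w : CS} (h : WellFounded (RW w)) {n : ℕ} {β : Ordinal.{0}}
    (hb : β < rk w n) : ∃ m, RW w m n ∧ β ≤ rk w m := by
  have i : IsWellFounded ℕ (RW w) := ⟨h⟩
  rw [rk_eq h] at hb
  obtain ⟨m, hm, h1⟩ := exists_rank_ge (RW w) hb
  exact ⟨m, hm, by rw [rk_eq h]; exact h1⟩

theorem exists_rk_eq {w : CS} (h : WellFounded (RW w)) (ht : ∀ a b c, RW w a b → RW w b c → RW w a c)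
    {n : ℕ} {β : Ordinal.{0}} (hb : β < rk w n) : ∃ m, RW w m n ∧ rk w m = β := by
  induction n using h.induction with
  | _ n ih =>
    obtain ⟨m, hm, h1⟩ := exists_rk_ge h hb
    rcases h1.eq_or_lt with h2 | h2
    · exact ⟨m, hm, h2.symm⟩
    · obtain ⟨l, hl, h3⟩ := ih m hm h2
      exact ⟨l, ht l m n hl hm, h3⟩

theorem exists_rk_eq' {w : CS} (h : WellFounded (RW w)) {n : ℕ} {β : Ordinal.{0}}
    (hb : β < rk w n) : ∃ m, rk w m = β := by
  induction n using h.induction with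
  | _ n ih =>
    obtain ⟨m, hm, h1⟩ := exists_rk_ge h hb
    rcases h1.eq_or_lt with h2 | h2
    · exact ⟨m, h2.symm⟩
    · exact ih m hm h2

theorem rk_lt_omega {w : CS} (n : ℕ) : rk w n < ω_ 1 := by
  by_cases h : WellFounded (RW w)
  · by_contra hcon
    rw [not_lt] at hcon
    refine not_countable_Iio_ord ((countable_range (rk w)).mono ?_)
    intro β hβ
    obtain ⟨m, hm⟩ := exists_rk_eq' h (lt_of_lt_of_le hβ hcon)
    exact ⟨m, hm⟩
  · unfold rk
    rw [dif_neg h]
    exact Ordinal.omega_pos 1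

/-- the ranks, for a relation given by ordinals -/
theorem rk_of_fun {w : CS} {f : ℕ → Ordinal.{0}} (hf : ∀ m n, RW w m n ↔ f m < f n)
    (hs : ∀ n β, β < f n → ∃ m, f m = β) : WellFounded (RW w) ∧ ∀ n, rk w n = f n := by
  have hwf : WellFounded (RW w) := by
    refine Subrelation.wf ?_ (InvImage.wf f Ordinal.lt_wf)
    intro m n hmn
    exact (hf m n).1 hmn
  refine ⟨hwf, fun n => ?_⟩
  induction n using hwf.induction with
  | _ n ih =>
    refine le_antisymm ?_ ?_
    · by_contra hcon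
      rw [not_le] at hcon
      obtain ⟨m, hm, h1⟩ := exists_rk_ge hwf hcon
      rw [ih m hm] at h1
      exact absurd ((hf m n).1 hm) (not_lt.2 h1)
    · by_contra hcon
      rw [not_le] at hcon
      obtain ⟨m, hm⟩ := hs n _ hcon
      have h1 : RW w m n := (hf m n).2 (by rw [hm]; exact hcon)
      have h2 := rk_lt hwf h1
      rw [ih m h1, hm] at h2
      exact lt_irrefl _ h2

/-- every countable ordinal is the rank of `0` in a relation which is a strict weak order -/
theorem exists_code_ord {α : Ordinal.{0}} (h : α < ω_ 1) :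
    ∃ (w : CS) (f : ℕ → Ordinal.{0}), f 0 = α ∧ (∀ m n, RW w m n ↔ f m < f n) ∧
      (∀ n β, β < f n → ∃ m, f m = β) := by
  classical
  have hc : (Set.Iio (Order.succ α)).Countable := by
    rw [Order.Iio_succ_eq_insert]
    exact (countable_Iio_ord h).insert _
  obtain ⟨g, hg⟩ := hc.exists_eq_range ⟨α, Order.lt_succ α⟩
  have hgn : ∀ n, g n ≤ α := fun n => Order.lt_succ_iff.1 (by
    have : g n ∈ Set.Iio (Order.succ α) := hg ▸ mem_range_self n
    exact this)
  set f : ℕ → Ordinal.{0} := fun n => Nat.casesOn n α g with hf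
  have hfn : ∀ n, f n ≤ α := by
    intro n
    cases n with
    | zero => exact le_rfl
    | succ n => exact hgn n
  refine ⟨fun j => decide (f j.unpair.1 < f j.unpair.2), f, rfl, ?_, ?_⟩
  · intro m n
    simp [RW]
  · intro n β hβ
    have h2 : β ∈ range g := by
      rw [← hg]
      exact Order.lt_succ_iff.2 (hβ.le.trans (hfn n))
    obtain ⟨m, hm⟩ := h2
    exact ⟨m + 1, hm⟩

/-- exchanging `0` and `n` -/
def swp (n : ℕ) (w : CS) : CS := fun j =>
  w (Nat.pair (Equiv.swap 0 n j.unpair.1) (Equiv.swap 0 n j.unpair.2))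

theorem RW_swp (n : ℕ) (w : CS) (a b : ℕ) :
    RW (swp n w) a b ↔ RW w (Equiv.swap 0 n a) (Equiv.swap 0 n b) := by
  simp [RW, swp]

theorem rk_swp {n : ℕ} {w : CS} (h : WellFounded (RW w)) :
    WellFounded (RW (swp n w)) ∧ rk (swp n w) 0 = rk w n := by
  have h1 := rk_of_fun (w := swp n w) (f := fun a => rk w (Equiv.swap 0 n a))
  have hwf : WellFounded (RW (swp n w)) := by
    refine Subrelation.wf ?_ (InvImage.wf (Equiv.swap 0 n) h)
    intro a b hab
    exact (RW_swp n w a b).1 hab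
  refine ⟨hwf, ?_⟩
  have key : ∀ a, rk (swp n w) a = rk w (Equiv.swap 0 n a) := by
    intro a
    induction a using hwf.induction with
    | _ a ih =>
      refine le_antisymm ?_ ?_
      · by_contra hcon
        rw [not_le] at hcon
        obtain ⟨m, hm, h2⟩ := exists_rk_ge hwf hcon
        rw [ih m hm] at h2
        exact absurd (rk_lt h ((RW_swp n w m a).1 hm)) (not_lt.2 h2)
      · by_contra hcon
        rw [not_le] at hcon
        obtain ⟨m, hm, h2⟩ := exists_rk_ge h hcon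
        have h3 : RW (swp n w) (Equiv.swap 0 n m) a := by
          rw [RW_swp]; simpa using hm
        have h4 := ih _ h3
        simp only [Equiv.swap_apply_self] at h4
        rw [← h4] at h2
        exact absurd (rk_lt hwf h3) (not_lt.2 h2)
  rw [key]
  simp

theorem swp_swp (n : ℕ) (w : CS) : swp n (swp n w) = w := by
  funext j
  simp [swp]

theorem continuous_swp (n : ℕ) : Continuous (swp n) := by
  unfold swp
  fun_prop

variable {k : ℕ}

/-- `Y α` for `α < ω₁` is a sequence of countable sets, `Σ_{k+1}` in the codes. -/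
structure Seq1 (k : ℕ) where
  Y : Ordinal.{0} → Set CS
  hc : ∀ α < ω_ 1, (Y α).Countable
  hne : ∀ α < ω_ 1, (Y α).Nonempty
  hsig : Sig (k + 1) (CS × (ℕ → CS)) {q | WellFounded (RW q.1) ∧ range q.2 = Y (rk q.1 0)}

theorem Seq1.hsig' (Q : Seq1 k) (n : ℕ) :
    Sig (k + 1) (CS × (ℕ → CS)) {q | WellFounded (RW q.1) ∧ range q.2 = Q.Y (rk q.1 n)} := by
  have h1 := Q.hsig.preimage (f := fun q : CS × (ℕ → CS) => (swp n q.1, q.2))
    (((continuous_swp n).comp continuous_fst).prodMk continuous_snd)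
  convert h1 using 1
  ext q
  simp only [mem_ofPred_eq, mem_preimage]
  constructor
  · rintro ⟨h2, h3⟩
    have h4 := rk_swp (n := n) h2
    exact ⟨h4.1, by rw [h4.2]; exact h3⟩
  · rintro ⟨h2, h3⟩
    have h5 : WellFounded (RW q.1) := by
      have := (rk_swp (n := n) h2).1
      rwa [swp_swp] at this
    exact ⟨h5, by rw [h3, (rk_swp h5).2]⟩

/-- the union -/
def Seq1.U (Q : Seq1 k) : Set CS := ⋃ α, ⋃ (_ : α < ω_ 1), Q.Y α

/-- codes for enumerations along a transitive wellfounded relation -/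
def Seq1.Cd (Q : Seq1 k) : Set (CS × (ℕ → CS)) :=
  {c | (∀ a b d, RW c.1 a b → RW c.1 b d → RW c.1 a d) ∧
    ∀ n, WellFounded (RW c.1) ∧ range (row c.2 n) = Q.Y (rk c.1 n)}

/-- comparison of the first places -/
def Seq1.L (Q : Seq1 k) : Set (CS × CS) :=
  {q | ∃ c ∈ Q.Cd, ∃ n, (∃ i, row c.2 n i = q.1) ∧ ∀ m, RW c.1 m n → ∀ j, row c.2 m j ≠ q.2}

theorem Seq1.exists_cd (Q : Seq1 k) {α : Ordinal.{0}} (h : α < ω_ 1) :
    ∃ c ∈ Q.Cd, rk c.1 0 = α := by
  obtain ⟨w, f, h0, h1, h2⟩ := exists_code_ord h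
  obtain ⟨hwf, hrk⟩ := rk_of_fun h1 h2
  have h3 : ∀ n, ∃ e : ℕ → CS, range e = Q.Y (rk w n) := by
    intro n
    obtain ⟨e, he⟩ := (Q.hc _ (rk_lt_omega n)).exists_eq_range (Q.hne _ (rk_lt_omega n))
    exact ⟨e, he.symm⟩
  choose e he using h3
  refine ⟨(w, fun j => e j.unpair.1 j.unpair.2), ⟨?_, fun n => ⟨hwf, ?_⟩⟩, ?_⟩
  · intro a b d hab hbd
    exact (h1 a d).2 (((h1 a b).1 hab).trans ((h1 b d).1 hbd))
  · have : row (fun j => e j.unpair.1 j.unpair.2) n = e n := by
      funext i; simp [row]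
    rw [this, he]
  · simp only
    rw [hrk, h0]

theorem Seq1.sig_Cd (Q : Seq1 k) (hk : 1 ≤ k) : Sig (k + 1) (CS × (ℕ → CS)) Q.Cd := by
  have hRW : ∀ m n, Sig (k + 1) (CS × (ℕ → CS)) {c | RW c.1 m n} := fun m n =>
    (sig_RW hk m n).1.mono_succ
  have hRWc : ∀ m n, Sig (k + 1) (CS × (ℕ → CS)) {c | ¬ RW c.1 m n} := fun m n =>
    (sig_RW hk m n).2.mono_succ
  have key : Q.Cd = (⋂ a, ⋂ b, ⋂ d, ({c | ¬ RW c.1 a b} ∪ ({c | ¬ RW c.1 b d} ∪ {c | RW c.1 a d}))) ∩
      ⋂ n, {c | WellFounded (RW c.1) ∧ range (row c.2 n) = Q.Y (rk c.1 n)} := by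
    ext c
    simp only [Seq1.Cd, mem_ofPred_eq, mem_inter_iff, mem_iInter, mem_union]
    refine and_congr_left fun _ => ?_
    refine forall_congr' fun a => forall_congr' fun b => forall_congr' fun d => ?_
    tauto
  rw [key]
  refine Sig.inter ?_ (Sig.iInter fun n => ?_)
  · exact Sig.iInter fun a => Sig.iInter fun b => Sig.iInter fun d =>
      (hRWc a b).union ((hRWc b d).union (hRW a d))
  · exact (Q.hsig' n).preimage (f := fun c : CS × (ℕ → CS) => (c.1, row c.2 n))
      (continuous_fst.prodMk ((continuous_row n).comp continuous_snd))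

theorem Seq1.sig_U (Q : Seq1 k) : Sig (k + 1) CS Q.U := by
  have h1 : Q.U = {y | ∃ c : CS × (ℕ → CS), (y, c) ∈
      {q : CS × (CS × (ℕ → CS)) | WellFounded (RW q.2.1) ∧ range q.2.2 = Q.Y (rk q.2.1 0)} ∩
        ⋃ i, {q | q.2.2 i = q.1}} := by
    ext y
    simp only [Seq1.U, mem_iUnion, mem_ofPred_eq, mem_inter_iff]
    constructor
    · rintro ⟨α, hα, hy⟩
      obtain ⟨c, hc, hc0⟩ := Q.exists_cd hα
      refine ⟨(c.1, row c.2 0), hc.2 0, ?_⟩
      rw [← hc0, ← (hc.2 0).2] at hy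
      exact hy
    · rintro ⟨c, ⟨-, h2⟩, i, hi⟩
      refine ⟨rk c.1 0, rk_lt_omega 0, ?_⟩
      rw [← h2, ← hi]
      exact mem_range_self i
  rw [h1]
  refine Sig.projP (Sig.inter (Q.hsig.preimage continuous_snd) ?_)
  refine Sig.iUnion fun i => sig_of_measurable (by omega) ?_
  refine IsClosed.measurableSet (isClosed_eq ?_ continuous_fst)
  exact (continuous_apply i).comp (continuous_snd.comp continuous_snd)

theorem Seq1.sig_L (Q : Seq1 k) (hk : 1 ≤ k) : Sig (k + 1) (CS × CS) Q.L := by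
  have h1 : Q.L = {p | ∃ c : CS × (ℕ → CS), (p, c) ∈
      {q : (CS × CS) × (CS × (ℕ → CS)) | q.2 ∈ Q.Cd} ∩ ⋃ n,
        ((⋃ i, {q | row q.2.2 n i = q.1.1}) ∩ ⋂ m, ({q | ¬ RW q.2.1 m n} ∪
          ⋂ j, {q | row q.2.2 m j = q.1.2}ᶜ))} := by
    ext p
    simp only [Seq1.L, mem_ofPred_eq, mem_inter_iff, mem_iInter, mem_iUnion, mem_union,
      mem_compl_iff]
    refine exists_congr fun c => and_congr_right fun _ => exists_congr fun n =>
      and_congr_right fun _ => forall_congr' fun m => ?_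
    by_cases hR : RW c.1 m n <;> simp [hR]
  rw [h1]
  have hcl : ∀ n i, MeasurableSet {q : (CS × CS) × (CS × (ℕ → CS)) | row q.2.2 n i = q.1.1} := by
    intro n i
    refine IsClosed.measurableSet (isClosed_eq ?_ (continuous_fst.comp continuous_fst))
    exact ((continuous_apply i).comp (continuous_row n)).comp (continuous_snd.comp continuous_snd)
  have hcl2 : ∀ n i, MeasurableSet {q : (CS × CS) × (CS × (ℕ → CS)) | row q.2.2 n i = q.1.2} := by
    intro n i
    refine IsClosed.measurableSet (isClosed_eq ?_ (continuous_snd.comp continuous_fst))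
    exact ((continuous_apply i).comp (continuous_row n)).comp (continuous_snd.comp continuous_snd)
  refine Sig.projP (((Q.sig_Cd hk).preimage continuous_snd).inter ?_)
  refine Sig.iUnion fun n => Sig.inter ?_ ?_
  · exact Sig.iUnion fun i => sig_of_measurable (by omega) (hcl n i)
  · refine Sig.iInter fun m => Sig.union ?_ ?_
    · exact (sig_RW hk m n).2.mono_succ.preimage
        (f := fun q : (CS × CS) × (CS × (ℕ → CS)) => q.2) continuous_snd
    · exact Sig.iInter fun j => sig_of_measurable (by omega) (hcl2 m j).compl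

theorem Seq1.L_left (Q : Seq1 k) {y' : CS} (hy' : y' ∈ Q.U) : {y | (y, y') ∈ Q.L}.Countable := by
  simp only [Seq1.U, mem_iUnion] at hy'
  obtain ⟨α, hα, hy'⟩ := hy'
  have hs : Order.succ α < ω_ 1 := (Cardinal.isSuccLimit_omega 1).succ_lt hα
  have h0 : (⋃ β ∈ Set.Iio (Order.succ α), Q.Y β).Countable :=
    (countable_Iio_ord hs).biUnion fun β hβ => Q.hc β (lt_trans hβ hs)
  refine h0.mono ?_
  rintro y ⟨c, hc, n, ⟨i, hi⟩, hn⟩
  simp only at hi hn
  have hwf := (hc.2 n).1
  have hle : rk c.1 n ≤ α := by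
    by_contra hcon
    rw [not_le] at hcon
    obtain ⟨m, hm, hm2⟩ := exists_rk_eq hwf hc.1 hcon
    rw [← hm2, ← (hc.2 m).2] at hy'
    obtain ⟨j, hj⟩ := hy'
    exact hn m hm j hj
  refine mem_iUnion₂.2 ⟨rk c.1 n, Order.lt_succ_iff.2 hle, ?_⟩
  rw [← (hc.2 n).2, ← hi]
  exact mem_range_self i

theorem Seq1.L_right (Q : Seq1 k) {y : CS} (hy : y ∈ Q.U) : {y' | (y, y') ∉ Q.L}.Countable := by
  simp only [Seq1.U, mem_iUnion] at hy
  obtain ⟨α, hα, hy⟩ := hy
  obtain ⟨c, hc, hc0⟩ := Q.exists_cd hα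
  refine (countable_iUnion fun m => countable_range (row c.2 m)).mono ?_
  intro y' hy'
  by_contra hcon
  rw [← hc0, ← (hc.2 0).2] at hy
  refine hy' ⟨c, hc, 0, hy, fun m _ j hj => hcon ?_⟩
  exact mem_iUnion.2 ⟨m, j, hj⟩

/-- **Countable unions.** The union of an `ω₁`-sequence of countable sets of reals which is
`Σ_{k+1}` in the codes is countable. -/
theorem Seq1.countable (Q : Seq1 k) (hk : 1 ≤ k) (S : Setup k) : Q.U.Countable := by
  by_contra hunc
  obtain ⟨g, hg, hinj, hgY⟩ := psp S Q.sig_U hunc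
  have hgm : ∀ x, g x ∈ Q.U := fun x => hgY (mem_range_self x)
  refine no_sierpinski (L := {q | (g q.1, g q.2) ∈ Q.L}) ?_ ?_ ?_
  · refine S.lm_cm2 ((Q.sig_L hk).preimage (f := fun q : CS × CS => (g q.1, g q.2)) ?_)
    fun_prop
  · intro v
    exact (Q.L_left (hgm v)).preimage hinj
  · intro u
    exact (Q.L_right (hgm u)).preimage hinj

end Pool.Agent.Helper679_PU
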