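import Mathlib
import Pool.Agent.Helper679_PU.Omega

/-!
Sequences of length `ω₁`, with a restricted class of codes for the countable ordinals.
-/

namespace Pool.Agent.Helper679_PU

open Set MeasureTheory Filter Topology
open scoped ENNReal Ordinal Cardinal

variable {k : ℕ}

/-- strict weak orders, wellfounded -/
def SWO (w : CS) : Prop := WellFounded (RW w) ∧ (∀ a b c, RW w a b → RW w b c → RW w a c) ∧
  ∀ a b c, RW w a b → RW w a c ∨ RW w c b

theorem SWO.of_fun {w : CS} {f : ℕ → Ordinal.{0}} (hf : ∀ m n, RW w m n ↔ f m < f n)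
    (hs : ∀ n β, β < f n → ∃ m, f m = β) : SWO w := by
  refine ⟨(rk_of_fun hf hs).1, fun a b c h1 h2 => ?_, fun a b c h1 => ?_⟩
  · exact (hf a c).2 (((hf a b).1 h1).trans ((hf b c).1 h2))
  · rw [hf, hf]
    rw [hf] at h1
    rcases lt_or_ge (f a) (f c) with h2 | h2
    · exact Or.inl h2
    · exact Or.inr (lt_of_le_of_lt h2 h1)

theorem SWO.rw_iff {w : CS} (h : SWO w) (a b : ℕ) : RW w a b ↔ rk w a < rk w b := by
  constructor
  · exact rk_lt h.1
  · intro hab
    obtain ⟨c, hc1, hc2⟩ := exists_rk_ge h.1 hab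
    rcases h.2.2 c b a hc1 with h1 | h1
    · exact absurd (rk_lt h.1 h1) (not_lt.2 hc2)
    · exact h1

theorem SWO.swp {w : CS} (h : SWO w) (n : ℕ) : SWO (swp n w) := by
  refine ⟨(rk_swp h.1).1, fun a b c h1 h2 => ?_, fun a b c h1 => ?_⟩
  · rw [RW_swp] at h1 h2 ⊢
    exact h.2.1 _ _ _ h1 h2
  · rw [RW_swp] at h1
    rw [RW_swp, RW_swp]
    exact h.2.2 _ _ _ h1

/-- `Y α` for `α < ω₁` is a sequence of countable sets, `Σ_{k+1}` in the codes. -/
structure Seq2 (k : ℕ) where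
  Y : Ordinal.{0} → Set CS
  hc : ∀ α < ω_ 1, (Y α).Countable
  hne : ∀ α < ω_ 1, (Y α).Nonempty
  hsig : Sig (k + 1) (CS × (ℕ → CS)) {q | SWO q.1 ∧ range q.2 = Y (rk q.1 0)}

theorem Seq2.hsig' (Q : Seq2 k) (n : ℕ) :
    Sig (k + 1) (CS × (ℕ → CS)) {q | SWO q.1 ∧ range q.2 = Q.Y (rk q.1 n)} := by
  have h1 := Q.hsig.preimage (f := fun q : CS × (ℕ → CS) => (swp n q.1, q.2))
    (((continuous_swp n).comp continuous_fst).prodMk continuous_snd)
  convert h1 using 1
  ext q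
  simp only [mem_ofPred_eq, mem_preimage]
  constructor
  · rintro ⟨h2, h3⟩
    have h4 := rk_swp (n := n) h2.1
    exact ⟨h2.swp n, by rw [h4.2]; exact h3⟩
  · rintro ⟨h2, h3⟩
    have h5 : SWO q.1 := by
      have := h2.swp n
      rwa [swp_swp] at this
    exact ⟨h5, by rw [h3, (rk_swp h5.1).2]⟩

/-- the union -/
def Seq2.U (Q : Seq2 k) : Set CS := ⋃ α, ⋃ (_ : α < ω_ 1), Q.Y α

/-- codes for enumerations along a strict weak order -/
def Seq2.Cd (Q : Seq2 k) : Set (CS × (ℕ → CS)) :=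
  {c | ∀ n, SWO c.1 ∧ range (row c.2 n) = Q.Y (rk c.1 n)}

/-- comparison of the first places -/
def Seq2.L (Q : Seq2 k) : Set (CS × CS) :=
  {q | ∃ c ∈ Q.Cd, ∃ n, (∃ i, row c.2 n i = q.1) ∧ ∀ m, RW c.1 m n → ∀ j, row c.2 m j ≠ q.2}

theorem Seq2.exists_cd (Q : Seq2 k) {α : Ordinal.{0}} (h : α < ω_ 1) :
    ∃ c ∈ Q.Cd, rk c.1 0 = α := by
  obtain ⟨w, f, h0, h1, h2⟩ := exists_code_ord h
  obtain ⟨hwf, hrk⟩ := rk_of_fun h1 h2
  have h3 : ∀ n, ∃ e : ℕ → CS, range e = Q.Y (rk w n) := by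
    intro n
    obtain ⟨e, he⟩ := (Q.hc _ (rk_lt_omega n)).exists_eq_range (Q.hne _ (rk_lt_omega n))
    exact ⟨e, he.symm⟩
  choose e he using h3
  refine ⟨(w, fun j => e j.unpair.1 j.unpair.2), fun n => ⟨SWO.of_fun h1 h2, ?_⟩, ?_⟩
  · have : row (fun j => e j.unpair.1 j.unpair.2) n = e n := by
      funext i; simp [row]
    rw [this, he]
  · simp only
    rw [hrk, h0]

theorem Seq2.sig_Cd (Q : Seq2 k) : Sig (k + 1) (CS × (ℕ → CS)) Q.Cd := by
  have key : Q.Cd = ⋂ n, {c | SWO c.1 ∧ range (row c.2 n) = Q.Y (rk c.1 n)} := by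
    ext c
    simp only [Seq2.Cd, mem_ofPred_eq, mem_iInter]
  rw [key]
  refine Sig.iInter fun n => ?_
  exact (Q.hsig' n).preimage (f := fun c : CS × (ℕ → CS) => (c.1, row c.2 n))
    (continuous_fst.prodMk ((continuous_row n).comp continuous_snd))

theorem Seq2.sig_U (Q : Seq2 k) : Sig (k + 1) CS Q.U := by
  have h1 : Q.U = {y | ∃ c : CS × (ℕ → CS), (y, c) ∈
      {q : CS × (CS × (ℕ → CS)) | SWO q.2.1 ∧ range q.2.2 = Q.Y (rk q.2.1 0)} ∩
        ⋃ i, {q | q.2.2 i = q.1}} := by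
    ext y
    simp only [Seq2.U, mem_iUnion, mem_ofPred_eq, mem_inter_iff]
    constructor
    · rintro ⟨α, hα, hy⟩
      obtain ⟨c, hc, hc0⟩ := Q.exists_cd hα
      refine ⟨(c.1, row c.2 0), hc 0, ?_⟩
      rw [← hc0, ← (hc 0).2] at hy
      exact hy
    · rintro ⟨c, ⟨-, h2⟩, i, hi⟩
      refine ⟨rk c.1 0, rk_lt_omega 0, ?_⟩
      rw [← h2, ← hi]
      exact mem_range_self i
  rw [h1]
  refine Sig.projP (Sig.inter (Q.hsig.preimage continuous_snd) ?_)
  refine Sig.iUnion fun i => sig_of_measurable (by omega) ?_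
  refine IsClosed.measurableSet (isClosed_eq ?_ continuous_fst)
  exact (continuous_apply i).comp (continuous_snd.comp continuous_snd)

theorem Seq2.sig_L (Q : Seq2 k) (hk : 1 ≤ k) : Sig (k + 1) (CS × CS) Q.L := by
  have h1 : Q.L = {p | ∃ c : CS × (ℕ → CS), (p, c) ∈
      {q : (CS × CS) × (CS × (ℕ → CS)) | q.2 ∈ Q.Cd} ∩ ⋃ n,
        ((⋃ i, {q | row q.2.2 n i = q.1.1}) ∩ ⋂ m, ({q | ¬ RW q.2.1 m n} ∪
          ⋂ j, {q | row q.2.2 m j = q.1.2}ᶜ))} := by
    ext p
    simp only [Seq2.L, mem_ofPred_eq, mem_inter_iff, mem_iInter, mem_iUnion, mem_union,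
      mem_compl_iff]
    refine exists_congr fun c => and_congr_right fun _ => exists_congr fun n =>
      and_congr_right fun _ => forall_congr' fun m => ?_
    by_cases hR : RW c.1 m n <;> simp [hR]
  rw [h1]
  have hcl : ∀ n i, MeasurableSet {q : (CS × CS) × (CS × (ℕ → CS)) | row q.2.2 n i = q.1.1} := by
    intro n i
    refine IsClosed.measurableSet (isClosed_eq ?_ (continuous_fst.comp continuous_fst))
    exact ((continuous_apply i).comp (continuous_row n)).comp (continuous_snd.comp continuous_snd)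
  have hcl2 : ∀ n i, MeasurableSet {q : (CS × CS) × (CS × (ℕ → CS)) | row q.2.2 n i = q.1.2} := by
    intro n i
    refine IsClosed.measurableSet (isClosed_eq ?_ (continuous_snd.comp continuous_fst))
    exact ((continuous_apply i).comp (continuous_row n)).comp (continuous_snd.comp continuous_snd)
  refine Sig.projP (((Q.sig_Cd).preimage continuous_snd).inter ?_)
  refine Sig.iUnion fun n => Sig.inter ?_ ?_
  · exact Sig.iUnion fun i => sig_of_measurable (by omega) (hcl n i)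
  · refine Sig.iInter fun m => Sig.union ?_ ?_
    · exact (sig_RW hk m n).2.mono_succ.preimage
        (f := fun q : (CS × CS) × (CS × (ℕ → CS)) => q.2) continuous_snd
    · exact Sig.iInter fun j => sig_of_measurable (by omega) (hcl2 m j).compl

theorem Seq2.L_left (Q : Seq2 k) {y' : CS} (hy' : y' ∈ Q.U) : {y | (y, y') ∈ Q.L}.Countable := by
  simp only [Seq2.U, mem_iUnion] at hy'
  obtain ⟨α, hα, hy'⟩ := hy'
  have hs : Order.succ α < ω_ 1 := (Cardinal.isSuccLimit_omega 1).succ_lt hα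
  have h0 : (⋃ β ∈ Set.Iio (Order.succ α), Q.Y β).Countable :=
    (countable_Iio_ord hs).biUnion fun β hβ => Q.hc β (lt_trans hβ hs)
  refine h0.mono ?_
  rintro y ⟨c, hc, n, ⟨i, hi⟩, hn⟩
  simp only at hi hn
  have hwf := (hc n).1.1
  have hle : rk c.1 n ≤ α := by
    by_contra hcon
    rw [not_le] at hcon
    obtain ⟨m, hm, hm2⟩ := exists_rk_eq hwf (hc n).1.2.1 hcon
    rw [← hm2, ← (hc m).2] at hy'
    obtain ⟨j, hj⟩ := hy'
    exact hn m hm j hj
  refine mem_iUnion₂.2 ⟨rk c.1 n, Order.lt_succ_iff.2 hle, ?_⟩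
  rw [← (hc n).2, ← hi]
  exact mem_range_self i

theorem Seq2.L_right (Q : Seq2 k) {y : CS} (hy : y ∈ Q.U) : {y' | (y, y') ∉ Q.L}.Countable := by
  simp only [Seq2.U, mem_iUnion] at hy
  obtain ⟨α, hα, hy⟩ := hy
  obtain ⟨c, hc, hc0⟩ := Q.exists_cd hα
  refine (countable_iUnion fun m => countable_range (row c.2 m)).mono ?_
  intro y' hy'
  by_contra hcon
  rw [← hc0, ← (hc 0).2] at hy
  refine hy' ⟨c, hc, 0, hy, fun m _ j hj => hcon ?_⟩
  exact mem_iUnion.2 ⟨m, j, hj⟩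

/-- **Countable unions.** The union of an `ω₁`-sequence of countable sets of reals which is
`Σ_{k+1}` in the codes is countable. -/
theorem Seq2.countable (Q : Seq2 k) (hk : 1 ≤ k) (S : Setup k) : Q.U.Countable := by
  by_contra hunc
  obtain ⟨g, hg, hinj, hgY⟩ := psp S Q.sig_U hunc
  have hgm : ∀ x, g x ∈ Q.U := fun x => hgY (mem_range_self x)
  refine no_sierpinski (L := {q | (g q.1, g q.2) ∈ Q.L}) ?_ ?_ ?_
  · refine S.lm_cm2 ((Q.sig_L hk).preimage (f := fun q : CS × CS => (g q.1, g q.2)) ?_)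
    fun_prop
  · intro v
    exact (Q.L_left (hgm v)).preimage hinj
  · intro u
    exact (Q.L_right (hgm u)).preimage hinj

end Pool.Agent.Helper679_PU
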