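import Mathlib
import Pool.Agent.Helper679_PU.Defs

/-!
Combinatorial forcing, relative to a family of infinite sets.
-/

namespace Pool.Agent.Helper679_PU

open Set

/-- the set with characteristic function `x` is infinite -/
def Infi (x : CS) : Prop := ∀ n, ∃ m, n ≤ m ∧ x m = true

/-- the `k`-th bit of a stem -/
def bit (σ : List Bool) (k : ℕ) : Bool := σ.getD k false

/-- add `n` as the next element -/
def snoc (σ : List Bool) (n : ℕ) : List Bool := σ ++ (List.replicate (n - σ.length) false ++ [true])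

theorem snoc_length {σ : List Bool} {n : ℕ} (h : σ.length ≤ n) : (snoc σ n).length = n + 1 := by
  simp only [snoc, List.length_append, List.length_replicate, List.length_cons, List.length_nil]
  omega

theorem bit_snoc_lt {σ : List Bool} {n k : ℕ} (h : k < σ.length) : bit (snoc σ n) k = bit σ k := by
  unfold bit snoc
  exact List.getD_append _ _ _ _ h

theorem bit_snoc_mid {σ : List Bool} {n k : ℕ} (h : σ.length ≤ k) (hk : k < n) :
    bit (snoc σ n) k = false := by
  unfold bit snoc
  rw [List.getD_append_right _ _ _ _ h, List.getD_append _ _ _ _ (by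
    rw [List.length_replicate]; omega)]
  rw [List.getD_replicate]
  omega

theorem bit_snoc_self {σ : List Bool} {n : ℕ} (h : σ.length ≤ n) : bit (snoc σ n) n = true := by
  unfold bit snoc
  rw [List.getD_append_right _ _ _ _ h, List.getD_append_right _ _ _ _ (by
    rw [List.length_replicate])]
  simp

theorem bit_of_le {σ : List Bool} {k : ℕ} (h : σ.length ≤ k) : bit σ k = false := by
  unfold bit
  rw [List.getD_eq_default _ _ h]

theorem stem_ext {σ τ : List Bool} (h : σ.length = τ.length)
    (hb : ∀ k < σ.length, bit σ k = bit τ k) : σ = τ := by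
  apply List.ext_getElem h
  intro k h1 h2
  have := hb k h1
  unfold bit at this
  rw [List.getD_eq_getElem _ _ h1, List.getD_eq_getElem _ _ h2] at this
  exact this

/-- `Y` is a subset of `Y'` from `l` on -/
def TL (l : ℕ) (Y Y' : CS) : Prop := ∀ n, l ≤ n → Y n = true → Y' n = true

theorem TL.refl (l : ℕ) (Y : CS) : TL l Y Y := fun _ _ h => h

theorem TL.trans {l : ℕ} {Y Y' Y'' : CS} (h : TL l Y Y') (h' : TL l Y' Y'') : TL l Y Y'' :=
  fun n hn hy => h' n hn (h n hn hy)

theorem TL.mono {l l' : ℕ} {Y Y' : CS} (h : TL l Y Y') (hl : l ≤ l') : TL l' Y Y' :=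
  fun n hn hy => h n (hl.trans hn) hy

/-- the basic set of `(σ, Y)` -/
def Bx (p : List Bool × CS) : Set CS :=
  {x | Infi x ∧ (∀ k < p.1.length, x k = bit p.1 k) ∧ TL p.1.length x p.2}

/-- `q` extends `p` -/
def Le (q p : List Bool × CS) : Prop :=
  p.1.length ≤ q.1.length ∧ (∀ k < p.1.length, bit q.1 k = bit p.1 k) ∧
    (∀ k, p.1.length ≤ k → k < q.1.length → bit q.1 k = true → p.2 k = true) ∧
    TL q.1.length q.2 p.2

theorem Le.refl (p : List Bool × CS) : Le p p :=
  ⟨le_rfl, fun _ _ => rfl, fun _ h1 h2 => absurd h2 (not_lt.2 h1), TL.refl _ _⟩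

theorem Le.trans {r q p : List Bool × CS} (h : Le r q) (h' : Le q p) : Le r p := by
  obtain ⟨a1, a2, a3, a4⟩ := h
  obtain ⟨b1, b2, b3, b4⟩ := h'
  refine ⟨b1.trans a1, fun k hk => ?_, fun k h1 h2 h3 => ?_, (a4.trans (b4.mono a1))⟩
  · rw [a2 k (lt_of_lt_of_le hk b1), b2 k hk]
  · by_cases h4 : k < q.1.length
    · rw [a2 k h4] at h3
      exact b3 k h1 h4 h3
    · exact b4 k (not_lt.1 h4) (a3 k (not_lt.1 h4) h2 h3)

theorem Le.bx {q p : List Bool × CS} (h : Le q p) : Bx q ⊆ Bx p := by
  obtain ⟨b1, b2, b3, b4⟩ := h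
  rintro x ⟨h1, h2, h3⟩
  refine ⟨h1, fun k hk => ?_, fun k hk hx => ?_⟩
  · rw [h2 k (lt_of_lt_of_le hk b1), b2 k hk]
  · by_cases h4 : k < q.1.length
    · rw [h2 k h4] at hx
      exact b3 k hk h4 hx
    · exact b4 k (not_lt.1 h4) (h3 k (not_lt.1 h4) hx)

theorem le_snoc {σ : List Bool} {n : ℕ} {Y : CS} (h : σ.length ≤ n) (hY : Y n = true) :
    Le (snoc σ n, Y) (σ, Y) := by
  refine ⟨?_, fun k hk => bit_snoc_lt hk, fun k h1 h2 h3 => ?_, TL.refl _ _⟩
  · simp only [snoc_length h]; omega
  · simp only [snoc_length h] at h2 h1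
    rcases Nat.lt_succ_iff_lt_or_eq.1 h2 with h4 | h4
    · simp only [bit_snoc_mid h1 h4] at h3
      exact absurd h3 (by simp)
    · rw [h4]; exact hY

theorem le_of_TL {σ : List Bool} {Y Y' : CS} (h : TL σ.length Y Y') : Le (σ, Y) (σ, Y') :=
  ⟨le_rfl, fun _ _ => rfl, fun _ h1 h2 => absurd h2 (not_lt.2 h1), h⟩

/-- the next element -/
theorem exists_snoc {p : List Bool × CS} {x : CS} (hx : x ∈ Bx p) :
    ∃ n, p.1.length ≤ n ∧ p.2 n = true ∧ x ∈ Bx (snoc p.1 n, p.2) := by
  classical
  obtain ⟨h1, h2, h3⟩ := hx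
  have hex := h1 p.1.length
  obtain ⟨hn1, hn2⟩ := Nat.find_spec hex
  set n := Nat.find hex with hn
  have hmin : ∀ k, p.1.length ≤ k → k < n → x k = false := by
    intro k hk hkn
    have := Nat.find_min hex hkn
    by_contra hcon
    exact this ⟨hk, by simpa using hcon⟩
  refine ⟨n, hn1, h3 n hn1 hn2, h1, fun k hk => ?_, fun k hk hxk => ?_⟩
  · simp only [snoc_length hn1] at hk
    rcases Nat.lt_succ_iff_lt_or_eq.1 hk with h4 | h4
    · by_cases h5 : k < p.1.length
      · rw [h2 k h5]; simp only [bit_snoc_lt h5]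
      · rw [hmin k (not_lt.1 h5) h4]; simp only [bit_snoc_mid (not_lt.1 h5) h4]
    · rw [h4, hn2]; simp only [bit_snoc_self hn1]
  · simp only [snoc_length hn1] at hk
    exact h3 k (by omega) hxk

/-- hereditary properties -/
def Her (D : List Bool → CS → Prop) : Prop :=
  ∀ σ Y Y', D σ Y → TL σ.length Y' Y → D σ Y'

/-- rejection -/
def Rej (M : Set CS) (C : List Bool → CS → Prop) (σ : List Bool) (Y : CS) : Prop :=
  ∀ Y' ∈ M, TL σ.length Y' Y → ¬ C σ Y'

theorem Rej.her (M : Set CS) (C : List Bool → CS → Prop) : Her (Rej M C) :=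
  fun _ _ _ h h1 Z hZ h2 => h Z hZ (h2.trans h1)

/-- acceptance, or strong rejection -/
def QQ (M : Set CS) (C : List Bool → CS → Prop) (σ : List Bool) (Y : CS) : Prop :=
  C σ Y ∨ (Rej M C σ Y ∧ ∀ n, σ.length ≤ n → Y n = true → Rej M C (snoc σ n) Y)

theorem QQ.her {M : Set CS} {C : List Bool → CS → Prop} (hC : Her C) : Her (QQ M C) := by
  rintro σ Y Y' (h | ⟨h1, h2⟩) h3
  · exact Or.inl (hC _ _ _ h h3)
  · refine Or.inr ⟨Rej.her _ _ _ _ _ h1 h3, fun n hn hY => ?_⟩
    refine Rej.her _ _ _ _ _ (h2 n hn (h3 n hn hY)) (h3.mono ?_)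
    rw [snoc_length hn]; omega

/-- decision of `QQ` -/
def DD (M : Set CS) (C : List Bool → CS → Prop) (σ : List Bool) (Y : CS) : Prop :=
  QQ M C σ Y ∨ Rej M (QQ M C) σ Y

theorem DD.her {M : Set CS} {C : List Bool → CS → Prop} (hC : Her C) : Her (DD M C) := by
  rintro σ Y Y' (h | h) h3
  · exact Or.inl (QQ.her hC _ _ _ h h3)
  · exact Or.inr (Rej.her _ _ _ _ _ h h3)

theorem DD.dense {M : Set CS} {C : List Bool → CS → Prop} (σ : List Bool) {Y : CS} (hY : Y ∈ M) :
    ∃ Y' ∈ M, TL σ.length Y' Y ∧ DD M C σ Y' := by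
  by_cases h : Rej M (QQ M C) σ Y
  · exact ⟨Y, hY, TL.refl _ _, Or.inr h⟩
  · unfold Rej at h
    push Not at h
    obtain ⟨Y', h1, h2, h3⟩ := h
    exact ⟨Y', h1, h2, Or.inl h3⟩

theorem DD.dec {M : Set CS} {C : List Bool → CS → Prop} {σ : List Bool} {Y : CS}
    (h : DD M C σ Y) : C σ Y ∨ Rej M C σ Y := by
  rcases h with (h | ⟨h, -⟩) | h
  · exact Or.inl h
  · exact Or.inr h
  · exact Or.inr fun Z hZ h1 h2 => h Z hZ h1 (Or.inl h2)

/-- What a diagonalization achieves: `z` is a subset of `X` from `l` on, it has no elements below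
`l`, and `D` holds at all the stems which end at an element of `z`. -/
def Diags (D : List Bool → CS → Prop) (X : CS) (l : ℕ) (z : CS) : Prop :=
  TL l z X ∧ (∀ k < l, z k = false) ∧
    ∀ σ : List Bool, (σ.length = l ∨ ∃ n, z n = true ∧ σ.length = n + 1) → D σ z

/-- `τ` extends `σ` by elements of `z` -/
def Cmp (σ : List Bool) (z : CS) (τ : List Bool) : Prop :=
  σ.length ≤ τ.length ∧ (∀ k < σ.length, bit τ k = bit σ k) ∧
    ∀ k, σ.length ≤ k → k < τ.length → bit τ k = true → z k = true

/-- **The abstract form of the theorem of Galvin and Prikry.** -/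
theorem abstract_dec {M : Set CS} {C : List Bool → CS → Prop} (hC : Her C)
    (hone : ∀ σ Y, (∀ n, σ.length ≤ n → Y n = true → C (snoc σ n) Y) → C σ Y)
    (hdiag : ∀ X ∈ M, ∀ l, ∃ z ∈ M, Diags (DD M C) X l z)
    (hz : ∀ X ∈ M, ∀ σ : List Bool, ∀ Z : CS,
      (∀ n, Z n = true ↔ (σ.length ≤ n ∧ X n = true ∧ C (snoc σ n) X)) → Infi Z → Z ∈ M)
    {X : CS} (hX : X ∈ M) (l : ℕ) :
    ∃ z ∈ M, TL l z X ∧ (∀ k < l, z k = false) ∧ ∀ σ : List Bool, σ.length = l →
      (C σ z ∨ ∀ τ, Cmp σ z τ → ∀ n, τ.length ≤ n → z n = true → Rej M C (snoc τ n) z) := by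
  classical
  -- density of `QQ`
  have hdense : ∀ σ : List Bool, ∀ Y ∈ M, ∃ Y' ∈ M, TL σ.length Y' Y ∧ QQ M C σ Y' := by
    intro σ Y hY
    obtain ⟨Y1, hY1, h1, h2, h3⟩ := hdiag Y hY σ.length
    rcases (h3 σ (Or.inl rfl)).dec with h4 | h4
    · exact ⟨Y1, hY1, h1, Or.inl h4⟩
    · set Z : CS := fun n => decide (σ.length ≤ n ∧ Y1 n = true ∧ C (snoc σ n) Y1) with hZ
      have hZ' : ∀ n, Z n = true ↔ (σ.length ≤ n ∧ Y1 n = true ∧ C (snoc σ n) Y1) := by
        intro n; simp [hZ]
      by_cases hinf : Infi Z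
      · have hZM := hz Y1 hY1 σ Z hZ' hinf
        exfalso
        refine h4 Z hZM (fun n hn hZn => ((hZ' n).1 hZn).2.1) (hone σ Z fun n hn hZn => ?_)
        refine hC _ _ _ ((hZ' n).1 hZn).2.2 ?_
        intro k _ hk
        exact ((hZ' k).1 hk).2.1
      · unfold Infi at hinf
        push Not at hinf
        obtain ⟨b, hb⟩ := hinf
        obtain ⟨Y2, hY2, h5, h6, -⟩ := hdiag Y1 hY1 (max b σ.length)
        have h7 : TL σ.length Y2 Y1 := by
          intro n hn hY2n
          by_cases h8 : max b σ.length ≤ n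
          · exact h5 n h8 hY2n
          · rw [h6 n (not_le.1 h8)] at hY2n
            exact absurd hY2n (by simp)
        refine ⟨Y2, hY2, h7.trans h1, Or.inr ⟨Rej.her _ _ _ _ _ h4 h7, fun n hn hY2n => ?_⟩⟩
        have h9 : max b σ.length ≤ n := by
          by_contra h8
          rw [h6 n (not_le.1 h8)] at hY2n
          exact absurd hY2n (by simp)
        have h10 : Y1 n = true := h5 n h9 hY2n
        have h11 : ¬ C (snoc σ n) Y1 := fun h12 =>
          hb n ((le_max_left _ _).trans h9) ((hZ' n).2 ⟨hn, h10, h12⟩)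
        rcases (h3 (snoc σ n) (Or.inr ⟨n, h10, snoc_length hn⟩)).dec with h12 | h12
        · exact absurd h12 h11
        · refine Rej.her _ _ _ _ _ h12 (h7.mono ?_)
          rw [snoc_length hn]; omega
  obtain ⟨z, hzM, h1, h2, h3⟩ := hdiag X hX l
  refine ⟨z, hzM, h1, h2, fun σ hσ => ?_⟩
  have hQ : ∀ σ : List Bool, (σ.length = l ∨ ∃ n, z n = true ∧ σ.length = n + 1) → QQ M C σ z := by
    intro σ h
    rcases h3 σ h with h4 | h4
    · exact h4
    · obtain ⟨Y', hY', h5, h6⟩ := hdense σ z hzM
      exact absurd h6 (h4 Y' hY' h5)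
  by_cases hCσ : C σ z
  · exact Or.inl hCσ
  right
  -- induction on the length of `τ`
  have key : ∀ m, ∀ τ : List Bool, τ.length = m → Cmp σ z τ → ∀ n, τ.length ≤ n → z n = true →
      Rej M C (snoc τ n) z := by
    intro m
    induction m using Nat.strong_induction_on with
    | _ m ih =>
      intro τ hτ hcmp n hn hzn
      obtain ⟨c1, c2, c3⟩ := hcmp
      by_cases hbit : ∃ k, σ.length ≤ k ∧ k < τ.length ∧ bit τ k = true
      · -- the last one
        obtain ⟨k, ⟨hk1, hk2, hk3⟩, hmax⟩ : ∃ k, (σ.length ≤ k ∧ k < τ.length ∧ bit τ k = true) ∧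
            ∀ j, k < j → j < τ.length → bit τ j = false := by
          set S := (Finset.range τ.length).filter fun k => σ.length ≤ k ∧ bit τ k = true with hS
          have hne : S.Nonempty := by
            obtain ⟨k, h4, h5, h6⟩ := hbit
            exact ⟨k, by simp [hS, h4, h5, h6]⟩
          have h4 := S.max'_mem hne
          simp only [hS, Finset.mem_filter, Finset.mem_range] at h4
          refine ⟨S.max' hne, ⟨h4.2.1, h4.1, h4.2.2⟩, fun j hj1 hj2 => ?_⟩
          by_contra hcon
          have h5 : j ∈ S := by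
            simp only [hS, Finset.mem_filter, Finset.mem_range]
            exact ⟨hj2, h4.2.1.trans hj1.le, by simpa using hcon⟩
          exact absurd (S.le_max' j h5) (not_le.2 hj1)
        have hlen : (τ.take k).length = k := by
          rw [List.length_take]; omega
        have hbt : ∀ j, j < k → bit (τ.take k) j = bit τ j := by
          intro j hj
          unfold bit
          rw [List.getD_eq_getElem _ _ (by rw [hlen]; exact hj),
            List.getD_eq_getElem _ _ (by omega), List.getElem_take]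
        have hzk : z k = true := c3 k hk1 hk2 hk3
        have h4 : Rej M C (snoc (τ.take k) k) z := by
          refine ih k (by omega) (τ.take k) hlen ⟨by rw [hlen]; exact hk1, fun j hj => ?_,
            fun j hj1 hj2 hj3 => ?_⟩ k hlen.le hzk
          · rw [hbt j (lt_of_lt_of_le hj hk1), c2 j hj]
          · rw [hlen] at hj2
            rw [hbt j hj2] at hj3
            exact c3 j hj1 (by omega) hj3
        have hlen2 : (snoc (τ.take k) k).length = k + 1 := snoc_length hlen.le
        have h5 := hQ (snoc (τ.take k) k) (Or.inr ⟨k, hzk, hlen2⟩)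
        have h6 : snoc τ n = snoc (snoc (τ.take k) k) n := by
          refine stem_ext ?_ fun j hj => ?_
          · rw [snoc_length hn, snoc_length (by rw [hlen2]; omega)]
          · rw [snoc_length hn] at hj
            by_cases hj1 : j < k
            · rw [bit_snoc_lt (by omega), bit_snoc_lt (by rw [hlen2]; omega),
                bit_snoc_lt (by rw [hlen]; exact hj1), hbt j hj1]
            · by_cases hj2 : j = k
              · rw [hj2, bit_snoc_lt hk2, bit_snoc_lt (by rw [hlen2]; omega),
                  bit_snoc_self hlen.le, hk3]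
              · by_cases hj3 : j = n
                · rw [hj3, bit_snoc_self hn, bit_snoc_self (by rw [hlen2]; omega)]
                · rw [bit_snoc_mid (σ := snoc (τ.take k) k) (by rw [hlen2]; omega) (by omega)]
                  by_cases hj4 : j < τ.length
                  · rw [bit_snoc_lt hj4]
                    exact hmax j (by omega) hj4
                  · exact bit_snoc_mid (by omega) (by omega)
        rw [h6]
        rcases h5 with h7 | ⟨-, h7⟩
        · exact absurd h7 (h4 z hzM (TL.refl _ _))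
        · exact h7 n (by rw [hlen2]; omega) hzn
      · push Not at hbit
        have h6 : snoc τ n = snoc σ n := by
          refine stem_ext ?_ fun j hj => ?_
          · rw [snoc_length hn, snoc_length (c1.trans hn)]
          · rw [snoc_length hn] at hj
            by_cases hj1 : j < σ.length
            · rw [bit_snoc_lt (by omega), bit_snoc_lt hj1, c2 j hj1]
            · by_cases hj3 : j = n
              · rw [hj3, bit_snoc_self hn, bit_snoc_self (c1.trans hn)]
              · rw [bit_snoc_mid (σ := σ) (by omega) (by omega)]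
                by_cases hj4 : j < τ.length
                · rw [bit_snoc_lt hj4]
                  have := hbit j (by omega) hj4
                  simpa using this
                · exact bit_snoc_mid (by omega) (by omega)
        rw [h6]
        rcases hQ σ (Or.inl hσ) with h7 | ⟨-, h7⟩
        · exact absurd h7 hCσ
        · exact h7 n (c1.trans hn) hzn
  exact fun τ hτ n hn hzn => key τ.length τ rfl hτ n hn hzn

end Pool.Agent.Helper679_PU
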