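import Mathlib
import Pool.Agent.Helper679_PU.Ram1

/-!
Fusion.
-/

namespace Pool.Agent.Helper679_PU

open Set

/-- the bounds in a fusion -/
def Lh (l : ℕ) (N : ℕ → ℕ) : ℕ → ℕ
  | 0 => l
  | i + 1 => N i + 1

/-- the previous set in a fusion -/
def Yp (X : CS) (Y : ℕ → CS) : ℕ → CS
  | 0 => X
  | i + 1 => Y i

/-- the requirement on the next set -/
def GoodY (M : Set CS) (D : List Bool → CS → Prop) (l : ℕ) (X Y : CS) : Prop :=
  Y ∈ M ∧ TL l Y X ∧ ∀ σ : List Bool, σ.length = l → D σ Y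

/-- `n` is the first element of `Y` from `l` on -/
def NextN (l : ℕ) (Y : CS) (n : ℕ) : Prop :=
  l ≤ n ∧ Y n = true ∧ ∀ k, l ≤ k → k < n → Y k = false

theorem exists_next {Y : CS} (h : Infi Y) (l : ℕ) : ∃ n, NextN l Y n := by
  classical
  have hex := h l
  refine ⟨Nat.find hex, (Nat.find_spec hex).1, (Nat.find_spec hex).2, fun k hk hkn => ?_⟩
  have := Nat.find_min hex hkn
  by_contra hcon
  exact this ⟨hk, by simpa using hcon⟩

theorem NextN.unique {l : ℕ} {Y : CS} {n n' : ℕ} (h : NextN l Y n) (h' : NextN l Y n') :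
    n = n' := by
  obtain ⟨a1, a2, a3⟩ := h
  obtain ⟨b1, b2, b3⟩ := h'
  rcases lt_trichotomy n n' with h1 | h1 | h1
  · rw [b3 n a1 h1] at a2; exact absurd a2 (by simp)
  · exact h1
  · rw [a3 n' b1 h1] at b2; exact absurd b2 (by simp)

theorem fseq_diags {M : Set CS} {D : List Bool → CS → Prop} (hD : Her D) {X : CS} {l : ℕ}
    {Y : ℕ → CS} {N : ℕ → ℕ} (h : ∀ i, GoodY M D (Lh l N i) (Yp X Y i) (Y i))
    (hN : ∀ i, NextN (Lh l N i) (Y i) (N i)) {z : CS} (hz : ∀ k, z k = true ↔ ∃ i, N i = k) :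
    Diags D X l z ∧ Infi z := by
  have h1 : ∀ i, Lh l N i ≤ N i := fun i => (hN i).1
  have h2 : ∀ i, N i < Lh l N (i + 1) := fun i => Nat.lt_succ_self _
  have hmono : Monotone (Lh l N) := monotone_nat_of_le_succ fun i => ((h1 i).trans_lt (h2 i)).le
  have hTL : ∀ i j, i ≤ j → TL (Lh l N j) (Y j) (Y i) := by
    intro i j hij
    induction j, hij using Nat.le_induction with
    | base => exact TL.refl _ _
    | succ j hij ih =>
      refine TL.trans ((h (j + 1)).2.1) (ih.mono (hmono (Nat.le_succ j)))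
  have hzY : ∀ i, TL (Lh l N i) z (Y i) := by
    intro i k hk hzk
    obtain ⟨j, rfl⟩ := (hz k).1 hzk
    have hij : i ≤ j := by
      by_contra hcon
      rw [not_le] at hcon
      have := hmono (Nat.succ_le_of_lt hcon)
      exact absurd (lt_of_lt_of_le (h2 j) this) (not_lt.2 hk)
    exact hTL i j hij _ (h1 j) (hN j).2.1
  refine ⟨⟨?_, ?_, ?_⟩, ?_⟩
  · exact (hzY 0).trans (h 0).2.1
  · intro k hk
    by_contra hcon
    obtain ⟨j, rfl⟩ := (hz k).1 (by simpa using hcon)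
    have h3 : Lh l N 0 ≤ Lh l N j := hmono (Nat.zero_le j)
    exact absurd (lt_of_lt_of_le hk (h3.trans (h1 j))) (lt_irrefl _)
  · rintro σ (hσ | ⟨n, hn, hσ⟩)
    · refine hD σ (Y 0) z ((h 0).2.2 σ hσ) ?_
      rw [hσ]; exact hzY 0
    · obtain ⟨i, rfl⟩ := (hz n).1 hn
      refine hD σ (Y (i + 1)) z ((h (i + 1)).2.2 σ hσ) ?_
      rw [hσ]; exact hzY (i + 1)
  · intro n
    have h3 : ∀ i, i ≤ N i := by
      intro i
      induction i with
      | zero => exact Nat.zero_le _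
      | succ i ih =>
        have h4 : N i + 1 ≤ N (i + 1) := h1 (i + 1)
        omega
    exact ⟨N n, h3 n, (hz _).2 ⟨n, rfl⟩⟩

/-- there is a good set at every stage -/
theorem exists_good {M : Set CS} {D : List Bool → CS → Prop} (hD : Her D)
    (hdense : ∀ σ : List Bool, ∀ Y ∈ M, ∃ Y' ∈ M, TL σ.length Y' Y ∧ D σ Y') {X : CS} (hX : X ∈ M)
    (l : ℕ) : ∃ Y, GoodY M D l X Y := by
  have hfin : {σ : List Bool | σ.length = l}.Finite := List.finite_length_eq Bool l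
  have key : ∀ S : Set (List Bool), S.Finite → S ⊆ {σ : List Bool | σ.length = l} →
      ∃ Y ∈ M, TL l Y X ∧ ∀ σ ∈ S, D σ Y := by
    intro S hS
    induction S, hS using Set.Finite.induction_on with
    | empty => exact fun _ => ⟨X, hX, TL.refl _ _, fun σ hσ => absurd hσ (notMem_empty _)⟩
    | @insert σ S _ _ ih =>
      intro hsub
      obtain ⟨Y, hY, h1, h2⟩ := ih fun τ hτ => hsub (Or.inr hτ)
      have hσ : σ.length = l := hsub (Or.inl rfl)
      obtain ⟨Y', hY', h3, h4⟩ := hdense σ Y hY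
      rw [hσ] at h3
      refine ⟨Y', hY', h3.trans h1, ?_⟩
      rintro τ (rfl | hτ)
      · exact h4
      · refine hD τ Y Y' (h2 τ hτ) ?_
        rw [show τ.length = l from hsub (Or.inr hτ)]
        exact h3
  obtain ⟨Y, hY, h1, h2⟩ := key _ hfin subset_rfl
  exact ⟨Y, hY, h1, fun σ hσ => h2 σ hσ⟩

/-- fusion sequences with choices -/
theorem exists_fseq {M : Set CS} (hinf : ∀ Y ∈ M, Infi Y) {P : ℕ → CS → CS → Prop}
    (hPM : ∀ l X Y, P l X Y → Y ∈ M) (hP : ∀ X ∈ M, ∀ l, ∃ Y, P l X Y) {X : CS} (hX : X ∈ M)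
    (l : ℕ) : ∃ (Y : ℕ → CS) (N : ℕ → ℕ), (∀ i, P (Lh l N i) (Yp X Y i) (Y i)) ∧
      ∀ i, NextN (Lh l N i) (Y i) (N i) := by
  -- a state is a set in `M` together with a bound
  have step : ∀ s : {Y // Y ∈ M} × ℕ, ∃ s' : {Y // Y ∈ M} × ℕ,
      P s.2 s.1.1 s'.1.1 ∧ ∃ n, NextN s.2 s'.1.1 n ∧ s'.2 = n + 1 := by
    rintro ⟨⟨Y, hY⟩, m⟩
    obtain ⟨Y', hY'⟩ := hP Y hY m
    have hM := hPM _ _ _ hY'
    obtain ⟨n, hn⟩ := exists_next (hinf Y' hM) m
    exact ⟨(⟨Y', hM⟩, n + 1), hY', n, hn, rfl⟩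
  choose f hf1 n hf2 hf3 using step
  set s : ℕ → {Y // Y ∈ M} × ℕ := fun i => f^[i] (⟨X, hX⟩, l) with hs
  have hs1 : ∀ i, s (i + 1) = f (s i) := by
    intro i
    simp only [hs, Function.iterate_succ', Function.comp]
  set Y : ℕ → CS := fun i => (s (i + 1)).1.1 with hY
  set N : ℕ → ℕ := fun i => n (s i) with hN
  have h1 : ∀ i, Lh l N i = (s i).2 := by
    intro i
    cases i with
    | zero => rfl
    | succ i =>
      change n (s i) + 1 = (s (i + 1)).2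
      rw [hs1, hf3]
  have h2 : ∀ i, Yp X Y i = (s i).1.1 := by
    intro i
    cases i with
    | zero => rfl
    | succ i => rfl
  refine ⟨Y, N, fun i => ?_, fun i => ?_⟩
  · rw [h1, h2]
    have := hf1 (s i)
    rw [← hs1] at this
    exact this
  · rw [h1]
    have := hf2 (s i)
    rw [← hs1] at this
    exact this

/-- the canonical diagonalization, with respect to the order `lt` -/
def IsDiag (M : Set CS) (lt : CS → CS → Prop) (D : List Bool → CS → Prop) (X : CS) (l : ℕ)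
    (z : CS) : Prop :=
  ∃ (Y : ℕ → CS) (N : ℕ → ℕ),
    (∀ i, (GoodY M D (Lh l N i) (Yp X Y i) (Y i) ∧
      ∀ Y' ∈ M, lt Y' (Y i) → ¬ GoodY M D (Lh l N i) (Yp X Y i) Y') ∧
      NextN (Lh l N i) (Y i) (N i)) ∧ ∀ k, z k = true ↔ ∃ i, N i = k

/-- `lt` is a wellorder of `M` -/
structure WOn (M : Set CS) (lt : CS → CS → Prop) : Prop where
  wf : WellFounded lt
  tri : ∀ x ∈ M, ∀ y ∈ M, lt x y ∨ x = y ∨ lt y x

theorem WOn.exists_min {M : Set CS} {lt : CS → CS → Prop} (h : WOn M lt) {P : CS → Prop}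
    (hP : ∃ x, P x) : ∃ x, P x ∧ ∀ y, lt y x → ¬ P y := by
  obtain ⟨x, hx, hmin⟩ := h.wf.has_min {x | P x} hP
  exact ⟨x, hx, fun y hy hPy => hmin y hPy hy⟩

theorem IsDiag.exists {M : Set CS} {lt : CS → CS → Prop} (hM : WOn M lt)
    (hinf : ∀ Y ∈ M, Infi Y) {D : List Bool → CS → Prop} (hD : Her D)
    (hdense : ∀ σ : List Bool, ∀ Y ∈ M, ∃ Y' ∈ M, TL σ.length Y' Y ∧ D σ Y') {X : CS} (hX : X ∈ M)
    (l : ℕ) : ∃ z, IsDiag M lt D X l z := by
  classical
  obtain ⟨Y, N, h1, h2⟩ := exists_fseq hinf (P := fun l X Y => GoodY M D l X Y ∧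
    ∀ Y' ∈ M, lt Y' Y → ¬ GoodY M D l X Y') (fun l X Y h => h.1.1) (by
      intro X hX l
      obtain ⟨Y, hY, hmin⟩ := hM.exists_min (exists_good hD hdense hX l)
      exact ⟨Y, hY, fun Y' _ hlt => hmin Y' hlt⟩) hX l
  exact ⟨fun k => decide (∃ i, N i = k), Y, N, fun i => ⟨h1 i, h2 i⟩, fun k => by simp⟩

theorem IsDiag.spec {M : Set CS} {lt : CS → CS → Prop} {D : List Bool → CS → Prop} (hD : Her D)
    {X : CS} {l : ℕ} {z : CS} (h : IsDiag M lt D X l z) : Diags D X l z ∧ Infi z := by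
  obtain ⟨Y, N, h1, h2⟩ := h
  exact fseq_diags hD (fun i => (h1 i).1.1) (fun i => (h1 i).2) h2

theorem IsDiag.unique {M : Set CS} {lt : CS → CS → Prop} (hM : WOn M lt)
    {D : List Bool → CS → Prop} {X : CS} {l : ℕ} {z z' : CS} (h : IsDiag M lt D X l z)
    (h' : IsDiag M lt D X l z') : z = z' := by
  obtain ⟨Y, N, h1, h2⟩ := h
  obtain ⟨Y', N', h1', h2'⟩ := h'
  have key : ∀ i, Lh l N i = Lh l N' i ∧ Yp X Y i = Yp X Y' i := by
    intro i
    induction i with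
    | zero => exact ⟨rfl, rfl⟩
    | succ i ih =>
      obtain ⟨e1, e2⟩ := ih
      obtain ⟨⟨a1, a2⟩, a3⟩ := h1 i
      obtain ⟨⟨b1, b2⟩, b3⟩ := h1' i
      rw [← e1, ← e2] at b1 b2
      rw [← e1] at b3
      have e3 : Y i = Y' i := by
        rcases hM.tri (Y i) a1.1 (Y' i) b1.1 with h3 | h3 | h3
        · exact absurd a1 (b2 _ a1.1 h3)
        · exact h3
        · exact absurd b1 (a2 _ b1.1 h3)
      rw [← e3] at b3
      have e4 : N i = N' i := a3.unique b3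
      exact ⟨by simp [Lh, e4], e3⟩
  have hN : ∀ i, N i = N' i := by
    intro i
    have := (key (i + 1)).1
    simpa [Lh] using this
  funext k
  rw [Bool.eq_iff_iff, h2, h2']
  simp only [hN]

/-- In the family of all infinite sets everything can be decided. -/
theorem infi_diags {D : List Bool → CS → Prop} (hD : Her D)
    (hdense : ∀ σ : List Bool, ∀ Y, Infi Y → ∃ Y', Infi Y' ∧ TL σ.length Y' Y ∧ D σ Y') {X : CS}
    (hX : Infi X) (l : ℕ) : ∃ z, Infi z ∧ Diags D X l z := by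
  classical
  have hd : ∀ σ : List Bool, ∀ Y ∈ {Y | Infi Y}, ∃ Y' ∈ {Y | Infi Y}, TL σ.length Y' Y ∧ D σ Y' := by
    intro σ Y hY
    obtain ⟨Y', h1, h2, h3⟩ := hdense σ Y hY
    exact ⟨Y', h1, h2, h3⟩
  obtain ⟨Y, N, h1, h2⟩ := exists_fseq (M := {Y | Infi Y}) (fun Y h => h)
    (P := fun l X Y => GoodY {Y | Infi Y} D l X Y) (fun l X Y h => h.1) (by
      intro X hX l
      exact exists_good hD hd hX l) hX l
  have h3 := fseq_diags hD h1 h2 (z := fun k => decide (∃ i, N i = k)) (fun k => by simp)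
  exact ⟨_, h3.2, h3.1⟩

/-- **Galvin-Prikry, in the family of all infinite sets.** -/
theorem infi_dec {C : List Bool → CS → Prop} (hC : Her C)
    (hone : ∀ σ Y, (∀ n, σ.length ≤ n → Y n = true → C (snoc σ n) Y) → C σ Y)
    {X : CS} (hX : Infi X) (l : ℕ) :
    ∃ z, Infi z ∧ TL l z X ∧ (∀ k < l, z k = false) ∧ ∀ σ : List Bool, σ.length = l →
      (C σ z ∨ ∀ τ, Cmp σ z τ → ∀ n, τ.length ≤ n → z n = true →
        Rej {Y | Infi Y} C (snoc τ n) z) := by
  obtain ⟨z, h1, h2, h3, h4⟩ := abstract_dec (M := {Y | Infi Y}) hC hone (by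
    intro X hX l
    obtain ⟨z, h1, h2⟩ := infi_diags (D := DD {Y | Infi Y} C) (DD.her hC) (by
      intro σ Y hY
      obtain ⟨Y', h1, h2, h3⟩ := DD.dense (C := C) σ (M := {Y | Infi Y}) hY
      exact ⟨Y', h1, h2, h3⟩) hX l
    exact ⟨z, h1, h2⟩) (fun X _ σ Z _ hZ => hZ) (X := X) hX l
  exact ⟨z, h1, h2, h3, h4⟩

end Pool.Agent.Helper679_PU
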