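import Mathlib
import Pool.Agent.Helper679_PU.Ram2
import Pool.Agent.Helper679_PU.Ess

/-!
Generic reals for countable Mathias forcing.
-/

namespace Pool.Agent.Helper679_PU

open Set Filter Topology

/-- conditions -/
abbrev Cond := List Bool × CS

/-- the enumeration of stems -/
def stm (n : ℕ) : List Bool := (Encodable.decode (α := List Bool) n).getD []

theorem stm_encode (σ : List Bool) : stm (Encodable.encode σ) = σ := by
  simp [stm]

/-- the enumeration of conditions given by an enumeration of sets -/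
def cnd (e : ℕ → CS) (j : ℕ) : Cond := (stm j.unpair.1, e j.unpair.2.unpair.1)

theorem exists_cnd {e : ℕ → CS} {p : Cond} (hp : p.2 ∈ range e) : ∃ j, cnd e j = p := by
  obtain ⟨i, hi⟩ := hp
  refine ⟨Nat.pair (Encodable.encode p.1) (Nat.pair i 0), ?_⟩
  unfold cnd
  rw [Nat.unpair_pair, Nat.unpair_pair]
  rw [stm_encode, hi]

theorem cnd_mem (e : ℕ → CS) (j : ℕ) : (cnd e j).2 ∈ range e := mem_range_self _

open Classical in
/-- move to `q` if possible -/
noncomputable def nxt (q p : Cond) : Cond := if Le q p then q else p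

theorem nxt_pos {q p : Cond} (h : Le q p) : nxt q p = q := by
  classical
  unfold nxt; exact if_pos h

theorem nxt_neg {q p : Cond} (h : ¬ Le q p) : nxt q p = p := by
  classical
  unfold nxt; exact if_neg h

/-- the descending sequence of conditions given by `c` -/
noncomputable def run (e : ℕ → CS) (p : Cond) (c : BS) : ℕ → Cond
  | 0 => p
  | i + 1 => nxt (cnd e (c i)) (run e p c i)

theorem run_succ (e : ℕ → CS) (p : Cond) (c : BS) (i : ℕ) :
    (Le (cnd e (c i)) (run e p c i) ∧ run e p c (i + 1) = cnd e (c i)) ∨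
    (¬ Le (cnd e (c i)) (run e p c i) ∧ run e p c (i + 1) = run e p c i) := by
  by_cases h : Le (cnd e (c i)) (run e p c i)
  · exact Or.inl ⟨h, nxt_pos h⟩
  · exact Or.inr ⟨h, nxt_neg h⟩

theorem run_le (e : ℕ → CS) (p : Cond) (c : BS) {i j : ℕ} (h : i ≤ j) :
    Le (run e p c j) (run e p c i) := by
  induction j, h using Nat.le_induction with
  | base => exact Le.refl _
  | succ j _ ih =>
    rcases run_succ e p c j with ⟨h1, h2⟩ | ⟨-, h2⟩
    · rw [h2]; exact h1.trans ih
    · rw [h2]; exact ih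

theorem run_mem {e : ℕ → CS} {p : Cond} (hp : p.2 ∈ range e) (c : BS) (i : ℕ) :
    (run e p c i).2 ∈ range e := by
  induction i with
  | zero => exact hp
  | succ i ih =>
    rcases run_succ e p c i with ⟨-, h2⟩ | ⟨-, h2⟩
    · rw [h2]; exact cnd_mem _ _
    · rw [h2]; exact ih

theorem run_congr {e : ℕ → CS} {p : Cond} {c c' : BS} {i : ℕ} (h : ∀ j < i, c j = c' j) :
    run e p c i = run e p c' i := by
  induction i with
  | zero => rfl
  | succ i ih =>
    have h1 := ih fun j hj => h j (by omega)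
    have h2 := h i (by omega)
    simp only [run, h1, h2]

/-- the condition reached along `s` -/
noncomputable def rund (e : ℕ → CS) (p : Cond) (s : List ℕ) : Cond :=
  run e p (pre s fun _ => 0) s.length

theorem run_pre (e : ℕ → CS) (p : Cond) (s : List ℕ) (c : BS) :
    run e p (pre s c) s.length = rund e p s := by
  refine run_congr fun j hj => ?_
  simp [pre, hj]

theorem run_pre_add (e : ℕ → CS) (p : Cond) (s : List ℕ) (c : BS) (i : ℕ) :
    run e p (pre s c) (s.length + i) = run e (rund e p s) c i := by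
  induction i with
  | zero => exact run_pre e p s c
  | succ i ih =>
    have h1 : pre s c (s.length + i) = c i := by simp [pre]
    rw [← add_assoc]
    simp only [run, ih, h1]

theorem rund_append (e : ℕ → CS) (p : Cond) (s t : List ℕ) :
    rund e p (s ++ t) = rund e (rund e p s) t := by
  have h1 := run_pre_add e p s (pre t fun _ => 0) t.length
  rw [← pre_append] at h1
  unfold rund at h1 ⊢
  rw [List.length_append]
  exact h1

theorem rund_mem {e : ℕ → CS} {p : Cond} (hp : p.2 ∈ range e) (s : List ℕ) :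
    (rund e p s).2 ∈ range e := run_mem hp _ _

theorem rund_le (e : ℕ → CS) (p : Cond) (s : List ℕ) : Le (rund e p s) p :=
  run_le e p _ (Nat.zero_le _)

theorem rund_single {e : ℕ → CS} {p : Cond} {j : ℕ} (h : Le (cnd e j) p) :
    rund e p [j] = cnd e j := by
  have h1 : (pre [j] fun _ => 0) 0 = j := by simp [pre]
  unfold rund
  change nxt (cnd e ((pre [j] fun _ => 0) 0)) p = _
  rw [h1, nxt_pos h]

open Classical in
/-- the generic real -/
noncomputable def gen (e : ℕ → CS) (p : Cond) (c : BS) : CS :=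
  fun k => decide (∃ i, k < (run e p c i).1.length ∧ bit (run e p c i).1 k = true)

theorem gen_iff (e : ℕ → CS) (p : Cond) (c : BS) (k : ℕ) :
    gen e p c k = true ↔ ∃ i, k < (run e p c i).1.length ∧ bit (run e p c i).1 k = true := by
  classical
  unfold gen
  exact decide_eq_true_iff

theorem gen_bits (e : ℕ → CS) (p : Cond) (c : BS) (i : ℕ) :
    ∀ k < (run e p c i).1.length, gen e p c k = bit (run e p c i).1 k := by
  intro k hk
  rw [Bool.eq_iff_iff, gen_iff]
  constructor
  · rintro ⟨j, hj1, hj2⟩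
    rcases le_total i j with h | h
    · rw [← (run_le e p c h).2.1 k hk]; exact hj2
    · rw [(run_le e p c h).2.1 k hj1]; exact hj2
  · intro h
    exact ⟨i, hk, h⟩

theorem gen_TL (e : ℕ → CS) (p : Cond) (c : BS) (i : ℕ) :
    TL (run e p c i).1.length (gen e p c) (run e p c i).2 := by
  intro n hn hg
  obtain ⟨j, hj1, hj2⟩ := (gen_iff e p c n).1 hg
  rcases le_total i j with h | h
  · exact (run_le e p c h).2.2.1 n hn hj1 hj2
  · have := (run_le e p c h).1
    omega

theorem gen_mem {e : ℕ → CS} {p : Cond} {c : BS} (h : Infi (gen e p c)) (i : ℕ) :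
    gen e p c ∈ Bx (run e p c i) := ⟨h, gen_bits e p c i, gen_TL e p c i⟩

theorem gen_pre (e : ℕ → CS) (p : Cond) (s : List ℕ) (c : BS) :
    gen e p (pre s c) = gen e (rund e p s) c := by
  funext k
  rw [Bool.eq_iff_iff, gen_iff, gen_iff]
  constructor
  · rintro ⟨i, h1, h2⟩
    refine ⟨i, ?_⟩
    rw [← run_pre_add]
    have hle := run_le e p (pre s c) (Nat.le_add_left i s.length)
    exact ⟨h1.trans_le hle.1, by rw [hle.2.1 k h1]; exact h2⟩
  · rintro ⟨i, h⟩
    rw [← run_pre_add] at h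
    exact ⟨_, h⟩

/-- `p` forces `Θ` -/
def Fc (e : ℕ → CS) (p : Cond) (Θ : CS → Prop) : Prop := AS fun c => Θ (gen e p c)

theorem Fc.rund {e : ℕ → CS} {p : Cond} {Θ : CS → Prop} (h : Fc e p Θ) (s : List ℕ) :
    Fc e (rund e p s) Θ := by
  refine (AS.pre h s).mono fun c hc => ?_
  rw [gen_pre] at hc
  exact hc

theorem Fc.mono {e : ℕ → CS} {p q : Cond} {Θ : CS → Prop} (h : Fc e p Θ) (hq : Le q p)
    (hqe : q.2 ∈ range e) : Fc e q Θ := by
  obtain ⟨j, rfl⟩ := exists_cnd hqe
  rw [← rund_single hq]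
  exact h.rund _

theorem not_Fc {e : ℕ → CS} {p : Cond} (hp : p.2 ∈ range e) {Θ : CS → Prop}
    (hb : BaireMeasurableSet {c | Θ (gen e p c)}) (h : ¬ Fc e p Θ) :
    ∃ q, Le q p ∧ q.2 ∈ range e ∧ Fc e q fun x => ¬ Θ x := by
  obtain ⟨s, hs⟩ := not_AS hb h
  refine ⟨rund e p s, rund_le e p s, rund_mem hp s, hs.mono fun c hc => ?_⟩
  rw [gen_pre] at hc
  exact hc

theorem Fc_exists {e : ℕ → CS} {p : Cond} (hp : p.2 ∈ range e) {ι : Type*} [Countable ι]
    {Θ : ι → CS → Prop} (hb : ∀ i, BaireMeasurableSet {c | Θ i (gen e p c)})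
    (h : Fc e p fun x => ∃ i, Θ i x) : ∃ i q, Le q p ∧ q.2 ∈ range e ∧ Fc e q (Θ i) := by
  obtain ⟨i, s, hs⟩ := AS_exists hb h
  refine ⟨i, rund e p s, rund_le e p s, rund_mem hp s, hs.mono fun c hc => ?_⟩
  rw [gen_pre] at hc
  exact hc

/-- the run is locally constant -/
theorem isOpen_run (e : ℕ → CS) (p : Cond) (i : ℕ) (D : Cond → Prop) :
    IsOpen {c : BS | D (run e p c i)} := by
  have : {c : BS | D (run e p c i)} =
      {c | (fun l : List ℕ => D (run e p (fun n => l.getD n 0) i)) (seg c i)} := by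
    ext c
    simp only [mem_ofPred_eq]
    rw [run_congr (c := c) (c' := fun n => (seg c i).getD n 0)]
    intro j hj
    simp [seg, hj]
  rw [this]
  exact isOpen_seg (fun l : List ℕ => D (run e p (fun n => l.getD n 0) i)) i

theorem AS_meets {e : ℕ → CS} {p : Cond} (hp : p.2 ∈ range e) {D : Cond → Prop}
    (hD : ∀ q, Le q p → q.2 ∈ range e → ∃ r, Le r q ∧ r.2 ∈ range e ∧ D r) :
    AS fun c => ∃ i, D (run e p c i) := by
  refine AS.of_dense_open (U := {c | ∃ i, D (run e p c i)}) ?_ ?_
  · have : {c | ∃ i, D (run e p c i)} = ⋃ i, {c | D (run e p c i)} := by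
      ext c; simp
    rw [this]
    exact isOpen_iUnion fun i => isOpen_run e p i D
  · rw [dense_iff_inter_open]
    intro V hV hne
    obtain ⟨c, hc⟩ := hne
    obtain ⟨m, hm⟩ := exists_seg hV hc
    obtain ⟨r, hr1, hr2, hr3⟩ := hD (rund e p (seg c m)) (rund_le _ _ _) (rund_mem hp _)
    obtain ⟨j, rfl⟩ := exists_cnd hr2
    refine ⟨pre (seg c m ++ [j]) fun _ => 0, hm ?_, (seg c m ++ [j]).length, ?_⟩
    · rw [pre_append]; exact pre_mem_Nb _ _
    · change D (rund e p (seg c m ++ [j]))
      rw [rund_append, rund_single hr1]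
      exact hr3

theorem AS_infi {e : ℕ → CS} (he : ∀ n, Infi (e n)) {p : Cond} (hp : p.2 ∈ range e) :
    AS fun c => Infi (gen e p c) := by
  refine AS.all fun N => ?_
  have h1 : AS fun c => ∃ i, ∃ k, N ≤ k ∧ k < (run e p c i).1.length ∧
      bit (run e p c i).1 k = true := by
    refine AS_meets hp (D := fun q => ∃ k, N ≤ k ∧ k < q.1.length ∧ bit q.1 k = true) ?_
    rintro ⟨σ, Y⟩ - ⟨m, hm⟩
    simp only at hm
    obtain ⟨n, hn, hY⟩ := he m (max N σ.length)
    rw [hm] at hY
    have h2 : σ.length ≤ n := (le_max_right _ _).trans hn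
    refine ⟨(snoc σ n, Y), le_snoc h2 hY, ⟨m, hm⟩, n, (le_max_left _ _).trans hn, ?_, ?_⟩
    · simp only [snoc_length h2]; omega
    · exact bit_snoc_self h2
  refine h1.mono ?_
  rintro c ⟨i, k, h2, h3, h4⟩
  exact ⟨k, h2, (gen_iff e p c k).2 ⟨i, h3, h4⟩⟩

/-- permutations, for general maps with infinite fibres -/
theorem exists_perm' {T : Type} {f g : ℕ → T} (h : range f = range g)
    (hf : ∀ y ∈ range f, Infinite {n // f n = y}) (hg : ∀ y ∈ range g, Infinite {n // g n = y}) :
    ∃ σ : ℕ ≃ ℕ, ∀ n, g (σ n) = f n := by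
  have h1 : ∀ y : T, Nonempty ({n : ℕ // f n = y} ≃ {n : ℕ // g n = y}) := by
    intro y
    by_cases hy : y ∈ range f
    · have i1 := hf y hy
      have i2 := hg y (h ▸ hy)
      have c1 : Countable {n : ℕ // f n = y} := inferInstance
      have c2 : Countable {n : ℕ // g n = y} := inferInstance
      obtain ⟨d1⟩ := nonempty_denumerable {n : ℕ // f n = y}
      obtain ⟨d2⟩ := nonempty_denumerable {n : ℕ // g n = y}
      exact ⟨(Denumerable.eqv _).trans (Denumerable.eqv _).symm⟩
    · have e1 : IsEmpty {n : ℕ // f n = y} := ⟨fun n => hy ⟨_, n.2⟩⟩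
      have e2 : IsEmpty {n : ℕ // g n = y} := ⟨fun n => hy (h ▸ ⟨_, n.2⟩)⟩
      exact ⟨Equiv.equivOfIsEmpty _ _⟩
  have G := fun y => (h1 y).some
  refine ⟨(Equiv.sigmaFiberEquiv f).symm.trans
    ((Equiv.sigmaCongrRight G).trans (Equiv.sigmaFiberEquiv g)), ?_⟩
  intro n
  simp only [Equiv.trans_apply, Equiv.sigmaFiberEquiv, Equiv.coe_fn_symm_mk, Equiv.coe_fn_mk,
    Equiv.sigmaCongrRight_apply]
  exact (G _ _).2

theorem range_cnd {e e' : ℕ → CS} (h : range e = range e') : range (cnd e) ⊆ range (cnd e') := by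
  rintro _ ⟨j, rfl⟩
  have h1 : (cnd e j).2 ∈ range e' := h ▸ cnd_mem e j
  exact exists_cnd h1

theorem infinite_cnd (e : ℕ → CS) {y : Cond} (hy : y ∈ range (cnd e)) :
    Infinite {n // cnd e n = y} := by
  obtain ⟨j, rfl⟩ := hy
  refine Infinite.of_injective (fun i : ℕ => (⟨Nat.pair j.unpair.1
    (Nat.pair j.unpair.2.unpair.1 i), by simp [cnd]⟩ : {n // cnd e n = cnd e j})) ?_
  intro a b hab
  have h0 := congrArg Subtype.val hab
  have h1 := congrArg (fun n => (Nat.unpair (Nat.unpair n).2).2) h0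
  simpa using h1

theorem exists_perm_cnd {e e' : ℕ → CS} (h : range e = range e') :
    ∃ σ : ℕ ≃ ℕ, ∀ n, cnd e' (σ n) = cnd e n := by
  refine exists_perm' (subset_antisymm (range_cnd h) (range_cnd h.symm)) ?_ ?_
  · exact fun y hy => infinite_cnd e hy
  · exact fun y hy => infinite_cnd e' hy

theorem run_perm {e e' : ℕ → CS} {σ : ℕ → ℕ} (h : ∀ n, cnd e' (σ n) = cnd e n) (p : Cond) (c : BS)
    (i : ℕ) : run e' p (σ ∘ c) i = run e p c i := by
  induction i with
  | zero => rfl
  | succ i ih => simp only [run, ih, Function.comp, h]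

/-- the forcing relation depends only on the set enumerated -/
theorem Fc_congr {e e' : ℕ → CS} (h : range e = range e') (p : Cond) (Θ : CS → Prop) :
    Fc e p Θ ↔ Fc e' p Θ := by
  have key : ∀ {e e' : ℕ → CS}, range e = range e' → Fc e p Θ → Fc e' p Θ := by
    intro e e' h hF
    obtain ⟨σ, hσ⟩ := exists_perm_cnd h.symm
    refine (AS_perm σ hF).mono fun c hc => ?_
    have h1 : gen e p (σ ∘ c) = gen e' p c := by
      funext k
      rw [Bool.eq_iff_iff, gen_iff, gen_iff]
      simp only [run_perm hσ]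
    rw [h1] at hc
    exact hc
  exact ⟨key h, key h.symm⟩

end Pool.Agent.Helper679_PU
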