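import Mathlib
import Pool.Agent.Helper679_PU.Ram3

/-!
A countable family of infinite sets closed under the canonical operations: subsets of generic reals
are generic.
-/

namespace Pool.Agent.Helper679_PU

open Set Filter Topology

/-- `t` does not exclude that the value of `F` at the generic real is in the set of `p` -/
def Rr (M : Set CS) (F : CS → CS) (t p : Cond) : Prop :=
  ∃ e : ℕ → CS, range e = M ∧ ¬ Fc e t fun x => F x ∉ Bx p

theorem Rr_iff {M : Set CS} {F : CS → CS} {t p : Cond} {e : ℕ → CS} (he : range e = M) :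
    Rr M F t p ↔ ¬ Fc e t fun x => F x ∉ Bx p := by
  constructor
  · rintro ⟨e', he', h⟩ h'
    exact h ((Fc_congr (he.trans he'.symm) t _).1 h')
  · intro h
    exact ⟨e, he, h⟩

/-- the canonical dense set -/
def Es (M : Set CS) (F : CS → CS) (t : Cond) : Set Cond :=
  {p | p.2 ∈ M ∧ ((∀ q : Cond, q.2 ∈ M → Le q p → Rr M F t q) ∨ ¬ Rr M F t p)}

/-- the real `z` meets the set `E` of conditions -/
def Meets (z : CS) (E : Set Cond) : Prop := ∃ p ∈ E, z ∈ Bx p

/-- acceptance for the canonical dense set -/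
def CC (M : Set CS) (F : CS → CS) (t : Cond) (σ : List Bool) (Y : CS) : Prop :=
  ∀ z ∈ Bx (σ, Y), Meets z (Es M F t)

theorem Rr.up {M : Set CS} {F : CS → CS} {t p q : Cond} (h : Le q p) (hq : Rr M F t q) :
    Rr M F t p := by
  obtain ⟨e, he, h1⟩ := hq
  refine ⟨e, he, fun h2 => h1 ?_⟩
  exact AS.mono h2 fun c hc hq => hc (h.bx hq)

theorem Es.dense {M : Set CS} {F : CS → CS} {t p : Cond} (hp : p.2 ∈ M) :
    ∃ q, Le q p ∧ q ∈ Es M F t := by
  by_cases h : ∀ q : Cond, q.2 ∈ M → Le q p → Rr M F t q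
  · exact ⟨p, Le.refl p, hp, Or.inl h⟩
  · push Not at h
    obtain ⟨q, h1, h2, h3⟩ := h
    exact ⟨q, h2, h1, Or.inr h3⟩

theorem Es.open {M : Set CS} {F : CS → CS} {t p q : Cond} (hp : p ∈ Es M F t) (h : Le q p)
    (hq : q.2 ∈ M) : q ∈ Es M F t := by
  refine ⟨hq, ?_⟩
  rcases hp.2 with h1 | h1
  · exact Or.inl fun r hr hrq => h1 r hr (hrq.trans h)
  · exact Or.inr fun h2 => h1 (h2.up h)

theorem CC.her (M : Set CS) (F : CS → CS) (t : Cond) : Her (CC M F t) :=
  fun _ _ _ h h1 z hz => h z ((le_of_TL h1).bx hz)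

theorem CC.one (M : Set CS) (F : CS → CS) (t : Cond) (σ : List Bool) (Y : CS)
    (h : ∀ n, σ.length ≤ n → Y n = true → CC M F t (snoc σ n) Y) : CC M F t σ Y := by
  intro z hz
  obtain ⟨n, h1, h2, h3⟩ := exists_snoc hz
  exact h n h1 h2 z h3

/-- closure of `M` under the canonical operations -/
structure Clsd (M : Set CS) (F : CS → CS) : Prop where
  inter : ∀ X ∈ M, ∀ X' ∈ M, ∀ Z : CS, (∀ n, Z n = true ↔ (X n = true ∧ X' n = true)) → Infi Z →
    Z ∈ M
  zset : ∀ t : Cond, t.2 ∈ M → ∀ X ∈ M, ∀ σ : List Bool, ∀ Z : CS,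
    (∀ n, Z n = true ↔ (σ.length ≤ n ∧ X n = true ∧ CC M F t (snoc σ n) X)) → Infi Z → Z ∈ M
  diag : ∀ t : Cond, t.2 ∈ M → ∀ X ∈ M, ∀ l, ∃ z ∈ M, Diags (DD M (CC M F t)) X l z

variable {M : Set CS} {F : CS → CS}

/-- every real below `(σ, X')` meets the dense set, and also all its subsets -/
theorem Clsd.capture (hcl : Clsd M F) (hinf : ∀ Y ∈ M, Infi Y) {t : Cond} (ht : t.2 ∈ M)
    {p : Cond} (hp : p.2 ∈ M) : ∃ q, Le q p ∧ q.2 ∈ M ∧ ∀ z : CS, Infi z →
      (∀ k < q.1.length, z k = true → bit q.1 k = true) → TL q.1.length z q.2 →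
      Meets z (Es M F t) := by
  obtain ⟨X', h1, h2, h3, h4⟩ := abstract_dec (CC.her M F t) (CC.one M F t) (hcl.diag t ht)
    (fun X hX σ Z hZ hi => hcl.zset t ht X hX σ Z hZ hi) hp p.1.length
  refine ⟨(p.1, X'), le_of_TL h2, h1, fun z hz _ hz2 => ?_⟩
  -- the initial segment of `z`
  set τ : List Bool := (List.range p.1.length).map z with hτ
  have hlen : τ.length = p.1.length := by simp [hτ]
  have hbit : ∀ k < p.1.length, bit τ k = z k := by
    intro k hk
    unfold bit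
    rw [List.getD_eq_getElem _ _ (by rw [hlen]; exact hk)]
    simp [hτ]
  have hzτ : z ∈ Bx (τ, X') := by
    refine ⟨hz, fun k hk => ?_, ?_⟩
    · simp only [hlen] at hk
      simp only [hbit k hk]
    · simp only [hlen]; exact hz2
  rcases h4 τ hlen with h5 | h5
  · exact h5 z hzτ
  · exfalso
    obtain ⟨q, hq1, hq2⟩ := Es.dense (F := F) (t := t) (p := (τ, X')) h1
    obtain ⟨n, hn1, hn2⟩ := hinf q.2 hq2.1 q.1.length
    have hq3 : (snoc q.1 n, q.2) ∈ Es M F t :=
      Es.open (p := (q.1, q.2)) hq2 (le_snoc hn1 hn2) hq2.1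
    have hcmp : Cmp τ X' q.1 := ⟨hq1.1, hq1.2.1, hq1.2.2.1⟩
    have h6 := h5 q.1 hcmp n hn1 (hq1.2.2.2 n hn1 hn2)
    refine h6 q.2 hq2.1 ?_ ?_
    · rw [snoc_length hn1]
      exact hq1.2.2.2.mono (by omega)
    · intro w hw
      exact ⟨_, hq3, hw⟩

/-- values of `F` at generic reals meet the canonical dense sets -/
theorem Clsd.meets_es (hcl : Clsd M F) (hinf : ∀ Y ∈ M, Infi Y) {e : ℕ → CS} (he : range e = M)
    {p : Cond} (hF : ∀ x ∈ Bx p, Infi (F x) ∧ ∀ k, F x k = true → x k = true) {t : Cond}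
    (ht : t.2 ∈ M) (htp : Le t p) : Fc e t fun x => Meets (F x) (Es M F t) := by
  have he' : ∀ n, Infi (e n) := fun n => hinf _ (he ▸ mem_range_self n)
  have ht' : t.2 ∈ range e := he ▸ ht
  have h1 := AS_meets (p := t) ht' (D := fun q => ∀ z : CS, Infi z →
      (∀ k < q.1.length, z k = true → bit q.1 k = true) → TL q.1.length z q.2 →
      Meets z (Es M F t)) (by
    intro q _ hq2
    rw [he] at hq2
    obtain ⟨r, h1, h2, h3⟩ := hcl.capture hinf ht hq2
    exact ⟨r, h1, by rw [he]; exact h2, h3⟩)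
  refine (h1.and (AS_infi he' ht')).mono ?_
  rintro c ⟨⟨i, hi⟩, hci⟩
  have h2 : gen e t c ∈ Bx t := gen_mem hci 0
  obtain ⟨h3, h4⟩ := hF _ (htp.bx h2)
  refine hi _ h3 (fun k hk hk2 => ?_) (fun k hk hk2 => ?_)
  · rw [← gen_bits e t c i k hk]; exact h4 k hk2
  · exact gen_TL e t c i k hk (h4 k hk2)

/-- values of `F` at generic reals meet all the dense sets -/
theorem Clsd.meets_all (hcl : Clsd M F) (hinf : ∀ Y ∈ M, Infi Y) {e : ℕ → CS} (he : range e = M)
    {p : Cond} (hp : p.2 ∈ M) (hF : ∀ x ∈ Bx p, Infi (F x) ∧ ∀ k, F x k = true → x k = true)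
    (hbp : ∀ t q : Cond, t.2 ∈ M → BaireMeasurableSet {c | F (gen e t c) ∈ Bx q})
    {D : Cond → Prop} (hD : ∀ q : Cond, q.2 ∈ M → ∃ r, Le r q ∧ r.2 ∈ M ∧ D r) :
    Fc e p fun x => ∃ j, D (cnd e j) ∧ F x ∈ Bx (cnd e j) := by
  by_contra hcon
  have hp' : p.2 ∈ range e := he ▸ hp
  have hmeas : ∀ j, BaireMeasurableSet {c | D (cnd e j) ∧ F (gen e p c) ∈ Bx (cnd e j)} := by
    intro j
    by_cases hj : D (cnd e j)
    · simpa [hj] using hbp p (cnd e j) hp
    · simpa [hj] using (MeasurableSet.empty : MeasurableSet (∅ : Set BS)).baireMeasurableSet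
  have hbig : BaireMeasurableSet {c | ∃ j, D (cnd e j) ∧ F (gen e p c) ∈ Bx (cnd e j)} := by
    have := BaireMeasurableSet.iUnion hmeas
    convert this using 1
    ext c; simp
  obtain ⟨t, ht1, ht2, ht3⟩ := not_Fc hp' hbig hcon
  have htM : t.2 ∈ M := he ▸ ht2
  have h1 := hcl.meets_es hinf he hF htM ht1
  have h2 : Fc e t fun x => ∃ j, cnd e j ∈ Es M F t ∧ F x ∈ Bx (cnd e j) := by
    refine AS.mono h1 ?_
    rintro c ⟨q, hq, hq2⟩
    obtain ⟨j, rfl⟩ := exists_cnd (e := e) (p := q) (he ▸ hq.1)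
    exact ⟨j, hq, hq2⟩
  obtain ⟨j, t', ht'1, ht'2, ht'3⟩ := Fc_exists ht2 (fun j => by
    by_cases hj : cnd e j ∈ Es M F t
    · simpa [hj] using hbp t (cnd e j) htM
    · simpa [hj] using (MeasurableSet.empty : MeasurableSet (∅ : Set BS)).baireMeasurableSet) h2
  set q := cnd e j with hq
  have hqM : q.2 ∈ M := he ▸ cnd_mem e j
  have hqE : q ∈ Es M F t := by
    obtain ⟨c, hc⟩ := ht'3.exists
    exact hc.1
  have hqR : Rr M F t q := by
    rw [Rr_iff he]
    intro h3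
    obtain ⟨c, h4, h5⟩ := (AS.and (h3.mono ht'1 ht'2) ht'3).exists
    exact h4 h5.2
  have hall : ∀ r : Cond, r.2 ∈ M → Le r q → Rr M F t r := by
    rcases hqE.2 with h3 | h3
    · exact h3
    · exact absurd hqR h3
  obtain ⟨r, hr1, hr2, hr3⟩ := hD q hqM
  have h4 := hall r hr2 hr1
  rw [Rr_iff he] at h4
  obtain ⟨i, rfl⟩ := exists_cnd (e := e) (p := r) (he ▸ hr2)
  refine h4 (AS.mono ht3 fun c hc hc2 => hc ⟨i, hr3, hc2⟩)

/-- compatible or disjoint -/
theorem Clsd.split (hcl : Clsd M F) (hinf : ∀ Y ∈ M, Infi Y) {q r : Cond} (hq : q.2 ∈ M)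
    (hr : r.2 ∈ M) : ∃ q', Le q' q ∧ q'.2 ∈ M ∧ (Le q' r ∨ Disjoint (Bx q') (Bx r)) := by
  classical
  obtain ⟨n, hn1, hn2⟩ := hinf q.2 hq (max q.1.length r.1.length)
  have hn3 : q.1.length ≤ n := (le_max_left _ _).trans hn1
  have hn4 : r.1.length ≤ n := (le_max_right _ _).trans hn1
  set σ := snoc q.1 n with hσ
  have hσl : σ.length = n + 1 := snoc_length hn3
  have hq1 : Le (σ, q.2) q := le_snoc (Y := q.2) hn3 hn2
  by_cases hbad : (∀ k < r.1.length, bit σ k = bit r.1 k) ∧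
      ∀ k, r.1.length ≤ k → k < σ.length → bit σ k = true → r.2 k = true
  · obtain ⟨hb1, hb2⟩ := hbad
    set Z : CS := fun k => q.2 k && r.2 k with hZ
    have hZ' : ∀ k, Z k = true ↔ (q.2 k = true ∧ r.2 k = true) := by
      intro k; simp [hZ]
    by_cases hZi : Infi Z
    · refine ⟨(σ, Z), Le.trans (le_of_TL (Y' := q.2) ?_) hq1,
        hcl.inter q.2 hq r.2 hr Z hZ' hZi, Or.inl ⟨?_, hb1, hb2, ?_⟩⟩
      · exact fun k _ hk => ((hZ' k).1 hk).1
      · simp only [hσl]; omega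
      · exact fun k _ hk => ((hZ' k).1 hk).2
    · unfold Infi at hZi
      push Not at hZi
      obtain ⟨b, hb⟩ := hZi
      obtain ⟨m, hm1, hm2⟩ := hinf q.2 hq (max b (n + 1))
      have hm3 : σ.length ≤ m := by rw [hσl]; exact (le_max_right _ _).trans hm1
      have hm4 : r.2 m ≠ true := fun h =>
        hb m ((le_max_left _ _).trans hm1) ((hZ' m).2 ⟨hm2, h⟩)
      refine ⟨(snoc σ m, q.2), (le_snoc (Y := q.2) hm3 hm2).trans hq1, hq, Or.inr ?_⟩
      rw [Set.disjoint_left]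
      rintro x ⟨-, hx1, -⟩ ⟨-, -, hx2⟩
      have h1 : x m = true := by
        rw [hx1 m (by simp only [snoc_length hm3]; omega)]
        exact bit_snoc_self hm3
      exact hm4 (hx2 m (by omega) h1)
  · refine ⟨(σ, q.2), hq1, hq, Or.inr ?_⟩
    rw [Set.disjoint_left]
    rintro x ⟨-, hx1, -⟩ ⟨-, hy1, hy2⟩
    apply hbad
    refine ⟨fun k hk => ?_, fun k hk1 hk2 hk3 => ?_⟩
    · rw [← hx1 k (by simp only [hσl]; omega), hy1 k hk]
    · refine hy2 k hk1 ?_
      rw [hx1 k hk2]; exact hk3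

/-- a real which meets enough dense sets is generic -/
theorem generic_of_meets {e : ℕ → CS} {p : Cond} {Θ : CS → Prop} {U : ℕ → Set BS}
    (hΘ : ∀ c, (∀ n, c ∈ U n) → Θ (gen e p c)) {y : CS} (hy : y ∈ Bx p)
    (hm : ∀ (τ : List ℕ) (j : ℕ), y ∈ Bx (rund e p τ) → ∃ τ' : List ℕ, τ' ≠ [] ∧
      y ∈ Bx (rund e p (τ ++ τ')) ∧ Nb (τ ++ τ') ⊆ U j ∧ j < (rund e p (τ ++ τ')).1.length) :
    Θ y := by
  classical
  have step : ∀ (s : {τ : List ℕ // y ∈ Bx (rund e p τ)}) (j : ℕ),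
      ∃ s' : {τ : List ℕ // y ∈ Bx (rund e p τ)}, (∃ τ' : List ℕ, τ' ≠ [] ∧ s'.1 = s.1 ++ τ') ∧
        Nb s'.1 ⊆ U j ∧ j < (rund e p s'.1).1.length := by
    rintro ⟨τ, hτ⟩ j
    obtain ⟨τ', h1, h2, h3, h4⟩ := hm τ j hτ
    exact ⟨⟨τ ++ τ', h2⟩, ⟨τ', h1, rfl⟩, h3, h4⟩
  choose f hf1 hf2 hf3 using step
  have hy0 : y ∈ Bx (rund e p []) := hy
  obtain ⟨s, hs1⟩ : ∃ s : ℕ → {τ : List ℕ // y ∈ Bx (rund e p τ)},
      ∀ n, s (n + 1) = f (s n) n :=
    ⟨fun n => Nat.rec ⟨[], hy0⟩ (fun j s => f s j) n, fun _ => rfl⟩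
  have hlen : ∀ n, n ≤ (s n).1.length := by
    intro n
    induction n with
    | zero => exact Nat.zero_le _
    | succ n ih =>
      rw [hs1]
      obtain ⟨τ', h1, h2⟩ := hf1 (s n) n
      rw [h2, List.length_append]
      have : 0 < τ'.length := List.length_pos_iff.2 h1
      omega
  have hpre : ∀ m n, m ≤ n → ∀ i < (s m).1.length, (s n).1.getD i 0 = (s m).1.getD i 0 := by
    intro m n hmn
    induction n, hmn using Nat.le_induction with
    | base => exact fun _ _ => rfl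
    | succ n hmn ih =>
      intro i hi
      obtain ⟨τ', h1, h2⟩ := hf1 (s n) n
      have hlm : (s m).1.length ≤ (s n).1.length := by
        clear hi ih h1 h2
        induction n, hmn using Nat.le_induction with
        | base => exact le_rfl
        | succ n _ ih =>
          obtain ⟨τ'', -, h4⟩ := hf1 (s n) n
          rw [hs1, h4, List.length_append]
          omega
      rw [hs1, h2, List.getD_append _ _ _ _ (by omega)]
      exact ih i hi
  obtain ⟨c, hc⟩ : ∃ c : BS, ∀ i, c i = (s (i + 1)).1.getD i 0 := ⟨_, fun _ => rfl⟩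
  have hcN : ∀ n, c ∈ Nb (s n).1 := by
    intro n i hi
    rw [hc]
    rcases le_total (i + 1) n with h | h
    · exact (hpre _ _ h i (lt_of_lt_of_le (Nat.lt_succ_self i) (hlen _))).symm
    · exact hpre _ _ h i hi
  have hrun : ∀ n, run e p c (s n).1.length = rund e p (s n).1 := by
    intro n
    rw [← run_pre e p (s n).1 (drp (s n).1.length c), pre_drp (hcN n)]
  have hgen : gen e p c = y := by
    funext k
    have h1 := gen_bits e p c (s (k + 1)).1.length k (by rw [hrun, hs1]; exact hf3 _ _)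
    rw [h1, hrun]
    exact ((s (k + 1)).2.2.1 k (by rw [hs1]; exact hf3 _ _)).symm
  rw [← hgen]
  refine hΘ c fun n => ?_
  refine hf2 (s n) n ?_
  rw [← hs1]
  exact hcN _

/-- **There is no closed countable family**, if `F` selects counterexamples. -/
theorem Clsd.contra (hcl : Clsd M F) (hinf : ∀ Y ∈ M, Infi Y) {e : ℕ → CS} (he : range e = M)
    {p : Cond} (hp : p.2 ∈ M) {Θ : CS → Prop} (hΘ : Fc e p Θ)
    (hF : ∀ x ∈ Bx p, Infi (F x) ∧ (∀ k, F x k = true → x k = true) ∧ F x ∈ Bx p ∧ ¬ Θ (F x))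
    (hbp : ∀ t q : Cond, t.2 ∈ M → BaireMeasurableSet {c | F (gen e t c) ∈ Bx q}) : False := by
  have he' : ∀ n, Infi (e n) := fun n => hinf _ (he ▸ mem_range_self n)
  have hp' : p.2 ∈ range e := he ▸ hp
  obtain ⟨T, hT, hG, hGd⟩ := mem_residual.1 (show {c | Θ (gen e p c)} ∈ residual BS from hΘ)
  obtain ⟨U, hU, rfl⟩ := hG.eq_iInter_nat
  have hUd : ∀ n, Dense (U n) := fun n => hGd.mono (iInter_subset _ n)
  set D : List ℕ → ℕ → Cond → Prop := fun τ j q =>
    (∃ τ' : List ℕ, τ' ≠ [] ∧ q = rund e p (τ ++ τ') ∧ Nb (τ ++ τ') ⊆ U j ∧ j < q.1.length) ∨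
      Disjoint (Bx q) (Bx (rund e p τ)) with hD
  have hdense : ∀ τ j, ∀ q : Cond, q.2 ∈ M → ∃ r, Le r q ∧ r.2 ∈ M ∧ D τ j r := by
    intro τ j q hq
    have hτM : (rund e p τ).2 ∈ M := he ▸ rund_mem hp' τ
    obtain ⟨q', h1, h2, h3 | h3⟩ := hcl.split hinf hq hτM
    · -- extend to have length greater than `j`
      obtain ⟨n, hn1, hn2⟩ := hinf q'.2 h2 (max j q'.1.length)
      have hn3 : q'.1.length ≤ n := (le_max_right _ _).trans hn1
      obtain ⟨i, hi⟩ := exists_cnd (e := e) (p := (snoc q'.1 n, q'.2)) (he ▸ h2)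
      have hle : Le (cnd e i) q' := by rw [hi]; exact le_snoc (Y := q'.2) hn3 hn2
      have hr1 : rund e p (τ ++ [i]) = cnd e i := by
        rw [rund_append]; exact rund_single (hle.trans h3)
      -- extend into `U j`
      obtain ⟨c, hc1, hc2⟩ := (hUd j).inter_open_nonempty (Nb (τ ++ [i])) (isOpen_Nb _)
        ⟨pre (τ ++ [i]) fun _ => 0, pre_mem_Nb _ _⟩
      obtain ⟨m, hm⟩ := exists_seg (hU j) hc2
      set τ'' := seg (drp (τ ++ [i]).length c) m with hτ''
      have hsub : Nb (τ ++ ([i] ++ τ'')) ⊆ U j := by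
        intro d hd
        apply hm
        -- `d` agrees with `c` up to `m`
        intro k hk
        rw [seg_length] at hk
        have e1 : (seg c m).getD k 0 = c k := by simp [seg, hk]
        rw [e1]
        rw [← List.append_assoc] at hd
        by_cases hk2 : k < (τ ++ [i]).length
        · have h5 := hd k (by rw [List.length_append]; omega)
          rw [List.getD_append _ _ _ _ hk2] at h5
          rw [h5]
          exact (hc1 k hk2).symm
        · have h5 := hd k (by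
            rw [List.length_append (as := τ ++ [i])]
            simp only [hτ'', seg_length]; omega)
          rw [List.getD_append_right _ _ _ _ (by omega)] at h5
          rw [h5]
          simp only [hτ'', seg]
          rw [List.getD_eq_getElem _ _ (by simp; omega)]
          simp only [List.getElem_map, List.getElem_range, drp]
          congr 1; omega
      refine ⟨rund e p (τ ++ ([i] ++ τ'')), ?_, he ▸ rund_mem hp' _, Or.inl
        ⟨[i] ++ τ'', by simp, rfl, hsub, ?_⟩⟩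
      · rw [← List.append_assoc, rund_append, hr1]
        exact ((rund_le _ _ _).trans hle).trans h1
      · rw [← List.append_assoc, rund_append, hr1]
        refine lt_of_lt_of_le ?_ (rund_le e (cnd e i) τ'').1
        rw [hi]
        simp only [snoc_length hn3]
        have : j ≤ n := (le_max_left _ _).trans hn1
        omega
    · exact ⟨q', h1, h2, Or.inr h3⟩
  have hall : Fc e p fun x => ∀ τ j, ∃ i, D τ j (cnd e i) ∧ F x ∈ Bx (cnd e i) := by
    refine AS.all fun τ => AS.all fun j => ?_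
    exact hcl.meets_all hinf he hp (fun x hx => ⟨(hF x hx).1, (hF x hx).2.1⟩) hbp (hdense τ j)
  obtain ⟨c, hc1, hc2⟩ := (AS.and hall (AS_infi he' hp')).exists
  have hx : gen e p c ∈ Bx p := gen_mem hc2 0
  obtain ⟨h1, h2, h3, h4⟩ := hF _ hx
  refine h4 (generic_of_meets (U := U) (fun c hc => hT (mem_iInter.2 hc)) h3 ?_)
  intro τ j hτ
  obtain ⟨i, hi | hi, hi2⟩ := hc1 τ j
  · obtain ⟨τ', a1, a2, a3, a4⟩ := hi
    rw [a2] at hi2 a4
    exact ⟨τ', a1, hi2, a3, a4⟩
  · exact absurd hτ (Set.disjoint_left.1 hi hi2)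

end Pool.Agent.Helper679_PU
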