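import Mathlib
import Pool.Agent.Helper679_PU.Ram4
import Pool.Agent.Helper679_PU.Calc

/-!
Complexity of the notions of countable Mathias forcing.
-/

namespace Pool.Agent.Helper679_PU

open Set MeasureTheory Filter Topology

/-- enumerations -/
abbrev EN := ℕ → CS

theorem meas_bitE (i n : ℕ) (b : Bool) : MeasurableSet {e : EN | e i n = b} := by
  have : IsOpen {e : EN | e i n = b} :=
    (isOpen_discrete ({b} : Set Bool)).preimage (f := fun e : EN => e i n) (by fun_prop)
  exact this.measurableSet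

theorem meas_bitC (n : ℕ) (b : Bool) : MeasurableSet {x : CS | x n = b} := by
  have : IsOpen {x : CS | x n = b} :=
    (isOpen_discrete ({b} : Set Bool)).preimage (f := fun x : CS => x n) (by fun_prop)
  exact this.measurableSet

theorem meas_TL (l : ℕ) : MeasurableSet {q : CS × CS | TL l q.1 q.2} := by
  have : {q : CS × CS | TL l q.1 q.2} =
      ⋂ n, ({q : CS × CS | l ≤ n ∧ q.1 n = true}ᶜ ∪ {q | q.2 n = true}) := by
    ext q
    simp only [TL, mem_ofPred_eq, mem_iInter, mem_union, mem_compl_iff]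
    refine forall_congr' fun n => ?_
    tauto
  rw [this]
  refine MeasurableSet.iInter fun n => MeasurableSet.union (MeasurableSet.compl ?_) ?_
  · by_cases h : l ≤ n
    · simp only [h, true_and]
      exact measurable_fst (meas_bitC n true)
    · simp only [h, false_and]
      exact MeasurableSet.empty
  · exact measurable_snd (meas_bitC n true)

theorem meas_infi : MeasurableSet {x : CS | Infi x} := by
  have : {x : CS | Infi x} = ⋂ n, ⋃ m, {x | n ≤ m ∧ x m = true} := by
    ext x; simp [Infi]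
  rw [this]
  refine MeasurableSet.iInter fun n => MeasurableSet.iUnion fun m => ?_
  by_cases h : n ≤ m
  · simp only [h, true_and]; exact meas_bitC m true
  · simp only [h, false_and]; exact MeasurableSet.empty

theorem meas_Bx (σ : List Bool) : MeasurableSet {q : CS × CS | q.1 ∈ Bx (σ, q.2)} := by
  have : {q : CS × CS | q.1 ∈ Bx (σ, q.2)} = {q | Infi q.1} ∩
      ((⋂ k, {q : CS × CS | k < σ.length ∧ q.1 k ≠ bit σ k}ᶜ) ∩ {q | TL σ.length q.1 q.2}) := by
    ext q
    simp only [Bx, mem_ofPred_eq, mem_inter_iff, mem_iInter, mem_compl_iff]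
    refine and_congr_right fun _ => and_congr_left fun _ => forall_congr' fun k => ?_
    tauto
  rw [this]
  refine (measurable_fst meas_infi).inter (MeasurableSet.inter ?_ (meas_TL _))
  refine MeasurableSet.iInter fun k => MeasurableSet.compl ?_
  by_cases h : k < σ.length
  · simp only [h, true_and]
    exact (measurable_fst (meas_bitC k (bit σ k))).compl
  · simp only [h, false_and]
    exact MeasurableSet.empty

theorem meas_Le (d b : ℕ) : MeasurableSet {e : EN | Le (cnd e d) (cnd e b)} := by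
  have hTL : MeasurableSet {e : EN | TL (stm d.unpair.1).length (e d.unpair.2.unpair.1)
      (e b.unpair.2.unpair.1)} := by
    have hf : Measurable (fun e : EN => (e d.unpair.2.unpair.1, e b.unpair.2.unpair.1)) := by
      fun_prop
    exact hf (meas_TL _)
  have h3 : MeasurableSet {e : EN | ∀ k, (stm b.unpair.1).length ≤ k → k < (stm d.unpair.1).length →
      bit (stm d.unpair.1) k = true → e b.unpair.2.unpair.1 k = true} := by
    have : {e : EN | ∀ k, (stm b.unpair.1).length ≤ k → k < (stm d.unpair.1).length →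
      bit (stm d.unpair.1) k = true → e b.unpair.2.unpair.1 k = true} =
      ⋂ k, {e : EN | (stm b.unpair.1).length ≤ k → k < (stm d.unpair.1).length →
      bit (stm d.unpair.1) k = true → e b.unpair.2.unpair.1 k = true} := by
      ext e; simp
    rw [this]
    refine MeasurableSet.iInter fun k => ?_
    by_cases h : (stm b.unpair.1).length ≤ k ∧ k < (stm d.unpair.1).length ∧
        bit (stm d.unpair.1) k = true
    · have : {e : EN | (stm b.unpair.1).length ≤ k → k < (stm d.unpair.1).length →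
          bit (stm d.unpair.1) k = true → e b.unpair.2.unpair.1 k = true} =
          {e | e b.unpair.2.unpair.1 k = true} := by
        ext e; simp [h.1, h.2.1, h.2.2]
      rw [this]
      exact meas_bitE _ _ _
    · have : {e : EN | (stm b.unpair.1).length ≤ k → k < (stm d.unpair.1).length →
          bit (stm d.unpair.1) k = true → e b.unpair.2.unpair.1 k = true} = univ := by
        ext e
        simp only [mem_ofPred_eq, mem_univ, iff_true]
        intro h1 h2 h3
        exact absurd ⟨h1, h2, h3⟩ h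
      rw [this]
      exact MeasurableSet.univ
  by_cases h1 : (stm b.unpair.1).length ≤ (stm d.unpair.1).length ∧
      ∀ k < (stm b.unpair.1).length, bit (stm d.unpair.1) k = bit (stm b.unpair.1) k
  · have : {e : EN | Le (cnd e d) (cnd e b)} = {e : EN | ∀ k, (stm b.unpair.1).length ≤ k →
        k < (stm d.unpair.1).length → bit (stm d.unpair.1) k = true →
        e b.unpair.2.unpair.1 k = true} ∩ {e : EN | TL (stm d.unpair.1).length
        (e d.unpair.2.unpair.1) (e b.unpair.2.unpair.1)} := by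
      ext e
      simp only [Le, cnd, mem_ofPred_eq, mem_inter_iff]
      tauto
    rw [this]
    exact h3.inter hTL
  · have : {e : EN | Le (cnd e d) (cnd e b)} = ∅ := by
      ext e
      simp only [Le, cnd, mem_ofPred_eq, mem_empty_iff_false, iff_false]
      tauto
    rw [this]
    exact MeasurableSet.empty

open Classical in
/-- indices of the run -/
noncomputable def ridx (e : EN) (i : ℕ) (c : BS) : ℕ → ℕ
  | 0 => i
  | n + 1 => if Le (cnd e (c n)) (cnd e (ridx e i c n)) then c n else ridx e i c n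

theorem ridx_succ (e : EN) (i : ℕ) (c : BS) (n : ℕ) :
    (Le (cnd e (c n)) (cnd e (ridx e i c n)) ∧ ridx e i c (n + 1) = c n) ∨
    (¬ Le (cnd e (c n)) (cnd e (ridx e i c n)) ∧ ridx e i c (n + 1) = ridx e i c n) := by
  classical
  by_cases h : Le (cnd e (c n)) (cnd e (ridx e i c n))
  · exact Or.inl ⟨h, by simp only [ridx]; rw [if_pos h]⟩
  · exact Or.inr ⟨h, by simp only [ridx]; rw [if_neg h]⟩

theorem run_cnd (e : EN) (i : ℕ) (c : BS) (n : ℕ) : run e (cnd e i) c n = cnd e (ridx e i c n) := by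
  induction n with
  | zero => rfl
  | succ n ih =>
    simp only [run, ih]
    rcases ridx_succ e i c n with ⟨h1, h2⟩ | ⟨h1, h2⟩
    · rw [nxt_pos h1, h2]
    · rw [nxt_neg h1, h2]

theorem meas_ridx (i n a : ℕ) : MeasurableSet {q : EN × BS | ridx q.1 i q.2 n = a} := by
  induction n generalizing a with
  | zero =>
    by_cases h : i = a
    · have : {q : EN × BS | ridx q.1 i q.2 0 = a} = univ := by ext; simp [ridx, h]
      rw [this]; exact MeasurableSet.univ
    · have : {q : EN × BS | ridx q.1 i q.2 0 = a} = ∅ := by ext; simp [ridx, h]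
      rw [this]; exact MeasurableSet.empty
  | succ n ih =>
    have : {q : EN × BS | ridx q.1 i q.2 (n + 1) = a} = ⋃ b, ⋃ d,
        ({q : EN × BS | ridx q.1 i q.2 n = b} ∩ {q | q.2 n = d}) ∩
        (({q | Le (cnd q.1 d) (cnd q.1 b)} ∩ {_q | d = a}) ∪
          ({q | Le (cnd q.1 d) (cnd q.1 b)}ᶜ ∩ {_q | b = a})) := by
      ext q
      simp only [mem_ofPred_eq, mem_iUnion, mem_inter_iff, mem_union, mem_compl_iff]
      constructor
      · intro h
        refine ⟨_, _, ⟨rfl, rfl⟩, ?_⟩
        rcases ridx_succ q.1 i q.2 n with ⟨h1, h2⟩ | ⟨h1, h2⟩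
        · exact Or.inl ⟨h1, by rw [← h2, h]⟩
        · exact Or.inr ⟨h1, by rw [← h2, h]⟩
      · rintro ⟨b, d, ⟨rfl, rfl⟩, ⟨h1, h2⟩ | ⟨h1, h2⟩⟩
        · rcases ridx_succ q.1 i q.2 n with ⟨h3, h4⟩ | ⟨h3, h4⟩
          · rw [h4, h2]
          · exact absurd h1 h3
        · rcases ridx_succ q.1 i q.2 n with ⟨h3, h4⟩ | ⟨h3, h4⟩
          · exact absurd h3 h1
          · rw [h4, h2]
    rw [this]
    refine MeasurableSet.iUnion fun b => MeasurableSet.iUnion fun d => MeasurableSet.inter
      (MeasurableSet.inter (ih b) ?_) (MeasurableSet.union (MeasurableSet.inter ?_ ?_)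
      (MeasurableSet.inter (MeasurableSet.compl ?_) ?_))
    · have hf : Measurable (fun q : EN × BS => q.2 n) := by fun_prop
      exact hf (measurableSet_singleton d)
    · exact measurable_fst (meas_Le d b)
    · exact MeasurableSet.const _
    · exact measurable_fst (meas_Le d b)
    · exact MeasurableSet.const _

theorem measurable_gen (i : ℕ) : Measurable (fun q : EN × BS => gen q.1 (cnd q.1 i) q.2) := by
  refine measurable_pi_iff.2 fun k => ?_
  refine measurable_to_bool ?_
  have : (fun q : EN × BS => gen q.1 (cnd q.1 i) q.2 k) ⁻¹' {true} = ⋃ n, ⋃ a,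
      {q : EN × BS | ridx q.1 i q.2 n = a} ∩
      {_q | k < (stm a.unpair.1).length ∧ bit (stm a.unpair.1) k = true} := by
    ext q
    simp only [mem_preimage, mem_singleton_iff, mem_iUnion, mem_inter_iff, mem_ofPred_eq]
    rw [gen_iff]
    simp only [run_cnd]
    constructor
    · rintro ⟨n, h⟩
      exact ⟨n, _, rfl, h⟩
    · rintro ⟨n, a, rfl, h⟩
      exact ⟨n, h⟩
  rw [this]
  exact MeasurableSet.iUnion fun n => MeasurableSet.iUnion fun a =>
    (meas_ridx i n a).inter (MeasurableSet.const _)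

variable {k : ℕ}

/-- a sequence of selectors with graphs in `Σ_{k+1}` -/
def SelSeq (k : ℕ) (F : ℕ → CS → CS) : Prop := ∀ a, Sg k (CS × CS) fun q => F a q.1 = q.2

theorem dl_F {F : ℕ → CS → CS} (hF : SelSeq k F) (a i b : ℕ) :
    Dl k (EN × BS) fun q => F a (gen q.1 (cnd q.1 i) q.2) ∈ Bx (cnd q.1 b) := by
  have h1 : Sg k ((EN × BS) × CS) fun r => F a (gen r.1.1 (cnd r.1.1 i) r.1.2) = r.2 := by
    refine Sg.compM (f := fun r : (EN × BS) × CS => (gen r.1.1 (cnd r.1.1 i) r.1.2, r.2)) ?_
      (P := fun q : CS × CS => F a q.1 = q.2) (hF a)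
    exact ((measurable_gen i).comp measurable_fst).prodMk measurable_snd
  have h2 : Dl k ((EN × BS) × CS) fun r => r.2 ∈ Bx (cnd r.1.1 b) := by
    refine Dl.of_meas ?_
    have hf : Measurable (fun r : (EN × BS) × CS => (r.2, r.1.1 b.unpair.2.unpair.1)) := by
      fun_prop
    exact hf (meas_Bx (stm b.unpair.1))
  refine ⟨?_, ?_⟩
  · refine (Sg.exP (P := fun (q : EN × BS) (y : CS) =>
      F a (gen q.1 (cnd q.1 i) q.2) = y ∧ y ∈ Bx (cnd q.1 b)) (h1.and h2.1)).congr fun q => ?_
    simp
  · refine (Sg.exP (P := fun (q : EN × BS) (y : CS) =>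
      F a (gen q.1 (cnd q.1 i) q.2) = y ∧ ¬ y ∈ Bx (cnd q.1 b)) (h1.and h2.2)).congr fun q => ?_
    simp

theorem dl_Rr (S : CSetup k) {F : ℕ → CS → CS} (hF : SelSeq k F) (a i b : ℕ) :
    Dl k EN fun e => Rr (range e) (F a) (cnd e i) (cnd e b) := by
  have h1 : Dl k EN fun e => AS fun c => F a (gen e (cnd e i) c) ∉ Bx (cnd e b) :=
    S.AS_dl (P := fun (e : EN) (c : BS) => F a (gen e (cnd e i) c) ∉ Bx (cnd e b))
      (dl_F hF a i b).not
  exact h1.not.congr fun e => (Rr_iff rfl).symm

theorem dl_Le (d b : ℕ) : Dl k EN fun e => Le (cnd e d) (cnd e b) := Dl.of_meas (meas_Le d b)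

theorem all_cnd {e : EN} {P : Cond → Prop} : (∀ q : Cond, q.2 ∈ range e → P q) ↔
    ∀ j, P (cnd e j) := by
  constructor
  · intro h j; exact h _ (cnd_mem e j)
  · intro h q hq
    obtain ⟨j, rfl⟩ := exists_cnd hq
    exact h j

theorem dl_Es (S : CSetup k) {F : ℕ → CS → CS} (hF : SelSeq k F) (a i b : ℕ) :
    Dl k EN fun e => cnd e b ∈ Es (range e) (F a) (cnd e i) := by
  have h1 : Dl k EN fun e => (∀ j, Le (cnd e j) (cnd e b) → Rr (range e) (F a) (cnd e i) (cnd e j)) ∨
      ¬ Rr (range e) (F a) (cnd e i) (cnd e b) :=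
    (Dl.all fun j => (dl_Le j b).imp (dl_Rr S hF a i j)).or (dl_Rr S hF a i b).not
  refine h1.congr fun e => ?_
  unfold Es
  simp only [mem_ofPred_eq, cnd_mem, true_and]
  rw [all_cnd (P := fun q => Le q (cnd e b) → Rr (range e) (F a) (cnd e i) q)]

theorem meets_cnd {e : EN} {z : CS} {F : CS → CS} {t : Cond} :
    Meets z (Es (range e) F t) ↔ ∃ b, cnd e b ∈ Es (range e) F t ∧ z ∈ Bx (cnd e b) := by
  constructor
  · rintro ⟨p, hp, hz⟩
    obtain ⟨b, rfl⟩ := exists_cnd hp.1
    exact ⟨b, hp, hz⟩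
  · rintro ⟨b, h1, h2⟩
    exact ⟨_, h1, h2⟩

theorem dl_CC (hk : 1 ≤ k) (S : CSetup k) {F : ℕ → CS → CS} (hF : SelSeq k F) (a i : ℕ)
    (σ : List Bool) (m : ℕ) :
    Dl k EN fun e => CC (range e) (F a) (cnd e i) σ (e m) := by
  classical
  have hB : ∀ b, Dl k (EN × CS) fun q => q.2 ∈ Bx (cnd q.1 b) := by
    intro b
    refine Dl.of_meas ?_
    have hf : Measurable (fun r : EN × CS => (r.2, r.1 b.unpair.2.unpair.1)) := by fun_prop
    exact hf (meas_Bx (stm b.unpair.1))
  have hB2 : Dl k (EN × CS) fun q => q.2 ∈ Bx (σ, q.1 m) := by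
    refine Dl.of_meas ?_
    have hf : Measurable (fun r : EN × CS => (r.2, r.1 m)) := by fun_prop
    exact hf (meas_Bx σ)
  have hE : ∀ b, Dl k (EN × CS) fun q => cnd q.1 b ∈ Es (range q.1) (F a) (cnd q.1 i) := fun b =>
    (dl_Es S hF a i b).comp (f := fun q : EN × CS => q.1) continuous_fst
  refine ⟨?_, ?_⟩
  · -- with the set of conditions as a real
    have h1 : Dl k (EN × CS) fun q => ∀ z : CS, (z ∈ Bx (σ, q.1 m) →
        ∃ b, q.2 b = true ∧ z ∈ Bx (cnd q.1 b)) := by
      refine dl_all_borel hk (P := fun (q : EN × CS) (z : CS) => (z ∈ Bx (σ, q.1 m) →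
        ∃ b, q.2 b = true ∧ z ∈ Bx (cnd q.1 b))) ?_
      have e1 : {r : (EN × CS) × CS | (r.2 ∈ Bx (σ, r.1.1 m) →
          ∃ b, r.1.2 b = true ∧ r.2 ∈ Bx (cnd r.1.1 b))} = {r | r.2 ∈ Bx (σ, r.1.1 m)}ᶜ ∪
          ⋃ b, ({r | r.1.2 b = true} ∩ {r | r.2 ∈ Bx (cnd r.1.1 b)}) := by
        ext r
        simp only [mem_ofPred_eq, mem_union, mem_compl_iff, mem_iUnion, mem_inter_iff]
        tauto
      rw [e1]
      refine MeasurableSet.union (MeasurableSet.compl ?_) (MeasurableSet.iUnion fun b =>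
        MeasurableSet.inter ?_ ?_)
      · have hf : Measurable (fun r : (EN × CS) × CS => (r.2, r.1.1 m)) := by fun_prop
        exact hf (meas_Bx σ)
      · have hf : Measurable (fun r : (EN × CS) × CS => r.1.2) := by fun_prop
        exact hf (meas_bitC b true)
      · have hf : Measurable (fun r : (EN × CS) × CS => (r.2, r.1.1 b.unpair.2.unpair.1)) := by
          fun_prop
        exact hf (meas_Bx (stm b.unpair.1))
    have h2 : Dl k (EN × CS) fun q => ∀ b, (q.2 b = true ↔
        cnd q.1 b ∈ Es (range q.1) (F a) (cnd q.1 i)) := by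
      refine Dl.all fun b => Dl.iff ?_ (hE b)
      refine Dl.of_meas ?_
      have hf : Measurable (fun r : EN × CS => r.2) := by fun_prop
      exact hf (meas_bitC b true)
    refine (Sg.exP (P := fun (e : EN) (ε : CS) => (∀ b, (ε b = true ↔
        cnd e b ∈ Es (range e) (F a) (cnd e i))) ∧ ∀ z : CS, (z ∈ Bx (σ, e m) →
        ∃ b, ε b = true ∧ z ∈ Bx (cnd e b))) (h2.1.and h1.1)).congr fun e => ?_
    constructor
    · rintro ⟨ε, h3, h4⟩ z hz
      obtain ⟨b, hb1, hb2⟩ := h4 z hz
      exact ⟨_, (h3 b).1 hb1, hb2⟩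
    · intro h
      refine ⟨fun b => decide (cnd e b ∈ Es (range e) (F a) (cnd e i)), fun b => by simp,
        fun z hz => ?_⟩
      obtain ⟨b, hb1, hb2⟩ := meets_cnd.1 (h z hz)
      exact ⟨b, by simpa using hb1, hb2⟩
  · have h3 : Sg k (EN × CS) fun q => q.2 ∈ Bx (σ, q.1 m) ∧ ∀ b,
        ¬ (cnd q.1 b ∈ Es (range q.1) (F a) (cnd q.1 i) ∧ q.2 ∈ Bx (cnd q.1 b)) :=
      hB2.1.and (Dl.all fun b => ((hE b).and (hB b)).not).1
    refine (Sg.exP (P := fun (e : EN) (z : CS) => z ∈ Bx (σ, e m) ∧ ∀ b,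
        ¬ (cnd e b ∈ Es (range e) (F a) (cnd e i) ∧ z ∈ Bx (cnd e b))) h3).congr fun e => ?_
    unfold CC
    simp only [meets_cnd]
    push Not
    rfl

/-- the index of the condition with stem number `s` and set number `i` -/
def ci (s i : ℕ) : ℕ := Nat.pair s (Nat.pair i 0)

theorem cnd_ci (e : EN) (s i : ℕ) : cnd e (ci s i) = (stm s, e i) := by
  simp [cnd, ci]

/-- `Δ` properties of stems and sets -/
def DlC (k : ℕ) (C : EN → List Bool → CS → Prop) : Prop := ∀ σ m, Dl k EN fun e => C e σ (e m)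

theorem dl_TL (l m m' : ℕ) : Dl k EN fun e => TL l (e m) (e m') := by
  refine Dl.of_meas ?_
  have hf : Measurable (fun e : EN => (e m, e m')) := by fun_prop
  exact hf (meas_TL l)

theorem DlC.rej {C : EN → List Bool → CS → Prop} (h : DlC k C) :
    DlC k fun e σ Y => Rej (range e) (C e) σ Y := by
  intro σ m
  refine (Dl.all (P := fun (j : ℕ) (e : EN) => TL σ.length (e j) (e m) → ¬ C e σ (e j)) fun j =>
    (dl_TL _ _ _).imp (h σ j).not).congr fun e => ?_
  unfold Rej
  simp

theorem dl_bit (m n : ℕ) : Dl k EN fun e => e m n = true := Dl.of_meas (meas_bitE m n true)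

theorem DlC.qq {C : EN → List Bool → CS → Prop} (h : DlC k C) :
    DlC k fun e σ Y => QQ (range e) (C e) σ Y := by
  intro σ m
  refine (h σ m).or ((h.rej σ m).and (Dl.all fun n => Dl.of_imp fun _ =>
    (dl_bit m n).imp (h.rej (snoc σ n) m)))

theorem DlC.dd {C : EN → List Bool → CS → Prop} (h : DlC k C) :
    DlC k fun e σ Y => DD (range e) (C e) σ Y := fun σ m => (h.qq σ m).or (h.qq.rej σ m)

end Pool.Agent.Helper679_PU
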