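import Mathlib
import Pool.Agent.Helper679_PU.Ram5

/-!
The reals which a closed family must contain, and the first one that is missing.
-/

namespace Pool.Agent.Helper679_PU

open Set MeasureTheory Filter Topology

set_option synthInstance.maxSize 100000

/-- parts of a parameter -/
def pF (a : ℕ) : ℕ := a.unpair.2.unpair.1
/-- parts of a parameter -/
def pS (a : ℕ) : ℕ := a.unpair.2.unpair.2.unpair.1
/-- parts of a parameter -/
def pT (a : ℕ) : ℕ := a.unpair.2.unpair.2.unpair.2.unpair.1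
/-- parts of a parameter -/
def pL (a : ℕ) : ℕ := a.unpair.2.unpair.2.unpair.2.unpair.2
/-- a parameter with given parts -/
def mkP (j aF s τ l : ℕ) : ℕ := Nat.pair j (Nat.pair aF (Nat.pair s (Nat.pair τ l)))

/-- `Z` if it is infinite, and `X` otherwise -/
def Cmb (X Z z : CS) : Prop := (Infi Z ∧ z = Z) ∨ (¬ Infi Z ∧ z = X)

theorem Cmb.unique {X Z z z' : CS} (h : Cmb X Z z) (h' : Cmb X Z z') : z = z' := by
  rcases h with ⟨h1, h2⟩ | ⟨h1, h2⟩ <;> rcases h' with ⟨h3, h4⟩ | ⟨h3, h4⟩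
  · rw [h2, h4]
  · exact absurd h1 h3
  · exact absurd h3 h1
  · rw [h2, h4]

theorem Cmb.exists (X Z : CS) : ∃ z, Cmb X Z z := by
  by_cases h : Infi Z
  · exact ⟨Z, Or.inl ⟨h, rfl⟩⟩
  · exact ⟨X, Or.inr ⟨h, rfl⟩⟩

/-- the real required for the parameters `a`, `X1`, `X2` -/
def Req (M : Set CS) (lt : CS → CS → Prop) (F : ℕ → CS → CS) (a : ℕ) (X1 X2 z : CS) : Prop :=
  (a.unpair.1 = 0 ∧ ∃ Z : CS, (∀ n, Z n = true ↔ (X1 n = true ∧ X2 n = true)) ∧ Cmb X1 Z z) ∨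
  (a.unpair.1 = 1 ∧ ∃ Z : CS, (∀ n, Z n = true ↔ ((stm (pT a)).length ≤ n ∧ X2 n = true ∧
    CC M (F (pF a)) (stm (pS a), X1) (snoc (stm (pT a)) n) X2)) ∧ Cmb X1 Z z) ∨
  (2 ≤ a.unpair.1 ∧ IsDiag M lt (DD M (CC M (F (pF a)) (stm (pS a), X1))) X2 (pL a) z)

theorem Req.unique {M : Set CS} {lt : CS → CS → Prop} (hM : WOn M lt) {F : ℕ → CS → CS} {a : ℕ}
    {X1 X2 z z' : CS} (h : Req M lt F a X1 X2 z) (h' : Req M lt F a X1 X2 z') : z = z' := by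
  have hfun : ∀ (Z Z' : CS) (P : ℕ → Prop), (∀ n, Z n = true ↔ P n) → (∀ n, Z' n = true ↔ P n) →
      Z = Z' := by
    intro Z Z' P h1 h2
    funext n
    rw [Bool.eq_iff_iff, h1, h2]
  rcases h with ⟨h1, Z, h2, h3⟩ | ⟨h1, Z, h2, h3⟩ | ⟨h1, h2⟩ <;>
    rcases h' with ⟨h4, Z', h5, h6⟩ | ⟨h4, Z', h5, h6⟩ | ⟨h4, h5⟩
  · rw [hfun Z Z' _ h2 h5] at h3
    exact h3.unique h6
  · omega
  · omega
  · omega
  · rw [hfun Z Z' _ h2 h5] at h3
    exact h3.unique h6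
  · omega
  · omega
  · omega
  · exact h2.unique hM h5

theorem Req.exists {M : Set CS} {lt : CS → CS → Prop} (hM : WOn M lt) (hinf : ∀ Y ∈ M, Infi Y)
    (F : ℕ → CS → CS) (a : ℕ) {X1 X2 : CS} (h2 : X2 ∈ M) : ∃ z, Req M lt F a X1 X2 z := by
  classical
  rcases Nat.lt_trichotomy a.unpair.1 1 with h | h | h
  · obtain ⟨z, hz⟩ := Cmb.exists X1 (fun n => decide (X1 n = true ∧ X2 n = true))
    exact ⟨z, Or.inl ⟨by omega, _, fun n => by simp, hz⟩⟩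
  · obtain ⟨z, hz⟩ := Cmb.exists X1 (fun n => decide ((stm (pT a)).length ≤ n ∧ X2 n = true ∧
      CC M (F (pF a)) (stm (pS a), X1) (snoc (stm (pT a)) n) X2))
    exact ⟨z, Or.inr (Or.inl ⟨h, _, fun n => by simp, hz⟩)⟩
  · obtain ⟨z, hz⟩ := IsDiag.exists hM hinf (DD.her (CC.her M (F (pF a)) (stm (pS a), X1)))
      (fun σ Y hY => DD.dense σ hY) h2 (pL a)
    exact ⟨z, Or.inr (Or.inr ⟨h, hz⟩)⟩

theorem Req.infi {M : Set CS} {lt : CS → CS → Prop} {F : ℕ → CS → CS} {a : ℕ}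
    {X1 X2 z : CS} (h1 : Infi X1) (h : Req M lt F a X1 X2 z) : Infi z := by
  rcases h with ⟨-, Z, -, h3⟩ | ⟨-, Z, -, h3⟩ | ⟨-, h2⟩
  · rcases h3 with ⟨h4, rfl⟩ | ⟨-, rfl⟩
    · exact h4
    · exact h1
  · rcases h3 with ⟨h4, rfl⟩ | ⟨-, rfl⟩
    · exact h4
    · exact h1
  · exact (h2.spec (DD.her (CC.her M _ _))).2

theorem clsd_of_req {M : Set CS} {lt : CS → CS → Prop} (hM : WOn M lt) (hinf : ∀ Y ∈ M, Infi Y)
    {F : ℕ → CS → CS}
    (h : ∀ a, ∀ X1 ∈ M, ∀ X2 ∈ M, ∀ z, Req M lt F a X1 X2 z → z ∈ M) (aF : ℕ) :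
    Clsd M (F aF) := by
  refine ⟨fun X hX X' hX' Z hZ hi => ?_, fun t ht X hX σ Z hZ hi => ?_, fun t ht X hX l => ?_⟩
  · refine h (mkP 0 0 0 0 0) X hX X' hX' Z (Or.inl ⟨by simp [mkP], Z, hZ, Or.inl ⟨hi, rfl⟩⟩)
  · refine h (mkP 1 aF (Encodable.encode t.1) (Encodable.encode σ) 0) t.2 ht X hX Z
      (Or.inr (Or.inl ⟨by simp [mkP], Z, ?_, Or.inl ⟨hi, rfl⟩⟩))
    intro n
    simp only [pT, pF, pS, mkP, Nat.unpair_pair, stm_encode]
    exact hZ n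
  · obtain ⟨z, hz⟩ := IsDiag.exists hM hinf (DD.her (CC.her M (F aF) t))
      (fun σ Y hY => DD.dense σ hY) hX l
    refine ⟨z, ?_, (hz.spec (DD.her (CC.her M _ _))).1⟩
    refine h (mkP 2 aF (Encodable.encode t.1) 0 l) t.2 ht X hX z (Or.inr (Or.inr ⟨by simp [mkP], ?_⟩))
    simp only [pL, pF, pS, mkP, Nat.unpair_pair, stm_encode]
    exact hz

/-- the order of parameters -/
def tlt (lt : CS → CS → Prop) (τ' τ : ℕ × CS × CS) : Prop :=
  Prod.Lex (fun a b : ℕ => a < b) (Prod.Lex lt lt) τ' τ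

/-- `z` is the first required real which is not in `M` -/
def Psi (M : Set CS) (lt : CS → CS → Prop) (F : ℕ → CS → CS) (z : CS) : Prop :=
  ∃ a, ∃ X1 ∈ M, ∃ X2 ∈ M, Req M lt F a X1 X2 z ∧ z ∉ M ∧
    ∀ a', ∀ X1' ∈ M, ∀ X2' ∈ M, tlt lt (a', X1', X2') (a, X1, X2) →
      ∃ z' ∈ M, Req M lt F a' X1' X2' z'

theorem Psi.notMem {M : Set CS} {lt : CS → CS → Prop} {F : ℕ → CS → CS} {z : CS}
    (h : Psi M lt F z) : z ∉ M := by
  obtain ⟨a, X1, -, X2, -, -, h1, -⟩ := h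
  exact h1

theorem Psi.infi {M : Set CS} {lt : CS → CS → Prop} {F : ℕ → CS → CS} {z : CS}
    (hinf : ∀ Y ∈ M, Infi Y) (h : Psi M lt F z) : Infi z := by
  obtain ⟨a, X1, h1, X2, -, h2, -⟩ := h
  exact h2.infi (hinf X1 h1)

theorem Psi.unique {M : Set CS} {lt : CS → CS → Prop} (hM : WOn M lt) {F : ℕ → CS → CS}
    {z z' : CS} (h : Psi M lt F z) (h' : Psi M lt F z') : z = z' := by
  obtain ⟨a, X1, hX1, X2, hX2, h1, h2, h3⟩ := h
  obtain ⟨a', X1', hX1', X2', hX2', h1', h2', h3'⟩ := h'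
  have tri : tlt lt (a, X1, X2) (a', X1', X2') ∨ (a = a' ∧ X1 = X1' ∧ X2 = X2') ∨
      tlt lt (a', X1', X2') (a, X1, X2) := by
    unfold tlt
    simp only [Prod.lex_def]
    rcases lt_trichotomy a a' with e1 | e1 | e1
    · exact Or.inl (Or.inl e1)
    · rcases hM.tri X1 hX1 X1' hX1' with e2 | e2 | e2
      · exact Or.inl (Or.inr ⟨e1, Or.inl e2⟩)
      · rcases hM.tri X2 hX2 X2' hX2' with e3 | e3 | e3
        · exact Or.inl (Or.inr ⟨e1, Or.inr ⟨e2, e3⟩⟩)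
        · exact Or.inr (Or.inl ⟨e1, e2, e3⟩)
        · exact Or.inr (Or.inr (Or.inr ⟨e1.symm, Or.inr ⟨e2.symm, e3⟩⟩))
      · exact Or.inr (Or.inr (Or.inr ⟨e1.symm, Or.inl e2⟩))
    · exact Or.inr (Or.inr (Or.inl e1))
  rcases tri with h4 | ⟨rfl, rfl, rfl⟩ | h4
  · obtain ⟨w, hw, h5⟩ := h3' a X1 hX1 X2 hX2 h4
    rw [h1.unique hM h5] at h2
    exact absurd hw h2
  · exact h1.unique hM h1'
  · obtain ⟨w, hw, h5⟩ := h3 a' X1' hX1' X2' hX2' h4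
    rw [h1'.unique hM h5] at h2'
    exact absurd hw h2'

theorem Psi.exists {M : Set CS} {lt : CS → CS → Prop} (hM : WOn M lt) (hinf : ∀ Y ∈ M, Infi Y)
    {F : ℕ → CS → CS} (h : ¬ ∀ aF, Clsd M (F aF)) : ∃ z, Psi M lt F z := by
  have h1 : ¬ ∀ a, ∀ X1 ∈ M, ∀ X2 ∈ M, ∀ z, Req M lt F a X1 X2 z → z ∈ M :=
    fun h2 => h (clsd_of_req hM hinf h2)
  have hwf : WellFounded (tlt lt) := WellFounded.prod_lex Nat.lt_wfRel.wf
    (WellFounded.prod_lex hM.wf hM.wf)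
  set B : Set (ℕ × CS × CS) := {τ | τ.2.1 ∈ M ∧ τ.2.2 ∈ M ∧
    ∃ z, Req M lt F τ.1 τ.2.1 τ.2.2 z ∧ z ∉ M} with hB
  have hne : B.Nonempty := by
    push Not at h1
    obtain ⟨a, X1, hX1, X2, hX2, z, h2, h3⟩ := h1
    exact ⟨(a, X1, X2), hX1, hX2, z, h2, h3⟩
  obtain ⟨⟨a, X1, X2⟩, ⟨hX1, hX2, z, h2, h3⟩, hmin⟩ := hwf.has_min B hne
  refine ⟨z, a, X1, hX1, X2, hX2, h2, h3, fun a' X1' hX1' X2' hX2' hlt => ?_⟩
  obtain ⟨w, hw⟩ := Req.exists hM hinf F a' (X1 := X1') hX2'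
  refine ⟨w, ?_, hw⟩
  by_contra hcon
  exact hmin (a', X1', X2') ⟨hX1', hX2', w, hw, hcon⟩ hlt

/-- the order coded by `o` -/
def ltc (o : CS) (e : EN) (Y Y' : CS) : Prop :=
  ∃ i j, e i = Y ∧ e j = Y' ∧ o (Nat.pair i j) = true

variable {k : ℕ}

/-- codes of structures -/
abbrev SC := CS × EN

theorem dl_ltc (m' m : ℕ) : Dl k SC fun c => ltc c.1 c.2 (c.2 m') (c.2 m) := by
  refine Dl.ex fun i => Dl.ex fun j => Dl.and ?_ (Dl.and ?_ ?_)
  · refine Dl.of_meas (IsClosed.measurableSet ?_)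
    exact isClosed_eq (by fun_prop) (by fun_prop)
  · refine Dl.of_meas (IsClosed.measurableSet ?_)
    exact isClosed_eq (by fun_prop) (by fun_prop)
  · refine Dl.of_meas ?_
    exact measurable_fst (meas_bitC _ true)

/-- the requirement on the next set, with indices -/
def Gd (D : EN → List Bool → CS → Prop) (e : EN) (L m1 m2 : ℕ) : Prop :=
  TL L (e m2) (e m1) ∧ ∀ σ : List Bool, σ.length = L → D e σ (e m2)

theorem good_iff {D : EN → List Bool → CS → Prop} {e : EN} {L m1 m2 : ℕ} :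
    GoodY (range e) (D e) L (e m1) (e m2) ↔ Gd D e L m1 m2 := by
  unfold GoodY Gd
  simp

theorem dl_Gd {D : EN → List Bool → CS → Prop} (hD : DlC k D) (L m1 m2 : ℕ) :
    Dl k EN fun e => Gd D e L m1 m2 :=
  (dl_TL _ _ _).and (Dl.all fun σ => Dl.of_imp fun _ => hD σ m2)

/-- previous index -/
def Jp (i2 : ℕ) (J : BS) : ℕ → ℕ
  | 0 => i2
  | i + 1 => J i

theorem isDiag_iff {D : EN → List Bool → CS → Prop} {e : EN} {lt : CS → CS → Prop} {i2 l : ℕ}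
    {z : CS} : IsDiag (range e) lt (D e) (e i2) l z ↔ ∃ J : BS, ∃ N : BS,
      (∀ i, (Gd D e (Lh l N i) (Jp i2 J i) (J i) ∧
        ∀ m', lt (e m') (e (J i)) → ¬ Gd D e (Lh l N i) (Jp i2 J i) m') ∧
        NextN (Lh l N i) (e (J i)) (N i)) ∧ ∀ k, z k = true ↔ ∃ i, N i = k := by
  have hYp : ∀ (J : BS) (Y : ℕ → CS), (∀ i, Y i = e (J i)) → ∀ i, Yp (e i2) Y i = e (Jp i2 J i) := by
    intro J Y h i
    cases i with
    | zero => rfl
    | succ i => exact h i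
  constructor
  · rintro ⟨Y, N, h1, h2⟩
    have h3 : ∀ i, ∃ j, e j = Y i := fun i => (h1 i).1.1.1
    choose J hJ using h3
    refine ⟨J, N, fun i => ?_, h2⟩
    obtain ⟨⟨a1, a2⟩, a3⟩ := h1 i
    rw [hYp J Y (fun i => (hJ i).symm), ← hJ i] at a1 a2
    rw [← hJ i] at a3
    rw [good_iff] at a1
    refine ⟨⟨a1, fun m' hm' hG => ?_⟩, a3⟩
    exact a2 (e m') (mem_range_self _) hm' (good_iff.2 hG)
  · rintro ⟨J, N, h1, h2⟩
    refine ⟨fun i => e (J i), N, fun i => ?_, h2⟩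
    obtain ⟨⟨a1, a2⟩, a3⟩ := h1 i
    rw [hYp J (fun i => e (J i)) (fun i => rfl)]
    refine ⟨⟨good_iff.2 a1, ?_⟩, a3⟩
    rintro _ ⟨m', rfl⟩ hm' hG
    exact a2 m' hm' (good_iff.1 hG)

theorem dl_cont {X : Type} [TopologicalSpace X] [PolishSpace X] [MeasurableSpace X] [BorelSpace X]
    {f : X → ℕ} (hf : Continuous f) (i : ℕ) : Dl k X fun x => f x = i :=
  Dl.of_meas (((isOpen_discrete ({i} : Set ℕ)).preimage hf).measurableSet)

theorem sg_diag {D : EN → List Bool → CS → Prop} (hD : DlC k D) (i2 l : ℕ) :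
    Sg k (SC × CS) fun q => IsDiag (range q.1.2) (ltc q.1.1 q.1.2) (D q.1.2) (q.1.2 i2) l q.2 := by
  refine Sg.congr (P := fun q => ∃ J : BS, ∃ N : BS,
      (∀ i, (Gd D q.1.2 (Lh l N i) (Jp i2 J i) (J i) ∧
        ∀ m', ltc q.1.1 q.1.2 (q.1.2 m') (q.1.2 (J i)) →
          ¬ Gd D q.1.2 (Lh l N i) (Jp i2 J i) m') ∧
        NextN (Lh l N i) (q.1.2 (J i)) (N i)) ∧ ∀ k, q.2 k = true ↔ ∃ i, N i = k) ?_
    fun q => isDiag_iff.symm
  refine Sg.exP (X := SC × CS) (P := fun q (J : BS) => ∃ N : BS,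
      (∀ i, (Gd D q.1.2 (Lh l N i) (Jp i2 J i) (J i) ∧
        ∀ m', ltc q.1.1 q.1.2 (q.1.2 m') (q.1.2 (J i)) →
          ¬ Gd D q.1.2 (Lh l N i) (Jp i2 J i) m') ∧
        NextN (Lh l N i) (q.1.2 (J i)) (N i)) ∧ ∀ k, q.2 k = true ↔ ∃ i, N i = k) ?_
  refine Sg.exP (X := (SC × CS) × BS) (P := fun r (N : BS) =>
      (∀ i, (Gd D r.1.1.2 (Lh l N i) (Jp i2 r.2 i) (r.2 i) ∧
        ∀ m', ltc r.1.1.1 r.1.1.2 (r.1.1.2 m') (r.1.1.2 (r.2 i)) →
          ¬ Gd D r.1.1.2 (Lh l N i) (Jp i2 r.2 i) m') ∧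
        NextN (Lh l N i) (r.1.1.2 (r.2 i)) (N i)) ∧ ∀ k, r.1.2 k = true ↔ ∃ i, N i = k) ?_
  refine Dl.sg ?_
  -- continuity of the numbers
  have hLh : ∀ i, Continuous fun r : ((SC × CS) × BS) × BS => Lh l r.2 i := by
    intro i
    cases i with
    | zero => exact continuous_const
    | succ i =>
      change Continuous fun r : ((SC × CS) × BS) × BS => r.2 i + 1
      fun_prop
  have hJp : ∀ i, Continuous fun r : ((SC × CS) × BS) × BS => Jp i2 r.1.2 i := by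
    intro i
    cases i with
    | zero => exact continuous_const
    | succ i =>
      change Continuous fun r : ((SC × CS) × BS) × BS => r.1.2 i
      fun_prop
  have hJ : ∀ i, Continuous fun r : ((SC × CS) × BS) × BS => r.1.2 i := fun i => by fun_prop
  have hN : ∀ i, Continuous fun r : ((SC × CS) × BS) × BS => r.2 i := fun i => by fun_prop
  have hGd : ∀ L m1 m2, Dl k (((SC × CS) × BS) × BS) fun r => Gd D r.1.1.1.2 L m1 m2 :=
    fun L m1 m2 => (dl_Gd hD L m1 m2).comp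
      (f := fun r : ((SC × CS) × BS) × BS => r.1.1.1.2) (by fun_prop)
  have hlt : ∀ m' m, Dl k (((SC × CS) × BS) × BS) fun r =>
      ltc r.1.1.1.1 r.1.1.1.2 (r.1.1.1.2 m') (r.1.1.1.2 m) :=
    fun m' m => (dl_ltc m' m).comp
      (f := fun r : ((SC × CS) × BS) × BS => r.1.1.1) (by fun_prop)
  have hGd2 : ∀ i, Dl k (((SC × CS) × BS) × BS) fun r =>
      Gd D r.1.1.1.2 (Lh l r.2 i) (Jp i2 r.1.2 i) (r.1.2 i) := by
    intro i
    refine Dl.sub (f := fun r : ((SC × CS) × BS) × BS => Lh l r.2 i) (fun n => dl_cont (hLh i) n)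
      (P := fun L r => Gd D r.1.1.1.2 L (Jp i2 r.1.2 i) (r.1.2 i)) fun L => ?_
    refine Dl.sub (f := fun r : ((SC × CS) × BS) × BS => Jp i2 r.1.2 i)
      (fun n => dl_cont (hJp i) n)
      (P := fun m1 r => Gd D r.1.1.1.2 L m1 (r.1.2 i)) fun m1 => ?_
    exact Dl.sub (f := fun r : ((SC × CS) × BS) × BS => r.1.2 i) (fun n => dl_cont (hJ i) n)
      (P := fun m2 r => Gd D r.1.1.1.2 L m1 m2) fun m2 => hGd L m1 m2
  have hGd3 : ∀ i m', Dl k (((SC × CS) × BS) × BS) fun r =>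
      Gd D r.1.1.1.2 (Lh l r.2 i) (Jp i2 r.1.2 i) m' := by
    intro i m'
    refine Dl.sub (f := fun r : ((SC × CS) × BS) × BS => Lh l r.2 i) (fun n => dl_cont (hLh i) n)
      (P := fun L r => Gd D r.1.1.1.2 L (Jp i2 r.1.2 i) m') fun L => ?_
    exact Dl.sub (f := fun r : ((SC × CS) × BS) × BS => Jp i2 r.1.2 i)
      (fun n => dl_cont (hJp i) n)
      (P := fun m1 r => Gd D r.1.1.1.2 L m1 m') fun m1 => hGd L m1 m'
  have hlt2 : ∀ i m', Dl k (((SC × CS) × BS) × BS) fun r =>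
      ltc r.1.1.1.1 r.1.1.1.2 (r.1.1.1.2 m') (r.1.1.1.2 (r.1.2 i)) := fun i m' =>
    Dl.sub (f := fun r : ((SC × CS) × BS) × BS => r.1.2 i) (fun n => dl_cont (hJ i) n)
      (P := fun m r => ltc r.1.1.1.1 r.1.1.1.2 (r.1.1.1.2 m') (r.1.1.1.2 m)) fun m => hlt m' m
  have hbit : ∀ m n (b : Bool), Dl k (((SC × CS) × BS) × BS) fun r => r.1.1.1.2 m n = b := by
    intro m n b
    refine Dl.of_meas ?_
    have hf : Measurable (fun r : ((SC × CS) × BS) × BS => r.1.1.1.2) := by fun_prop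
    exact hf (meas_bitE m n b)
  have hNext : ∀ i, Dl k (((SC × CS) × BS) × BS) fun r =>
      NextN (Lh l r.2 i) (r.1.1.1.2 (r.1.2 i)) (r.2 i) := by
    intro i
    refine Dl.sub (f := fun r : ((SC × CS) × BS) × BS => Lh l r.2 i) (fun n => dl_cont (hLh i) n)
      (P := fun L r => NextN L (r.1.1.1.2 (r.1.2 i)) (r.2 i)) fun L => ?_
    refine Dl.sub (f := fun r : ((SC × CS) × BS) × BS => r.1.2 i) (fun n => dl_cont (hJ i) n)
      (P := fun m r => NextN L (r.1.1.1.2 m) (r.2 i)) fun m => ?_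
    refine Dl.sub (f := fun r : ((SC × CS) × BS) × BS => r.2 i) (fun n => dl_cont (hN i) n)
      (P := fun n r => NextN L (r.1.1.1.2 m) n) fun n => ?_
    refine Dl.of_and fun _ => Dl.and (hbit _ _ _) ?_
    exact Dl.all fun j => Dl.of_imp fun _ => Dl.of_imp fun _ => hbit _ _ _
  refine Dl.and (Dl.all fun i => Dl.and (Dl.and (hGd2 i) (Dl.all fun m' =>
    (hlt2 i m').imp (hGd3 i m').not)) (hNext i)) (Dl.all fun n => Dl.iff ?_ (Dl.ex fun i =>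
    dl_cont (hN i) n))
  refine Dl.of_meas ?_
  have hf : Measurable (fun r : ((SC × CS) × BS) × BS => r.1.1.2) := by fun_prop
  exact hf (meas_bitC n true)

end Pool.Agent.Helper679_PU
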