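import Mathlib
import Pool.Agent.Helper679_PU.Ram6
import Pool.Agent.Helper679_PU.OmegaW

/-!
Existence of countable closed families.
-/

namespace Pool.Agent.Helper679_PU

open Set MeasureTheory Filter Topology
open scoped Ordinal Cardinal

set_option synthInstance.maxSize 100000

variable {k : ℕ}

theorem sg_Req (hk : 1 ≤ k) (S : CSetup k) {F : ℕ → CS → CS} (hF : SelSeq k F) (a i1 i2 : ℕ) :
    Sg k (SC × CS) fun q =>
      Req (range q.1.2) (ltc q.1.1 q.1.2) F a (q.1.2 i1) (q.1.2 i2) q.2 := by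
  have hCmb : Dl k ((SC × CS) × CS) fun r => Cmb (r.1.1.2 i1) r.2 r.1.2 := by
    have h1 : Dl k ((SC × CS) × CS) fun r => Infi r.2 := by
      refine Dl.of_meas ?_
      have hf : Measurable (fun r : (SC × CS) × CS => r.2) := by fun_prop
      exact hf meas_infi
    refine (h1.and ?_).or (h1.not.and ?_)
    · exact Dl.of_meas (IsClosed.measurableSet (isClosed_eq (by fun_prop) (by fun_prop)))
    · exact Dl.of_meas (IsClosed.measurableSet (isClosed_eq (by fun_prop) (by fun_prop)))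
  have hb2 : ∀ n, Dl k ((SC × CS) × CS) fun r => r.2 n = true := by
    intro n
    refine Dl.of_meas ?_
    have hf : Measurable (fun r : (SC × CS) × CS => r.2) := by fun_prop
    exact hf (meas_bitC n true)
  have hbe : ∀ m n, Dl k ((SC × CS) × CS) fun r => r.1.1.2 m n = true := by
    intro m n
    refine Dl.of_meas ?_
    have hf : Measurable (fun r : (SC × CS) × CS => r.1.1.2) := by fun_prop
    exact hf (meas_bitE m n true)
  have hCC : ∀ n, Dl k ((SC × CS) × CS) fun r => CC (range r.1.1.2) (F (pF a))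
      (stm (pS a), r.1.1.2 i1) (snoc (stm (pT a)) n) (r.1.1.2 i2) := by
    intro n
    have h1 := (dl_CC hk S hF (pF a) (ci (pS a) i1) (snoc (stm (pT a)) n) i2).comp
      (f := fun r : (SC × CS) × CS => r.1.1.2) (by fun_prop)
    refine h1.congr fun r => ?_
    rw [cnd_ci]
  refine Sg.or ?_ (Sg.or ?_ ?_)
  · refine Sg.of_and fun _ => ?_
    refine Sg.exP (P := fun (q : SC × CS) (Z : CS) => (∀ n, Z n = true ↔
      (q.1.2 i1 n = true ∧ q.1.2 i2 n = true)) ∧ Cmb (q.1.2 i1) Z q.2) (Dl.sg ?_)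
    exact (Dl.all fun n => (hb2 n).iff ((hbe _ _).and (hbe _ _))).and hCmb
  · refine Sg.of_and fun _ => ?_
    refine Sg.exP (P := fun (q : SC × CS) (Z : CS) => (∀ n, Z n = true ↔
      ((stm (pT a)).length ≤ n ∧ q.1.2 i2 n = true ∧ CC (range q.1.2) (F (pF a))
        (stm (pS a), q.1.2 i1) (snoc (stm (pT a)) n) (q.1.2 i2))) ∧ Cmb (q.1.2 i1) Z q.2)
      (Dl.sg ?_)
    exact (Dl.all fun n => (hb2 n).iff (Dl.of_and fun _ => (hbe _ _).and (hCC n))).and hCmb
  · refine Sg.of_and fun _ => ?_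
    have hD : DlC k fun e σ Y => DD (range e) (CC (range e) (F (pF a)) (cnd e (ci (pS a) i1))) σ Y :=
      DlC.dd (C := fun e σ Y => CC (range e) (F (pF a)) (cnd e (ci (pS a) i1)) σ Y)
        fun σ m => dl_CC hk S hF (pF a) (ci (pS a) i1) σ m
    refine (sg_diag hD i2 (pL a)).congr fun q => ?_
    simp only [cnd_ci]

theorem dl_tlt (a' a i1' i2' i1 i2 : ℕ) : Dl k SC fun c =>
    tlt (ltc c.1 c.2) (a', c.2 i1', c.2 i2') (a, c.2 i1, c.2 i2) := by
  have h1 : Dl k SC fun c => a' < a ∨ (a' = a ∧ (ltc c.1 c.2 (c.2 i1') (c.2 i1) ∨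
      (c.2 i1' = c.2 i1 ∧ ltc c.1 c.2 (c.2 i2') (c.2 i2)))) := by
    refine (Dl.const _).or (Dl.of_and fun _ => (dl_ltc _ _).or (Dl.and ?_ (dl_ltc _ _)))
    exact Dl.of_meas (IsClosed.measurableSet (isClosed_eq (by fun_prop) (by fun_prop)))
  refine h1.congr fun c => ?_
  unfold tlt
  simp only [Prod.lex_def]

theorem sg_Psi (hk : 1 ≤ k) (S : CSetup k) {F : ℕ → CS → CS} (hF : SelSeq k F) :
    Sg k (SC × CS) fun q => Psi (range q.1.2) (ltc q.1.1 q.1.2) F q.2 := by
  have h1 : Sg k (SC × CS) fun q => ∃ a i1 i2,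
      Req (range q.1.2) (ltc q.1.1 q.1.2) F a (q.1.2 i1) (q.1.2 i2) q.2 ∧
      (∀ m, ¬ q.1.2 m = q.2) ∧ ∀ a' i1' i2', tlt (ltc q.1.1 q.1.2) (a', q.1.2 i1', q.1.2 i2')
        (a, q.1.2 i1, q.1.2 i2) → ∃ m,
          Req (range q.1.2) (ltc q.1.1 q.1.2) F a' (q.1.2 i1') (q.1.2 i2') (q.1.2 m) := by
    refine Sg.ex fun a => Sg.ex fun i1 => Sg.ex fun i2 => (sg_Req hk S hF a i1 i2).and
      (Sg.and (Sg.all fun m => (Dl.not ?_).sg) (Sg.all fun a' => Sg.all fun i1' => Sg.all fun i2' => ?_))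
    · exact Dl.of_meas (IsClosed.measurableSet (isClosed_eq (by fun_prop) (by fun_prop)))
    · have h2 : Sg k (SC × CS) fun q => ¬ tlt (ltc q.1.1 q.1.2) (a', q.1.2 i1', q.1.2 i2')
          (a, q.1.2 i1, q.1.2 i2) := ((dl_tlt a' a i1' i2' i1 i2).not.comp
            (f := fun q : SC × CS => q.1) continuous_fst).sg
      have h3 : Sg k (SC × CS) fun q => ∃ m,
          Req (range q.1.2) (ltc q.1.1 q.1.2) F a' (q.1.2 i1') (q.1.2 i2') (q.1.2 m) := by
        refine Sg.ex fun m => ?_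
        exact (sg_Req hk S hF a' i1' i2').comp (f := fun q : SC × CS => (q.1, q.1.2 m))
          (by fun_prop)
      exact (h2.or h3).congr fun q => by tauto
  refine h1.congr fun q => ?_
  unfold Psi
  constructor
  · rintro ⟨a, i1, i2, h1, h2, h3⟩
    refine ⟨a, q.1.2 i1, mem_range_self _, q.1.2 i2, mem_range_self _, h1, ?_, ?_⟩
    · rintro ⟨m, hm⟩; exact h2 m hm
    · rintro a' _ ⟨i1', rfl⟩ _ ⟨i2', rfl⟩ h4
      obtain ⟨m, hm⟩ := h3 a' i1' i2' h4
      exact ⟨q.1.2 m, mem_range_self _, hm⟩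
  · rintro ⟨a, _, ⟨i1, rfl⟩, _, ⟨i2, rfl⟩, h1, h2, h3⟩
    refine ⟨a, i1, i2, h1, fun m hm => h2 ⟨m, hm⟩, ?_⟩
    intro a' i1' i2' h4
    obtain ⟨_, ⟨m, rfl⟩, hm⟩ := h3 a' _ (mem_range_self i1') _ (mem_range_self i2') h4
    exact ⟨m, hm⟩

/-- the set of all natural numbers -/
def full : CS := fun _ => true

theorem infi_full : Infi full := fun n => ⟨n, le_rfl, rfl⟩

/-- the elements before `α` -/
def MS (f : Ordinal.{0} → CS) (α : Ordinal.{0}) : Set CS := {full} ∪ f '' Set.Iio α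

/-- the order of the elements before `α` -/
def LS (f : Ordinal.{0} → CS) (α : Ordinal.{0}) (Y Y' : CS) : Prop :=
  (Y = full ∧ ∃ β < α, Y' = f β) ∨ ∃ β γ, β < γ ∧ γ < α ∧ Y = f β ∧ Y' = f γ

open Classical in
/-- the next element -/
noncomputable def nextY (F : ℕ → CS → CS) (f : Ordinal.{0} → CS) (α : Ordinal.{0}) : CS :=
  if h : ∃ z, Psi (MS f α) (LS f α) F z then h.choose else full

theorem nextY_congr {F : ℕ → CS → CS} {f g : Ordinal.{0} → CS} {α : Ordinal.{0}}
    (h : ∀ β < α, f β = g β) : nextY F f α = nextY F g α := by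
  have h1 : MS f α = MS g α := by
    unfold MS
    congr 1
    exact image_congr fun β hβ => h β hβ
  have h2 : LS f α = LS g α := by
    funext Y Y'
    unfold LS
    refine propext (or_congr (and_congr_right fun _ => exists_congr fun β =>
      and_congr_right fun hβ => by rw [h β hβ]) ?_)
    refine exists_congr fun β => exists_congr fun γ => and_congr_right fun h3 =>
      and_congr_right fun h4 => by rw [h β (h3.trans h4), h γ h4]
  unfold nextY
  rw [h1, h2]

open Classical in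
/-- the sequence of missing reals -/
noncomputable def yy (F : ℕ → CS → CS) : Ordinal.{0} → CS :=
  Ordinal.lt_wf.fix fun α f => nextY F (fun β => if h : β < α then f β h else full) α

theorem yy_eq (F : ℕ → CS → CS) (α : Ordinal.{0}) : yy F α = nextY F (yy F) α := by
  classical
  unfold yy
  rw [WellFounded.fix_eq]
  refine nextY_congr fun β hβ => ?_
  rw [dif_pos hβ]

theorem wOn_MS {f : Ordinal.{0} → CS} {α : Ordinal.{0}} (h : ∀ β < α, f β ∉ MS f β) :
    WOn (MS f α) (LS f α) := by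
  have hinj : ∀ β γ, β < α → γ < α → f β = f γ → β = γ := by
    have key : ∀ β γ, β < γ → γ < α → f β ≠ f γ := by
      intro β γ h1 h2 h3
      refine h γ h2 (Or.inr ⟨β, h1, h3⟩)
    intro β γ hβ hγ h3
    rcases lt_trichotomy β γ with h4 | h4 | h4
    · exact absurd h3 (key β γ h4 hγ)
    · exact h4
    · exact absurd h3.symm (key γ β h4 hβ)
  have hfull : ∀ β < α, f β ≠ full := fun β hβ h1 => h β hβ (Or.inl h1)
  set r : CS → Ordinal.{0} := fun Y => sInf {γ | ∃ β < α, Y = f β ∧ γ = Order.succ β} with hr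
  have hr1 : r full = 0 := by
    have : {γ | ∃ β < α, full = f β ∧ γ = Order.succ β} = ∅ := by
      ext γ
      simp only [mem_ofPred_eq, mem_empty_iff_false, iff_false]
      rintro ⟨β, hβ, h1, -⟩
      exact hfull β hβ h1.symm
    simp only [hr]
    rw [this, Ordinal.sInf_empty]
  have hr2 : ∀ β < α, r (f β) = Order.succ β := by
    intro β hβ
    have : {γ | ∃ δ < α, f β = f δ ∧ γ = Order.succ δ} = {Order.succ β} := by
      ext γ
      simp only [mem_ofPred_eq, mem_singleton_iff]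
      constructor
      · rintro ⟨δ, hδ, h1, h2⟩
        rw [hinj β δ hβ hδ h1, h2]
      · intro h1
        exact ⟨β, hβ, rfl, h1⟩
    simp only [hr]
    rw [this]
    exact csInf_singleton _
  have hlt : ∀ Y Y', LS f α Y Y' → r Y < r Y' := by
    rintro Y Y' (⟨rfl, β, hβ, rfl⟩ | ⟨β, γ, h1, h2, rfl, rfl⟩)
    · rw [hr1, hr2 β hβ]
      exact Order.bot_lt_succ β
    · rw [hr2 β (h1.trans h2), hr2 γ h2]
      exact Order.succ_lt_succ h1
  refine ⟨Subrelation.wf (fun {Y Y'} h1 => hlt Y Y' h1) (InvImage.wf r Ordinal.lt_wf), ?_⟩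
  rintro x (rfl | ⟨β, hβ, rfl⟩) y (rfl | ⟨γ, hγ, rfl⟩)
  · exact Or.inr (Or.inl rfl)
  · exact Or.inl (Or.inl ⟨rfl, γ, hγ, rfl⟩)
  · exact Or.inr (Or.inr (Or.inl ⟨rfl, β, hβ, rfl⟩))
  · rcases lt_trichotomy β γ with h4 | h4 | h4
    · exact Or.inl (Or.inr ⟨β, γ, h4, hγ, rfl, rfl⟩)
    · exact Or.inr (Or.inl (by rw [h4]))
    · exact Or.inr (Or.inr (Or.inr ⟨γ, β, h4, hβ, rfl, rfl⟩))

theorem yy_spec {F : ℕ → CS → CS}
    (hno : ∀ M : Set CS, M.Countable → full ∈ M → (∀ Y ∈ M, Infi Y) → ¬ ∀ aF, Clsd M (F aF))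
    {α : Ordinal.{0}} (hα : α < ω_ 1) : WOn (MS (yy F) α) (LS (yy F) α) ∧
      Psi (MS (yy F) α) (LS (yy F) α) F (yy F α) ∧ Infi (yy F α) := by
  induction α using WellFoundedLT.induction with
  | _ α ih =>
    have h1 : ∀ β < α, Psi (MS (yy F) β) (LS (yy F) β) F (yy F β) ∧ Infi (yy F β) :=
      fun β hβ => (ih β hβ (hβ.trans hα)).2
    have hW : WOn (MS (yy F) α) (LS (yy F) α) := wOn_MS fun β hβ => (h1 β hβ).1.notMem
    have hinf : ∀ Y ∈ MS (yy F) α, Infi Y := by
      rintro Y (rfl | ⟨β, hβ, rfl⟩)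
      · exact infi_full
      · exact (h1 β hβ).2
    have hc : (MS (yy F) α).Countable :=
      (countable_singleton _).union ((countable_Iio_ord hα).image _)
    obtain ⟨z, hz⟩ := Psi.exists (F := F) hW hinf (hno _ hc (Or.inl rfl) hinf)
    have h2 : Psi (MS (yy F) α) (LS (yy F) α) F (yy F α) := by
      have hex : ∃ z, Psi (MS (yy F) α) (LS (yy F) α) F z := ⟨z, hz⟩
      rw [yy_eq]
      unfold nextY
      rw [dif_pos hex]
      exact hex.choose_spec
    exact ⟨hW, h2, h2.infi hinf⟩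

/-- `j` is the index of an element before `n` -/
def Ac (w : CS) (n j : ℕ) : Prop := 1 ≤ j ∧ RW w (j - 1) n

open Classical in
/-- the enumeration of the elements before `n` -/
noncomputable def stE (w : CS) (E : EN) (n : ℕ) : EN :=
  fun j => if Ac w n j then E (j - 1) else full

open Classical in
/-- the order of the elements before `n` -/
noncomputable def stO (w : CS) (n : ℕ) : CS := fun m => decide (Ac w n m.unpair.2 ∧
  (¬ Ac w n m.unpair.1 ∨ RW w (m.unpair.1 - 1) (m.unpair.2 - 1)))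

theorem stE_pos {w : CS} {E : EN} {n j : ℕ} (h : Ac w n j) : stE w E n j = E (j - 1) := by
  unfold stE; rw [if_pos h]

theorem stE_neg {w : CS} {E : EN} {n j : ℕ} (h : ¬ Ac w n j) : stE w E n j = full := by
  unfold stE; rw [if_neg h]

theorem stO_iff {w : CS} {n i j : ℕ} : stO w n (Nat.pair i j) = true ↔
    (Ac w n j ∧ (¬ Ac w n i ∨ RW w (i - 1) (j - 1))) := by
  classical
  unfold stO
  simp only [Nat.unpair_pair]
  exact decide_eq_true_iff

theorem meas_RW (m n : ℕ) : MeasurableSet {w : CS | RW w m n} := meas_bitC _ true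

theorem meas_Ac (n j : ℕ) : MeasurableSet {w : CS | Ac w n j} := by
  by_cases h : 1 ≤ j
  · have : {w : CS | Ac w n j} = {w | RW w (j - 1) n} := by ext w; simp [Ac, h]
    rw [this]; exact meas_RW _ _
  · have : {w : CS | Ac w n j} = ∅ := by ext w; simp [Ac, h]
    rw [this]; exact MeasurableSet.empty

theorem measurable_st (n : ℕ) :
    Measurable (fun c : CS × EN => ((stO c.1 n, stE c.1 c.2 n) : SC)) := by
  refine Measurable.prodMk ?_ ?_
  · refine measurable_pi_iff.2 fun m => measurable_to_bool ?_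
    have : (fun c : CS × EN => stO c.1 n m) ⁻¹' {true} = ({c | Ac c.1 n m.unpair.2} ∩
        ({c | Ac c.1 n m.unpair.1}ᶜ ∪ {c | RW c.1 (m.unpair.1 - 1) (m.unpair.2 - 1)})) := by
      ext c
      simp only [mem_preimage, mem_singleton_iff, mem_inter_iff, mem_union, mem_compl_iff,
        mem_ofPred_eq]
      rw [← Nat.pair_unpair m, stO_iff, Nat.pair_unpair m]
    rw [this]
    exact (measurable_fst (meas_Ac _ _)).inter ((measurable_fst (meas_Ac _ _)).compl.union
      (measurable_fst (meas_RW _ _)))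
  · refine measurable_pi_iff.2 fun j => measurable_pi_iff.2 fun i => measurable_to_bool ?_
    have : (fun c : CS × EN => stE c.1 c.2 n j i) ⁻¹' {true} =
        {c | Ac c.1 n j}ᶜ ∪ {c | c.2 (j - 1) i = true} := by
      ext c
      simp only [mem_preimage, mem_singleton_iff, mem_union, mem_compl_iff, mem_ofPred_eq]
      by_cases h : Ac c.1 n j
      · rw [stE_pos h]; simp [h]
      · rw [stE_neg h]; simp [h, full]
    rw [this]
    exact (measurable_fst (meas_Ac _ _)).compl.union (measurable_snd (meas_bitE _ _ _))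

/-- codes of the sequence of missing reals -/
def CdY (F : ℕ → CS → CS) (c : CS × EN) : Prop :=
  SWO c.1 ∧ ∀ n, Psi (range (stE c.1 c.2 n)) (ltc (stO c.1 n) (stE c.1 c.2 n)) F (c.2 n)

theorem exists_rk_of_lt {w : CS} (h : SWO w) {n : ℕ} {β : Ordinal.{0}} (hb : β < rk w n) :
    ∃ m, RW w m n ∧ rk w m = β := exists_rk_eq h.1 h.2.1 hb

/-- the structure coded below `n` -/
theorem st_eq {w : CS} {E : EN} (h : SWO w) {f : Ordinal.{0} → CS} {n : ℕ}
    (hE : ∀ m, RW w m n → E m = f (rk w m)) :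
    range (stE w E n) = MS f (rk w n) ∧ ltc (stO w n) (stE w E n) = LS f (rk w n) := by
  constructor
  · ext Y
    constructor
    · rintro ⟨j, rfl⟩
      by_cases hj : Ac w n j
      · rw [stE_pos hj, hE _ hj.2]
        exact Or.inr ⟨_, rk_lt h.1 hj.2, rfl⟩
      · rw [stE_neg hj]; exact Or.inl rfl
    · rintro (rfl | ⟨β, hβ, rfl⟩)
      · refine ⟨0, ?_⟩
        rw [stE_neg]
        rintro ⟨h1, -⟩
        omega
      · obtain ⟨m, hm, rfl⟩ := exists_rk_of_lt h hβ
        have hA : Ac w n (m + 1) := ⟨by omega, hm⟩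
        refine ⟨m + 1, ?_⟩
        rw [stE_pos hA]
        exact hE m hm
  · funext Y Y'
    refine propext ⟨?_, ?_⟩
    · rintro ⟨i, j, rfl, rfl, h1⟩
      rw [stO_iff] at h1
      obtain ⟨hj, h2⟩ := h1
      rw [stE_pos hj, hE _ hj.2]
      by_cases hi : Ac w n i
      · rw [stE_pos hi, hE _ hi.2]
        rcases h2 with h2 | h2
        · exact absurd hi h2
        · exact Or.inr ⟨_, _, rk_lt h.1 h2, rk_lt h.1 hj.2, rfl, rfl⟩
      · rw [stE_neg hi]
        exact Or.inl ⟨rfl, _, rk_lt h.1 hj.2, rfl⟩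
    · rintro (⟨rfl, β, hβ, rfl⟩ | ⟨β, γ, h1, h2, rfl, rfl⟩)
      · obtain ⟨m, hm, rfl⟩ := exists_rk_of_lt h hβ
        have hA : Ac w n (m + 1) := ⟨by omega, hm⟩
        have h0 : ¬ Ac w n 0 := fun h1 => by have := h1.1; omega
        refine ⟨0, m + 1, stE_neg h0, ?_, stO_iff.2 ⟨hA, Or.inl h0⟩⟩
        rw [stE_pos hA]; exact hE m hm
      · obtain ⟨m', hm', rfl⟩ := exists_rk_of_lt h h2
        obtain ⟨m, hm, rfl⟩ := exists_rk_of_lt h h1
        have hmn : RW w m n := h.2.1 _ _ _ hm hm'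
        have hA : Ac w n (m + 1) := ⟨by omega, hmn⟩
        have hA' : Ac w n (m' + 1) := ⟨by omega, hm'⟩
        refine ⟨m + 1, m' + 1, ?_, ?_, stO_iff.2 ⟨hA', Or.inr ?_⟩⟩
        · rw [stE_pos hA]; exact hE m hmn
        · rw [stE_pos hA']; exact hE m' hm'
        · exact hm

theorem CdY.eq {F : ℕ → CS → CS}
    (hno : ∀ M : Set CS, M.Countable → full ∈ M → (∀ Y ∈ M, Infi Y) → ¬ ∀ aF, Clsd M (F aF))
    {c : CS × EN} (hc : CdY F c) (n : ℕ) : c.2 n = yy F (rk c.1 n) := by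
  induction n using hc.1.1.induction with
  | _ n ih =>
    have h1 := hc.2 n
    obtain ⟨e1, e2⟩ := st_eq hc.1 (E := c.2) (f := yy F) (n := n) ih
    rw [e1, e2] at h1
    obtain ⟨h2, h3, -⟩ := yy_spec hno (rk_lt_omega (w := c.1) n)
    exact h1.unique h2 h3

theorem CdY.of_eq {F : ℕ → CS → CS}
    (hno : ∀ M : Set CS, M.Countable → full ∈ M → (∀ Y ∈ M, Infi Y) → ¬ ∀ aF, Clsd M (F aF))
    {w : CS} (hw : SWO w) : CdY F (w, fun n => yy F (rk w n)) := by
  refine ⟨hw, fun n => ?_⟩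
  obtain ⟨e1, e2⟩ := st_eq hw (E := fun n => yy F (rk w n)) (f := yy F) (n := n) fun m _ => rfl
  simp only
  rw [e1, e2]
  exact (yy_spec hno (rk_lt_omega n)).2.1

theorem sg_SWO (hk : 1 ≤ k) : Sg k (CS × EN) fun c => SWO c.1 := by
  have hR : ∀ m n, Dl k (CS × EN) fun c => RW c.1 m n := fun m n =>
    Dl.of_meas (measurable_fst (meas_RW m n))
  refine Sg.and (sig_wf hk) (Dl.sg (Dl.and ?_ ?_))
  · exact Dl.all fun a => Dl.all fun b => Dl.all fun d => (hR a b).imp ((hR b d).imp (hR a d))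
  · exact Dl.all fun a => Dl.all fun b => Dl.all fun d => (hR a b).imp ((hR a d).or (hR d b))

theorem sg_CdY (hk : 1 ≤ k) (S : CSetup k) {F : ℕ → CS → CS} (hF : SelSeq k F) :
    Sg k (CS × EN) fun c => CdY F c := by
  refine (sg_SWO hk).and (Sg.all fun n => ?_)
  refine (sg_Psi hk S hF).compM (f := fun c : CS × EN => (((stO c.1 n, stE c.1 c.2 n) : SC), c.2 n))
    ?_
  exact (measurable_st n).prodMk (by fun_prop)

/-- **Existence of a countable closed family.** -/
theorem exists_clsd (hk : 1 ≤ k) (S : Setup k) (C : CSetup k) {F : ℕ → CS → CS}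
    (hF : SelSeq k F) : ∃ M : Set CS, M.Countable ∧ full ∈ M ∧ (∀ Y ∈ M, Infi Y) ∧
      ∀ aF, Clsd M (F aF) := by
  by_contra hcon
  push Not at hcon
  have hno : ∀ M : Set CS, M.Countable → full ∈ M → (∀ Y ∈ M, Infi Y) → ¬ ∀ aF, Clsd M (F aF) := by
    intro M h1 h2 h3 h4
    obtain ⟨aF, h5⟩ := hcon M h1 h2 h3
    exact h5 (h4 aF)
  have hsig : Sig (k + 1) (CS × (ℕ → CS)) {q | SWO q.1 ∧ range q.2 = {yy F (rk q.1 0)}} := by
    have h1 : Sg k (CS × EN) fun q => ∃ E : EN, CdY F (q.1, E) ∧ ∀ i, q.2 i = E 0 := by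
      refine Sg.exP (P := fun (q : CS × EN) (E : EN) => CdY F (q.1, E) ∧ ∀ i, q.2 i = E 0) ?_
      refine Sg.and ?_ (Dl.sg (Dl.all fun i => ?_))
      · exact (sg_CdY hk C hF).comp (f := fun r : (CS × EN) × EN => (r.1.1, r.2)) (by fun_prop)
      · exact Dl.of_meas (IsClosed.measurableSet (isClosed_eq (by fun_prop) (by fun_prop)))
    refine Sg.congr (P := fun q : CS × EN => ∃ E : EN, CdY F (q.1, E) ∧ ∀ i, q.2 i = E 0) h1 ?_
    rintro ⟨w, e⟩
    constructor
    · rintro ⟨E, hE, he⟩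
      refine ⟨hE.1, ?_⟩
      have h2 := CdY.eq hno hE 0
      simp only at h2 he ⊢
      rw [← h2]
      ext y
      simp only [mem_range, mem_singleton_iff]
      constructor
      · rintro ⟨i, rfl⟩; exact he i
      · rintro rfl; exact ⟨0, he 0⟩
    · rintro ⟨h2, h3⟩
      refine ⟨fun n => yy F (rk w n), CdY.of_eq hno h2, fun i => ?_⟩
      have : e i ∈ range e := mem_range_self i
      simp only at h3
      rw [h3] at this
      exact this
  let Q : Seq2 k := ⟨fun α => {yy F α}, fun α _ => countable_singleton _,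
    fun α _ => singleton_nonempty _, hsig⟩
  have hU := Q.countable hk S
  -- the sequence is injective
  have hinj : Set.InjOn (yy F) (Set.Iio (ω_ 1)) := by
    have key : ∀ β γ : Ordinal.{0}, β < γ → γ < ω_ 1 → yy F β ≠ yy F γ := by
      intro β γ h1 h2 h3
      exact (yy_spec hno h2).2.1.notMem (Or.inr ⟨β, h1, h3⟩)
    intro β hβ γ hγ h
    rcases lt_trichotomy β γ with h4 | h4 | h4
    · exact absurd h (key β γ h4 hγ)
    · exact h4
    · exact absurd h.symm (key γ β h4 hβ)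
  have h1 : (yy F '' Set.Iio (ω_ 1)).Countable := by
    refine hU.mono ?_
    rintro _ ⟨α, hα, rfl⟩
    exact mem_iUnion₂.2 ⟨α, hα, rfl⟩
  exact not_countable_Iio_ord ((Set.countable_of_injective_of_countable_image hinj) h1)

end Pool.Agent.Helper679_PU
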