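import Mathlib
import Pool.Agent.Helper679_PU.Ram7

/-!
There is no `Δ` set which is nowhere decided.
-/

namespace Pool.Agent.Helper679_PU

open Set MeasureTheory Filter Topology

variable {k : ℕ}

theorem bool_true_iff {x y : CS} (h : ∀ n, x n = true → y n = true) (l : ℕ) : TL l x y :=
  fun n _ hn => h n hn

/-- total `Σ` relations have selectors -/
theorem CSetup.select (C : CSetup k) {P : CS → CS → Prop} (hP : Sg k (CS × CS) fun q => P q.1 q.2)
    (htot : ∀ x, ∃ y, P x y) : ∃ f : CS → CS, (∀ x, P x (f x)) ∧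
      Sg k (CS × CS) fun q => f q.1 = q.2 := by
  obtain ⟨F, hF, hsub, hfun, hdom⟩ := C.unif.sig (Y := CS) (Z := CS) (P := {q | P q.1 q.2}) hP
  have h1 : ∀ x, ∃ y, (x, y) ∈ F := by
    intro x
    obtain ⟨y, hy⟩ := htot x
    exact hdom x y hy
  choose f hf using h1
  refine ⟨f, fun x => hsub (hf x), ?_⟩
  refine Sg.congr (P := fun q => q ∈ F) hF ?_
  rintro ⟨x, y⟩
  constructor
  · intro h; exact hfun _ _ _ (hf x) h
  · intro h; simp only at h; rw [← h]; exact hf x

open Classical in
/-- **There is no `Δ` set which is nowhere decided.** -/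
theorem no_undecided (hk : 1 ≤ k) (S : Setup k) (C : CSetup k) {A : CS → Prop} (hA : Dl k CS A)
    (h1 : ∀ s : List Bool, ∀ x ∈ Bx (s, full), ∃ y ∈ Bx (s, full), (∀ j, y j = true → x j = true) ∧
      A y)
    (h2 : ∀ s : List Bool, ∀ x ∈ Bx (s, full), ∃ y ∈ Bx (s, full), (∀ j, y j = true → x j = true) ∧
      ¬ A y) : False := by
  -- the relation to be uniformized
  set AA : ℕ → CS → Prop := fun a y => if a.unpair.1 = 0 then A y else ¬ A y with hAA
  have hAAd : ∀ a, Dl k CS (AA a) := by
    intro a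
    by_cases h : a.unpair.1 = 0
    · refine hA.congr fun y => ?_
      simp [hAA, h]
    · refine hA.not.congr fun y => ?_
      simp [hAA, h]
  set P : ℕ → CS → CS → Prop := fun a x y => ¬ x ∈ Bx (stm a.unpair.2, full) ∨
    (y ∈ Bx (stm a.unpair.2, full) ∧ (∀ j, y j = true → x j = true) ∧ AA a y) with hP
  have hBs : ∀ s, MeasurableSet {x : CS | x ∈ Bx (s, full)} := by
    intro s
    have hf : Measurable (fun x : CS => (x, full)) := by fun_prop
    exact hf (meas_Bx s)
  have hPsg : ∀ a, Sg k (CS × CS) fun q => P a q.1 q.2 := by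
    intro a
    refine (Dl.or (Dl.of_meas (measurable_fst (hBs _).compl)) (Dl.and
      (Dl.of_meas (measurable_snd (hBs _))) (Dl.and ?_
      ((hAAd a).comp (f := fun q : CS × CS => q.2) continuous_snd)))).1
    exact Dl.all fun j => (Dl.of_meas (measurable_snd (meas_bitC j true))).imp
      (Dl.of_meas (measurable_fst (meas_bitC j true)))
  have htot : ∀ a x, ∃ y, P a x y := by
    intro a x
    by_cases hx : x ∈ Bx (stm a.unpair.2, full)
    · by_cases h : a.unpair.1 = 0
      · obtain ⟨y, hy1, hy2, hy3⟩ := h1 _ x hx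
        refine ⟨y, Or.inr ⟨hy1, hy2, ?_⟩⟩
        simp only [hAA, h, if_true]
        exact hy3
      · obtain ⟨y, hy1, hy2, hy3⟩ := h2 _ x hx
        refine ⟨y, Or.inr ⟨hy1, hy2, ?_⟩⟩
        simp only [hAA, h, if_false]
        exact hy3
    · exact ⟨x, Or.inl hx⟩
  choose F hF1 hF2 using fun a => C.select (hPsg a) (htot a)
  have hSel : SelSeq k F := hF2
  obtain ⟨M, hMc, hfull, hinf, hcl⟩ := exists_clsd hk S C hSel
  obtain ⟨e, he⟩ := hMc.exists_eq_range ⟨_, hfull⟩
  have he' : range e = M := he.symm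
  -- Baire property
  have hbp : ∀ a, ∀ t q : Cond, t.2 ∈ M → BaireMeasurableSet {c | F a (gen e t c) ∈ Bx q} := by
    intro a t q ht
    obtain ⟨i, rfl⟩ := exists_cnd (e := e) (p := t) (he' ▸ ht)
    have hm : Measurable (fun c : BS => gen e (cnd e i) c) := by
      have h3 : Measurable (fun c : BS => ((e, c) : EN × BS)) := by fun_prop
      exact (measurable_gen i).comp h3
    have h4 : Sg k (BS × CS) fun r => F a (gen e (cnd e i) r.1) = r.2 := by
      refine Sg.compM (f := fun r : BS × CS => (gen e (cnd e i) r.1, r.2)) ?_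
        (P := fun q : CS × CS => F a q.1 = q.2) (hF2 a)
      exact (hm.comp measurable_fst).prodMk measurable_snd
    have h5 : Sg k (BS × CS) fun r => r.2 ∈ Bx q := by
      refine (Dl.of_meas ?_).1
      have hf : Measurable (fun r : BS × CS => (r.2, q.2)) := by fun_prop
      exact hf (meas_Bx q.1)
    have h6 : Sg k BS fun c => F a (gen e (cnd e i) c) ∈ Bx q := by
      refine (Sg.exP (P := fun (c : BS) (y : CS) => F a (gen e (cnd e i) c) = y ∧ y ∈ Bx q)
        (h4.and h5)).congr fun c => ?_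
      simp
    exact C.bp _ h6
  set p0 : Cond := ([], full) with hp0
  have hp0M : p0.2 ∈ M := hfull
  by_cases hdec : Fc e p0 A
  · refine (hcl (Nat.pair 1 (Encodable.encode ([] : List Bool)))).contra hinf he' hp0M hdec ?_
      (hbp _)
    intro x hx
    have h3 := hF1 (Nat.pair 1 (Encodable.encode ([] : List Bool))) x
    simp only [hP, hAA, Nat.unpair_pair, stm_encode] at h3
    rcases h3 with h3 | ⟨h3, h4, h5⟩
    · exact absurd hx h3
    · exact ⟨h3.1, h4, h3, by simpa using h5⟩
  · have hb : BaireMeasurableSet {c | A (gen e p0 c)} := by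
      obtain ⟨i, hi⟩ := exists_cnd (e := e) (p := p0) (he' ▸ hp0M)
      rw [← hi]
      have hm : Measurable (fun c : BS => gen e (cnd e i) c) := by
        have h3 : Measurable (fun c : BS => ((e, c) : EN × BS)) := by fun_prop
        exact (measurable_gen i).comp h3
      exact C.bp _ (hA.1.compM hm)
    obtain ⟨q, hq1, hq2, hq3⟩ := not_Fc (he' ▸ hp0M) hb hdec
    refine (hcl (Nat.pair 0 (Encodable.encode q.1))).contra hinf he' (he' ▸ hq2) hq3 ?_ (hbp _)
    intro x hx
    have h3 := hF1 (Nat.pair 0 (Encodable.encode q.1)) x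
    simp only [hP, hAA, Nat.unpair_pair, stm_encode] at h3
    have hxf : x ∈ Bx (q.1, full) := ⟨hx.1, hx.2.1, fun _ _ _ => rfl⟩
    rcases h3 with h3 | ⟨h3, h4, h5⟩
    · exact absurd hxf h3
    · refine ⟨h3.1, h4, ⟨h3.1, h3.2.1, fun n hn hy => hx.2.2 n hn (h4 n hy)⟩, ?_⟩
      simpa using h5

end Pool.Agent.Helper679_PU
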