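import Mathlib
import Pool.Agent.Helper679_PU.Ram8

/-!
`Δ` sets are completely Ramsey, and so are `Σ` sets.
-/

namespace Pool.Agent.Helper679_PU

open Set MeasureTheory Filter Topology

variable {k : ℕ}

/-- enumeration of an infinite set -/
theorem exists_enum {z : CS} (hz : Infi z) : ∃ g : ℕ → ℕ, StrictMono g ∧
    ∀ j, z j = true ↔ ∃ n, g n = j := by
  have hinf : (Set.ofPred fun n => z n = true).Infinite := by
    rw [Set.infinite_iff_exists_gt]
    intro a
    obtain ⟨m, h1, h2⟩ := hz (a + 1)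
    exact ⟨m, h2, by omega⟩
  refine ⟨Nat.nth fun n => z n = true, Nat.nth_strictMono hinf, fun j => ?_⟩
  have h1 := Nat.range_nth_of_infinite hinf
  constructor
  · intro h
    have h2 : j ∈ range (Nat.nth fun n => z n = true) := by rw [h1]; exact h
    exact h2
  · intro h
    have h2 : j ∈ range (Nat.nth fun n => z n = true) := h
    rw [h1] at h2; exact h2

open Classical in
/-- the subset of `g` coded by `x`, with the stem `σ` -/
noncomputable def trf (σ : List Bool) (g : ℕ → ℕ) (x : CS) : CS := fun j =>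
  if j < σ.length then bit σ j else decide (∃ n, g n = j ∧ x n = true)

theorem trf_lt {σ : List Bool} {g : ℕ → ℕ} {x : CS} {j : ℕ} (h : j < σ.length) :
    trf σ g x j = bit σ j := by
  unfold trf; rw [if_pos h]

theorem trf_ge {σ : List Bool} {g : ℕ → ℕ} {x : CS} {j : ℕ} (h : σ.length ≤ j) :
    trf σ g x j = true ↔ ∃ n, g n = j ∧ x n = true := by
  classical
  unfold trf; rw [if_neg (by omega)]
  exact decide_eq_true_iff

theorem measurable_trf (σ : List Bool) (g : ℕ → ℕ) : Measurable (trf σ g) := by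
  refine measurable_pi_iff.2 fun j => measurable_to_bool ?_
  by_cases h : j < σ.length
  · have : (fun x : CS => trf σ g x j) ⁻¹' {true} = {_x | bit σ j = true} := by
      ext x
      simp only [mem_preimage, mem_singleton_iff, mem_ofPred_eq, trf_lt h]
    rw [this]
    exact MeasurableSet.const _
  · have : (fun x : CS => trf σ g x j) ⁻¹' {true} = ⋃ n, ({_x | g n = j} ∩ {x | x n = true}) := by
      ext x
      simp only [mem_preimage, mem_singleton_iff, mem_iUnion, mem_inter_iff, mem_ofPred_eq]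
      exact trf_ge (not_lt.1 h)
    rw [this]
    exact MeasurableSet.iUnion fun n => (MeasurableSet.const _).inter (meas_bitC n true)

/-- the initial segment of length `n` -/
def ini (x : CS) (n : ℕ) : List Bool := (List.range n).map x

theorem ini_length (x : CS) (n : ℕ) : (ini x n).length = n := by simp [ini]

theorem bit_ini {x : CS} {n j : ℕ} (h : j < n) : bit (ini x n) j = x j := by
  unfold bit ini
  rw [List.getD_eq_getElem _ _ (by simpa using h)]
  simp

/-- all elements of `(σ, Y)` are in `A` -/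
def Inn (A : CS → Prop) (σ : List Bool) (Y : CS) : Prop := ∀ x ∈ Bx (σ, Y), A x

theorem Inn.her (A : CS → Prop) : Her (Inn A) := fun _ _ _ h h1 z hz => h z ((le_of_TL h1).bx hz)

theorem Inn.one (A : CS → Prop) (σ : List Bool) (Y : CS)
    (h : ∀ n, σ.length ≤ n → Y n = true → Inn A (snoc σ n) Y) : Inn A σ Y := by
  intro z hz
  obtain ⟨n, h1, h2, h3⟩ := exists_snoc hz
  exact h n h1 h2 z h3

/-- `A` is completely Ramsey -/
def CRam (A : CS → Prop) : Prop := ∀ (σ : List Bool) (X : CS), Infi X →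
  ∃ Y, Infi Y ∧ TL σ.length Y X ∧ (Inn A σ Y ∨ Inn (fun x => ¬ A x) σ Y)

theorem Rej.of_snoc {A : CS → Prop} {τ : List Bool} {z : CS}
    (h : ∀ n, τ.length ≤ n → z n = true → Rej {Y | Infi Y} (Inn A) (snoc τ n) z) :
    Rej {Y | Infi Y} (Inn A) τ z := by
  intro Y hY hYz hC
  obtain ⟨n, hn, hYn⟩ := hY τ.length
  refine h n hn (hYz n hn hYn) Y hY (hYz.mono ?_) fun x hx => hC x ((le_snoc hn hYn).bx hx)
  rw [snoc_length hn]; omega

/-- **`Δ` sets are completely Ramsey.** -/
theorem dl_cram (hk : 1 ≤ k) (S : Setup k) (C : CSetup k) {A : CS → Prop} (hA : Dl k CS A) :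
    CRam A := by
  classical
  intro σ X hX
  by_contra hcon
  push Not at hcon
  obtain ⟨z1, hz1, h1, h2, h3⟩ := infi_dec (Inn.her A) (Inn.one A) hX σ.length
  have h4 : ∀ τ, Cmp σ z1 τ → ∀ n, τ.length ≤ n → z1 n = true →
      Rej {Y | Infi Y} (Inn A) (snoc τ n) z1 := by
    rcases h3 σ rfl with h3 | h3
    · exact absurd h3 (hcon z1 hz1 h1).1
    · exact h3
  obtain ⟨z, hz, h5, h6, h7⟩ := infi_dec (Inn.her fun x => ¬ A x) (Inn.one fun x => ¬ A x) hz1 σ.length
  have h8 : ∀ τ, Cmp σ z τ → ∀ n, τ.length ≤ n → z n = true →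
      Rej {Y | Infi Y} (Inn fun x => ¬ A x) (snoc τ n) z := by
    rcases h7 σ rfl with h7 | h7
    · exact absurd h7 (hcon z hz (h5.trans h1)).2
    · exact h7
  have h9 : ∀ τ, Cmp σ z τ → Rej {Y | Infi Y} (Inn A) τ z := by
    intro τ hτ
    refine Rej.of_snoc fun n hn hzn => ?_
    have h10 : Cmp σ z1 τ := ⟨hτ.1, hτ.2.1, fun k hk1 hk2 hk3 => h5 k hk1 (hτ.2.2 k hk1 hk2 hk3)⟩
    refine Rej.her _ _ _ _ _ (h4 τ h10 n hn (h5 n (hτ.1.trans hn) hzn)) (h5.mono ?_)
    rw [snoc_length hn]; have := hτ.1; omega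
  have h9' : ∀ τ, Cmp σ z τ → Rej {Y | Infi Y} (Inn fun x => ¬ A x) τ z := fun τ hτ =>
    Rej.of_snoc (h8 τ hτ)
  obtain ⟨g, hg, hgz⟩ := exists_enum hz
  have hgl : ∀ n, σ.length ≤ g n := by
    intro n
    by_contra hlt
    have := h6 (g n) (not_le.1 hlt)
    rw [(hgz (g n)).2 ⟨n, rfl⟩] at this
    exact absurd this (by simp)
  -- the main step
  have key : ∀ B : CS → Prop, (∀ τ, Cmp σ z τ → Rej {Y | Infi Y} (Inn fun x => ¬ B x) τ z) →
      ∀ s : List Bool, ∀ x ∈ Bx (s, full), ∃ y ∈ Bx (s, full), (∀ j, y j = true → x j = true) ∧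
        B (trf σ g y) := by
    intro B hB s x hx
    obtain ⟨hx1, hx2, -⟩ := hx
    set L := g s.length with hL
    have hsl : σ.length ≤ L := hgl _
    set τ := ini (trf σ g x) L with hτ
    have hτl : τ.length = L := ini_length _ _
    have hcmp : Cmp σ z τ := by
      refine ⟨by rw [hτl]; exact hsl, fun j hj => ?_, fun j hj1 hj2 hj3 => ?_⟩
      · rw [hτ, bit_ini (lt_of_lt_of_le hj hsl), trf_lt hj]
      · rw [hτl] at hj2
        rw [hτ, bit_ini hj2, trf_ge hj1] at hj3
        obtain ⟨n, hn, -⟩ := hj3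
        exact (hgz j).2 ⟨n, hn⟩
    have htx : ∀ n, trf σ g x (g n) = x n := by
      intro n
      rw [Bool.eq_iff_iff, trf_ge (hgl n)]
      constructor
      · rintro ⟨m, hm, hxm⟩
        rw [hg.injective hm] at hxm; exact hxm
      · intro h; exact ⟨n, rfl, h⟩
    have hinfx : Infi (trf σ g x) := by
      intro n
      obtain ⟨m, hm1, hm2⟩ := hx1 n
      exact ⟨g m, hm1.trans (hg.id_le m), by rw [htx, hm2]⟩
    have hTLz : TL τ.length (trf σ g x) z := by
      intro j hj hj2
      rw [hτl] at hj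
      rw [trf_ge (hsl.trans hj)] at hj2
      obtain ⟨n, hn, -⟩ := hj2
      exact (hgz j).2 ⟨n, hn⟩
    have h10 := hB τ hcmp (trf σ g x) hinfx hTLz
    unfold Inn at h10
    push Not at h10
    obtain ⟨w, ⟨hw1, hw2, hw3⟩, hw4⟩ := h10
    simp only [hτl] at hw2 hw3
    have hwσ : ∀ j < σ.length, w j = bit σ j := by
      intro j hj
      rw [hw2 j (lt_of_lt_of_le hj hsl), hτ, bit_ini (lt_of_lt_of_le hj hsl), trf_lt hj]
    have hwx : ∀ j, σ.length ≤ j → w j = true → trf σ g x j = true := by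
      intro j hj hwj
      by_cases hjL : j < L
      · rw [hw2 j hjL, hτ, bit_ini hjL] at hwj; exact hwj
      · exact hw3 j (not_lt.1 hjL) hwj
    have hwz : ∀ j, σ.length ≤ j → w j = true → ∃ n, g n = j := by
      intro j hj hwj
      obtain ⟨n, hn, -⟩ := (trf_ge hj).1 (hwx j hj hwj)
      exact ⟨n, hn⟩
    have hwt : trf σ g (fun n => w (g n)) = w := by
      funext j
      by_cases hj : j < σ.length
      · rw [trf_lt hj, hwσ j hj]
      · rw [Bool.eq_iff_iff, trf_ge (not_lt.1 hj)]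
        constructor
        · rintro ⟨n, rfl, h⟩; exact h
        · intro h
          obtain ⟨n, rfl⟩ := hwz j (not_lt.1 hj) h
          exact ⟨n, rfl, h⟩
    refine ⟨fun n => w (g n), ⟨?_, ?_, fun _ _ _ => rfl⟩, ?_, ?_⟩
    · intro n
      obtain ⟨m, hm1, hm2⟩ := hw1 (max (g n) σ.length)
      obtain ⟨i, rfl⟩ := hwz m ((le_max_right _ _).trans hm1) hm2
      exact ⟨i, hg.le_iff_le.1 ((le_max_left _ _).trans hm1), hm2⟩
    · intro n hn
      simp only at hn ⊢
      rw [hw2 (g n) (hg hn), hτ, bit_ini (hg hn), htx, hx2 n hn]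
    · intro n hn
      have := hwx (g n) (hgl n) hn
      rw [htx] at this; exact this
    · rw [hwt]
      exact hw4
  refine no_undecided hk S C (A := fun x => A (trf σ g x)) (hA.compM (measurable_trf σ g)) ?_ ?_
  · exact key A h9'
  · refine key (fun x => ¬ A x) ?_
    simp only [not_not]
    exact h9

end Pool.Agent.Helper679_PU
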