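import Mathlib
import Pool.Agent.Helper679_PU.Ram9

/-!
`Σ` sets are completely Ramsey.
-/

namespace Pool.Agent.Helper679_PU

open Set MeasureTheory Filter Topology

variable {k : ℕ}

/-- `A` holds for all elements or for no element of `(σ, Y)` -/
def Hom (A : CS → Prop) (σ : List Bool) (Y : CS) : Prop := Inn A σ Y ∨ Inn (fun x => ¬ A x) σ Y

theorem Hom.her (A : CS → Prop) : Her (Hom A) := by
  rintro σ Y Y' (h | h) h1
  · exact Or.inl (Inn.her _ _ _ _ h h1)
  · exact Or.inr (Inn.her _ _ _ _ h h1)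

/-- put the stem `σ` in front of `Y` -/
def stf (σ : List Bool) (Y : CS) : CS := fun j => if j < σ.length then bit σ j else Y j

theorem stf_mem {σ : List Bool} {Y : CS} (h : Infi Y) : stf σ Y ∈ Bx (σ, Y) := by
  refine ⟨fun n => ?_, fun j hj => ?_, fun j hj h1 => ?_⟩
  · obtain ⟨m, h1, h2⟩ := h (max n σ.length)
    refine ⟨m, (le_max_left _ _).trans h1, ?_⟩
    unfold stf
    rw [if_neg (not_lt.2 ((le_max_right _ _).trans h1))]; exact h2
  · unfold stf; exact if_pos hj
  · simp only at hj h1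
    unfold stf at h1
    rw [if_neg (not_lt.2 hj)] at h1; exact h1

/-- **`Σ` sets are completely Ramsey.** -/
theorem sg_cram (hk : 1 ≤ k) (S : Setup k) (C : CSetup k) {A : CS → Prop} (hA : Sg k CS A) :
    CRam A := by
  classical
  intro σ X hX
  by_contra hcon
  push Not at hcon
  -- uniformization
  set P : CS → CS → Prop := fun Y x => ¬ (Infi Y ∧ TL σ.length Y X) ∨ (x ∈ Bx (σ, Y) ∧ A x) with hP
  have hPs : Sg k (CS × CS) fun q => P q.1 q.2 := by
    refine Sg.or (Dl.not (Dl.and ?_ ?_)).1 (Sg.and (Dl.of_meas ?_).1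
      (hA.comp (f := fun q : CS × CS => q.2) continuous_snd))
    · exact Dl.of_meas (measurable_fst meas_infi)
    · refine Dl.of_meas ?_
      have hf : Measurable (fun q : CS × CS => (q.1, X)) := by fun_prop
      exact hf (meas_TL _)
    · have hf : Measurable (fun q : CS × CS => (q.2, q.1)) := by fun_prop
      exact hf (meas_Bx σ)
  have hPt : ∀ Y, ∃ x, P Y x := by
    intro Y
    by_cases h : Infi Y ∧ TL σ.length Y X
    · have h1 := (hcon Y h.1 h.2).2
      unfold Inn at h1
      push Not at h1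
      obtain ⟨x, h2, h3⟩ := h1
      exact ⟨x, Or.inr ⟨h2, h3⟩⟩
    · exact ⟨Y, Or.inl h⟩
  obtain ⟨f, hf1, hf2⟩ := C.select hPs hPt
  have hf3 : ∀ Y, Infi Y → TL σ.length Y X → f Y ∈ Bx (σ, Y) ∧ A (f Y) := by
    intro Y h1 h2
    rcases hf1 Y with h3 | h3
    · exact absurd ⟨h1, h2⟩ h3
    · exact h3
  -- the values of `f` are continuous below some set
  have hfd : ∀ n, Dl k CS fun Y => f Y n = true := by
    intro n
    refine ⟨?_, ?_⟩
    · refine (Sg.exP (P := fun (Y : CS) (x : CS) => f Y = x ∧ x n = true) (hf2.and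
        (Dl.of_meas (measurable_snd (meas_bitC n true))).1)).congr fun Y => ?_
      simp
    · refine (Sg.exP (P := fun (Y : CS) (x : CS) => f Y = x ∧ ¬ x n = true) (hf2.and
        (Dl.of_meas (measurable_snd (meas_bitC n true))).2)).congr fun Y => ?_
      simp
  have hdn : ∀ (m : ℕ) (τ : List Bool) (Y : CS), Infi Y → ∃ Y', Infi Y' ∧ TL τ.length Y' Y ∧
      ∀ n < m, Hom (fun Y => f Y n = true) τ Y' := by
    intro m
    induction m with
    | zero => exact fun τ Y hY => ⟨Y, hY, TL.refl _ _, fun n hn => absurd hn (Nat.not_lt_zero n)⟩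
    | succ m ih =>
      intro τ Y hY
      obtain ⟨Y', h1, h2, h3⟩ := ih τ Y hY
      obtain ⟨Y'', h4, h5, h6⟩ := dl_cram hk S C (hfd m) τ Y' h1
      refine ⟨Y'', h4, h5.trans h2, fun n hn => ?_⟩
      rcases Nat.lt_succ_iff_lt_or_eq.1 hn with h7 | h7
      · exact Hom.her _ _ _ _ (h3 n h7) h5
      · rw [h7]; exact h6
  obtain ⟨z, hz, hz1, hz2, hz3⟩ := infi_diags
    (D := fun τ Y => ∀ n < τ.length, Hom (fun Y => f Y n = true) τ Y)
    (fun τ Y Y' h h1 n hn => Hom.her _ _ _ _ (h n hn) h1)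
    (fun τ Y hY => hdn τ.length τ Y hY) hX σ.length
  -- the part where everything is continuous
  have hval : ∀ n, MeasurableSet {x : CS | x ∈ Bx (σ, z) ∧ f x n = true} := by
    intro n
    have : {x : CS | x ∈ Bx (σ, z) ∧ f x n = true} = {x | x ∈ Bx (σ, z)} ∩
        ⋃ τ ∈ {τ : List Bool | Inn (fun Y => f Y n = true) τ z}, {x | x ∈ Bx (τ, z)} := by
      ext x
      simp only [mem_ofPred_eq, mem_inter_iff, mem_iUnion, exists_prop]
      refine and_congr_right fun hx => ?_
      constructor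
      · intro h
        obtain ⟨m, hm1, hm2⟩ := hx.1 (max n σ.length)
        have hml : σ.length ≤ m := (le_max_right _ _).trans hm1
        have hnm : n ≤ m := (le_max_left _ _).trans hm1
        have hzm : z m = true := hx.2.2 m hml hm2
        have hxτ : x ∈ Bx (ini x (m + 1), z) := by
          refine ⟨hx.1, fun j hj => ?_, fun j hj hxj => ?_⟩
          · simp only [ini_length] at hj
            exact (bit_ini hj).symm
          · simp only [ini_length] at hj
            exact hx.2.2 j (by simp only; omega) hxj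
        have h1 := hz3 (ini x (m + 1)) (Or.inr ⟨m, hzm, ini_length _ _⟩) n
          (by rw [ini_length]; omega)
        rcases h1 with h1 | h1
        · exact ⟨_, h1, hxτ⟩
        · exact absurd h (h1 x hxτ)
      · rintro ⟨τ, h1, h2⟩
        exact h1 x h2
    rw [this]
    have hB : ∀ τ, MeasurableSet {x : CS | x ∈ Bx (τ, z)} := by
      intro τ
      have hf : Measurable (fun x : CS => (x, z)) := by fun_prop
      exact hf (meas_Bx τ)
    exact (hB σ).inter (MeasurableSet.biUnion (Set.to_countable _) fun τ _ => hB τ)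
  -- the image
  set B : CS → Prop := fun y => ∃ x, x ∈ Bx (σ, z) ∧ ∀ n, (f x n = true ↔ y n = true) with hB
  have hBx : MeasurableSet {x : CS | x ∈ Bx (σ, z)} := by
    have hf : Measurable (fun x : CS => (x, z)) := by fun_prop
    exact hf (meas_Bx σ)
  have hB1 : Sig 1 CS {y | B y} := by
    have h1 : MeasurableSet {q : CS × CS | q.2 ∈ Bx (σ, z) ∧ ∀ n, (f q.2 n = true ↔ q.1 n = true)} := by
      have : {q : CS × CS | q.2 ∈ Bx (σ, z) ∧ ∀ n, (f q.2 n = true ↔ q.1 n = true)} =
          {q | q.2 ∈ Bx (σ, z)} ∩ ⋂ n, (({q : CS × CS | q.2 ∈ Bx (σ, z) ∧ f q.2 n = true} ∩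
            {q | q.1 n = true}) ∪ ({q : CS × CS | q.2 ∈ Bx (σ, z) ∧ f q.2 n = true}ᶜ ∩
            {q | q.1 n = true}ᶜ)) := by
        ext q
        simp only [mem_ofPred_eq, mem_inter_iff, mem_iInter, mem_union, mem_compl_iff]
        refine and_congr_right fun hq => forall_congr' fun n => ?_
        tauto
      rw [this]
      refine (measurable_snd hBx).inter (MeasurableSet.iInter fun n => ?_)
      have h2 : MeasurableSet {q : CS × CS | q.2 ∈ Bx (σ, z) ∧ f q.2 n = true} :=
        measurable_snd (hval n)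
      have h3 : MeasurableSet {q : CS × CS | q.1 n = true} := measurable_fst (meas_bitC n true)
      exact (h2.inter h3).union (h2.compl.inter h3.compl)
    have h2 := (sig_one_of_measurable h1).1
    exact Sig.projP h2
  have hBd : Dl k CS B := by
    refine ⟨hB1.mono (by omega), ?_⟩
    have h3 : Sig 2 CS {y | ¬ B y} := by
      refine Sig.compl_succ ?_
      convert hB1 using 1
      ext y; simp
    exact h3.mono (by omega)
  have hBA : ∀ y, B y → A y := by
    rintro y ⟨x, hx, hy⟩
    have h1 : f x = y := by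
      funext n
      rw [Bool.eq_iff_iff]; exact hy n
    rw [← h1]
    exact (hf3 x hx.1 (fun n hn hxn => hz1 n hn (hx.2.2 n hn hxn))).2
  obtain ⟨Y, hY, hYz, hYB⟩ := dl_cram hk S C hBd σ z hz
  rcases hYB with hYB | hYB
  · exact (hcon Y hY (hYz.trans hz1)).1 fun x hx => hBA x (hYB x hx)
  · have h1 := stf_mem (σ := σ) hY
    have h2 : stf σ Y ∈ Bx (σ, z) := (le_of_TL hYz).bx h1
    have h3 := hf3 (stf σ Y) h1.1 (fun n hn hxn => hz1 n hn (h2.2.2 n hn hxn))
    have h4 : f (stf σ Y) ∈ Bx (σ, Y) := by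
      refine ⟨h3.1.1, h3.1.2.1, fun n hn hn2 => ?_⟩
      exact h1.2.2 n hn (h3.1.2.2 n hn hn2)
    exact hYB _ h4 ⟨stf σ Y, h2, fun n => Iff.rfl⟩

end Pool.Agent.Helper679_PU
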