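import Mathlib
import Pool.Agent.Results.MP_7f0c28_lc.Ramsey

/-! Maximal almost disjoint families, following the proof of Schrittesser and Törnquist. -/

namespace Pool.Agent.Helper679_PU

open Set

/-- the set of the elements of `x` -/
def st (x : CS) : Set ℕ := {j | x j = true}

/-- the increasing enumeration -/
noncomputable def en (x : CS) : ℕ → ℕ := Nat.nth fun j => x j = true

open Classical in
/-- the characteristic function of the range of `e` -/
noncomputable def rg (e : ℕ → ℕ) : CS := fun j => decide (j ∈ range e)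

theorem st_rg (e : ℕ → ℕ) : st (rg e) = range e := by
  ext j
  simp [st, rg]

theorem en_mono {x : CS} (hx : (st x).Infinite) : StrictMono (en x) := Nat.nth_strictMono hx

theorem range_en {x : CS} (hx : (st x).Infinite) : range (en x) = st x :=
  Nat.range_nth_of_infinite hx

theorem rg_inf {e : ℕ → ℕ} (he : StrictMono e) : (st (rg e)).Infinite := by
  rw [st_rg]
  exact infinite_range_of_injective he.injective

theorem en_rg {e : ℕ → ℕ} (he : StrictMono e) : en (rg e) = e := by
  have h := range_en (rg_inf he)
  rw [st_rg] at h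
  exact ((en_mono (rg_inf he)).range_inj he).1 h

theorem en_mem {x : CS} (hx : (st x).Infinite) (n : ℕ) : x (en x n) = true := by
  have : en x n ∈ st x := by
    rw [← range_en hx]
    exact mem_range_self n
  exact this

/-- the number of elements of `x` below `m` -/
def cn (x : CS) (m : ℕ) : ℕ := ∑ i ∈ Finset.range m, if x i = true then 1 else 0

theorem cn_eq (x : CS) (m : ℕ) : cn x m = Nat.count (fun j => x j = true) m := by
  rw [Nat.count_eq_card_filter_range, Finset.card_filter]
  rfl

theorem cn_en {x : CS} (hx : (st x).Infinite) (n : ℕ) : cn x (en x n) = n := by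
  rw [cn_eq]
  exact Nat.count_nth_of_infinite hx n

theorem en_cn {x : CS} {m : ℕ} (hm : x m = true) : en x (cn x m) = m := by
  rw [cn_eq]
  exact Nat.nth_count hm

/-- almost all selected points are in `y` -/
def Al (h : ℕ → ℕ → ℕ) (x y : CS) : Prop :=
  ∃ n0, ∀ n ≥ n0, y (h (en x (2 * n)) (en x (2 * n + 1))) = true

/-- the same in terms of counting -/
def Al' (h : ℕ → ℕ → ℕ) (x y : CS) : Prop :=
  ∃ n0, ∀ n, ∀ m k, (n0 ≤ n ∧ x m = true ∧ x k = true ∧ cn x m = 2 * n ∧ cn x k = 2 * n + 1) →
    y (h m k) = true

theorem al_iff {h : ℕ → ℕ → ℕ} {x y : CS} (hx : (st x).Infinite) : Al h x y ↔ Al' h x y := by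
  constructor
  · rintro ⟨n0, hn⟩
    refine ⟨n0, fun n m k ⟨h1, h2, h3, h4, h5⟩ => ?_⟩
    have := hn n h1
    rwa [← h4, en_cn h2, h4, ← h5, en_cn h3] at this
  · rintro ⟨n0, hn⟩
    refine ⟨n0, fun n h1 => ?_⟩
    exact hn n _ _ ⟨h1, en_mem hx _, en_mem hx _, cn_en hx _, cn_en hx _⟩

theorem meas_cn (m : ℕ) : Measurable fun x : CS => cn x m := by
  unfold cn
  refine Finset.measurable_sum _ fun i _ => ?_
  have h0 : Measurable fun x : CS => x i := measurable_pi_apply i
  have h1 : MeasurableSet {x : CS | x i = true} := h0 (measurableSet_singleton true)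
  exact Measurable.ite h1 measurable_const measurable_const

theorem meas_al (h : ℕ → ℕ → ℕ) : MeasurableSet {q : CS × CS | Al' h q.1 q.2} := by
  have hb : ∀ (i : ℕ), Measurable fun q : CS × CS => q.1 i = true := fun i => by
    have h0 : Measurable fun x : CS => x i := measurable_pi_apply i
    have h1 : MeasurableSet {q : CS × CS | q.1 i = true} :=
      (h0.comp measurable_fst) (measurableSet_singleton true)
    exact measurableSet_setOfPred.1 h1
  have hb2 : ∀ (i : ℕ), Measurable fun q : CS × CS => q.2 i = true := fun i => by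
    have h0 : Measurable fun x : CS => x i := measurable_pi_apply i
    have h1 : MeasurableSet {q : CS × CS | q.2 i = true} :=
      (h0.comp measurable_snd) (measurableSet_singleton true)
    exact measurableSet_setOfPred.1 h1
  have hc : ∀ (m n : ℕ), Measurable fun q : CS × CS => cn q.1 m = n := fun m n => by
    have h1 : MeasurableSet {q : CS × CS | cn q.1 m = n} :=
      ((meas_cn m).comp measurable_fst) (measurableSet_singleton n)
    exact measurableSet_setOfPred.1 h1
  refine measurableSet_setOfPred.2 ?_
  unfold Al'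
  refine Measurable.exists fun n0 => Measurable.forall fun n => Measurable.forall fun m =>
    Measurable.forall fun k => ?_
  exact (measurable_const.and ((hb m).and ((hb k).and ((hc m _).and (hc k _))))).imp (hb2 _)

theorem meas_inf : MeasurableSet {x : CS | (st x).Infinite} := by
  have hb : ∀ (i : ℕ), Measurable fun q : CS => q i = true := fun i => by
    have h0 : Measurable fun x : CS => x i := measurable_pi_apply i
    have h1 : MeasurableSet {q : CS | q i = true} := h0 (measurableSet_singleton true)
    exact measurableSet_setOfPred.1 h1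
  have e : {x : CS | (st x).Infinite} = {x : CS | ∀ m : ℕ, ∃ j : ℕ, m < j ∧ x j = true} := by
    ext x
    constructor
    · intro hx m
      obtain ⟨j, hj1, hj2⟩ := Set.Infinite.exists_gt hx m
      exact ⟨j, hj2, hj1⟩
    · intro hx
      refine Set.infinite_of_not_bddAbove ?_
      rintro ⟨b, hb⟩
      obtain ⟨j, hj1, hj2⟩ := hx b
      have := hb hj2
      omega
  rw [e]
  refine measurableSet_setOfPred.2 ?_
  exact Measurable.forall fun m => Measurable.exists fun j => measurable_const.and (hb j)

/-- the points `x` of which almost all selected points are in a member of `A` -/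
def DM (h : ℕ → ℕ → ℕ) (A : Set CS) (B : Set CS) : Set CS :=
  {x | (st x).Infinite ∧ ∃ y, (y ∈ A ∧ y ∈ B) ∧ Al' h x y}

theorem sig_DM {k : ℕ} {h : ℕ → ℕ → ℕ} {A B : Set CS} (hA : Sig (k + 1) CS A)
    (hB : MeasurableSet B) : Sig (k + 1) CS (DM h A B) := by
  have h1 : Sg k CS fun x : CS => (st x).Infinite := (Dl.of_meas meas_inf).1
  have h2 : Sg k (CS × CS) fun q => q.2 ∈ A := Sg.comp (P := fun y => y ∈ A) continuous_snd hA
  have h3 : Sg k (CS × CS) fun q => q.2 ∈ B :=
    (Dl.of_meas (P := fun q : CS × CS => q.2 ∈ B) (measurable_snd hB)).1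
  have h4 : Sg k (CS × CS) fun q => Al' h q.1 q.2 := (Dl.of_meas (meas_al h)).1
  exact h1.and (Sg.exP (P := fun x y => (y ∈ A ∧ y ∈ B) ∧ Al' h x y) ((h2.and h3).and h4))

end Pool.Agent.Helper679_PU
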