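import Pool.Agent.Helper679_PU.Mad1

/-! Maximal almost disjoint families: the combinatorial part. -/

namespace Pool.Agent.Helper679_PU

open Set

/-- `A` is a maximal almost disjoint family of infinite sets of natural numbers -/
structure MadFam (A : Set CS) : Prop where
  inf : ∀ y ∈ A, (st y).Infinite
  ad : ∀ y ∈ A, ∀ y' ∈ A, y ≠ y' → (st y ∩ st y').Finite
  max : ∀ x, (st x).Infinite → ∃ y ∈ A, (st x ∩ st y).Infinite

theorem pick {A : Set CS} (hA : MadFam A) {a : ℕ → CS} (ha : ∀ m, a m ∈ A)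
    (hinj : Function.Injective a) (m k : ℕ) :
    ∃ j, k ≤ j ∧ a m j = true ∧ ∀ i < m, a i j = false := by
  have h1 : (st (a m) \ ⋃ i : Fin m, (st (a m) ∩ st (a i))).Infinite := by
    refine (hA.inf _ (ha m)).sdiff (Set.finite_iUnion fun i => ?_)
    refine hA.ad _ (ha m) _ (ha i) fun h => ?_
    have := hinj h
    have h2 := i.2
    omega
  obtain ⟨j, hj, hjk⟩ := h1.exists_gt k
  refine ⟨j, hjk.le, hj.1, fun i hi => ?_⟩
  by_contra hc
  rw [Bool.not_eq_false] at hc
  exact hj.2 (Set.mem_iUnion.2 ⟨⟨i, hi⟩, hj.1, hc⟩)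

/-- a choice of points -/
structure Pk (A : Set CS) (a : ℕ → CS) (h : ℕ → ℕ → ℕ) : Prop where
  mad : MadFam A
  mem : ∀ m, a m ∈ A
  inj : Function.Injective a
  ge : ∀ m k, k ≤ h m k
  ha : ∀ m k, a m (h m k) = true

variable {A : Set CS} {a : ℕ → CS} {h : ℕ → ℕ → ℕ}

theorem sel_ge (P : Pk A a h) {e : ℕ → ℕ} (he : StrictMono e) (n : ℕ) :
    n ≤ h (e (2 * n)) (e (2 * n + 1)) := by
  have h1 := P.ge (e (2 * n)) (e (2 * n + 1))
  have h2 := he.id_le (2 * n + 1)
  simp only [id] at h2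
  omega

theorem al_uniq (P : Pk A a h) {x y y' : CS} (hx : (st x).Infinite) (hy : y ∈ A) (hy' : y' ∈ A)
    (h1 : Al h x y) (h2 : Al h x y') : y = y' := by
  by_contra hne
  obtain ⟨n1, h1⟩ := h1
  obtain ⟨n2, h2⟩ := h2
  obtain ⟨b, hb⟩ := (P.mad.ad y hy y' hy' hne).bddAbove
  set n := max (max n1 n2) (b + 1) with hn
  have h3 := sel_ge P (en_mono hx) n
  have h4 := hb ⟨h1 n (by omega), h2 n (by omega)⟩
  omega

/-- a subset in the dense class -/
theorem dense (P : Pk A a h) {Y : CS} (hY : (st Y).Infinite) :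
    ∃ x, (st x).Infinite ∧ st x ⊆ st Y ∧ ∃ y ∈ A, Al h x y := by
  classical
  set e := en Y with he
  have hem := en_mono hY
  set s : ℕ → ℕ := fun n => h (e (2 * n)) (e (2 * n + 1)) with hs
  have hsi : (range s).Infinite := by
    refine Set.infinite_of_not_bddAbove ?_
    rintro ⟨b, hb⟩
    have h1 : s (b + 1) ≤ b := hb ⟨_, rfl⟩
    have h2 : b + 1 ≤ s (b + 1) := sel_ge P hem _
    omega
  obtain ⟨y, hy, hyi⟩ := P.mad.max (rg s) (by rw [st_rg]; exact hsi)
  rw [st_rg] at hyi
  set I : Set ℕ := {n | y (s n) = true} with hI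
  have hIi : I.Infinite := by
    intro hf
    refine hyi ((hf.image s).subset ?_)
    rintro j ⟨⟨n, rfl⟩, hj⟩
    exact ⟨n, hj, rfl⟩
  set i : ℕ → ℕ := Nat.nth (· ∈ I) with hi
  have him : StrictMono i := Nat.nth_strictMono hIi
  have hii : ∀ n, i n ∈ I := fun n => Nat.nth_mem_of_infinite hIi n
  set e' : ℕ → ℕ := fun j => e (2 * i (j / 2) + j % 2) with he'
  have hem' : StrictMono e' := by
    refine strictMono_nat_of_lt_succ fun j => ?_
    apply hem
    rcases Nat.even_or_odd' j with ⟨c, rfl | rfl⟩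
    · have e1 : 2 * c / 2 = c := by omega
      have e2 : (2 * c + 1) / 2 = c := by omega
      rw [e1, e2]
      omega
    · have e1 : (2 * c + 1) / 2 = c := by omega
      have e2 : (2 * c + 1 + 1) / 2 = c + 1 := by omega
      rw [e1, e2]
      have := him (show c < c + 1 by omega)
      omega
  refine ⟨rg e', rg_inf hem', ?_, y, hy, 0, fun n _ => ?_⟩
  · rw [st_rg, ← range_en hY]
    rintro j ⟨n, rfl⟩
    exact ⟨_, rfl⟩
  · rw [en_rg hem']
    have e1 : e' (2 * n) = e (2 * i n) := by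
      simp only [he']
      have h5 : 2 * n / 2 = n := by omega
      rw [h5]
      congr 1
      omega
    have e2 : e' (2 * n + 1) = e (2 * i n + 1) := by
      simp only [he']
      have : (2 * n + 1) / 2 = n := by omega
      rw [this]
      congr 1
      omega
    rw [e1, e2]
    exact hii n

/-- omit the first `2 c` elements -/
noncomputable def dr (c : ℕ) (x : CS) : CS := rg fun j => en x (j + 2 * c)

theorem dr_mono {x : CS} (hx : (st x).Infinite) (c : ℕ) : StrictMono fun j => en x (j + 2 * c) := by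
  intro i j hij
  exact en_mono hx (by omega)

theorem dr_al {x y : CS} (hx : (st x).Infinite) (c : ℕ) (hxy : Al h x y) : Al h (dr c x) y := by
  obtain ⟨n0, hn⟩ := hxy
  refine ⟨n0, fun n hn1 => ?_⟩
  rw [dr, en_rg (dr_mono hx c)]
  have := hn (n + c) (by omega)
  have e1 : 2 * (n + c) = 2 * n + 2 * c := by ring
  have e2 : 2 * (n + c) + 1 = 2 * n + 1 + 2 * c := by ring
  rw [e2] at this
  rw [e1] at this
  exact this

/-- the Ramsey property of the relevant sets -/
def RP (h : ℕ → ℕ → ℕ) (A : Set CS) : Prop :=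
  ∀ B : Set CS, MeasurableSet B → ∀ X, (st X).Infinite → ∃ Y, (st Y).Infinite ∧ st Y ⊆ st X ∧
    ((∀ x, (st x).Infinite → st x ⊆ st Y → x ∈ DM h A B) ∨
      (∀ x, (st x).Infinite → st x ⊆ st Y → x ∉ DM h A B))

theorem no_mad (P : Pk A a h) (hR : RP h A) : False := by
  classical
  -- the first set
  obtain ⟨Y0, hY0, -, hY0h⟩ := hR univ MeasurableSet.univ (fun _ => true)
    (by have : st (fun _ => true) = univ := by ext; simp [st]
        rw [this]; exact infinite_univ)
  have hall : ∀ x, (st x).Infinite → st x ⊆ st Y0 → ∃ y ∈ A, Al h x y := by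
    intro x hx hxY
    rcases hY0h with h1 | h1
    · obtain ⟨-, y, ⟨hy, -⟩, hxy⟩ := h1 x hx hxY
      exact ⟨y, hy, (al_iff hx).2 hxy⟩
    · exfalso
      obtain ⟨x', hx', hx'Y, y, hy, hxy⟩ := dense P hY0
      exact h1 x' hx' hx'Y ⟨hx', y, ⟨hy, trivial⟩, (al_iff hx').1 hxy⟩
  -- the decreasing sequence
  have hstep : ∀ (n : ℕ) (X : {X : CS // (st X).Infinite}), ∃ Y : {Y : CS // (st Y).Infinite},
      st Y.1 ⊆ st X.1 ∧
      ((∀ x, (st x).Infinite → st x ⊆ st Y.1 → x ∈ DM h A {y | y n = true}) ∨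
        (∀ x, (st x).Infinite → st x ⊆ st Y.1 → x ∉ DM h A {y | y n = true})) := by
    intro n X
    have hm : MeasurableSet {y : CS | y n = true} := by
      have h0 : Measurable fun x : CS => x n := measurable_pi_apply n
      exact h0 (measurableSet_singleton true)
    obtain ⟨Y, h1, h2, h3⟩ := hR _ hm X.1 X.2
    exact ⟨⟨Y, h1⟩, h2, h3⟩
  choose F hF1 hF2 using hstep
  set Z : ℕ → {X : CS // (st X).Infinite} := fun n => Nat.rec ⟨Y0, hY0⟩ (fun n X => F n X) n with hZ
  have hZs : ∀ n, Z (n + 1) = F n (Z n) := fun n => rfl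
  have hZa : ∀ n m, n ≤ m → st (Z m).1 ⊆ st (Z n).1 := by
    intro n m hnm
    induction m, hnm using Nat.le_induction with
    | base => exact subset_rfl
    | succ m _ ih => rw [hZs]; exact (hF1 m (Z m)).trans ih
  -- the diagonal
  have hnx : ∀ n c, ∃ j, j ∈ st (Z n).1 ∧ c < j := fun n c => (Z n).2.exists_gt c
  choose nx hnx1 hnx2 using hnx
  set p : ℕ → ℕ := fun n => Nat.rec (nx 0 0) (fun n c => nx (n + 1) c) n with hp
  have hpm : StrictMono p := strictMono_nat_of_lt_succ fun n => hnx2 (n + 1) (p n)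
  have hpZ : ∀ n, p n ∈ st (Z n).1 := by
    intro n
    cases n with
    | zero => exact hnx1 0 0
    | succ n => exact hnx1 (n + 1) (p n)
  -- points of subsets of the diagonal
  have hen : ∀ x, (st x).Infinite → st x ⊆ range p → ∀ j, ∃ i ≥ j, en x j = p i := by
    intro x hx hxp j
    have h1 : ∀ j, ∃ i, p i = en x j := fun j => hxp (en_mem hx j)
    choose f hf using h1
    have hfm : StrictMono f := by
      intro i j hij
      have := en_mono hx hij
      rw [← hf, ← hf] at this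
      exact hpm.lt_iff_lt.1 this
    exact ⟨f j, hfm.id_le j, (hf j).symm⟩
  have hpY0 : range p ⊆ st Y0 := by
    rintro j ⟨n, rfl⟩
    exact hZa 0 n (Nat.zero_le n) (hpZ n)
  have hval : ∀ x, (st x).Infinite → st x ⊆ range p → ∀ y ∈ A, Al h x y → ∀ n,
      (y n = true ↔ ∀ x, (st x).Infinite → st x ⊆ st (Z (n + 1)).1 →
        x ∈ DM h A {y | y n = true}) := by
    intro x hx hxp y hy hxy n
    have hd : (st (dr (n + 1) x)).Infinite := rg_inf (dr_mono hx (n + 1))
    have hdZ : st (dr (n + 1) x) ⊆ st (Z (n + 1)).1 := by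
      rw [dr, st_rg]
      rintro j ⟨l, rfl⟩
      obtain ⟨i, hi, h1⟩ := hen x hx hxp (l + 2 * (n + 1))
      show en x (l + 2 * (n + 1)) ∈ _
      rw [h1]
      exact hZa (n + 1) i (by omega) (hpZ i)
    have hda := dr_al hx (n + 1) hxy
    constructor
    · intro hyn
      rw [hZs] at hdZ ⊢
      rcases hF2 n (Z n) with h1 | h1
      · exact h1
      · exact absurd ⟨hd, y, ⟨hy, hyn⟩, (al_iff hd).1 hda⟩ (h1 _ hd hdZ)
    · intro h1
      obtain ⟨-, y', ⟨hy', hyn'⟩, hxy'⟩ := h1 _ hd hdZ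
      have := al_uniq P hd hy hy' hda ((al_iff hd).2 hxy')
      rw [this]
      exact hyn'
  -- the constant value
  obtain ⟨y0, hy0, hpy0⟩ := hall (rg p) (rg_inf hpm) (by rw [st_rg]; exact hpY0)
  have hconst : ∀ x, (st x).Infinite → st x ⊆ range p → Al h x y0 := by
    intro x hx hxp
    obtain ⟨y, hy, hxy⟩ := hall x hx (hxp.trans hpY0)
    have : y = y0 := by
      funext n
      have h1 := hval x hx hxp y hy hxy n
      have h2 := hval (rg p) (rg_inf hpm) (by rw [st_rg]) y0 hy0 hpy0 n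
      exact Bool.eq_iff_iff.2 (h1.trans h2.symm)
    rwa [← this]
  -- a bad subset
  have hbad : ∀ c : ℕ, ∃ q : ℕ × ℕ, c < q.1 ∧ q.1 < q.2 ∧ q.1 ∈ range p ∧ q.2 ∈ range p ∧
      y0 (h q.1 q.2) = false := by
    intro c
    have h1 : ∃ m, c < m ∧ m ∈ range p ∧ a m ≠ y0 := by
      by_contra hcon
      push Not at hcon
      have h2 := hcon (p (c + 1)) (by have := hpm.id_le (c + 1); simp only [id] at this; omega)
        ⟨c + 1, rfl⟩
      have h3 := hcon (p (c + 2)) (by have := hpm.id_le (c + 2); simp only [id] at this; omega)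
        ⟨c + 2, rfl⟩
      have h4 : c + 1 = c + 2 := hpm.injective (P.inj (h2.trans h3.symm))
      omega
    obtain ⟨m, hcm, hmp, hne⟩ := h1
    obtain ⟨b, hb⟩ := (P.mad.ad _ (P.mem m) _ hy0 hne).bddAbove
    refine ⟨(m, p (m + b + 1)), hcm, ?_, hmp, ⟨m + b + 1, rfl⟩, ?_⟩
    · have := hpm.id_le (m + b + 1)
      simp only [id] at this
      show m < p (m + b + 1)
      omega
    · by_contra hc
      rw [Bool.not_eq_false] at hc
      have h2 := hb ⟨P.ha m (p (m + b + 1)), hc⟩
      have h3 := P.ge m (p (m + b + 1))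
      have h4 := hpm.id_le (m + b + 1)
      simp only [id] at h4
      omega
  choose q hq1 hq2 hq3 hq4 hq5 using hbad
  set r : ℕ → ℕ × ℕ := fun n => Nat.rec (q 0) (fun _ c => q c.2) n with hr
  have hrs : ∀ n, ∃ c, r n = q c := by
    intro n
    cases n with
    | zero => exact ⟨0, rfl⟩
    | succ n => exact ⟨(r n).2, rfl⟩
  set e : ℕ → ℕ := fun j => if j % 2 = 0 then (r (j / 2)).1 else (r (j / 2)).2 with he
  have hem : StrictMono e := by
    refine strictMono_nat_of_lt_succ fun j => ?_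
    rcases Nat.even_or_odd' j with ⟨c, rfl | rfl⟩
    · have e1 : 2 * c / 2 = c := by omega
      have e2 : (2 * c + 1) / 2 = c := by omega
      have e3 : 2 * c % 2 = 0 := by omega
      have e4 : ¬ (2 * c + 1) % 2 = 0 := by omega
      simp only [he, e1, e2, e3, e4, if_true, if_false]
      obtain ⟨d, hd⟩ := hrs c
      rw [hd]
      exact hq2 d
    · have e1 : (2 * c + 1) / 2 = c := by omega
      have e2 : (2 * c + 1 + 1) / 2 = c + 1 := by omega
      have e3 : ¬ (2 * c + 1) % 2 = 0 := by omega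
      have e4 : (2 * c + 1 + 1) % 2 = 0 := by omega
      simp only [he, e1, e2, e3, e4, if_true, if_false]
      exact hq1 (r c).2
  have hep : range e ⊆ range p := by
    rintro _ ⟨j, rfl⟩
    obtain ⟨d, hd⟩ := hrs (j / 2)
    simp only [he]
    split_ifs
    · rw [hd]; exact hq3 d
    · rw [hd]; exact hq4 d
  obtain ⟨n0, hn0⟩ := hconst (rg e) (rg_inf hem) (by rw [st_rg]; exact hep)
  have h1 := hn0 n0 le_rfl
  rw [en_rg hem] at h1
  have e1 : e (2 * n0) = (r n0).1 := by
    have e1 : 2 * n0 / 2 = n0 := by omega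
    have e3 : 2 * n0 % 2 = 0 := by omega
    simp only [he, e1, e3, if_true]
  have e2 : e (2 * n0 + 1) = (r n0).2 := by
    have e1 : (2 * n0 + 1) / 2 = n0 := by omega
    have e3 : ¬ (2 * n0 + 1) % 2 = 0 := by omega
    simp only [he, e1, e3, if_false]
  rw [e1, e2] at h1
  obtain ⟨d, hd⟩ := hrs n0
  rw [hd, hq5] at h1
  exact Bool.noConfusion h1

end Pool.Agent.Helper679_PU
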